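import Pool.Agent.Run7.h969.HP.Defs3
import Pool.Agent.Run7.h969.HP.Br

/-!
The branching theorem with closeness in Orlicz spaces, from the h-principle.
-/

set_option autoImplicit false

open MeasureTheory Set Filter Topology
open scoped ContDiff ENNReal ComplexConjugate

namespace Pool.Agent.Run7.h969.HP

open H459R3.NS Pool.Agent.Run7.h782 Pool.Agent.Run7.h782.GD Pool.Agent.Run7.h782.GS
open Pool.Agent.Run7.h782.WS Pool.Agent.Run7.h782.WQ Pool.Agent.Run7.h744.WS
open Pool.Agent.Run7.h969.WS Pool.Agent.Run7.h782.OS Pool.Agent.Run7.h219.OS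
open Pool.Agent.Run7.h219.HP

theorem PathM.shift {m : V} {w : ℝ → V → V} (h : PathM m w) (S : ℝ) :
    PathM m fun t => w (S + t) where
  smooth := h.smooth.comp (by fun_prop : ContDiff ℝ ∞ fun z : ℝ × V => (S + z.1, z.2))
  per := fun t => h.per _
  divfree := fun t => h.divfree _
  mean := fun t => h.mean _

/-- **The branching theorem**, from the piece End and the h-principle. -/
theorem brP (hE : StmEnd) (hF : StmFinal) (hHP : StmHPP) : StmBrP := by
  intro ν hν m c hc h0 Q hQ T₀ hT₀ v hv hlq S hS T hT w hw Φ hΦ ε hε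
  rcases hS.1.eq_or_lt with rfl | hS0
  · -- `S = 0`
    have hR := (hF ν hν c hc Q hQ).1.1 ⟨T₀, hT₀, v, hv, hlq⟩
    obtain ⟨F, u, p, h1, h2, h3, h4, h5, h6, h7, h8⟩ :=
      hHP ν hν T hT m w hw c hc h0 Q hQ hR Φ hΦ ε hε
    exact ⟨F, u, p, h1, fun t ht => absurd (ht.1.trans ht.2) (lt_irrefl _), h2, h3, h4,
      fun i ψ hψ hp => (h5 i ψ hψ hp).1, h6, h7, h8⟩
  · have hv' : VW ν S c v := vw_mono hv hS.2
    have hlq' : ∀ n, InLq S v (2 * Q n) := fun n => inLq_mono hS.2 (hlq n)
    obtain ⟨c', hc', hc0, hR, hdv, hwk⟩ := hE ν hν c hc Q hQ S hS0 v hv' hlq'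
    obtain ⟨F, u, p, h1, h2, h3, h4, h5, h6, h7, h8⟩ :=
      hHP ν hν (T - S) (sub_pos.2 hT) m (fun t => w (S + t)) (hw.shift S) c' hc'
        (fun i => by rw [hc0, h0]) Q hQ hR Φ hΦ ε hε
    refine ⟨F.image fun s => s + S, gl S v u, gl S (fun _ _ => 0) p, ?_, fun t ht => gl_le ht.2.le,
      ?_, ?_, ?_, ?_, ?_, ?_, ?_⟩
    · intro s hs
      rw [Finset.mem_image] at hs
      obtain ⟨r, hr, rfl⟩ := hs
      have := h1 r hr
      exact ⟨by linarith [this.1], by linarith [this.2]⟩
    · have ho : IsOpen ((fun t => t - S) ⁻¹' (Ioi 0 \ (F : Set ℝ))) :=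
        (open_o F).preimage (continuous_id.sub continuous_const)
      have h9 : SolOn ν ((fun t => t - S) ⁻¹' (Ioi 0 \ (F : Set ℝ))) (gl S v u)
          (gl S (fun _ _ => 0) p) :=
        congr_o ho (shift_o S h2) (fun t ht => gl_gt (sub_pos.1 ht.1))
          fun t ht => gl_gt (sub_pos.1 ht.1)
      refine mono_o h9 ?_
      rintro t ⟨ht1, ht2⟩
      have ht1' : S < t := ht1
      refine ⟨mem_Ioi.2 (sub_pos.2 ht1'), fun h10 => ht2 ?_⟩
      rw [Finset.coe_image]
      exact ⟨t - S, h10, by ring⟩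
    · intro T' hT'
      have h9 : S < max T' (S + 1) := (lt_add_one S).trans_le (le_max_right _ _)
      have h10 : VW ν (max T' (S + 1)) c (gl S v u) :=
        gen_vw hS0 (c := c') hv'.meas hv'.sq hdv hwk (fun t ht => gl_le ht.2.le)
          (fun t ht => gl_gt ht) h9 (h3 _ (sub_pos.2 h9))
      exact vw_mono h10 (le_max_left _ _)
    · intro T' hT' n
      have h9 := lint_glue (τ := S) (T := T')
        (H := fun t => (∫⁻ x in cube, ENNReal.ofReal (∑ i, |gl S v u t x i| ^ (2 * Q n)))
          ^ (2 / (2 * Q n)))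
        (H₁ := fun t => (∫⁻ x in cube, ENNReal.ofReal (∑ i, |v t x i| ^ (2 * Q n)))
          ^ (2 / (2 * Q n)))
        (H₂ := fun t => (∫⁻ x in cube, ENNReal.ofReal (∑ i, |u t x i| ^ (2 * Q n)))
          ^ (2 / (2 * Q n)))
        (fun t ht => by simp only [gl_le (a := v) (b := u) ht.2.le])
        (fun t ht => by simp only [gl_gt (a := v) (b := u) ht])
      exact inLq_mono (by linarith : T' ≤ S + T')
        (ne_top_of_le_ne_top (ENNReal.add_ne_top.2 ⟨hlq' n, h4 T' hT' n⟩) h9)
    · intro i ψ hψ hp t₀ ht₀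
      have ht₀' : S < t₀ := ht₀
      refine ContinuousAt.continuousWithinAt ?_
      have h9 : ContinuousAt (fun t => ∫ x in cube, u (t - S) x i * ψ x) t₀ := by
        have h10 : ContinuousAt (fun t => ∫ x in cube, u t x i * ψ x) (t₀ - S) :=
          ((h5 i ψ hψ hp).1).continuousAt (Ioi_mem_nhds (sub_pos.2 ht₀'))
        exact ContinuousAt.comp (g := fun t => ∫ x in cube, u t x i * ψ x)
          (f := fun t => t - S) h10 (by fun_prop)
      refine h9.congr ?_
      filter_upwards [Ioi_mem_nhds ht₀'] with t h10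
      rw [gl_gt h10]
    · intro s hs δ hδ
      have h9 := h6 (s - S) (sub_nonneg.2 hs) δ hδ
      have h10 := tr_right S (s - S)
      rw [sub_add_cancel] at h10
      filter_upwards [h10.eventually h9, self_mem_nhdsWithin] with t h11 h12 x i
      rw [gl_gt (lt_of_le_of_lt hs h12)]
      have h13 := h11 x i
      have e : t - S - (s - S) = t - s := by ring
      rwa [e] at h13
    · obtain ⟨h, hh1, hh2, hh3⟩ := h7
      refine ⟨fun t => h (t - S), fun t => hh1 _, fun t ht x i => ?_, ?_⟩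
      · rw [gl_gt ht.1]
        have h9 := hh2 (t - S) ⟨sub_pos.2 ht.1, by linarith [ht.2]⟩ x i
        have e : S + (t - S) = t := by ring
        rwa [e] at h9
      · rw [lint_shift (S := S) (T := T) (H₂ := fun t => ENNReal.ofReal (Φ (h t)))
          (fun t ht => rfl)]
        exact hh3
    · intro t ht x i
      have h9 : S < t := by linarith
      rw [gl_gt h9]
      exact h8 _ (by linarith) x i

end Pool.Agent.Run7.h969.HP
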