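import Pool.Agent.Run7.h969.HP.Defs
import Pool.Agent.Run7.h782.OS.Defs

/-!
The branching theorem: statements.
-/

set_option autoImplicit false

open MeasureTheory Set Filter Topology
open scoped ContDiff ENNReal ComplexConjugate

namespace Pool.Agent.Run7.h969.HP

open H459R3.NS Pool.Agent.Run7.h782 Pool.Agent.Run7.h782.GD Pool.Agent.Run7.h782.GS
open Pool.Agent.Run7.h782.WS Pool.Agent.Run7.h782.WQ Pool.Agent.Run7.h744.WS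
open Pool.Agent.Run7.h969.WS Pool.Agent.Run7.h782.OS

/-- **Piece End.** The final values `c'` of a very weak solution on `(0, T)` are in the class of
`InitialValues`, and the very weak formulation holds with both end terms. With `χ = 0` near `0` and
`χ = 1` near `T`: `c' k = ∫ χ' e^(-λ (T - t)) (P v)^ k - ∫ χ e^(-λ (T - t)) (P div (v ⊗ v))^ k`; the
first term is smooth, the second one is `P div` of `-∫ χ e^(ν (T - t) Δ) (v ⊗ v) t`. -/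
def StmEnd : Prop := ∀ (ν : ℝ), 0 < ν → ∀ c : Cf, Dis c → ∀ Q : ℕ → ℝ, (∀ n, 1 ≤ Q n) →
  ∀ T : ℝ, 0 < T → ∀ v : ℝ → V → V, VW ν T c v → (∀ n, InLq T v (2 * Q n)) →
  ∃ c' : Cf, Dis c' ∧ c' 0 = c 0 ∧
    (∃ R : Fin 3 → Fin 3 → V → ℝ, Str R ∧ IsDiv R c' ∧
      ∀ n i j, IntegrableOn (fun x => |R i j x| ^ Q n) cube) ∧
    (∀ (η : ℝ → ℝ) (φ : V → ℝ), ContDiff ℝ ∞ η → ContDiff ℝ ∞ φ → Per φ →
      ∫ z in Ioo 0 T ×ˢ cube, η z.1 * ∑ i, v z.1 z.2 i * pd i φ z.2 = 0) ∧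
    ∀ (χ : ℝ → ℝ) (φ : V → V), ContDiff ℝ ∞ χ → ContDiff ℝ ∞ φ → Per φ →
      (∀ x, ∑ i, pd i (fun y => φ y i) x = 0) →
      χ 0 * (∑ i, pr c i (fun x => φ x i)) - χ T * (∑ i, pr c' i (fun x => φ x i))
        + ∫ z in Ioo 0 T ×ˢ cube, wk ν v χ φ z = 0

/-- **The branching theorem.** Every very weak solution `v` on `(0, T₀)` in `⋂ₙ L² L^(2 Q n)`
branches at every time `S ∈ [0, T₀]`: for every smooth path `w`, `T > S`, `q < 2` and `ε > 0` there is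
a global very weak solution `u` with the same initial values, in `⋂ₙ L² L^(2 Q n)`, equal to `v` on
`(0, S)`, smooth after the time `S` except at finitely many times, weakly continuous there, with
`√(t - s) |u t| → 0` as `t ↓ s` for all `s ≥ S`, `ε`-close to `w` in `L^q((S, T); L^∞)` and at most `ε`
for `t ≥ T + ε`. -/
def StmBr : Prop := ∀ (ν : ℝ), 0 < ν → ∀ c : Cf, Dis c → c 0 = 0 → ∀ Q : ℕ → ℝ,
  (∀ n, 1 ≤ Q n) → ∀ T₀ : ℝ, 0 < T₀ → ∀ v : ℝ → V → V, VW ν T₀ c v →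
  (∀ n, InLq T₀ v (2 * Q n)) → ∀ S ∈ Icc 0 T₀, ∀ T : ℝ, S < T → ∀ w : ℝ → V → V, Path w →
  ∀ q ε : ℝ, 0 < q → q < 2 → 0 < ε →
  ∃ (F : Finset ℝ) (u : ℝ → V → V) (p : ℝ → V → ℝ), (∀ s ∈ F, s ∈ Icc S T) ∧
    (∀ t ∈ Ioo 0 S, u t = v t) ∧ SolOn ν (Ioi S \ F) u p ∧ (∀ T', 0 < T' → VW ν T' c u) ∧
    (∀ T', 0 < T' → ∀ n, InLq T' u (2 * Q n)) ∧
    (∀ (i : Fin 3) (ψ : V → ℝ), ContDiff ℝ ∞ ψ → Per ψ →
      ContinuousOn (fun t => ∫ x in cube, u t x i * ψ x) (Ioi S)) ∧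
    (∀ s, S ≤ s → ∀ δ : ℝ, 0 < δ → ∀ᶠ t in 𝓝[>] s, ∀ x i, |u t x i| ≤ δ / Real.sqrt (t - s)) ∧
    ∫⁻ t in Ioo S T, (⨆ x, ⨆ i, ENNReal.ofReal |u t x i - w t x i|) ^ q ≤ ENNReal.ofReal ε ∧
    ∀ t, T + ε ≤ t → ∀ x i, |u t x i| ≤ ε

end Pool.Agent.Run7.h969.HP
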