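import Pool.Agent.Run7.h969.HP.Defs
import Pool.Agent.Run7.h782.GS.P3

/-!
Stability in the sum norm, with a residual. Pieces IntF and PropF.
-/

set_option autoImplicit false

open MeasureTheory Set Filter Topology
open scoped ContDiff ComplexConjugate NNReal

namespace Pool.Agent.Run7.h969.HP

open H459R3.NS Pool.Agent.Run7.h782.GD Pool.Agent.Run7.h782.GS

variable {ν : ℝ} {f : ℝ → Cf}

theorem _root_.Pool.Agent.Run7.h782.GD.FSo.maj {a : ℝ → Cf} (H : FSo ν f a) : Pool.Agent.Run7.h782.GS.Maj a := by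
  intro n T
  obtain ⟨μ, hμ, C, hC⟩ := H.dec
  obtain ⟨D, hD0, hD⟩ := pow_exp_bd (μ := μ / 2) (by positivity) n
  have hC0 : 0 ≤ C := by
    have h5 := (norm_nonneg _).trans (hC 0 le_rfl 0)
    exact nonneg_of_mul_nonneg_left h5 (Real.exp_pos _)
  refine ⟨fun k => D * C * Real.exp (-(μ / 2 * len k)),
    (summable_exp_len (by positivity)).mul_left _, fun t ht k => ?_⟩
  calc (1 + len k) ^ n * ‖a t k‖
      ≤ (D * Real.exp (μ / 2 * len k)) * (C * Real.exp (-(μ * len k))) :=
        mul_le_mul (hD _ (len_nonneg k)) (hC t ht.1 k) (norm_nonneg _) (by positivity)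
    _ = D * C * (Real.exp (μ / 2 * len k) * Real.exp (-(μ * len k))) := by ring
    _ = _ := by
      rw [← Real.exp_add]
      congr 2
      ring

theorem _root_.Pool.Agent.Run7.h782.GD.FSo.lsolF {a : ℝ → Cf} (H : FSo ν f a) : LSolF f ν a where
  zero := H.zero
  herm := H.herm
  div := H.div
  der := H.der
  maj := H.maj

theorem LSolF.cnt {U : ℝ → Cf} (H : LSolF f ν U) : Cnt U :=
  fun k t ht => (H.der t ht k).continuousWithinAt

/-- The equation of the difference of two solutions with the same force. -/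
theorem diff_derF {a U : ℝ → Cf} (ha : LSolF f ν a) (hU : LSolF f ν U) : ∀ t, 0 ≤ t → ∀ k,
    HasDerivWithinAt (fun s => (a s - U s) k) (-(lam ν k : ℂ) • (a t - U t) k
      + (-(nl (a t - U t) (a t) + nl (U t) (a t - U t))) k) (Ici 0) t := by
  intro t ht k
  have h1 := (ha.der t ht k).sub (hU.der t ht k)
  refine h1.congr_deriv ?_
  have hal : L1 (a t) := Maj.l1 ha.maj ht
  have hUl : L1 (U t) := Maj.l1 hU.maj ht
  rw [nl_sub_left hal hUl hal, nl_sub_right hUl hal hUl]
  simp only [Pi.sub_apply, Pi.neg_apply, Pi.add_apply, smul_sub]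
  abel

/-- Stability in the sum norm, with a residual `G`. -/
theorem stab (hν : 0 < ν) {a U G : ℝ → Cf} (haM : Maj a) (hUM : Maj U) (hGM' : Maj G)
    (hac : Cnt a) (hUc : Cnt U) (hGc' : Cnt G)
    (hder : ∀ t, 0 ≤ t → ∀ k, HasDerivWithinAt (fun s => (a s - U s) k)
      (-(lam ν k : ℂ) • (a t - U t) k
        + (-(nl (a t - U t) (a t) + nl (U t) (a t - U t)) + G t) k) (Ici 0) t)
    {s t M : ℝ} (hs : 0 ≤ s) (hst : s ≤ t)
    (hM : ∀ A : Finset K3, ∫ r in s..t, (((∑ k ∈ A, ‖a r k‖) ^ 2 + (∑ k ∈ A, ‖U r k‖) ^ 2) / ν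
      + ∑ k ∈ A, len k * (‖a r k‖ + ‖U r k‖)) ≤ M) :
    N0 (a t - U t) ≤ Real.exp (80 * M) * (N0 (a s - U s) + ∫ r in s..t, N0 (G r)) := by
  have hpi := Real.pi_pos
  set d : ℝ → Cf := fun t => a t - U t with hd
  have hdM : Maj d := haM.sub hUM
  have hdc : Cnt d := hac.sub hUc
  set Gd : ℝ → Cf := fun t => -(nl (d t) (a t) + nl (U t) (d t)) with hGd
  have hGM : Maj Gd := ((hdM.nl haM).add (hUM.nl hdM)).neg
  have hGc : Cnt Gd := ((hdc.nl hac hdM haM).add (hUc.nl hdc hUM hdM)).neg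
  -- the coefficient
  set P : ℝ → ℝ := fun r => N0 (a r) + N0 (U r) with hP
  set Q : ℝ → ℝ := fun r => N1 (a r) + N1 (U r) with hQ
  have hPc : ContinuousOn P (Ici 0) := (haM.cont hac wt_one).add (hUM.cont hUc wt_one)
  have hQc : ContinuousOn Q (Ici 0) := (haM.cont hac wt_len).add (hUM.cont hUc wt_len)
  have hP0 : ∀ r, 0 ≤ P r := fun r => add_nonneg (N0_nonneg _) (N0_nonneg _)
  have hQ0 : ∀ r, 0 ≤ Q r := fun r => add_nonneg (N1_nonneg _) (N1_nonneg _)
  set β : ℝ → ℝ := fun r => 36 * P r ^ 2 / ν + 24 * Real.pi * Q r with hβ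
  have hβc : ContinuousOn β (Ici 0) :=
    ((continuousOn_const.mul (hPc.pow 2)).div_const _).add (continuousOn_const.mul hQc)
  have hβ0 : ∀ r, 0 ≤ β r := fun r => by
    have := hP0 r
    have := hQ0 r
    positivity
  have hN0c : ContinuousOn (fun r => N0 (d r)) (Ici 0) := hdM.cont hdc wt_one
  have hN2c : ContinuousOn (fun r => W (fun k => len k ^ 2) (d r)) (Ici 0) := hdM.cont hdc wt_len2
  set J : ℝ := ∫ r in s..t, N0 (G r) with hJ
  have hNG : ContinuousOn (fun r => N0 (G r)) (Ici 0) := hGM'.cont hGc' wt_one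
  have hJ0 : 0 ≤ J := intervalIntegral.integral_nonneg hst fun r _ => N0_nonneg _
  -- the integral inequality
  have key : ∀ q, s ≤ q → q ≤ t → N0 (d q) ≤ (N0 (d s) + J) + ∫ r in s..q, β r * N0 (d r) := by
    intro q hsq hqt
    have h1 := energy hν.le hdM hdc (hGM.add hGM') (hGc.add hGc') hder wt_one hs hsq
    simp only [W_one_len2] at h1
    have h1' : ∫ r in s..q, W (fun _ => 1) (Gd r + G r)
        ≤ (∫ r in s..q, W (fun _ => 1) (Gd r)) + J := by
      have e1 : ∫ r in s..q, W (fun _ => 1) (Gd r + G r)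
          ≤ ∫ r in s..q, (W (fun _ => 1) (Gd r) + N0 (G r)) := by
        refine intervalIntegral.integral_mono_on hsq
          (ii ((hGM.add hGM').cont (hGc.add hGc') wt_one) hs hsq)
          ((ii (hGM.cont hGc wt_one) hs hsq).add (ii hNG hs hsq)) fun r hr => ?_
        have hr0 := hs.trans hr.1
        have m1 := hGM.l1 hr0
        have m2 := hGM'.l1 hr0
        have e : W (fun _ => 1) (Gd r + G r) = ∑' k, ‖(Gd r + G r) k‖ := N0_eq _
        have e' : W (fun _ => 1) (Gd r) = ∑' k, ‖(Gd r) k‖ := N0_eq _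
        rw [e, e', N0_eq, ← Summable.tsum_add m1 m2]
        exact Summable.tsum_le_tsum (fun k => norm_add_le _ _)
          (Summable.of_nonneg_of_le (fun _ => norm_nonneg _) (fun k => norm_add_le _ _)
            (Summable.add m1 m2)) (Summable.add m1 m2)
      rw [intervalIntegral.integral_add (ii (hGM.cont hGc wt_one) hs hsq) (ii hNG hs hsq)] at e1
      have e2 := intervalIntegral.integral_add_adjacent_intervals (ii hNG hs hsq)
        (ii hNG (hs.trans hsq) hqt)
      have e3 : 0 ≤ ∫ r in q..t, N0 (G r) :=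
        intervalIntegral.integral_nonneg hqt fun r _ => N0_nonneg _
      linarith
    have h2 : ∫ r in s..q, W (fun _ => 1) (Gd r) ≤ ∫ r in s..q,
        (4 * Real.pi ^ 2 * ν * W (fun k => len k ^ 2) (d r) + β r * N0 (d r)) := by
      refine intervalIntegral.integral_mono_on hsq (ii (hGM.cont hGc wt_one) hs hsq)
        (((ii hN2c hs hsq).const_mul _).add (ii (hβc.mul hN0c) hs hsq)) fun r hr => ?_
      have hr0 := hs.trans hr.1
      have l0 := hdM.l1 hr0
      have l1 := hdM.sum wt_len hr0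
      have l2 := hdM.sum wt_len2 hr0
      have a0 := haM.l1 hr0
      have a1 := haM.sum wt_len hr0
      have u0 := hUM.l1 hr0
      have u1 := hUM.sum wt_len hr0
      have g1 : W (fun _ => 1) (Gd r) ≤ N0 (nl (d r) (a r)) + N0 (nl (U r) (d r)) := by
        have m1 := (hdM.nl haM).l1 hr0
        have m2 := (hUM.nl hdM).l1 hr0
        rw [hGd]
        simp only
        rw [W_neg, N0_eq, N0_eq, ← m1.tsum_add m2]
        have e : W (fun _ => 1) (nl (d r) (a r) + nl (U r) (d r))
            = ∑' k, ‖(nl (d r) (a r) + nl (U r) (d r)) k‖ := N0_eq _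
        rw [e]
        exact Summable.tsum_le_tsum (fun k => norm_add_le _ _) (m1.add m2) (Summable.add m1 m2)
      have g2 := N0_nl_le l0 a0 l1 a1
      have g3 := N0_nl_le u0 l0 u1 l1
      have n0 := N0_nonneg (d r)
      -- Young's inequality
      have g4 : 24 * Real.pi * (P r * N1 (d r))
          ≤ 4 * Real.pi ^ 2 * ν * W (fun k => len k ^ 2) (d r) + 36 * P r ^ 2 / ν * N0 (d r) := by
        rw [N0_eq, N1, W, W, ← tsum_mul_left, ← tsum_mul_left, ← tsum_mul_left, ← tsum_mul_left,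
          ← (l2.mul_left _).tsum_add (Summable.mul_left _ l0)]
        refine Summable.tsum_le_tsum (fun k => ?_) ((l1.mul_left _).mul_left _)
          ((l2.mul_left _).add (Summable.mul_left _ l0))
        have y1 : 24 * Real.pi * P r * len k
            ≤ 4 * Real.pi ^ 2 * ν * len k ^ 2 + 36 * P r ^ 2 / ν := by
          have y2 : 0 ≤ (2 * Real.pi * ν * len k - 6 * P r) ^ 2 / ν := by positivity
          have y3 : (2 * Real.pi * ν * len k - 6 * P r) ^ 2 / ν
              = 4 * Real.pi ^ 2 * ν * len k ^ 2 + 36 * P r ^ 2 / ν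
                - 24 * Real.pi * P r * len k := by
            field_simp
            ring
          linarith
        have y4 := mul_le_mul_of_nonneg_right y1 (norm_nonneg (d r k))
        calc 24 * Real.pi * (P r * (len k * ‖d r k‖))
            = 24 * Real.pi * P r * len k * ‖d r k‖ := by ring
          _ ≤ _ := y4
          _ = _ := by ring
      calc W (fun _ => 1) (Gd r) ≤ N0 (nl (d r) (a r)) + N0 (nl (U r) (d r)) := g1
        _ ≤ 24 * Real.pi * (N1 (d r) * N0 (a r) + N0 (d r) * N1 (a r))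
            + 24 * Real.pi * (N1 (U r) * N0 (d r) + N0 (U r) * N1 (d r)) := add_le_add g2 g3
        _ = 24 * Real.pi * (P r * N1 (d r)) + 24 * Real.pi * Q r * N0 (d r) := by
            rw [hP, hQ]
            ring
        _ ≤ _ := by
            rw [hβ]
            simp only
            linarith
    have i2 : IntervalIntegrable (fun r => β r * N0 (d r)) volume s q :=
      ii (hβc.mul hN0c) hs hsq
    rw [intervalIntegral.integral_add ((ii hN2c hs hsq).const_mul _) i2,
      intervalIntegral.integral_const_mul] at h2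
    have e1 : W (fun _ => 1) (d q) = N0 (d q) := rfl
    have e2 : W (fun _ => 1) (d s) = N0 (d s) := rfl
    rw [e1, e2] at h1
    linarith
  -- Gronwall
  have hsh : ∀ x : ℝ, s + max x 0 ∈ Ici (0 : ℝ) := fun x =>
    mem_Ici.2 (add_nonneg hs (le_max_right _ _))
  have hshc : Continuous fun x : ℝ => s + max x 0 := by fun_prop
  have hint : ∀ (f : ℝ → ℝ) (x : ℝ), 0 ≤ x →
      ∫ q in (0 : ℝ)..x, f (s + max q 0) = ∫ r in s..(s + x), f r := by
    intro f x hx
    have e : ∫ q in (0 : ℝ)..x, f (s + max q 0) = ∫ q in (0 : ℝ)..x, f (s + q) := by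
      refine intervalIntegral.integral_congr fun q hq => ?_
      rw [uIcc_of_le hx] at hq
      simp only [max_eq_left hq.1]
    rw [e, intervalIntegral.integral_comp_add_left, add_zero]
  have hgr := gronwall (y := fun x => N0 (d (s + max x 0))) (b := fun x => β (s + max x 0))
    (c := N0 (d s) + J) (T := t - s) (hN0c.comp_continuous hshc hsh) (hβc.comp_continuous hshc hsh)
    (fun x _ => hβ0 _) (fun x hx hxT => by
      have h1 := key (s + x) (by linarith) (by linarith)
      have h2 := hint (fun r => β r * N0 (d r)) x hx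
      rw [h2, max_eq_left hx]
      exact h1) (t - s) (by linarith) le_rfl
  have h1 : N0 (d t) ≤ (N0 (d s) + J) * Real.exp (∫ r in s..t, β r) := by
    have h2 := key t hst le_rfl
    have h3 := hint (fun r => β r * N0 (d r)) (t - s) (by linarith)
    have h4 := hint β (t - s) (by linarith)
    have e : s + (t - s) = t := by ring
    rw [e] at h3 h4
    rw [h3, h4] at hgr
    exact h2.trans hgr
  -- the coefficient is bounded by the hypothesis
  have h5 : ∫ r in s..t, β r ≤ 80 * M := by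
    refine le_of_forall_pos_le_add fun ε hε => ?_
    -- bounds on the interval
    obtain ⟨D, hD⟩ : ∃ D : ℝ, ∀ r ∈ Icc 0 t, P r ≤ D := by
      obtain ⟨D, hD⟩ := (isCompact_Icc.bddAbove_image
        (hPc.mono (Icc_subset_Ici_self : Icc 0 t ⊆ Ici 0)))
      exact ⟨D, fun r hr => hD ⟨r, hr, rfl⟩⟩
    have ht0 : 0 ≤ t := hs.trans hst
    have hD0 : 0 ≤ D := (hP0 0).trans (hD 0 ⟨le_rfl, ht0⟩)
    set σ : ℝ := min 1 (ε / (80 * (t - s + 1) * ((2 * (2 * D + 1)) / ν + 2))) with hσ
    have hts : 0 ≤ t - s := sub_nonneg.2 hst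
    have hσ0 : 0 < σ := by positivity
    have hσ1 : σ ≤ 1 := min_le_left _ _
    obtain ⟨A', hA⟩ := ((haM.tail wt_one t hσ0).and ((hUM.tail wt_one t hσ0).and
      ((haM.tail wt_len t hσ0).and (hUM.tail wt_len t hσ0)))).exists
    obtain ⟨hA1, hA2, hA3, hA4⟩ := hA
    set Y : ℝ → ℝ := fun r => ((∑ k ∈ A', ‖a r k‖) ^ 2 + (∑ k ∈ A', ‖U r k‖) ^ 2) / ν
      + ∑ k ∈ A', len k * (‖a r k‖ + ‖U r k‖) with hY
    have hYc : ContinuousOn Y (Ici 0) := by
      refine ContinuousOn.add (ContinuousOn.div_const (ContinuousOn.add ?_ ?_) _) ?_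
      · exact (continuousOn_finsetSum _ fun k _ => (hac k).norm).pow 2
      · exact (continuousOn_finsetSum _ fun k _ => (hUc k).norm).pow 2
      · exact continuousOn_finsetSum _ fun k _ =>
          continuousOn_const.mul ((hac k).norm.add (hUc k).norm)
    have hY1 := hM A'
    have hle : ∀ r ∈ Icc s t, β r ≤ 80 * Y r + 80 * (σ * ((2 * (2 * D + 1)) / ν + 2)) := by
      intro r hr
      have hr' : r ∈ Icc 0 t := ⟨hs.trans hr.1, hr.2⟩
      have b1 := hA1 r hr'
      have b2 := hA2 r hr'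
      have b3 := hA3 r hr'
      have b4 := hA4 r hr'
      simp only [one_mul] at b1 b2
      set xa := ∑ k ∈ A', ‖a r k‖ with hxa
      set xu := ∑ k ∈ A', ‖U r k‖ with hxu
      have e1 : W (fun _ => 1) (a r) = N0 (a r) := rfl
      have e2 : W (fun _ => 1) (U r) = N0 (U r) := rfl
      have e3 : W len (a r) = N1 (a r) := rfl
      have e4 : W len (U r) = N1 (U r) := rfl
      rw [e1] at b1
      rw [e2] at b2
      rw [e3] at b3
      rw [e4] at b4
      have xa0 : 0 ≤ xa := Finset.sum_nonneg fun k _ => norm_nonneg _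
      have xu0 : 0 ≤ xu := Finset.sum_nonneg fun k _ => norm_nonneg _
      have c1 := hD r hr'
      have n1 := N0_nonneg (a r)
      have n2 := N0_nonneg (U r)
      have c2 : xa ≤ N0 (a r) := sum_le_N0 (haM.l1 hr'.1) A'
      have c3 : xu ≤ N0 (U r) := sum_le_N0 (hUM.l1 hr'.1) A'
      have c1' : N0 (a r) + N0 (U r) ≤ D := c1
      have q1 : P r ^ 2 ≤ 2 * (xa ^ 2 + xu ^ 2) + 2 * σ * (2 * D + 1) := by
        have r1 : P r ≤ xa + xu + 2 * σ := by
          show N0 (a r) + N0 (U r) ≤ _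
          linarith
        have r2 : P r ^ 2 ≤ (xa + xu + 2 * σ) ^ 2 := pow_le_pow_left₀ (hP0 r) r1 2
        have r3 : xa + xu ≤ D := by linarith
        have r4 : 0 ≤ σ * (D - (xa + xu)) := mul_nonneg hσ0.le (by linarith)
        have r5 : σ * σ ≤ σ * 1 := mul_le_mul_of_nonneg_left hσ1 hσ0.le
        nlinarith [sq_nonneg (xa - xu), mul_nonneg hσ0.le hD0]
      have q2 : Q r ≤ ∑ k ∈ A', len k * (‖a r k‖ + ‖U r k‖) + 2 * σ := by
        show N1 (a r) + N1 (U r) ≤ _
        simp only [mul_add, Finset.sum_add_distrib]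
        linarith
      have hyl : 0 ≤ ∑ k ∈ A', len k * (‖a r k‖ + ‖U r k‖) :=
        Finset.sum_nonneg fun k _ => mul_nonneg (len_nonneg k) (by positivity)
      have q3 : 36 * P r ^ 2 / ν ≤ 80 * ((xa ^ 2 + xu ^ 2) / ν) + 80 * (σ * (2 * (2 * D + 1) / ν)) := by
        have : 80 * ((xa ^ 2 + xu ^ 2) / ν) + 80 * (σ * (2 * (2 * D + 1) / ν))
            = (80 * (xa ^ 2 + xu ^ 2) + 80 * (σ * (2 * (2 * D + 1)))) / ν := by
          field_simp
        rw [this]
        refine div_le_div_of_nonneg_right ?_ hν.le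
        nlinarith [mul_nonneg hσ0.le hD0, sq_nonneg xa, sq_nonneg xu]
      have q4 : 24 * Real.pi * Q r ≤ 80 * (∑ k ∈ A', len k * (‖a r k‖ + ‖U r k‖)) + 80 * (σ * 2) := by
        have r1 : 24 * Real.pi ≤ 80 := by
          have := Real.pi_lt_d2
          linarith
        calc 24 * Real.pi * Q r ≤ 80 * Q r := mul_le_mul_of_nonneg_right r1 (hQ0 r)
          _ ≤ 80 * (∑ k ∈ A', len k * (‖a r k‖ + ‖U r k‖) + 2 * σ) :=
              mul_le_mul_of_nonneg_left q2 (by norm_num)
          _ = _ := by ring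
      calc β r = 36 * P r ^ 2 / ν + 24 * Real.pi * Q r := rfl
        _ ≤ (80 * ((xa ^ 2 + xu ^ 2) / ν) + 80 * (σ * (2 * (2 * D + 1) / ν)))
            + (80 * (∑ k ∈ A', len k * (‖a r k‖ + ‖U r k‖)) + 80 * (σ * 2)) := add_le_add q3 q4
        _ = _ := by
            rw [hY]
            simp only
            ring
    have h6 : ∫ r in s..t, β r
        ≤ ∫ r in s..t, (80 * Y r + 80 * (σ * ((2 * (2 * D + 1)) / ν + 2))) :=
      intervalIntegral.integral_mono_on hst (ii hβc hs hst)
        (((ii hYc hs hst).const_mul _).add intervalIntegrable_const) hle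
    rw [intervalIntegral.integral_add ((ii hYc hs hst).const_mul _) intervalIntegrable_const,
      intervalIntegral.integral_const_mul, intervalIntegral.integral_const, smul_eq_mul] at h6
    have h7 : (t - s) * (80 * (σ * ((2 * (2 * D + 1)) / ν + 2))) ≤ ε := by
      have r1 : σ ≤ ε / (80 * (t - s + 1) * ((2 * (2 * D + 1)) / ν + 2)) := min_le_right _ _
      rw [le_div_iff₀ (by positivity)] at r1
      have r2 : 0 ≤ 80 * (σ * ((2 * (2 * D + 1)) / ν + 2)) := by positivity
      nlinarith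
    linarith
  have h6 : Real.exp (∫ r in s..t, β r) ≤ Real.exp (80 * M) := Real.exp_le_exp.2 h5
  calc N0 (d t) ≤ (N0 (d s) + J) * Real.exp (∫ r in s..t, β r) := h1
    _ ≤ (N0 (d s) + J) * Real.exp (80 * M) :=
        mul_le_mul_of_nonneg_left h6 (add_nonneg (N0_nonneg _) hJ0)
    _ = _ := mul_comm _ _

/-- **Piece PropF.** -/
theorem propF : StmPropF := by
  refine ⟨80, by norm_num, ?_⟩
  intro f hf ν hν a U ha hU s hs M hM t hst A
  have h := stab (G := fun _ => 0) hν ha.maj hU.maj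
    (fun n T => ⟨0, summable_zero, fun t ht k => by simp⟩) ha.cnt hU.cnt
    (fun k => continuousOn_const) (fun t ht k => by
      rw [add_zero]
      exact diff_derF ha hU t ht k) hs hst (hM t hst)
  have e0 : N0 (0 : Cf) = 0 := by
    rw [N0_eq]
    simp
  have e : ∑' k, ‖a s k - U s k‖ = N0 (a s - U s) := (N0_eq _).symm
  refine (sum_le_N0 ((Maj.sub ha.maj hU.maj).l1 (hs.trans hst)) A).trans ?_
  rw [e]
  simpa [e0] using h

/-- **Piece IntF.** -/
theorem intF : StmIntF := by
  obtain ⟨c, hc, hint⟩ := stmInt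
  refine ⟨c, hc, ?_⟩
  intro f hf ν hν U H ⟨s, hs, hsm⟩
  obtain ⟨T₁, hT₁, hlate⟩ := hf.late
  have hM : Maj U := H.maj
  have hcnt : Cnt U := H.cnt
  have hN0 : ContinuousOn (fun t => N0 (U t)) (Ici 0) := hM.cont hcnt wt_one
  have hN1 : ContinuousOn (fun t => N1 (U t)) (Ici 0) := hM.cont hcnt wt_len
  -- the solution after the time `T₁`
  have hV : LSol ν (fun t => U (t + T₁)) := {
    zero := fun t ht => H.zero _ (by linarith)
    herm := fun t ht => H.herm _ (by linarith)
    div := fun t ht => H.div _ (by linarith)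
    der := fun t ht k => by
      have h1 := H.der (t + T₁) (by linarith) k
      rw [hlate _ (by linarith : T₁ ≤ t + T₁)] at h1
      have h2 : HasDerivWithinAt (fun s => U s k)
          (-(lam ν k : ℂ) • U (t + T₁) k - nl (U (t + T₁)) (U (t + T₁)) k) (Ici 0) (t + T₁) := by
        refine h1.congr_deriv ?_
        simp
      have h4 : HasDerivWithinAt (fun x : ℝ => x + T₁) 1 (Ici 0) t :=
        (hasDerivWithinAt_id t _).add_const T₁
      have h5 := h2.scomp t h4 fun x hx => by
        show 0 ≤ x + T₁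
        have : (0 : ℝ) ≤ x := hx
        linarith
      rw [one_smul] at h5
      exact h5
    maj := fun n T => by
      obtain ⟨A, hA, h⟩ := H.maj n (T + T₁)
      exact ⟨A, hA, fun t ht k => h (t + T₁) ⟨by linarith [ht.1], by linarith [ht.2]⟩ k⟩ }
  have hTg := hint ν hν _ hV ⟨s, hs, fun t ht A => hsm (t + T₁) (by linarith) A⟩
  obtain ⟨M₁, hM₁⟩ := hTg.bd
  obtain ⟨M₂, hM₂⟩ := hTg.int
  obtain ⟨D, hD⟩ : ∃ D : ℝ, ∀ r ∈ Icc 0 T₁, N0 (U r) ≤ D := by
    obtain ⟨D, hD⟩ := (isCompact_Icc.bddAbove_image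
      (hN0.mono (Icc_subset_Ici_self : Icc 0 T₁ ⊆ Ici 0)))
    exact ⟨D, fun r hr => hD ⟨r, hr, rfl⟩⟩
  have hM₂0 : 0 ≤ M₂ := by simpa using hM₂ 0 le_rfl ∅
  refine { toLSolF := H, bd := ?_, int := ?_, ev := ?_ }
  · refine ⟨max M₁ D, fun t ht A => ?_⟩
    rcases le_total t T₁ with h | h
    · exact ((sum_le_N0 (hM.l1 ht) A).trans (hD t ⟨ht, h⟩)).trans (le_max_right _ _)
    · have h1 := hM₁ (t - T₁) (by linarith) A
      simp only [sub_add_cancel] at h1
      exact h1.trans (le_max_left _ _)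
  · refine ⟨(∫ r in (0 : ℝ)..T₁, N1 (U r)) + M₂, fun T hT A => ?_⟩
    have hcA : ContinuousOn (fun r => ∑ k ∈ A, len k * ‖U r k‖) (Ici 0) :=
      continuousOn_finsetSum _ fun k _ => continuousOn_const.mul (hcnt k).norm
    have hle : ∀ x, 0 ≤ x → ∫ t in (0 : ℝ)..x, ∑ k ∈ A, len k * ‖U t k‖
        ≤ ∫ t in (0 : ℝ)..x, N1 (U t) := fun x hx =>
      intervalIntegral.integral_mono_on hx (ii hcA le_rfl hx) (ii hN1 le_rfl hx) fun r hr =>
        sum_le_W wt_len (hM.sum wt_len hr.1) A
    rcases le_total T T₁ with h | h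
    · have h2 := intervalIntegral.integral_add_adjacent_intervals (ii hN1 le_rfl hT)
        (ii hN1 hT h)
      have h3 : 0 ≤ ∫ r in T..T₁, N1 (U r) :=
        intervalIntegral.integral_nonneg h fun r _ => N1_nonneg _
      linarith [hle T hT]
    · have h2 := intervalIntegral.integral_add_adjacent_intervals (ii hcA le_rfl hT₁)
        (ii hcA hT₁ h)
      have h3 := hM₂ (T - T₁) (by linarith) A
      have h4 : ∫ t in (0 : ℝ)..(T - T₁), ∑ k ∈ A, len k * ‖U (t + T₁) k‖
          = ∫ t in T₁..T, ∑ k ∈ A, len k * ‖U t k‖ := by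
        rw [intervalIntegral.integral_comp_add_right
          (fun t => ∑ k ∈ A, len k * ‖U t k‖) T₁, zero_add, sub_add_cancel]
      rw [h4] at h3
      linarith [hle T₁ hT₁]
  · intro ε hε
    obtain ⟨s', hs', h⟩ := hTg.ev ε hε
    refine ⟨s' + T₁, by linarith, fun t ht A => ?_⟩
    have h1 := h (t - T₁) (by linarith) A
    simpa only [sub_add_cancel] using h1

end Pool.Agent.Run7.h969.HP
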