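import Pool.Agent.Run7.h969.HP.Smooth
import Pool.Agent.Run7.h308.GS.P5

/-!
Piece LimF: limits of solutions of the forced equation.
-/

set_option autoImplicit false

open MeasureTheory Set Filter Topology
open scoped ContDiff ComplexConjugate

namespace Pool.Agent.Run7.h969.HP

open H459R3.NS Pool.Agent.Run7.h782.GD Pool.Agent.Run7.h782.GS Pool.Agent.Run7.h308.GS

/-- **Piece LimF.** -/
theorem limF : StmLimF := by
  intro f hf ν hν a ε H hε hanti hsum hstep
  have hε0 : Tendsto ε atTop (𝓝 0) := hsum.tendsto_atTop_zero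
  have hsmall : ∀ t : ℝ, 0 < t → ∃ J : ℕ, ε J ≤ t := fun t ht =>
    ((hε0.eventually (gt_mem_nhds ht)).exists).imp fun J hJ => hJ.le
  -- the limit
  have hlim : ∀ t : ℝ, 0 < t → ∀ k, ∃ z : C3, Tendsto (fun j => a j t k) atTop (𝓝 z) := by
    intro t ht k
    obtain ⟨J, hJ⟩ := hsmall t ht
    have hc : CauchySeq fun n => a (n + J) t k := by
      refine cauchySeq_of_dist_le_of_summable (fun n => ε (n + J)) (fun n => ?_)
        ((summable_nat_add_iff J).2 hsum)
      rw [dist_comm, dist_eq_norm]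
      have h1 := hstep (n + J) t ((hanti (Nat.le_add_left J n)).trans hJ) {k}
      rw [Finset.sum_singleton] at h1
      have e : n.succ + J = n + J + 1 := by omega
      rw [e]
      exact h1
    obtain ⟨z, hz⟩ := cauchySeq_tendsto_of_complete hc
    exact ⟨z, (tendsto_add_atTop_iff_nat J).1 hz⟩
  classical
  choose! b hb using hlim
  -- distance to the limit
  have hdist : ∀ j t, 0 < t → ε j ≤ t → ∀ A : Finset K3,
      ∑ k ∈ A, ‖a j t k - b t k‖ ≤ ∑' i, ε (i + j) := by
    intro j t ht0 ht A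
    have h1 : Tendsto (fun m => ∑ k ∈ A, ‖a m t k - a j t k‖) atTop
        (𝓝 (∑ k ∈ A, ‖b t k - a j t k‖)) :=
      tendsto_finsetSum _ fun k _ => ((hb t ht0 k).sub_const _).norm
    have h2 : ∑ k ∈ A, ‖b t k - a j t k‖ ≤ ∑' i, ε (i + j) := by
      refine le_of_tendsto h1 ?_
      filter_upwards [eventually_ge_atTop j] with m hm
      obtain ⟨n, rfl⟩ := Nat.exists_eq_add_of_le hm
      exact step_sum hε hanti hsum hstep ht n A
    refine le_trans (le_of_eq (Finset.sum_congr rfl fun k _ => ?_)) h2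
    exact norm_sub_rev _ _
  -- uniform bounds
  have hbd : ∀ τ : ℝ, 0 < τ → ∃ (J : ℕ) (M : ℝ), ε J ≤ τ ∧ 0 ≤ M ∧ ∀ j, J ≤ j → ∀ t, τ ≤ t →
      ∀ A : Finset K3, ∑ k ∈ A, ‖a j t k‖ ≤ M := by
    intro τ hτ
    obtain ⟨J, hJ⟩ := hsmall τ hτ
    obtain ⟨μ, hμ, C, hC⟩ := (H J).dec
    have hs := (summable_exp_len hμ).mul_left C
    have hC0 : 0 ≤ C := by
      have h := (norm_nonneg _).trans (hC 0 le_rfl 0)
      exact nonneg_of_mul_nonneg_left h (Real.exp_pos _)
    refine ⟨J, ∑' k, C * Real.exp (-(μ * len k)) + ∑' i, ε (i + J), hJ, ?_, ?_⟩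
    · exact add_nonneg (tsum_nonneg fun k => mul_nonneg hC0 (Real.exp_pos _).le)
        (tsum_nonneg fun i => (hε _).le)
    · intro j hj t ht A
      obtain ⟨n, rfl⟩ := Nat.exists_eq_add_of_le hj
      have h1 := step_sum hε hanti hsum hstep (hJ.trans ht) n A
      have h2 : ∑ k ∈ A, ‖a J t k‖ ≤ ∑' k, C * Real.exp (-(μ * len k)) :=
        (Finset.sum_le_sum fun k _ => hC t (hτ.le.trans ht) k).trans
          (hs.sum_le_tsum _ fun k _ => mul_nonneg hC0 (Real.exp_pos _).le)
      have h3 : ∑ k ∈ A, ‖a (J + n) t k‖ ≤ ∑ k ∈ A, ‖a (J + n) t k - a J t k‖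
          + ∑ k ∈ A, ‖a J t k‖ := by
        rw [← Finset.sum_add_distrib]
        refine Finset.sum_le_sum fun k _ => ?_
        have := norm_add_le (a (J + n) t k - a J t k) (a J t k)
        rwa [sub_add_cancel] at this
      linarith
  have hdec : ∀ τ : ℝ, 0 < τ → ∃ μ > 0, ∃ C : ℝ, ∃ J : ℕ, ∀ j, J ≤ j → ∀ t, τ ≤ t →
      ∀ k, ‖a j t k‖ ≤ C * Real.exp (-(μ * len k)) := by
    intro τ hτ
    obtain ⟨J, M, _, _, hM⟩ := hbd (τ / 2) (by positivity)
    obtain ⟨μ, hμ, C, hC⟩ := smoothF f hf ν hν M (τ / 2) (by positivity)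
    refine ⟨μ, hμ, C, J, fun j hj t ht k => ?_⟩
    exact hC (a j) (H j) (τ / 2) (by positivity) (hM j hj) t (by linarith) k
  -- the limit is bounded in the sum norm
  have hbM : ∀ τ : ℝ, 0 < τ → ∃ (J : ℕ) (M : ℝ), ε J ≤ τ ∧ 0 ≤ M ∧ ∀ t, τ ≤ t →
      (∀ j, J ≤ j → L1 (a j t) ∧ ∑' k, ‖a j t k‖ ≤ M) ∧ L1 (b t) ∧ ∑' k, ‖b t k‖ ≤ M := by
    intro τ hτ
    obtain ⟨J, M, hJ, hM0, hM⟩ := hbd τ hτ
    refine ⟨J, M, hJ, hM0, fun t ht => ⟨fun j hj => ?_, ?_⟩⟩
    · have h1 : L1 (a j t) := summable_of_sum_le (fun _ => norm_nonneg _) (hM j hj t ht)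
      exact ⟨h1, Real.tsum_le_of_sum_le (fun _ => norm_nonneg _) (hM j hj t ht)⟩
    · have h2 : ∀ A : Finset K3, ∑ k ∈ A, ‖b t k‖ ≤ M := by
        intro A
        refine le_of_tendsto (f := fun j => ∑ k ∈ A, ‖a j t k‖)
          (tendsto_finsetSum _ fun k _ => (hb t (hτ.trans_le ht) k).norm) ?_
        filter_upwards [eventually_ge_atTop J] with j hj
        exact hM j hj t ht A
      exact ⟨summable_of_sum_le (fun _ => norm_nonneg _) h2,
        Real.tsum_le_of_sum_le (fun _ => norm_nonneg _) h2⟩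
  -- derivative
  have hder : ∀ t : ℝ, 0 < t → ∀ k, HasDerivAt (fun s => b s k)
      (-(lam ν k : ℂ) • b t k - nl (b t) (b t) k + f t k) t := by
    intro t ht k
    obtain ⟨J, M, hJ, hM0, hM⟩ := hbM (t / 2) (by positivity)
    have hopen : IsOpen (Ioi (t / 2)) := isOpen_Ioi
    have htail : Tendsto (fun j => ∑' i, ε (i + j)) atTop (𝓝 0) := tendsto_sum_nat_add ε
    refine hasDerivAt_of_tendstoUniformlyOn (l := atTop) (f := fun j s => a j s k)
      (f' := fun j s => -(lam ν k : ℂ) • a j s k - nl (a j s) (a j s) k + f s k)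
      (g' := fun s => -(lam ν k : ℂ) • b s k - nl (b s) (b s) k + f s k) hopen ?_ ?_ ?_
      (show t ∈ Ioi (t / 2) by rw [mem_Ioi]; linarith)
    · rw [Metric.tendstoUniformlyOn_iff]
      intro e he
      have hK : Tendsto (fun j => (|lam ν k| + 48 * Real.pi * len k * M) * ∑' i, ε (i + j)) atTop
          (𝓝 0) := by
        have := htail.const_mul (|lam ν k| + 48 * Real.pi * len k * M)
        rwa [mul_zero] at this
      filter_upwards [hK.eventually (gt_mem_nhds he), eventually_ge_atTop J] with j hj hjJ s hs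
      have hs' : t / 2 < s := hs
      have hs0 : 0 < s := by linarith
      obtain ⟨h1, h2, h3⟩ := hM s hs'.le
      obtain ⟨h4, h5⟩ := h1 j hjJ
      have hd : ∀ A : Finset K3, ∑ p ∈ A, ‖(a j s - b s) p‖ ≤ ∑' i, ε (i + j) := fun A => by
        have := hdist j s hs0 ((hanti hjJ).trans (hJ.trans hs'.le)) A
        simpa only [Pi.sub_apply] using this
      have hd' : ∑' p, ‖(a j s - b s) p‖ ≤ ∑' i, ε (i + j) :=
        Real.tsum_le_of_sum_le (fun _ => norm_nonneg _) hd
      have h6 := norm_nl_sub_le h4 h2 k hM0 h5 h3 hd'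
      have h7 : ‖a j s k - b s k‖ ≤ ∑' i, ε (i + j) := by
        have := hd {k}
        rw [Finset.sum_singleton] at this
        exact this
      rw [dist_comm, dist_eq_norm]
      have e1 : (-(lam ν k : ℂ) • a j s k - nl (a j s) (a j s) k + f s k)
          - (-(lam ν k : ℂ) • b s k - nl (b s) (b s) k + f s k)
          = -((lam ν k : ℂ) • (a j s k - b s k)) - (nl (a j s) (a j s) k - nl (b s) (b s) k) := by
        rw [smul_sub, neg_smul, neg_smul]
        abel
      refine lt_of_le_of_lt ?_ hj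
      calc ‖(-(lam ν k : ℂ) • a j s k - nl (a j s) (a j s) k + f s k)
          - (-(lam ν k : ℂ) • b s k - nl (b s) (b s) k + f s k)‖
          = ‖-((lam ν k : ℂ) • (a j s k - b s k))
            - (nl (a j s) (a j s) k - nl (b s) (b s) k)‖ := congrArg _ e1
        _ ≤ ‖-((lam ν k : ℂ) • (a j s k - b s k))‖ + ‖nl (a j s) (a j s) k - nl (b s) (b s) k‖ :=
            norm_sub_le _ _
        _ ≤ |lam ν k| * (∑' i, ε (i + j)) + 48 * Real.pi * len k * M * ∑' i, ε (i + j) := by
            refine add_le_add ?_ h6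
            rw [norm_neg, norm_smul, Complex.norm_real, Real.norm_eq_abs]
            exact mul_le_mul_of_nonneg_left h7 (abs_nonneg _)
        _ = (|lam ν k| + 48 * Real.pi * len k * M) * ∑' i, ε (i + j) := by ring
    · refine Eventually.of_forall fun j s hs => ?_
      have hs' : t / 2 < s := hs
      have hs0 : 0 < s := by linarith
      exact ((H j).der s hs0.le k).hasDerivAt (Ici_mem_nhds hs0)
    · intro s hs
      have hs' : t / 2 < s := hs
      have hs0 : 0 < s := by linarith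
      exact hb s hs0 k
  refine ⟨b, fun τ hτ => ?_, hb⟩
  refine ⟨?_, ?_, ?_, ?_, ?_⟩
  · obtain ⟨μ, hμ, C, J, hC⟩ := hdec τ hτ
    refine ⟨μ, hμ, C, fun t ht k => ?_⟩
    refine le_of_tendsto (hb (t + τ) (by linarith) k).norm ?_
    filter_upwards [eventually_ge_atTop J] with j hj
    exact hC j hj (t + τ) (by linarith) k
  · intro t ht
    refine tendsto_nhds_unique (hb (t + τ) (by linarith) 0) ?_
    have : (fun j => a j (t + τ) 0) = fun _ => 0 := by
      funext j
      exact (H j).zero _ (by linarith)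
    rw [this]
    exact tendsto_const_nhds
  · intro t ht k i
    have h1 : Tendsto (fun j => a j (t + τ) (-k) i) atTop (𝓝 (b (t + τ) (-k) i)) :=
      ((continuous_apply i).tendsto _).comp (hb (t + τ) (by linarith) (-k))
    have h2 : Tendsto (fun j => (starRingEnd ℂ) (a j (t + τ) k i)) atTop
        (𝓝 ((starRingEnd ℂ) (b (t + τ) k i))) :=
      (Complex.continuous_conj.tendsto _).comp
        (((continuous_apply i).tendsto _).comp (hb (t + τ) (by linarith) k))
    refine tendsto_nhds_unique h1 ?_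
    refine h2.congr fun j => ?_
    exact ((H j).herm (t + τ) (by linarith) k i).symm
  · intro t ht k
    have h1 : Tendsto (fun j => kd k (a j (t + τ) k)) atTop (𝓝 (kd k (b (t + τ) k))) := by
      unfold kd
      refine tendsto_finsetSum _ fun i _ => ?_
      exact (((continuous_apply i).tendsto _).comp (hb (t + τ) (by linarith) k)).const_mul _
    refine tendsto_nhds_unique h1 ?_
    have : (fun j => kd k (a j (t + τ) k)) = fun _ => 0 := by
      funext j
      exact (H j).div _ (by linarith) k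
    rw [this]
    exact tendsto_const_nhds
  · intro t ht k
    have h1 := hder (t + τ) (by linarith) k
    have h2 := h1.comp_add_const t τ
    exact h2.hasDerivWithinAt

end Pool.Agent.Run7.h969.HP
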