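import Pool.Agent.Run7.h969.HP.Tgt2

/-!
Piece TgtF.
-/

set_option autoImplicit false

open MeasureTheory Set Filter Topology
open scoped ContDiff ComplexConjugate NNReal

namespace Pool.Agent.Run7.h969.HP

open H459R3.NS Pool.Agent.Run7.h782.GD Pool.Agent.Run7.h782.GS

variable {w : ℝ → V → V}

theorem app_t {ν : ℝ} (hw : Path w) (L s τ : ℝ) :
    FApp ν (Bl L) (fun t => ((th τ t : ℝ) : ℂ) • Ga ν w L s t) (va w L s)
      (fun t => ((1 - th τ t : ℝ) : ℂ) • Ga ν w L s t) where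
  zero := zero_Bl L
  suppv := fun t k hk => va_supp w L s t (bl_sub hk)
  suppF := fun t k hk => by
    show ((1 - th τ t : ℝ) : ℂ) • Ga ν w L s t k = 0
    rw [Ga_supp ν w L s t hk, smul_zero]
  suppf := fun t k hk => by
    show ((th τ t : ℝ) : ℂ) • Ga ν w L s t k = 0
    rw [Ga_supp ν w L s t hk, smul_zero]
  contF := fun k => (Continuous.smul (Complex.continuous_ofReal.comp
    (continuous_const.sub (th_cont τ))) (Ga_cont ν hw L s k)).continuousOn
  contf := fun k => Continuous.smul (Complex.continuous_ofReal.comp (th_cont τ))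
    (Ga_cont ν hw L s k)
  hermv := fun t _ => va_herm w L s t
  hermF := fun t _ => (Ga_herm ν w L s t).smul _
  hermf := fun t _ => (Ga_herm ν w L s t).smul _
  divv := fun t _ => va_dv hw L s t
  divF := fun t _ => (Ga_dv ν hw L s t).smul _
  divf := fun t _ => (Ga_dv ν hw L s t).smul _
  der := fun t _ k => by
    refine (va_der hw L s t k).hasDerivWithinAt.congr_deriv ?_
    have e : ((th τ t : ℝ) : ℂ) • Ga ν w L s t k + ((1 - th τ t : ℝ) : ℂ) • Ga ν w L s t k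
        = Ga ν w L s t k := by
      rw [← add_smul]
      push_cast
      rw [add_sub_cancel, one_smul]
    show _ = -(lam ν k : ℂ) • va w L s t k - nl (va w L s t) (va w L s t) k
      + ((th τ t : ℝ) : ℂ) • Ga ν w L s t k + ((1 - th τ t : ℝ) : ℂ) • Ga ν w L s t k
    rw [add_assoc, e, Ga, Pi.add_apply, Pi.add_apply, dis, neg_smul]
    abel

/-- Bounds of continuous norms on compact intervals. -/
theorem bdd_on {g : ℝ → ℝ} {T : ℝ} (hg : ContinuousOn g (Ici 0)) :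
    ∃ D : ℝ, 0 ≤ D ∧ ∀ t ∈ Icc 0 T, g t ≤ D := by
  obtain ⟨D, hD⟩ := (isCompact_Icc (a := (0 : ℝ)) (b := T)).bddAbove_image
    (hg.mono (Icc_subset_Ici_self : Icc 0 T ⊆ Ici 0))
  exact ⟨max D 0, le_max_right _ _, fun t ht => (hD ⟨t, ht, rfl⟩).trans (le_max_left _ _)⟩

theorem sum_sq_le {d : Cf} (h0 : d 0 = 0) (A : Finset K3) :
    (∑ k ∈ A, ‖d k‖) ^ 2 ≤ (∑ k ∈ A, ‖d k‖ / len k) * ∑ k ∈ A, len k * ‖d k‖ := by
  refine Finset.sum_sq_le_sum_mul_sum_of_sq_le_mul A
    (fun k _ => div_nonneg (norm_nonneg _) (len_nonneg k))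
    (fun k _ => mul_nonneg (len_nonneg k) (norm_nonneg _)) fun k _ => ?_
  by_cases hk : k = 0
  · rw [hk, h0]
    simp
  · have := (len_pos hk).ne'
    refine le_of_eq ?_
    field_simp

theorem N0_smul_le {a : Cf} {r : ℝ} (h0 : 0 ≤ r) (h1 : r ≤ 1) (ha : L1 a) :
    N0 ((r : ℂ) • a) ≤ N0 a := by
  rw [N0_eq, N0_eq]
  refine Summable.tsum_le_tsum (fun k => ?_) (ha.smul _) ha
  rw [Pi.smul_apply, norm_smul, Complex.norm_real, Real.norm_of_nonneg h0]
  exact mul_le_of_le_one_left (norm_nonneg _) h1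

theorem N1_tr_le {a : Cf} (ha : Summable fun k => len k * ‖a k‖) (L : ℝ) :
    N1 (tr L a) ≤ N1 a := by
  refine Summable.tsum_le_tsum (fun k => mul_le_mul_of_nonneg_left (norm_tr_le L a k)
    (len_nonneg k)) ?_ ha
  exact Summable.of_nonneg_of_le (fun k => mul_nonneg (len_nonneg k) (norm_nonneg _))
    (fun k => mul_le_mul_of_nonneg_left (norm_tr_le L a k) (len_nonneg k)) ha

/-- **Piece TgtF.** -/
theorem tgtF : StmTgtF := by
  obtain ⟨C₁, hC₁, T1⟩ := t1F
  obtain ⟨c, hc, hint⟩ := intF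
  intro ν hν w hw T ε hT hε
  have hpi := Real.pi_pos
  have hwM : Maj (wc w) := wc_maj hw
  have hwc : Cnt (wc w) := fun k => (wc_cont hw k).continuousOn
  -- bounds of the path
  obtain ⟨M₀, hM₀0, hM₀⟩ := bdd_on (T := T + 2) (hwM.cont hwc wt_one)
  obtain ⟨M₁, hM₁0, hM₁⟩ := bdd_on (T := T + 2) (hwM.cont hwc wt_len)
  have hM₀' : ∀ r ∈ Icc 0 (T + 2), N0 (wc w r) ≤ M₀ := hM₀
  have hM₁' : ∀ r ∈ Icc 0 (T + 2), N1 (wc w r) ≤ M₁ := hM₁
  set L : ℝ := 2 * (M₁ + 1) / ε with hL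
  have hL0 : 0 < L := by positivity
  obtain ⟨MG, hMG0, hMG⟩ := bdd_on (T := T + 2) (g := fun r => ∑ k ∈ Bl L, ‖G₀ ν w L r k‖)
    (continuous_finsetSum _ fun k _ => (G₀_cont ν hw L k).norm).continuousOn
  set K : ℝ := 2 * M₀ ^ 2 with hK
  have hK0 : 0 ≤ K := by positivity
  set M : ℝ := 3 * M₀ ^ 2 / ν + 3 + 2 * M₁ with hM
  set X : ℝ := Real.exp (C₁ * K / ν) with hX
  have hX0 : 0 < X := Real.exp_pos _
  set Y : ℝ := Real.exp (80 * M) with hY
  have hY0 : 0 < Y := Real.exp_pos _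
  -- the time
  set m : ℝ := min ν (c * ν) with hm
  have hm0 : 0 < m := lt_min hν (mul_pos hc hν)
  refine ⟨min (1 / 4) (min (m / (2 * (C₁ * MG * X + 1))) (ε / (4 * (Y * MG + 1)))), ?_, ?_⟩
  · have h1 : 0 ≤ C₁ * MG * X := by positivity
    have h2 : 0 ≤ Y * MG := by positivity
    positivity
  intro τ hτ hττ s hs
  have hτ1 : τ ≤ 1 / 4 := hττ.trans (min_le_left _ _)
  have hτ2 : τ ≤ m / (2 * (C₁ * MG * X + 1)) :=
    hττ.trans ((min_le_right _ _).trans (min_le_left _ _))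
  have hτ3 : τ ≤ ε / (4 * (Y * MG + 1)) :=
    hττ.trans ((min_le_right _ _).trans (min_le_right _ _))
  have hp1 : 0 ≤ C₁ * MG * X := by positivity
  have hp2 : 0 ≤ Y * MG := by positivity
  rw [le_div_iff₀ (by positivity)] at hτ2 hτ3
  set η : ℝ := 2 * τ * MG with hη
  have hη0 : 0 ≤ η := by positivity
  set e₁ : ℝ := C₁ * η * X with he₁
  have he₁0 : 0 ≤ e₁ := by positivity
  have he₁m : e₁ ≤ m := by
    rw [he₁, hη]
    nlinarith
  have he₁ν : e₁ ≤ ν := he₁m.trans (min_le_left _ _)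
  have he₁c : e₁ ≤ c * ν := he₁m.trans (min_le_right _ _)
  have hτY : Y * η ≤ ε / 2 := by
    rw [hη]
    nlinarith
  -- the objects
  set f : ℝ → Cf := fun t => ((th τ t : ℝ) : ℂ) • Ga ν w L s t with hf
  set F : ℝ → Cf := fun t => ((1 - th τ t : ℝ) : ℂ) • Ga ν w L s t with hF
  set v : ℝ → Cf := va w L s with hv
  have hA : FApp ν (Bl L) f v F := app_t hw L s τ
  have hfrc : Frc f := {
    fin := ⟨Bl L, zero_Bl L, fun t k hk => hA.suppf t k hk⟩
    cont := hA.contf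
    herm := fun t => (Ga_herm ν w L s t).smul _
    div := fun t => (Ga_dv ν hw L s t).smul _
    late := ⟨3, by norm_num, fun t ht => by
      rw [hf]
      simp only
      rw [Ga_late ν w L s ht, smul_zero]⟩ }
  have hfτ : ∀ t, t ≤ τ → f t = 0 := fun t ht => by
    rw [hf]
    simp only
    rw [th_zero hτ ht, Complex.ofReal_zero, zero_smul]
  have hFlate : ∀ t, 2 * τ ≤ t → F t = 0 := fun t ht => by
    rw [hF]
    simp only
    rw [th_one hτ ht, sub_self, Complex.ofReal_zero, zero_smul]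
  -- the residual
  have hFb : ∀ t ∈ Icc 0 (2 * τ), ∑ k ∈ Bl L, ‖F t k‖ ≤ MG := by
    intro t ht
    have ht1 : t < 1 := by linarith [ht.2]
    have h1 : ∀ k, ‖F t k‖ ≤ ‖G₀ ν w L (s + t) k‖ := by
      intro k
      show ‖((1 - th τ t : ℝ) : ℂ) • Ga ν w L s t k‖ ≤ _
      rw [Ga_eq ν w L s ht1, norm_smul, Complex.norm_real,
        Real.norm_of_nonneg (by linarith [th_le_one τ t])]
      exact mul_le_of_le_one_left (norm_nonneg _) (by linarith [th_nonneg τ t])
    exact (Finset.sum_le_sum fun k _ => h1 k).trans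
      (hMG (s + t) ⟨by linarith [hs.1, ht.1], by linarith [hs.2, ht.2]⟩)
  have hFm : Maj F := maj_of_supp (fun t _ => hA.suppF t) hA.contF
  have hFN0 : ∀ t, N0 (F t) = ∑ k ∈ Bl L, ‖F t k‖ := fun t => by
    rw [N0_eq]
    exact tsum_eq_sum fun k hk => by rw [hA.suppF t k hk, norm_zero]
  have hFc : ∀ k, Continuous fun t => F t k := fun k =>
    Continuous.smul (Complex.continuous_ofReal.comp (continuous_const.sub (th_cont τ)))
      (Ga_cont ν hw L s k)
  set g : ℝ → ℝ := fun t => ∑ k ∈ Bl L, ‖F t k‖ / len k with hg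
  have hgc : Continuous g := continuous_finsetSum _ fun k _ => (hFc k).norm.div_const _
  have hgη : ∀ T, 0 ≤ T → ∫ t in (0 : ℝ)..T, g t ≤ η := by
    intro T' hT'
    have h1 := int_late hgc.continuousOn (b := 2 * τ) (M := MG) (by positivity) hMG0
      (fun t ht => ?_) (fun t ht => ?_) hT'
    · exact h1
    · refine le_trans (Finset.sum_le_sum fun k hk => ?_) (hFb t ht)
      have hk0 : k ≠ 0 := fun h => zero_Bl L (h ▸ hk)
      exact div_le_self (norm_nonneg _) (one_le_len hk0)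
    · rw [hg]
      simp only
      rw [hFlate t ht]
      simp
  -- the approximate solution
  have hst : ∀ t ∈ Icc (0 : ℝ) 2, s + t ∈ Icc 0 (T + 2) := fun t ht =>
    ⟨by linarith [hs.1, ht.1], by linarith [hs.2, ht.2]⟩
  have hvM : Maj v := maj_of_supp (fun t _ => hA.suppv t) fun k =>
    (va_cont hw L s k).continuousOn
  have hvC : Cnt v := fun k => (va_cont hw L s k).continuousOn
  have hvN0 : ∀ t ∈ Icc (0 : ℝ) 2, N0 (v t) ≤ M₀ := by
    intro t ht
    have h1 := N0_smul_le (chi_nonneg t) (chi_le_one t) (l1_tr L (wc w (s + t)))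
    have h2 := N0_tr_le (hwM.l1 (hst t ht).1) L
    exact (h1.trans h2).trans (hM₀' _ (hst t ht))
  have hvK : ∀ T, 0 ≤ T → ∫ t in (0 : ℝ)..T, (∑ k ∈ Bl L, ‖v t k‖) ^ 2 ≤ K := by
    intro T' hT'
    refine int_late (b := 2) (M := M₀ ^ 2) ?_ (by norm_num) (by positivity) (fun t ht => ?_)
      (fun t ht => ?_) hT'
    · exact ((continuous_finsetSum _ fun k _ => (va_cont hw L s k).norm).pow 2).continuousOn
    · exact pow_le_pow_left₀ (Finset.sum_nonneg fun k _ => norm_nonneg _)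
        ((sum_le_N0 (hvM.l1 ht.1) _).trans (hvN0 t ht)) 2
    · rw [hv, va_late w L s ht]
      simp
  -- the solution
  obtain ⟨a, ha, ha0, haN, haI⟩ := T1 ν hν (Bl L) f v F g K η 3 hA
    (fun t ht => by
      rw [hf]
      simp only
      rw [Ga_late ν w L s ht, smul_zero]) hgc (fun t _ => le_rfl) hgη hvK he₁ν
  have hal : LSolF f ν a := ha.lsolF
  have haM : Maj a := hal.maj
  have haC : Cnt a := hal.cnt
  have hTg : TgF f ν a := by
    refine hint f hfrc ν hν a hal ⟨2, by norm_num, fun t ht A => ?_⟩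
    have h1 := haN t (by linarith) A
    rw [hv, va_late w L s ht] at h1
    simp only [Pi.zero_apply, sub_zero] at h1
    exact h1.trans he₁c
  refine ⟨f, a, hfrc, hfτ, hTg, ?_⟩
  intro t ht A
  have ht0 : 0 ≤ t := ht.1
  have htτ : t ≤ τ := ht.2
  -- the difference
  have hder : ∀ t, 0 ≤ t → ∀ k, HasDerivWithinAt (fun s => (a s - v s) k)
      (-(lam ν k : ℂ) • (a t - v t) k
        + (-(nl (a t - v t) (a t) + nl (v t) (a t - v t)) + -F t) k) (Ici 0) t := by
    intro t ht k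
    have h1 := (hal.der t ht k).sub (hA.der t ht k)
    refine h1.congr_deriv ?_
    have hl1 : L1 (a t) := haM.l1 ht
    have hl2 : L1 (v t) := hvM.l1 ht
    rw [nl_sub_left hl1 hl2 hl1, nl_sub_right hl2 hl1 hl2]
    simp only [Pi.sub_apply, Pi.neg_apply, Pi.add_apply, smul_sub]
    abel
  have hd0 : ∀ r, 0 ≤ r → (a r - v r) 0 = 0 := fun r hr => by
    rw [Pi.sub_apply, ha.zero r hr, hA.suppv r 0 (zero_Bl L), sub_zero]
  have hMM : ∀ A : Finset K3, ∫ r in (0 : ℝ)..t, (((∑ k ∈ A, ‖a r k‖) ^ 2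
      + (∑ k ∈ A, ‖v r k‖) ^ 2) / ν + ∑ k ∈ A, len k * (‖a r k‖ + ‖v r k‖)) ≤ M := by
    intro A
    have hcX : ContinuousOn (fun r => ∑ k ∈ A, len k * ‖a r k - v r k‖) (Ici 0) :=
      continuousOn_finsetSum _ fun k _ => continuousOn_const.mul ((haC k).sub (hvC k)).norm
    have hcY : ContinuousOn (fun r => (((∑ k ∈ A, ‖a r k‖) ^ 2
        + (∑ k ∈ A, ‖v r k‖) ^ 2) / ν + ∑ k ∈ A, len k * (‖a r k‖ + ‖v r k‖))) (Ici 0) := by
      refine ContinuousOn.add (ContinuousOn.div_const (ContinuousOn.add ?_ ?_) _) ?_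
      · exact (continuousOn_finsetSum _ fun k _ => (haC k).norm).pow 2
      · exact (continuousOn_finsetSum _ fun k _ => (hvC k).norm).pow 2
      · exact continuousOn_finsetSum _ fun k _ =>
          continuousOn_const.mul ((haC k).norm.add (hvC k).norm)
    have h1 : ∫ r in (0 : ℝ)..t, (((∑ k ∈ A, ‖a r k‖) ^ 2
        + (∑ k ∈ A, ‖v r k‖) ^ 2) / ν + ∑ k ∈ A, len k * (‖a r k‖ + ‖v r k‖))
        ≤ ∫ r in (0 : ℝ)..t, ((3 * M₀ ^ 2 / ν + 2 * M₁)
          + 3 * ∑ k ∈ A, len k * ‖a r k - v r k‖) := by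
      refine intervalIntegral.integral_mono_on ht0 (ii hcY le_rfl ht0)
        (intervalIntegrable_const.add ((ii hcX le_rfl ht0).const_mul _)) fun r hr => ?_
      have hr2 : r ∈ Icc (0 : ℝ) 2 := ⟨hr.1, by linarith [hr.2]⟩
      set x := ∑ k ∈ A, len k * ‖a r k - v r k‖ with hx
      have hx0 : 0 ≤ x := Finset.sum_nonneg fun k _ => mul_nonneg (len_nonneg k) (norm_nonneg _)
      set y := ∑ k ∈ A, ‖a r k - v r k‖ with hy
      have hy0 : 0 ≤ y := Finset.sum_nonneg fun k _ => norm_nonneg _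
      have b1 : y ^ 2 ≤ ν * x := by
        refine (sum_sq_le (d := a r - v r) (hd0 r hr.1) A).trans ?_
        exact mul_le_mul_of_nonneg_right ((haN r hr.1 A).trans he₁ν) hx0
      have b2 : ∑ k ∈ A, ‖v r k‖ ≤ M₀ := (sum_le_N0 (hvM.l1 hr.1) A).trans (hvN0 r hr2)
      have b20 : 0 ≤ ∑ k ∈ A, ‖v r k‖ := Finset.sum_nonneg fun k _ => norm_nonneg _
      have b3 : ∑ k ∈ A, ‖a r k‖ ≤ ∑ k ∈ A, ‖v r k‖ + y := by
        rw [hy, ← Finset.sum_add_distrib]
        refine Finset.sum_le_sum fun k _ => ?_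
        have := norm_add_le (v r k) (a r k - v r k)
        rwa [add_sub_cancel] at this
      have b30 : 0 ≤ ∑ k ∈ A, ‖a r k‖ := Finset.sum_nonneg fun k _ => norm_nonneg _
      have b4 : ∑ k ∈ A, len k * ‖v r k‖ ≤ M₁ := by
        have c1 : ∑ k ∈ A, len k * ‖v r k‖ ≤ N1 (tr L (wc w (s + r))) := by
          have hr1 : r ≤ 1 := by linarith [hr.2]
          have e1 : v r = tr L (wc w (s + r)) := by
            rw [hv, va, chi_one hr1, Complex.ofReal_one, one_smul]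
          rw [← e1]
          exact sum_le_W wt_len (hvM.sum wt_len hr.1) A
        refine c1.trans ((N1_tr_le (hwM.sum wt_len (hst r hr2).1) L).trans (hM₁' _ (hst r hr2)))
      have b5 : ∑ k ∈ A, len k * (‖a r k‖ + ‖v r k‖)
          ≤ 2 * (∑ k ∈ A, len k * ‖v r k‖) + x := by
        rw [hx, Finset.mul_sum, ← Finset.sum_add_distrib]
        refine Finset.sum_le_sum fun k _ => ?_
        have c1 := norm_add_le (v r k) (a r k - v r k)
        rw [add_sub_cancel] at c1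
        nlinarith [len_nonneg k]
      have b6 : ((∑ k ∈ A, ‖a r k‖) ^ 2 + (∑ k ∈ A, ‖v r k‖) ^ 2) / ν
          ≤ 3 * M₀ ^ 2 / ν + 2 * x := by
        have c1 : (∑ k ∈ A, ‖a r k‖) ^ 2 + (∑ k ∈ A, ‖v r k‖) ^ 2 ≤ 3 * M₀ ^ 2 + 2 * (ν * x) := by
          have c2 : (∑ k ∈ A, ‖a r k‖) ^ 2 ≤ (M₀ + y) ^ 2 :=
            pow_le_pow_left₀ b30 (b3.trans (add_le_add b2 le_rfl)) 2
          have c3 : (∑ k ∈ A, ‖v r k‖) ^ 2 ≤ M₀ ^ 2 := pow_le_pow_left₀ b20 b2 2
          nlinarith [sq_nonneg (M₀ - y)]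
        calc ((∑ k ∈ A, ‖a r k‖) ^ 2 + (∑ k ∈ A, ‖v r k‖) ^ 2) / ν
            ≤ (3 * M₀ ^ 2 + 2 * (ν * x)) / ν := div_le_div_of_nonneg_right c1 hν.le
          _ = _ := by field_simp
      linarith
    rw [intervalIntegral.integral_add intervalIntegrable_const
      ((ii hcX le_rfl ht0).const_mul _), intervalIntegral.integral_const_mul,
      intervalIntegral.integral_const, smul_eq_mul, sub_zero] at h1
    have h2 := haI t ht0 A
    have h3 : e₁ / ν ≤ 1 := (div_le_one hν).2 he₁ν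
    have h4 : t * (3 * M₀ ^ 2 / ν + 2 * M₁) ≤ 3 * M₀ ^ 2 / ν + 2 * M₁ :=
      mul_le_of_le_one_left (by positivity) (by linarith)
    have h5 : ∫ r in (0 : ℝ)..t, ∑ k ∈ A, len k * ‖a r k - v r k‖ ≤ 1 := h2.trans h3
    rw [hM]
    linarith
  have hst := stab (G := fun r => -F r) hν haM hvM hFm.neg haC hvC
    (fun k => (hFc k).neg.continuousOn) hder le_rfl ht0 hMM
  have hN00 : N0 (a 0 - v 0) = 0 := by
    rw [ha0, sub_self, N0_eq]
    simp
  have hJ : ∫ r in (0 : ℝ)..t, N0 (-F r) ≤ η := by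
    have hcN : ContinuousOn (fun r => N0 (-F r)) (Ici 0) := by
      have e : (fun r => N0 (-F r)) = fun r => ∑ k ∈ Bl L, ‖F r k‖ := by
        funext r
        rw [← hFN0 r]
        exact W_neg _ _
      rw [e]
      exact (continuous_finsetSum _ fun k _ => (hFc k).norm).continuousOn
    have h1 : ∫ r in (0 : ℝ)..t, N0 (-F r) ≤ ∫ _ in (0 : ℝ)..t, MG := by
      refine intervalIntegral.integral_mono_on ht0 (ii hcN le_rfl ht0) intervalIntegrable_const
        fun r hr => ?_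
      have e : N0 (-F r) = N0 (F r) := W_neg _ _
      rw [e, hFN0 r]
      exact hFb r ⟨hr.1, by linarith [hr.2]⟩
    rw [intervalIntegral.integral_const, smul_eq_mul, sub_zero] at h1
    rw [hη]
    nlinarith
  rw [hN00, zero_add] at hst
  have h1 : N0 (a t - v t) ≤ ε / 2 :=
    (hst.trans (mul_le_mul_of_nonneg_left hJ hY0.le)).trans hτY
  have ht2 : t ∈ Icc (0 : ℝ) 2 := ⟨ht0, by linarith⟩
  have hsT : s + t ∈ Icc 0 (T + 2) := ⟨by linarith [hs.1], by linarith [hs.2]⟩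
  have h2 : N0 (wc w (s + t) - tr L (wc w (s + t))) ≤ ε / 2 := by
    refine (N0_sub_tr_le (wc_zero hw _) (hwM.l1 hsT.1) (hwM.sum wt_len hsT.1) hL0).trans ?_
    have h3 := hM₁' _ hsT
    have h4 : L⁻¹ * N1 (wc w (s + t)) ≤ L⁻¹ * (M₁ + 1) :=
      mul_le_mul_of_nonneg_left (by linarith) (by positivity)
    have h5 : L⁻¹ * (M₁ + 1) = ε / 2 := by
      rw [hL]
      field_simp
    linarith
  have e1 : v t = tr L (wc w (s + t)) := by
    rw [hv, va, chi_one (by linarith), Complex.ofReal_one, one_smul]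
  have h3 : ∀ k, ‖a t k - vf (w (s + t)) k‖
      ≤ ‖(a t - v t) k‖ + ‖(wc w (s + t) - tr L (wc w (s + t))) k‖ := by
    intro k
    have h4 : a t k - vf (w (s + t)) k
        = (a t - v t) k - (wc w (s + t) - tr L (wc w (s + t))) k := by
      rw [Pi.sub_apply, Pi.sub_apply, e1]
      show a t k - wc w (s + t) k = _
      abel
    rw [h4]
    exact norm_sub_le _ _
  calc ∑ k ∈ A, ‖a t k - vf (w (s + t)) k‖
      ≤ ∑ k ∈ A, (‖(a t - v t) k‖ + ‖(wc w (s + t) - tr L (wc w (s + t))) k‖) :=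
        Finset.sum_le_sum fun k _ => h3 k
    _ = ∑ k ∈ A, ‖(a t - v t) k‖ + ∑ k ∈ A, ‖(wc w (s + t) - tr L (wc w (s + t))) k‖ :=
        Finset.sum_add_distrib
    _ ≤ N0 (a t - v t) + N0 (wc w (s + t) - tr L (wc w (s + t))) :=
        add_le_add (sum_le_N0 ((haM.sub hvM).l1 ht0) A)
          (sum_le_N0 ((hwM.l1 hsT.1).sub (l1_tr L _)) A)
    _ ≤ ε := by linarith

end Pool.Agent.Run7.h969.HP
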