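import Pool.Agent.Run7.h969.HP.Defs3

/-!
The steering theorem: statements. Every very weak solution can be joined to every other one with the
same mean in an arbitrarily short time; the solution in between is smooth except at a sequence of
times which accumulates only at the end.
-/

set_option autoImplicit false

open MeasureTheory Set Filter Topology
open scoped ContDiff ENNReal ComplexConjugate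

namespace Pool.Agent.Run7.h969.HP

open H459R3.NS Pool.Agent.Run7.h782 Pool.Agent.Run7.h782.GD Pool.Agent.Run7.h782.GS
open Pool.Agent.Run7.h782.WS Pool.Agent.Run7.h782.WQ Pool.Agent.Run7.h744.WS
open Pool.Agent.Run7.h969.WS Pool.Agent.Run7.h782.OS

/-- **Piece RecU** (`StmRecQ`, uniformly). For the admissible `x` (with `I = 0`, `η = 1`) the
supremum of `x j m` is finite and satisfies the hypotheses of `StmRecQ`, so there is a common `A` for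
the exponent `e + 1`; this is enough for `j ≥ J`. For `j < J` take `I = J` and `η` small. -/
def StmRecU : Prop := ∀ (K : ℕ → ℝ) (q : ℝ), 0 < q → (∀ m, 0 ≤ K m) → ∀ e θ : ℝ, 0 < θ →
  ∃ (I : ℕ) (η : ℝ), 0 < η ∧ ∀ η' : ℝ, 0 < η' → η' ≤ η → ∀ I' : ℕ, I ≤ I' →
  ∀ x : ℕ → ℕ → ℝ, (∀ j m, 0 ≤ x j m) → (∀ j m m', m ≤ m' → x j m' ≤ 1 + x j m) →
  (∀ m, m ≤ I' → x 0 m ≤ η') →
  (∀ j m, m ≤ j + I' → x (j + 1) m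
    ≤ K m * (1 / 4 : ℝ) ^ ((j : ℝ) * (1 - q / 2 ^ (m + 1))) * x j (m + 1) + η' * (1 / 4) ^ (j ^ 2)) →
  ∀ j, x j 0 ≤ θ * (1 / 4 : ℝ) ^ (e * j)

/-- **Piece IterU** (`StmIterP` with a bound for the norms in `L² L^(2 Q i)` if the stress is small;
from RecU). Stage `j`: exponents `Q i / 2 ^ m`, `2 Q i` for `i, m ≤ j + I'`, errors at most
`η' (1 / 4) ^ (j ^ 2)`. -/
def StmIterU : Prop := ∀ (ν : ℝ), 0 < ν → ∀ Q : ℕ → ℝ, (∀ n, 1 ≤ Q n) → ∀ (I : ℕ) (θ : ℝ), 0 < θ →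
  ∃ η : ℝ, 0 < η ∧ ∀ f : ℝ → Cf, Frc f → ∀ U : ℝ → Cf, TgF f ν U →
  ∀ (c : Cf) (r : ℕ → Mf), DatQ Q c r → (∀ i, i ≤ I → ∀ m, rp (Q i) (r m - anti (U 0)) ≤ η) →
  ∀ φ : ℝ → ℝ, Gauge φ → ∀ Φ : ℝ → ℝ, Orl Φ → ∀ δ : ℝ, 0 < δ →
  ∃ b : ℝ → Cf, (∀ τ : ℝ, 0 < τ → FSo ν (fun t => f (t + τ)) (fun t => b (t + τ))) ∧
    (∀ k, Tendsto (fun t => b t k) (𝓝[>] 0) (𝓝 (c k))) ∧
    (∃ C : ℝ, ∀ t, 0 < t → t ≤ 1 → ∀ k, ‖b t k‖ ≤ C * (1 + len k) ^ 2) ∧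
    Tendsto (fun t => Real.sqrt t * ∑' k, ‖b t k‖) (𝓝[>] 0) (𝓝 0) ∧
    IntegrableOn (fun t => φ (Real.sqrt t * ∑' k, ‖b t k‖) / t) (Ioc 0 1) ∧
    (∀ n, IntegrableOn (fun t => fp (2 * Q n) (b t) ^ (1 / Q n)) (Ioc 0 1)) ∧
    IntegrableOn (fun t => ∑' k, ‖b t k‖ ^ 2) (Ioc 0 1) ∧
    (∀ t, 0 < t → ∀ A : Finset K3, ∑ k ∈ A, ‖b t k - U t k‖ ≤ δ / Real.sqrt t) ∧
    ∫⁻ t in Ioc (0 : ℝ) 1, ENNReal.ofReal (Φ (∑' k, ‖b t k - U t k‖)) ≤ ENNReal.ofReal δ ∧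
    (∀ t, δ ≤ t → ∀ A : Finset K3, ∑ k ∈ A, ‖b t k - U t k‖ ≤ δ) ∧
    ∀ i, i ≤ I → ∫⁻ t in Ioc (0 : ℝ) 1, ENNReal.ofReal (fp (2 * Q i) (b t - U t) ^ (1 / Q i))
      ≤ ENNReal.ofReal θ

/-- One step in physical space, on an interval slightly larger than `(0, τ]`: the conclusions of
`StmLocP`, and closeness of the coefficients at the times `t ≥ δ`. -/
structure Lc (ν : ℝ) (m : V) (w : ℝ → V → V) (ε s τ : ℝ) (c : Cf) (Q : ℕ → ℝ) (Φ : ℝ → ℝ) (δ : ℝ)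
    (τ' : ℝ) (u : ℝ → V → V) (p : ℝ → V → ℝ) : Prop where
  sol : SolOn ν (Ioo 0 τ') u p
  sq : ∀ i, IntegrableOn (fun z : ℝ × V => u z.1 z.2 i ^ 2) (Ioc 0 τ ×ˢ cube)
  lq : ∀ n, InLq τ u (2 * Q n)
  wa : ∀ (i : Fin 3) (ψ : V → ℝ), ContDiff ℝ ∞ ψ → Per ψ →
    Tendsto (fun t => ∫ x in cube, u t x i * ψ x) (𝓝[>] 0) (𝓝 (pr c i ψ))
  mean : ∀ t ∈ Ioc 0 τ, ∀ i, ∫ x in cube, u t x i = m i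
  loc : ∃ h : ℝ → ℝ, (∀ t ∈ Ioc 0 τ, ∀ x i, |u t x i| ≤ h t) ∧
    Tendsto (fun t => Real.sqrt t * h t) (𝓝[>] 0) (𝓝 0)
  near : ∃ h : ℝ → ℝ, (∀ t, 0 ≤ h t) ∧ (∀ t ∈ Ioc 0 τ, ∀ x i, |u t x i - w (s + t) x i| ≤ ε + h t) ∧
    ∫⁻ t in Ioc 0 τ, ENNReal.ofReal (Φ (h t)) ≤ ENNReal.ofReal δ
  close : ∀ t ∈ Ioc 0 τ, δ ≤ t → ∀ A : Finset K3, ∑ k ∈ A, ‖vf (u t) k - vf (w (s + t)) k‖ ≤ ε + δ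

/-- **Piece LocE** (`StmLocP` with the clause `close`, from IterP). -/
def StmLocE : Prop := ∀ (ν : ℝ), 0 < ν → ∀ (m : V) (w : ℝ → V → V), PathM m w →
  ∀ T ε : ℝ, 0 < T → 0 < ε →
  ∃ τ₀ : ℝ, 0 < τ₀ ∧ ∀ τ, 0 < τ → τ < τ₀ → ∀ s ∈ Icc 0 T, ∀ c : Cf, Herm c → Dv c →
  (∀ i, c 0 i = ((m i : ℝ) : ℂ)) →
  ∀ (R : Fin 3 → Fin 3 → V → ℝ), Str R → IsDiv R c → ∀ Q : ℕ → ℝ, (∀ n, 1 ≤ Q n) →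
  (∀ n i j, IntegrableOn (fun x => |R i j x| ^ Q n) cube) → ∀ Φ : ℝ → ℝ, Orl Φ →
  ∀ δ : ℝ, 0 < δ →
  ∃ (τ' : ℝ) (u : ℝ → V → V) (p : ℝ → V → ℝ), τ < τ' ∧ Lc ν m w ε s τ c Q Φ δ τ' u p

/-- **Piece LocU** (from IterU, TgtF, PhysO). The datum `c` is `w s + P div r` up to `η` in the
absolute sum, `r` is a trigonometric polynomial with `∫ |r| ^ (Q i) ≤ η` for `i ≤ I`. With
`r' m = r + ` truncation of `anti (c - dvr r)`. -/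
def StmLocU : Prop := ∀ (ν : ℝ), 0 < ν → ∀ Q : ℕ → ℝ, (∀ n, 1 ≤ Q n) → ∀ (I : ℕ) (θ : ℝ), 0 < θ →
  ∃ η : ℝ, 0 < η ∧ ∀ (m : V) (w : ℝ → V → V), PathM m w → ∀ T ε : ℝ, 0 < T → 0 < ε →
  ∃ τ₀ : ℝ, 0 < τ₀ ∧ ∀ τ, 0 < τ → τ < τ₀ → ∀ s ∈ Icc 0 T, ∀ c : Cf, Herm c → Dv c →
  (∀ i, c 0 i = ((m i : ℝ) : ℂ)) → (Summable fun k => ‖c k‖) →
  ∀ (Z : Finset K3) (r : Mf), (∀ i j, ∀ k ∉ Z, r i j k = 0) → Sy r →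
  (∀ i, i ≤ I → rp (Q i) r ≤ η) →
  (∀ A : Finset K3, ∑ k ∈ A, ‖c k - vf (w s) k - dvr r k‖ ≤ η) →
  ∀ Φ : ℝ → ℝ, Orl Φ → ∀ δ : ℝ, 0 < δ →
  ∃ (τ' : ℝ) (u : ℝ → V → V) (p : ℝ → V → ℝ), τ < τ' ∧ Lc ν m w ε s τ c Q Φ δ τ' u p ∧
    ∀ i, i ≤ I → ∫⁻ t in Ioo 0 τ, (∫⁻ x in cube, ENNReal.ofReal (∑ j, |u t x j| ^ (2 * Q i)))
      ^ (2 / (2 * Q i)) ≤ ENNReal.ofReal θ

/-- A solution on `(0, τ]` and slightly beyond with finitely many singular times, initial values `c`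
and a smooth final value. -/
structure Pc (ν : ℝ) (Q : ℕ → ℝ) (c : Cf) (τ : ℝ) (F : Finset ℝ) (u : ℝ → V → V)
    (p : ℝ → V → ℝ) : Prop where
  pos : 0 < τ
  mem : ∀ s ∈ F, s ∈ Ico 0 τ
  sol : ∃ τ' : ℝ, τ < τ' ∧ SolOn ν (Ioo 0 τ' \ F) u p
  meas : ∀ i, AEStronglyMeasurable (fun z : ℝ × V => u z.1 z.2 i)
    (volume.restrict (Ioo 0 τ ×ˢ cube))
  sq : ∀ i, IntegrableOn (fun z : ℝ × V => u z.1 z.2 i ^ 2) (Ioo 0 τ ×ˢ cube)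
  lq : ∀ n, InLq τ u (2 * Q n)
  div : ∀ (η : ℝ → ℝ) (φ : V → ℝ), ContDiff ℝ ∞ η → ContDiff ℝ ∞ φ → Per φ →
    ∫ z in Ioo 0 τ ×ˢ cube, η z.1 * ∑ i, u z.1 z.2 i * pd i φ z.2 = 0
  weak : ∀ (χ : ℝ → ℝ) (φ : V → V), ContDiff ℝ ∞ χ → ContDiff ℝ ∞ φ → Per φ →
    (∀ x, ∑ i, pd i (fun y => φ y i) x = 0) →
    χ 0 * (∑ i, pr c i (fun x => φ x i)) - χ τ * (∑ i, pr (vf (u τ)) i (fun x => φ x i))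
      + ∫ z in Ioo 0 τ ×ˢ cube, wk ν u χ φ z = 0
  wc : ∀ (i : Fin 3) (ψ : V → ℝ), ContDiff ℝ ∞ ψ → Per ψ →
    ContinuousOn (fun t => ∫ x in cube, u t x i * ψ x) (Ioc 0 τ)
  wa : ∀ (i : Fin 3) (ψ : V → ℝ), ContDiff ℝ ∞ ψ → Per ψ →
    Tendsto (fun t => ∫ x in cube, u t x i * ψ x) (𝓝[>] 0) (𝓝 (pr c i ψ))
  loc : ∀ s ∈ Ico 0 τ, ∀ δ : ℝ, 0 < δ → ∀ᶠ t in 𝓝[>] s, ∀ x i, |u t x i| ≤ δ / Real.sqrt (t - s)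

/-- **Piece PcL.** From one step. -/
def StmPcL : Prop := ∀ (ν : ℝ), 0 < ν → ∀ (m : V) (w : ℝ → V → V) (ε s τ : ℝ) (c : Cf)
  (Q : ℕ → ℝ) (Φ : ℝ → ℝ) (δ τ' : ℝ) (u : ℝ → V → V) (p : ℝ → V → ℝ), 0 < τ → τ < τ' →
  Lc ν m w ε s τ c Q Φ δ τ' u p → Pc ν Q c τ ∅ u p

/-- **Piece PcG.** From the solutions of the h-principle, cut off at a regular time. -/
def StmPcG : Prop := ∀ (ν : ℝ), 0 < ν → ∀ (Q : ℕ → ℝ), (∀ n, 1 ≤ Q n) → ∀ (c : Cf), Dis c →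
  ∀ (F : Finset ℝ) (u : ℝ → V → V) (p : ℝ → V → ℝ), (∀ s ∈ F, 0 ≤ s) →
  SolOn ν (Ioi 0 \ F) u p → (∀ T', 0 < T' → VW ν T' c u) →
  (∀ T', 0 < T' → ∀ n, InLq T' u (2 * Q n)) →
  (∀ (i : Fin 3) (ψ : V → ℝ), ContDiff ℝ ∞ ψ → Per ψ →
    ContinuousOn (fun t => ∫ x in cube, u t x i * ψ x) (Ioi 0) ∧
    Tendsto (fun t => ∫ x in cube, u t x i * ψ x) (𝓝[>] 0) (𝓝 (pr c i ψ))) →
  (∀ s, 0 ≤ s → ∀ δ : ℝ, 0 < δ → ∀ᶠ t in 𝓝[>] s, ∀ x i, |u t x i| ≤ δ / Real.sqrt (t - s)) →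
  ∀ τ, 0 < τ → τ ∉ F → Pc ν Q c τ (F.filter fun s => s < τ) u p

/-- A very weak solution on `(0, T)` from `c` to `c₁`, smooth except at the times in `F`, which
accumulate only at `T`. -/
structure Rch (ν : ℝ) (Q : ℕ → ℝ) (c c₁ : Cf) (T : ℝ) (F : Set ℝ) (u : ℝ → V → V)
    (p : ℝ → V → ℝ) : Prop where
  mem : F ⊆ Ico 0 T
  fin : ∀ T', T' < T → (F ∩ Iic T').Finite
  sol : SolOn ν (Ioo 0 T \ F) u p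
  meas : ∀ i, AEStronglyMeasurable (fun z : ℝ × V => u z.1 z.2 i)
    (volume.restrict (Ioo 0 T ×ˢ cube))
  sq : ∀ i, IntegrableOn (fun z : ℝ × V => u z.1 z.2 i ^ 2) (Ioo 0 T ×ˢ cube)
  lq : ∀ n, InLq T u (2 * Q n)
  div : ∀ (η : ℝ → ℝ) (φ : V → ℝ), ContDiff ℝ ∞ η → ContDiff ℝ ∞ φ → Per φ →
    ∫ z in Ioo 0 T ×ˢ cube, η z.1 * ∑ i, u z.1 z.2 i * pd i φ z.2 = 0
  weak : ∀ (χ : ℝ → ℝ) (φ : V → V), ContDiff ℝ ∞ χ → ContDiff ℝ ∞ φ → Per φ →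
    (∀ x, ∑ i, pd i (fun y => φ y i) x = 0) →
    χ 0 * (∑ i, pr c i (fun x => φ x i)) - χ T * (∑ i, pr c₁ i (fun x => φ x i))
      + ∫ z in Ioo 0 T ×ˢ cube, wk ν u χ φ z = 0
  wc : ∀ (i : Fin 3) (ψ : V → ℝ), ContDiff ℝ ∞ ψ → Per ψ →
    ContinuousOn (fun t => ∫ x in cube, u t x i * ψ x) (Ioo 0 T)
  wa : ∀ (i : Fin 3) (ψ : V → ℝ), ContDiff ℝ ∞ ψ → Per ψ →
    Tendsto (fun t => ∫ x in cube, u t x i * ψ x) (𝓝[>] 0) (𝓝 (pr c i ψ))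
  loc : ∀ s ∈ Ico 0 T, ∀ δ : ℝ, 0 < δ → ∀ᶠ t in 𝓝[>] s, ∀ x i, |u t x i| ≤ δ / Real.sqrt (t - s)

/-- **Piece Inf** (gluing infinitely many pieces). -/
def StmInf : Prop := ∀ (ν : ℝ), 0 < ν → ∀ (Q : ℕ → ℝ), (∀ n, 1 ≤ Q n) →
  ∀ (c : ℕ → Cf) (τ : ℕ → ℝ) (F : ℕ → Finset ℝ) (u : ℕ → ℝ → V → V) (p : ℕ → ℝ → V → ℝ),
  (∀ n, Pc ν Q (c n) (τ n) (F n) (u n) (p n)) → (∀ n, c (n + 1) = vf (u n (τ n))) →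
  ∀ T : ℝ, HasSum τ T →
  (∀ i, ∑' n, ∫⁻ t in Ioo 0 (τ n), (∫⁻ x in cube, ENNReal.ofReal
    (∑ j, |u n t x j| ^ (2 * Q i))) ^ (2 / (2 * Q i)) ≠ ⊤) →
  ∀ c₁ : Cf, (∀ (i : Fin 3) (ψ : V → ℝ), ContDiff ℝ ∞ ψ → Per ψ →
    Tendsto (fun n => pr (c n) i ψ) atTop (𝓝 (pr c₁ i ψ))) →
  ∃ (F' : Set ℝ) (v : ℝ → V → V) (q : ℝ → V → ℝ), Rch ν Q (c 0) c₁ T F' v q ∧
    ∀ n, ∀ t ∈ Ioc 0 (τ n), v ((∑ i ∈ Finset.range n, τ i) + t) = u n t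

/-- **Piece Reach** (from HPP, LocE, LocU, PcL, PcG, Inf). Follow `w` by the h-principle until a
regular time shortly before `T`, then go to constant paths `g n` with `g n → c₁`. -/
def StmReach : Prop := ∀ (ν : ℝ), 0 < ν → ∀ T : ℝ, 0 < T → ∀ (m : V) (w : ℝ → V → V), PathM m w →
  ∀ c c₁ : Cf, Dis c → (∀ i, c 0 i = ((m i : ℝ) : ℂ)) → Dis c₁ →
  (∀ i, c₁ 0 i = ((m i : ℝ) : ℂ)) → ∀ Q : ℕ → ℝ, (∀ n, 1 ≤ Q n) →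
  (∃ R : Fin 3 → Fin 3 → V → ℝ, Str R ∧ IsDiv R c ∧
    ∀ n i j, IntegrableOn (fun x => |R i j x| ^ Q n) cube) →
  (∃ R : Fin 3 → Fin 3 → V → ℝ, Str R ∧ IsDiv R c₁ ∧
    ∀ n i j, IntegrableOn (fun x => |R i j x| ^ Q n) cube) →
  ∀ Φ : ℝ → ℝ, Orl Φ → ∀ ε : ℝ, 0 < ε →
  ∃ (F : Set ℝ) (u : ℝ → V → V) (p : ℝ → V → ℝ), Rch ν Q c c₁ T F u p ∧
    ∃ h : ℝ → ℝ, (∀ t, 0 ≤ h t) ∧ (∀ t ∈ Ioo 0 T, ∀ x i, |u t x i - w t x i| ≤ h t) ∧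
      ∫⁻ t in Ioo 0 T, ENNReal.ofReal (Φ (h t)) ≤ ENNReal.ofReal ε

/-- **The steering theorem** (from End, Final, Reach). -/
def StmSteer : Prop := ∀ (ν : ℝ), 0 < ν → ∀ (m : V) (c c₁ : Cf), Dis c →
  (∀ i, c 0 i = ((m i : ℝ) : ℂ)) → Dis c₁ → (∀ i, c₁ 0 i = ((m i : ℝ) : ℂ)) → ∀ Q : ℕ → ℝ,
  (∀ n, 1 ≤ Q n) → ∀ T₀ : ℝ, 0 < T₀ → ∀ v : ℝ → V → V, VW ν T₀ c v →
  (∀ n, InLq T₀ v (2 * Q n)) → ∀ U : ℝ → V → V, (∀ T', 0 < T' → VW ν T' c₁ U) →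
  (∀ T', 0 < T' → ∀ n, InLq T' U (2 * Q n)) → ∀ S ∈ Icc 0 T₀, ∀ T : ℝ, S < T →
  ∀ w : ℝ → V → V, PathM m w → ∀ Φ : ℝ → ℝ, Orl Φ → ∀ ε : ℝ, 0 < ε →
  ∃ (F : Set ℝ) (u : ℝ → V → V) (p : ℝ → V → ℝ), F ⊆ Ico S T ∧
    (∀ T', T' < T → (F ∩ Iic T').Finite) ∧
    (∀ t ∈ Ioo 0 S, u t = v t) ∧ (∀ t, T < t → u t = U (t - T)) ∧
    SolOn ν (Ioo S T \ F) u p ∧ (∀ T', 0 < T' → VW ν T' c u) ∧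
    (∀ T', 0 < T' → ∀ n, InLq T' u (2 * Q n)) ∧
    (∀ (i : Fin 3) (ψ : V → ℝ), ContDiff ℝ ∞ ψ → Per ψ →
      ContinuousOn (fun t => ∫ x in cube, u t x i * ψ x) (Ioo S T)) ∧
    (∀ s ∈ Ico S T, ∀ δ : ℝ, 0 < δ →
      ∀ᶠ t in 𝓝[>] s, ∀ x i, |u t x i| ≤ δ / Real.sqrt (t - s)) ∧
    ∃ h : ℝ → ℝ, (∀ t, 0 ≤ h t) ∧ (∀ t ∈ Ioo S T, ∀ x i, |u t x i - w t x i| ≤ h t) ∧
      ∫⁻ t in Ioo S T, ENNReal.ofReal (Φ (h t)) ≤ ENNReal.ofReal ε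

end Pool.Agent.Run7.h969.HP
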