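import Pool.Agent.Run7.h969.HP.Defs4
import Pool.Agent.Run7.h744.WQ.RecQ

/-!
The uniform recursion (piece RecU).
-/

set_option autoImplicit false

open Set Filter Topology

namespace Pool.Agent.Run7.h969.HP

open Pool.Agent.Run7.h782.WQ

/-- Admissible sequences. -/
structure Adm (K : ℕ → ℝ) (q : ℝ) (x : ℕ → ℕ → ℝ) : Prop where
  nn : ∀ j m, 0 ≤ x j m
  mono : ∀ j m m', m ≤ m' → x j m' ≤ 1 + x j m
  init : x 0 0 ≤ 1
  rec_ : ∀ j m, m ≤ j → x (j + 1) m
    ≤ K m * (1 / 4 : ℝ) ^ ((j : ℝ) * (1 - q / 2 ^ (m + 1))) * x j (m + 1) + (1 / 4) ^ (j ^ 2)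

theorem quarter_le (j : ℕ) : ((1 : ℝ) / 4) ^ (j ^ 2) ≤ 1 :=
  pow_le_one₀ (by norm_num) (by norm_num)

theorem adm_zero (K : ℕ → ℝ) (q : ℝ) : Adm K q fun _ _ => 0 :=
  ⟨fun _ _ => le_rfl, fun _ _ _ _ => by norm_num, by norm_num, fun j m _ => by
    rw [mul_zero, zero_add]
    positivity⟩

/-- The bounds. -/
noncomputable def bb (K : ℕ → ℝ) (q : ℝ) : ℕ → ℝ
  | 0 => 1
  | j + 1 => K 0 * (1 / 4 : ℝ) ^ ((j : ℝ) * (1 - q / 2 ^ (0 + 1))) * (1 + bb K q j) + 1

theorem adm_le {K : ℕ → ℝ} {q : ℝ} (hK : ∀ m, 0 ≤ K m) {x : ℕ → ℕ → ℝ} (hx : Adm K q x) (j : ℕ) :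
    x j 0 ≤ bb K q j := by
  induction j with
  | zero => exact hx.init
  | succ j ih =>
    have h1 := hx.rec_ j 0 (Nat.zero_le _)
    have h2 := hx.mono j 0 (0 + 1) (Nat.zero_le _)
    have h3 := hK 0
    have h4 := quarter_le j
    show _ ≤ K 0 * (1 / 4 : ℝ) ^ ((j : ℝ) * (1 - q / 2 ^ (0 + 1))) * (1 + bb K q j) + 1
    refine h1.trans (add_le_add (mul_le_mul_of_nonneg_left (h2.trans ?_) (by positivity)) h4)
    linarith

/-- The finite part. -/
noncomputable def dd (K : ℕ → ℝ) (q : ℝ) : ℕ → ℕ → ℝ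
  | 0, _ => 1
  | j + 1, m => K m * (1 / 4 : ℝ) ^ ((j : ℝ) * (1 - q / 2 ^ (m + 1))) * dd K q j (m + 1) + 1

/-- **Piece RecU.** -/
theorem recU : StmRecU := by
  intro K q hq hK e θ hθ
  set X : ℕ → ℕ → ℝ := fun j m => sSup {y | ∃ x, Adm K q x ∧ y = x j m} with hX
  have hne : ∀ j m, {y | ∃ x, Adm K q x ∧ y = x j m}.Nonempty := fun j m =>
    ⟨0, fun _ _ => 0, adm_zero K q, rfl⟩
  have hbd : ∀ j m, BddAbove {y | ∃ x, Adm K q x ∧ y = x j m} := fun j m =>
    ⟨1 + bb K q j, by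
      rintro y ⟨x, hx, rfl⟩
      have h1 := hx.mono j 0 m (Nat.zero_le _)
      have h2 := adm_le hK hx j
      linarith⟩
  have hle : ∀ x, Adm K q x → ∀ j m, x j m ≤ X j m := fun x hx j m =>
    le_csSup (hbd j m) ⟨x, hx, rfl⟩
  obtain ⟨A, hA⟩ := Pool.Agent.Run7.h744.WQ.stmRecQ X K q hq
    (fun j m => hle _ (adm_zero K q) j m) hK
    (fun j m m' hm => csSup_le (hne j m') (by
      rintro y ⟨x, hx, rfl⟩
      have h1 := hx.mono j m m' hm
      have h2 := hle x hx j m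
      linarith))
    (fun m => ⟨m, fun j hj => csSup_le (hne (j + 1) m) (by
      rintro y ⟨x, hx, rfl⟩
      have h1 := hx.rec_ j m hj
      have h2 := hle x hx j (m + 1)
      have h3 := hK m
      refine h1.trans (add_le_add (mul_le_mul_of_nonneg_left h2 (by positivity)) le_rfl))⟩)
    (e + 1)
  -- the index from which on the common bound is enough
  obtain ⟨J, hJ⟩ : ∃ J : ℕ, ∀ j, J ≤ j → A * (1 / 4 : ℝ) ^ j ≤ θ := by
    have h1 : Tendsto (fun j : ℕ => A * (1 / 4 : ℝ) ^ j) atTop (𝓝 (A * 0)) :=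
      (tendsto_pow_atTop_nhds_zero_of_lt_one (by norm_num) (by norm_num)).const_mul A
    rw [mul_zero] at h1
    exact eventually_atTop.1 (h1.eventually (ge_mem_nhds hθ))
  -- the finite part
  have hev : ∀ᶠ η in 𝓝[>] (0 : ℝ), ∀ j ∈ Finset.range J,
      dd K q j 0 * η ≤ θ * (1 / 4 : ℝ) ^ (e * j) := by
    rw [Filter.eventually_all_finset]
    intro j _
    have h1 : Tendsto (fun η : ℝ => dd K q j 0 * η) (𝓝 0) (𝓝 (dd K q j 0 * 0)) :=
      tendsto_id.const_mul _
    rw [mul_zero] at h1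
    have h2 : 0 < θ * (1 / 4 : ℝ) ^ (e * j) := by positivity
    exact (h1.mono_left nhdsWithin_le_nhds).eventually (ge_mem_nhds h2)
  have e1 : ∀ᶠ η in 𝓝[>] (0 : ℝ), 0 < η := self_mem_nhdsWithin
  have e2 : ∀ᶠ η in 𝓝[>] (0 : ℝ), η ≤ 1 := nhdsWithin_le_nhds (ge_mem_nhds one_pos)
  obtain ⟨η, hη, hη1, hηJ⟩ := (e1.and (e2.and hev)).exists
  refine ⟨J, η, hη, fun η' hη' hle' I' hI' x hx hmono h0 hrec => ?_⟩
  have hadm : Adm K q x := by
    refine ⟨hx, hmono, (h0 0 (Nat.zero_le _)).trans (hle'.trans hη1), fun j m hm => ?_⟩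
    refine (hrec j m (hm.trans (Nat.le_add_right _ _))).trans (add_le_add le_rfl ?_)
    exact mul_le_of_le_one_left (by positivity) (hle'.trans hη1)
  have hD : ∀ j m, j + m ≤ I' → x j m ≤ dd K q j m * η' := by
    intro j
    induction j with
    | zero =>
      intro m hm
      have e : dd K q 0 m = 1 := rfl
      rw [e, one_mul]
      exact h0 m (by omega)
    | succ j ih =>
      intro m hm
      have h1 := hrec j m (by omega)
      have h2 := ih (m + 1) (by omega)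
      have h3 := hK m
      have h4 := quarter_le j
      have e : dd K q (j + 1) m
        = K m * (1 / 4 : ℝ) ^ ((j : ℝ) * (1 - q / 2 ^ (m + 1))) * dd K q j (m + 1) + 1 := rfl
      rw [e, add_mul, one_mul, mul_assoc _ (dd K q j (m + 1)) η']
      refine h1.trans (add_le_add (mul_le_mul_of_nonneg_left h2 (by positivity)) ?_)
      exact mul_le_of_le_one_right hη'.le h4
  intro j
  rcases lt_or_ge j J with h | h
  · have h1 := hD j 0 (by omega)
    have h2 := hηJ j (Finset.mem_range.2 h)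
    have h3 : 0 ≤ dd K q j 0 := by
      have : ∀ j m, 0 ≤ dd K q j m := by
        intro j
        induction j with
        | zero => exact fun m => zero_le_one
        | succ j ih =>
          intro m
          have h1 := ih (m + 1)
          have h2 := hK m
          show 0 ≤ K m * (1 / 4 : ℝ) ^ ((j : ℝ) * (1 - q / 2 ^ (m + 1))) * dd K q j (m + 1) + 1
          positivity
      exact this j 0
    exact h1.trans ((mul_le_mul_of_nonneg_left hle' h3).trans h2)
  · have h1 := (hle x hadm j 0).trans (hA j)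
    refine h1.trans ?_
    have e3 : (1 / 4 : ℝ) ^ ((e + 1) * j) = (1 / 4 : ℝ) ^ j * (1 / 4 : ℝ) ^ (e * j) := by
      rw [add_mul, one_mul, Real.rpow_add (by norm_num), Real.rpow_natCast, mul_comm]
    rw [e3, ← mul_assoc]
    exact mul_le_mul_of_nonneg_right (hJ j h) (by positivity)

end Pool.Agent.Run7.h969.HP
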