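import Pool.Agent.Run7.h969.WS.BesG

/-!
Uniform closeness to the target in the critical Besov spaces.
-/

set_option autoImplicit false

open MeasureTheory Set Filter Topology
open scoped ENNReal

namespace Pool.Agent.Run7.h969.WS

open H459R3.NS Pool.Agent.Run7.h782 Pool.Agent.Run7.h782.GD Pool.Agent.Run7.h782.GS
open Pool.Agent.Run7.h782.WS Pool.Agent.Run7.h744.WS Pool.Agent.Run7.h969.GS
open Pool.Agent.Run7 Pool.Agent.Run7.h308.WS

/-- `tail_le` with all stages shifted. -/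
theorem tail_leU {φ : ℝ → ℝ} (hφ : Gauge φ) {μ : Measure ℝ} {X : ℕ → ℝ → ℝ≥0∞} {ε : ℕ → ℝ} (J : ℕ)
    (hXm : ∀ n, AEMeasurable (X n) μ) (hXε : ∀ n, ∀ᵐ s ∂μ, X n s ≤ ENNReal.ofReal (ε n))
    (hε1 : ∀ n, ε n ≤ (1 / 2) ^ (n + J))
    (hX : ∀ n, ∫⁻ s, Ph φ (ENNReal.ofReal (12 * 2 ^ (n + J)) * X n s) ∂μ
      ≤ ENNReal.ofReal ((1 / 2) ^ (n + J))) :
    (∀ᵐ s ∂μ, ∑' i, 6 * X i s ≠ ⊤) ∧
    ∫⁻ s, Ph φ (∑' i, 6 * X i s) ∂μ ≤ ENNReal.ofReal ((1 / 2) ^ J) := by
  have h := tail_le hφ (μ := μ) (X := fun n s => if J ≤ n then X (n - J) s else 0)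
    (ε := fun n => if J ≤ n then ε (n - J) else 0) (fun n => ?_) (fun n => ?_) (fun n => ?_)
    (fun n => ?_) J
  · have e : ∀ i, ∀ s, (if J ≤ J + i then X (J + i - J) s else 0) = X i s := fun i s => by
      rw [if_pos (Nat.le_add_right J i), Nat.add_sub_cancel_left]
    simp only [e] at h
    exact h
  · by_cases hn : J ≤ n
    · simp only [hn, if_true]
      exact hXm _
    · simp only [hn, if_false]
      exact aemeasurable_const
  · by_cases hn : J ≤ n
    · simp only [hn, if_true]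
      exact hXε _
    · simp only [hn, if_false]
      exact Eventually.of_forall fun _ => bot_le
  · by_cases hn : J ≤ n
    · simp only [hn, if_true]
      refine (hε1 _).trans (le_of_eq ?_)
      rw [Nat.sub_add_cancel hn]
    · simp only [hn, if_false]
      positivity
  · by_cases hn : J ≤ n
    · simp only [hn, if_true]
      have h1 := hX (n - J)
      rwa [Nat.sub_add_cancel hn] at h1
    · simp only [hn, if_false, mul_zero]
      have e : Ph φ 0 = 0 := by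
        rw [Ph, ENNReal.toReal_zero, hφ.zero, ENNReal.ofReal_zero]
      rw [e, lintegral_zero]
      exact bot_le

/-- **The uniform Besov clause.** -/
theorem besovU {φ : ℝ → ℝ} (hφ : Gauge φ) {θ : ℝ} (hθ : 0 < θ) : ∃ J₀ : ℕ, ∀ J, J₀ ≤ J →
    ∀ {A : ℕ → ℝ → Cf} {z : ℕ → Cf} {b : ℝ → Cf} {c : Cf} {ε : ℕ → ℝ},
    (∀ t, 0 < t → ∀ k, Tendsto (fun j => A (j + 1) t k) atTop (𝓝 (b t k))) →
    (∀ n, StpG φ ((1 / 2) ^ (n + J)) ((1 / 2) ^ (n + J)) (12 * 2 ^ (n + J)) (A n) (z n) (ε n)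
      (A (n + 1))) →
    (∀ n, ε n ≤ (1 / 2) ^ (n + J)) → (∀ n, Summable fun k => ‖c k - z n k‖) →
    (∀ n, ∑' k, ‖c k - z n k‖ ≤ (1 / 2) ^ (n + J)) → c 0 = 0 → (∀ n, z n 0 = 0) →
    A 0 0 0 = 0 → (Summable fun k => ‖c k - A 0 0 k‖) → ∑' k, ‖c k - A 0 0 k‖ ≤ (1 / 2) ^ J →
    ∀ t, 0 < t → besGC φ (fun k => ‖b t k - A 0 t k‖) ≤ ENNReal.ofReal θ := by
  obtain ⟨r, hr, herr⟩ := err hφ
  -- the choice of the stage
  have p0 : Tendsto (fun J : ℕ => ((1 : ℝ) / 2) ^ J) atTop (𝓝 0) :=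
    tendsto_pow_atTop_nhds_zero_of_lt_one (by norm_num) (by norm_num)
  have p1 : Tendsto (fun J : ℕ => 9 * ((1 : ℝ) / 2) ^ J) atTop (𝓝 0) := by
    simpa using p0.const_mul 9
  have p2 : Tendsto (fun J : ℕ => (1 / 2 : ℝ) ^ J
      + 4 * (9 * (1 / 2) ^ J) * (9 * (1 / 2) ^ J)) atTop (𝓝 0) := by
    have h1 : Tendsto (fun J : ℕ => ((1 : ℝ) / 2) ^ J
        + 4 * (9 * (1 / 2) ^ J) * (9 * (1 / 2) ^ J)) atTop (𝓝 (0 + 4 * 0 * 0)) :=
      p0.add ((p1.const_mul 4).mul p1)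
    simpa using h1
  obtain ⟨J₀, hJ₀⟩ := eventually_atTop.1 ((p1.eventually_le_const hr).and
    (p2.eventually_le_const hθ))
  refine ⟨J₀, fun J hJ => ?_⟩
  obtain ⟨hJ1, hJ2⟩ := hJ₀ J hJ
  intro A z b c ε hlim hst hε1 hzs hzε hc0 hz0 hA0 hUs hUε t ht
  choose X hXm hXε hX hone htwo using fun n => (hst n).ex
  choose E hE0 hEX hEb using hone
  choose E' hE'0 hE'X hE'b using fun n => htwo n t ht.le
  -- the errors of the truncations
  have hdl : ∀ (x : Cf), (Summable fun k => ‖x k‖) → ∀ g : ℝ, ∑' k, ‖x k‖ ≤ g →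
      XE (fun k => ENNReal.ofReal ‖x k‖) ≤ ENNReal.ofReal g := by
    intro x hx g hg
    have h1 : ∀ k, ‖x k‖ / len k ≤ ‖x k‖ := fun k => by
      by_cases hk : k = 0
      · rw [hk, len_zero, div_zero]
        exact norm_nonneg _
      · exact div_le_self (norm_nonneg _) (one_le_len hk)
    refine XE_of (fun k => norm_nonneg _) hx (le_trans ?_ hg)
    exact Summable.tsum_le_tsum h1 (Summable.of_nonneg_of_le
      (fun k => div_nonneg (norm_nonneg _) (len_nonneg k)) h1 hx) hx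
  have hZ : ∀ n, XE (fun k => ENNReal.ofReal ‖c k - z n k‖) ≤ ENNReal.ofReal ((1 / 2) ^ (n + J)) :=
    fun n => hdl (fun k => c k - z n k) (hzs n) _ (hzε n)
  have hZU : XE (fun k => ENNReal.ofReal ‖c k - A 0 0 k‖) ≤ ENNReal.ofReal ((1 / 2) ^ J) :=
    hdl (fun k => c k - A 0 0 k) hUs _ hUε
  -- the error terms of the stage `n + 1`
  set T : ℕ → K3 → ℝ≥0∞ := fun n k => E' (n + 1) k + E n k
    + ENNReal.ofReal ‖c k - z (n + 1) k‖ + ENNReal.ofReal ‖c k - z n k‖ with hT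
  have hT0 : ∀ n, T n 0 = 0 := by
    intro n
    rw [hT]
    simp only
    rw [hE'0, hE0, hc0, hz0, hz0]
    simp
  have hTX : ∀ n, XE (T n) ≤ ENNReal.ofReal (6 * (1 / 2) ^ (n + 1 + J)) := by
    intro n
    rw [hT, XE_add, XE_add, XE_add]
    have hZ1 := hZ (n + 1)
    have hE1 := hE'X (n + 1)
    calc _ ≤ ENNReal.ofReal ((1 / 2) ^ (n + 1 + J)) + ENNReal.ofReal ((1 / 2) ^ (n + J))
          + ENNReal.ofReal ((1 / 2) ^ (n + 1 + J)) + ENNReal.ofReal ((1 / 2) ^ (n + J)) :=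
          add_le_add (add_le_add (add_le_add hE1 (hEX _)) hZ1) (hZ _)
      _ = _ := by
          rw [← ENNReal.ofReal_add (by positivity) (by positivity),
            ← ENNReal.ofReal_add (by positivity) (by positivity),
            ← ENNReal.ofReal_add (by positivity) (by positivity)]
          congr 1
          rw [show n + 1 + J = n + J + 1 by omega, pow_succ]
          ring
  have hstage : ∀ s, 0 < s → ∀ n,
      Fb (fun k => ENNReal.ofReal ‖A (n + 2) t k - A (n + 1) t k‖) s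
        ≤ X n s + X (n + 1) s + Fb (T n) s := by
    intro s hs n
    have h1 := hE'b (n + 1) s hs
    have h2 := (Fb_tri (z (n + 1)) c (A (n + 1) 0) s).trans
      (add_le_add le_rfl (Fb_tri c (z n) (A (n + 1) 0) s))
    have h3 := hEb n s hs
    rw [Fb_comm (z (n + 1)) c, Fb_comm (z n) (A (n + 1) 0)] at h2
    rw [hT, Fb_add, Fb_add, Fb_add]
    calc _ ≤ _ := h1
      _ ≤ (Fb (fun k => ENNReal.ofReal ‖c k - z (n + 1) k‖) s
          + (Fb (fun k => ENNReal.ofReal ‖c k - z n k‖) s + (X n s + Fb (E n) s)))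
          + X (n + 1) s + Fb (E' (n + 1)) s :=
          add_le_add (add_le_add (h2.trans (add_le_add le_rfl (add_le_add le_rfl h3))) le_rfl)
            le_rfl
      _ = _ := by ring
  -- all errors
  set EE : K3 → ℝ≥0∞ := fun k => (∑' i, T i k) + E' 0 k
    + ENNReal.ofReal ‖c k - z 0 k‖ + ENNReal.ofReal ‖c k - A 0 0 k‖ with hEE
  have hmain : ∀ s, 0 < s →
      Fb (fun k => ENNReal.ofReal ‖b t k - A 0 t k‖) s ≤ 3 * (∑' i, X i s) + Fb EE s := by
    intro s hs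
    have h1 : Fb (fun k => ENNReal.ofReal ‖b t k - A 1 t k‖) s
        ≤ ∑' i, (X i s + X (i + 1) s + Fb (T i) s) := by
      refine (Fb_mono (fun k => tel (hlim t ht) 1 k) s).trans ?_
      rw [Fb_tsum]
      refine ENNReal.tsum_le_tsum fun i => ?_
      have e1 : 1 + i + 1 = i + 2 := by omega
      have e2 : 1 + i = i + 1 := by omega
      rw [e1, e2]
      exact hstage s hs i
    have h2 : ∑' i, X (i + 1) s ≤ ∑' i, X i s :=
      ENNReal.tsum_comp_le_tsum_of_injective (f := fun i : ℕ => i + 1)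
        (add_left_injective 1) (fun i => X i s)
    have h3 : X 0 s ≤ ∑' i, X i s := ENNReal.le_tsum (f := fun i => X i s) 0
    have h4 := Fb_tri (b t) (A 1 t) (A 0 t) s
    have h5 := hE'b 0 s hs
    have h6 := Fb_tri (z 0) c (A 0 0) s
    rw [Fb_comm (z 0) c] at h6
    have e : Fb EE s = (∑' i, Fb (T i) s) + Fb (E' 0) s
        + Fb (fun k => ENNReal.ofReal ‖c k - z 0 k‖) s
        + Fb (fun k => ENNReal.ofReal ‖c k - A 0 0 k‖) s := by
      rw [hEE, Fb_add, Fb_add, Fb_add, Fb_tsum]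
    rw [e]
    rw [ENNReal.tsum_add, ENNReal.tsum_add] at h1
    calc _ ≤ _ := h4
      _ ≤ ((∑' i, X i s) + (∑' i, X i s) + ∑' i, Fb (T i) s)
          + ((Fb (fun k => ENNReal.ofReal ‖c k - z 0 k‖) s
            + Fb (fun k => ENNReal.ofReal ‖c k - A 0 0 k‖) s)
            + (∑' i, X i s) + Fb (E' 0) s) := by
          refine add_le_add (h1.trans (add_le_add (add_le_add le_rfl h2) le_rfl)) ?_
          exact h5.trans (add_le_add (add_le_add h6 h3) le_rfl)
      _ = _ := by ring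
  have hEE0 : EE 0 = 0 := by
    rw [hEE]
    simp only
    rw [hE'0, hc0, hz0, hA0]
    simp [hT0]
  have hEEX : XE EE ≤ ENNReal.ofReal (9 * (1 / 2) ^ J) := by
    rw [hEE, XE_add, XE_add, XE_add, XE_tsum]
    have h1 : ∑' i, XE (T i) ≤ ENNReal.ofReal (6 * (1 / 2) ^ J) := by
      calc ∑' i, XE (T i) ≤ ∑' i : ℕ, ENNReal.ofReal 6
            * ENNReal.ofReal ((1 / 2) ^ (J + 1 + i)) := by
            refine ENNReal.tsum_le_tsum fun i => (hTX i).trans (le_of_eq ?_)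
            rw [← ENNReal.ofReal_mul (by norm_num)]
            congr 3
            omega
        _ = ENNReal.ofReal 6 * ∑' i : ℕ, ENNReal.ofReal ((1 / 2) ^ (J + 1 + i)) :=
            ENNReal.tsum_mul_left
        _ ≤ ENNReal.ofReal 6 * ENNReal.ofReal ((1 / 2) ^ J) :=
            mul_le_mul' le_rfl (half_tsum J)
        _ = _ := (ENNReal.ofReal_mul (by norm_num)).symm
    have h2 := hE'X 0
    have h3 := hZ 0
    rw [zero_add] at h2 h3
    calc _ ≤ ENNReal.ofReal (6 * (1 / 2) ^ J) + ENNReal.ofReal ((1 / 2) ^ J)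
          + ENNReal.ofReal ((1 / 2) ^ J) + ENNReal.ofReal ((1 / 2) ^ J) :=
          add_le_add (add_le_add (add_le_add h1 h2) h3) hZU
      _ = _ := by
          rw [← ENNReal.ofReal_add (by positivity) (by positivity),
            ← ENNReal.ofReal_add (by positivity) (by positivity),
            ← ENNReal.ofReal_add (by positivity) (by positivity)]
          congr 1
          ring
  obtain ⟨hf, htail⟩ := tail_leU hφ (μ := dss) J (fun n => (hXm n).aemeasurable)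
    (fun n => dss_ae fun s hs => hXε n s hs) hε1 hX
  have h6 : ∀ᵐ s ∂dss, Ph φ (Fb (fun k => ENNReal.ofReal ‖b t k - A 0 t k‖) s)
      ≤ Ph φ (∑' i, 6 * X i s) + Ph φ (2 * Fb EE s) := by
    filter_upwards [hf, dss_ae (p := fun s => 0 < s) fun s hs => hs] with s hs hs0
    have e6 : ∑' i, 6 * X i s = 2 * (3 * ∑' i, X i s) := by
      rw [ENNReal.tsum_mul_left, ← mul_assoc]
      norm_num
    have hF : Fb EE s ≠ ⊤ := ne_top_of_le_ne_top ENNReal.ofReal_ne_top
      ((Fb_le_XE hEE0 hs0).trans hEEX)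
    have h3 : 3 * ∑' i, X i s ≠ ⊤ := by
      intro h
      rw [e6, h] at hs
      exact hs (by simp)
    rw [e6]
    exact (Ph_mono hφ (hmain s hs0) (ENNReal.add_ne_top.2 ⟨h3, hF⟩)).trans
      (Ph_add hφ h3 hF)
  have h7 : Measurable fun s => Ph φ (2 * Fb EE s) :=
    (Ph_meas hφ).comp ((Fb_meas _).const_mul _)
  rw [besGC_eq hφ _ fun k => norm_nonneg _]
  calc ∫⁻ s, Ph φ (Fb (fun k => ENNReal.ofReal ‖b t k - A 0 t k‖) s) ∂dss
      ≤ ∫⁻ s, (Ph φ (∑' i, 6 * X i s) + Ph φ (2 * Fb EE s)) ∂dss :=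
        lintegral_mono_ae h6
    _ = ∫⁻ s, Ph φ (∑' i, 6 * X i s) ∂dss + ∫⁻ s, Ph φ (2 * Fb EE s) ∂dss :=
        lintegral_add_right _ h7
    _ ≤ ENNReal.ofReal ((1 / 2) ^ J)
        + ENNReal.ofReal (4 * (9 * (1 / 2) ^ J) * (9 * (1 / 2) ^ J)) :=
        add_le_add htail (herr _ hEE0 _ (by positivity) hJ1 hEEX)
    _ = ENNReal.ofReal ((1 / 2) ^ J + 4 * (9 * (1 / 2) ^ J) * (9 * (1 / 2) ^ J)) :=
        (ENNReal.ofReal_add (by positivity) (by positivity)).symm
    _ ≤ ENNReal.ofReal θ := ENNReal.ofReal_le_ofReal hJ2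

end Pool.Agent.Run7.h969.WS
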