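import Pool.Agent.Run7.h969.HP.Defs
import Pool.Agent.Run7.h308.GS.P6

/-!
Piece PhysO: from coefficients to fields, on an open interval of times.
-/

set_option autoImplicit false

open MeasureTheory Set Filter Topology
open scoped ContDiff

namespace Pool.Agent.Run7.h969.HP

open H459R3.NS Pool.Agent.Run7.h782.GD Pool.Agent.Run7.h782.GS Pool.Agent.Run7.h32.GD
open Pool.Agent.Run7

/-! ### Algebra at a fixed time -/

theorem T_apply' {a : ℝ → Cf} (h : ∀ i, Dec (cmp a i)) {t : ℝ} (ht : 0 ≤ t) (k : K3)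
    (i : Fin 3) : (∑' p : K3, kd k (a t p) • a t (k - p)) i = Nn a i t k := by
  have hs : ∀ i j, Summable fun p => cmp a j t p * cmp a i t (k - p) := fun i j =>
    (h j).summable_cv (h i) ht k
  have hs2 : ∀ i, Summable fun p : K3 => ∑ j, (k j : ℂ) * (cmp a j t p * cmp a i t (k - p)) :=
    fun i => summable_sum fun j _ => (hs i j).mul_left _
  have e : ∀ p i, (kd k (a t p) • a t (k - p)) i
      = ∑ j, (k j : ℂ) * (cmp a j t p * cmp a i t (k - p)) := by
    intro p i
    rw [Pi.smul_apply, smul_eq_mul, kd, Finset.sum_mul]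
    exact Finset.sum_congr rfl fun j _ => by unfold h32.GD.cmp; ring
  have hs3 : Summable fun p : K3 => kd k (a t p) • a t (k - p) := by
    rw [Pi.summable]
    exact fun i => (hs2 i).congr fun p => (e p i).symm
  rw [tsum_apply hs3]
  simp_rw [e]
  rw [Summable.tsum_finsetSum (fun j _ => (hs i j).mul_left _)]
  unfold Nn cv
  exact Finset.sum_congr rfl fun j _ => tsum_mul_left

theorem nl_apply' {a : ℝ → Cf} (h : ∀ i, Dec (cmp a i)) {t : ℝ} (ht : 0 ≤ t) (k : K3)
    (i : Fin 3) : nl (a t) (a t) k i = (2 * Real.pi * Complex.I) * Nn a i t k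
      + (2 * Real.pi * Complex.I * (k i : ℂ)) * pk a t k := by
  unfold nl
  rw [Pi.smul_apply, smul_eq_mul, prj, T_apply' h ht]
  have e : kd k (∑' p : K3, kd k (a t p) • a t (k - p)) / (h782.GD.sq k : ℂ) = -pk a t k := by
    unfold kd pk
    have : ∀ l, (∑' p : K3, (∑ j, (k j : ℂ) * a t p j) • a t (k - p)) l = Nn a l t k := fun l =>
      T_apply' h ht k l
    simp_rw [this]
    rw [Finset.sum_div, ← Finset.sum_neg_distrib]
    refine Finset.sum_congr rfl fun l _ => ?_
    unfold Nn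
    rw [Finset.mul_sum, Finset.sum_div, ← Finset.sum_neg_distrib]
    refine Finset.sum_congr rfl fun j _ => ?_
    ring
  rw [e]
  ring

theorem gd_pk' {a : ℝ → Cf} (hg : ∀ (n : ℕ) (i : Fin 3), Gd n (cmp a i)) (n : ℕ) :
    Gd n (pk a) :=
  Gd.sum3 fun l => Gd.sum3 fun j =>
      ((hg n j).cv (hg n l)).mul ((mul_riesz l j).of_le fun k => (norm_neg _).le)

theorem div_at {a : ℝ → Cf} (hdec : ∀ i, Dec (cmp a i)) {t : ℝ} (ht0 : 0 ≤ t) (hdiv : Dv (a t))
    (x : V) : ∑ i, pd i (fun y => fld a t y i) x = 0 := by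
  have h1 : ∀ i, pd i (fun y => fld a t y i) x = (S (D i (cmp a i t)) x).re := fun i =>
    pd_reS (c := cmp a i t) (dec_const (hdec i) ht0) x i
  simp_rw [h1]
  rw [← Complex.re_sum]
  have h2 : ∑ i, S (D i (cmp a i t)) x = 0 := by
    unfold S
    rw [← Summable.tsum_finsetSum (fun i _ =>
      summable_term (((hdec i).D i).summable ht0) x)]
    have : ∀ k, ∑ i, D i (cmp a i t) k * ee k x = 0 := by
      intro k
      rw [← Finset.sum_mul]
      have hd := hdiv k
      unfold kd at hd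
      have e : ∑ i, D i (cmp a i t) k = (2 * Real.pi * Complex.I) * ∑ i, (k i : ℂ) * a t k i := by
        rw [Finset.mul_sum]
        refine Finset.sum_congr rfl fun i _ => ?_
        unfold D h32.GD.cmp; ring
      rw [e, hd, mul_zero, zero_mul]
    simp_rw [this]
    exact tsum_zero
  rw [h2]; rfl

theorem mom_at {ν : ℝ} {a : ℝ → Cf} (hg : ∀ (n : ℕ) (i : Fin 3), Gd n (cmp a i)) {t : ℝ}
    (ht : 0 < t) (hherm : Herm (a t)) (hdiv : Dv (a t))
    (hder : ∀ k, HasDerivAt (fun s => a s k) (-(lam ν k : ℂ) • a t k - nl (a t) (a t) k) t)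
    (x : V) (i : Fin 3) :
    deriv (fun s => fld a s x i) t + ∑ j, fld a t x j * pd j (fun y => fld a t y i) x
      = ν * ∑ j, pd j (pd j (fun y => fld a t y i)) x - pd i (fun y => (S (pk a t) y).re) x := by
  have ht0 : 0 ≤ t := ht.le
  have hdec : ∀ i, Dec (cmp a i) := fun i => (hg 0 i).dec
  -- time derivative
  have hder' : ∀ k, HasDerivWithinAt (fun s => cmp a i s k)
      ((-(lam ν k : ℂ) • a t k - nl (a t) (a t) k) i) (Ici 0) t := fun k =>
    (hasDerivWithinAt_pi.1 (hder k).hasDerivWithinAt) i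
  obtain ⟨-, c', hc'1, hc'2⟩ := hg 1 i
  have hce : ∀ k, c' t k = (-(lam ν k : ℂ) • a t k - nl (a t) (a t) k) i := fun k =>
    (uniqueDiffOn_Ici (0 : ℝ) t ht0).eq_deriv _ (hc'1 k t ht0) (hder' k)
  have hdt : deriv (fun s => fld a s x i) t = (S (c' t) x).re := by
    have h1 := hasDerivWithinAt_S (hdec i) hc'2 hc'1 ht0 x
    have h2 : HasDerivAt (fun s => S (cmp a i s) x) (S (c' t) x) t :=
      h1.hasDerivAt (Ici_mem_nhds ht)
    exact (Complex.reCLM.hasFDerivAt.comp_hasDerivAt t h2).deriv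
  have hpd : ∀ j y, pd j (fun y => fld a t y i) y = (S (D j (cmp a i t)) y).re := fun j y =>
    pd_reS (c := cmp a i t) (dec_const (hdec i) ht0) y j
  have hpd2 : ∀ j, pd j (pd j (fun y => fld a t y i)) x
      = (S (D j (D j (cmp a i t))) x).re := by
    intro j
    have : pd j (fun y => fld a t y i) = fun y => (S (D j (cmp a i t)) y).re := by
      funext y; exact hpd j y
    rw [this]
    exact pd_reS (c := D j (cmp a i t)) (dec_const ((hdec i).D j) ht0) x j
  have hpp : pd i (fun y => (S (pk a t) y).re) x = (S (D i (pk a t)) x).re :=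
    pd_reS (dec_const (gd_pk' hg 0).dec ht0) x i
  have hreal : ∀ j, S (cmp a j t) x = ((fld a t x j : ℝ) : ℂ) := fun j =>
    S_real (fun k => hherm k j) x
  rw [hdt, hpp]
  simp_rw [hpd, hpd2]
  have hprod : ∀ j, fld a t x j * (S (D j (cmp a i t)) x).re
      = (S (cv (cmp a j t) (D j (cmp a i t))) x).re := by
    intro j
    rw [← S_mul ((hdec j).summable ht0) (((hdec i).D j).summable ht0), hreal j,
      Complex.re_ofReal_mul]
  simp_rw [hprod]
  rw [← Complex.re_sum, ← Complex.re_sum, ← Complex.add_re, ← Complex.re_ofReal_mul,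
    ← Complex.sub_re]
  congr 1
  have s1 : Summable fun k => c' t k * ee k x := summable_term (hc'2.dec.summable ht0) x
  have s2 : ∀ j, Summable fun k => cv (cmp a j t) (D j (cmp a i t)) k * ee k x := fun j =>
    summable_term ((((hdec j).cv ((hdec i).D j))).summable ht0) x
  have s3 : ∀ j, Summable fun k => D j (D j (cmp a i t)) k * ee k x := fun j =>
    summable_term (((((hdec i).D j)).D j).summable ht0) x
  have s4 : Summable fun k => D i (pk a t) k * ee k x :=
    summable_term (((gd_pk' hg 0).dec.D i).summable ht0) x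
  unfold S
  rw [← Summable.tsum_finsetSum (fun j _ => s2 j), ← Summable.tsum_finsetSum (fun j _ => s3 j),
    ← s1.tsum_add (summable_sum fun j _ => s2 j), ← tsum_mul_left,
    ← ((summable_sum fun j _ => s3 j).mul_left _).tsum_sub s4]
  refine tsum_congr fun k => ?_
  rw [hce k, Pi.sub_apply, Pi.smul_apply, smul_eq_mul, nl_apply' hdec ht0]
  have hcv : ∑ j, cv (cmp a j t) (D j (cmp a i t)) k
      = (2 * Real.pi * Complex.I) * Nn a i t k := by
    have hsA : ∀ j, Summable fun p => cmp a j t p * cmp a i t (k - p) := fun j =>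
      (hdec j).summable_cv (hdec i) ht0 k
    have hsB : ∀ j, Summable fun p => D j (cmp a j t) p * cmp a i t (k - p) := fun j =>
      ((hdec j).D j).summable_cv (hdec i) ht0 k
    have e1 : ∀ j, cv (cmp a j t) (D j (cmp a i t)) k
        = (2 * Real.pi * Complex.I * (k j : ℂ)) * cv (cmp a j t) (cmp a i t) k
          - ∑' p, D j (cmp a j t) p * cmp a i t (k - p) := by
      intro j
      unfold cv
      rw [← tsum_mul_left, ← ((hsA j).mul_left _).tsum_sub (hsB j)]
      refine tsum_congr fun p => ?_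
      unfold D
      have : ((k - p : K3) j : ℂ) = (k j : ℂ) - (p j : ℂ) := by
        rw [Pi.sub_apply]; push_cast; ring
      rw [this]; ring
    simp_rw [e1]
    rw [Finset.sum_sub_distrib, ← Summable.tsum_finsetSum (fun j _ => hsB j)]
    have e2 : ∀ p, ∑ j, D j (cmp a j t) p * cmp a i t (k - p) = 0 := by
      intro p
      rw [← Finset.sum_mul]
      have hd := hdiv p
      unfold kd at hd
      have e : ∑ j, D j (cmp a j t) p = (2 * Real.pi * Complex.I) * ∑ j, (p j : ℂ) * a t p j := by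
        rw [Finset.mul_sum]
        refine Finset.sum_congr rfl fun i _ => ?_
        unfold D h32.GD.cmp; ring
      rw [e, hd, mul_zero, zero_mul]
    simp_rw [e2]
    rw [tsum_zero, sub_zero, Nn, Finset.mul_sum]
    exact Finset.sum_congr rfl fun j _ => by ring
  rw [← Finset.sum_mul, ← Finset.sum_mul, hcv]
  have hDD : ∑ j, D j (D j (cmp a i t)) k = -(4 * Real.pi ^ 2 * h782.GD.sq k : ℝ) * a t k i := by
    have e : ∀ j, D j (D j (cmp a i t)) k = -(4 * Real.pi ^ 2 * (k j : ℂ) ^ 2) * a t k i := by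
      intro j
      unfold D h32.GD.cmp
      linear_combination (4 * (Real.pi : ℂ) ^ 2 * (k j : ℂ) ^ 2 * a t k i) * Complex.I_sq
    simp_rw [e]
    unfold h782.GD.sq
    push_cast
    rw [← Finset.sum_mul, Finset.sum_neg_distrib, Finset.mul_sum]
  rw [hDD]
  unfold D lam
  push_cast
  ring

/-! ### Cutoffs in time -/

/-- Smooth functions with support in `(0, T)`. -/
structure Ct (T : ℝ) (φ : ℝ → ℝ) : Prop where
  smooth : ContDiff ℝ ∞ φ
  supp : ∃ s t, 0 < s ∧ s ≤ t ∧ t < T ∧ ∀ r, r ∉ Icc s t → φ r = 0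

theorem Ct.der {T : ℝ} {φ : ℝ → ℝ} (h : Ct T φ) (r : ℝ) : HasDerivAt φ (deriv φ r) r :=
  (h.smooth.differentiable (by norm_cast)).differentiableAt.hasDerivAt

theorem ev_zero {φ : ℝ → ℝ} {s t r : ℝ} (h : ∀ r, r ∉ Icc s t → φ r = 0) (hr : r ∉ Icc s t) :
    φ =ᶠ[𝓝 r] fun _ => 0 := by
  filter_upwards [isClosed_Icc.isOpen_compl.mem_nhds hr] with q hq
  exact h q hq

theorem Ct.deriv {T : ℝ} {φ : ℝ → ℝ} (h : Ct T φ) : Ct T (deriv φ) where
  smooth := (contDiff_infty_iff_deriv.1 h.smooth).2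
  supp := by
    obtain ⟨s, t, hs, hst, ht, h0⟩ := h.supp
    refine ⟨s, t, hs, hst, ht, fun r hr => ?_⟩
    rw [(ev_zero h0 hr).deriv_eq, deriv_const]

theorem exists_ct {T s t : ℝ} (hs : 0 < s) (hst : s ≤ t) (ht : t < T) :
    ∃ φ : ℝ → ℝ, Ct T φ ∧ ∀ r ∈ Icc s t, φ r = 1 := by
  refine ⟨fun r => Real.smoothTransition ((r - s / 2) / (s / 2))
    * Real.smoothTransition (((t + T) / 2 - r) / ((T - t) / 2)), ⟨?_, ?_⟩, ?_⟩
  · refine ContDiff.mul ?_ ?_
    · exact Real.smoothTransition.contDiff.comp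
        (by fun_prop : ContDiff ℝ ∞ fun r : ℝ => (r - s / 2) / (s / 2))
    · exact Real.smoothTransition.contDiff.comp
        (by fun_prop : ContDiff ℝ ∞ fun r : ℝ => ((t + T) / 2 - r) / ((T - t) / 2))
  · refine ⟨s / 2, (t + T) / 2, by positivity, by linarith, by linarith, fun r hr => ?_⟩
    rw [mem_Icc, not_and_or, not_le, not_le] at hr
    rcases hr with hr | hr
    · rw [Real.smoothTransition.zero_of_nonpos
        (div_nonpos_of_nonpos_of_nonneg (by linarith) (by linarith)), zero_mul]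
    · rw [Real.smoothTransition.zero_of_nonpos (x := ((t + T) / 2 - r) / ((T - t) / 2))
        (div_nonpos_of_nonpos_of_nonneg (by linarith) (by linarith)), mul_zero]
  · intro r hr
    have h1 : 1 ≤ (r - s / 2) / (s / 2) := by
      rw [le_div_iff₀ (by linarith)]
      linarith [hr.1]
    have h2 : 1 ≤ ((t + T) / 2 - r) / ((T - t) / 2) := by
      rw [le_div_iff₀ (by linarith)]
      linarith [hr.2]
    simp only
    rw [Real.smoothTransition.one_of_one_le h1, Real.smoothTransition.one_of_one_le h2, one_mul]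

/-! ### Cut off solutions -/

/-- The cut off family. -/
noncomputable def cb (φ : ℝ → ℝ) (b : ℝ → Cf) (r : ℝ) : Cf := ((φ r : ℝ) : ℂ) • b r

theorem cmp_cb (φ : ℝ → ℝ) (b : ℝ → Cf) (i : Fin 3) (r : ℝ) (k : K3) :
    cmp (cb φ b) i r k = ((φ r : ℝ) : ℂ) * b r k i := rfl

variable {ν T : ℝ} {b : ℝ → Cf}

theorem dec_cb (h : CSolO ν T b) {φ : ℝ → ℝ} (hφ : Ct T φ) (i : Fin 3) :
    Dec (cmp (cb φ b) i) := by
  obtain ⟨s, t, hs, hst, ht, h0⟩ := hφ.supp
  obtain ⟨μ, hμ, C, hC⟩ := h.dec s t hs ht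
  obtain ⟨D, hD⟩ := isCompact_Icc.bddAbove_image
    (hφ.smooth.continuous.continuousOn.norm : ContinuousOn (fun r => ‖φ r‖) (Icc s t))
  have hC0 : 0 ≤ C := by
    have h5 := (norm_nonneg _).trans (hC s ⟨le_rfl, hst⟩ 0)
    exact nonneg_of_mul_nonneg_left h5 (Real.exp_pos _)
  have hD0 : 0 ≤ D := (norm_nonneg _).trans (hD ⟨s, ⟨le_rfl, hst⟩, rfl⟩)
  refine ⟨μ, hμ, D * C, by positivity, fun r _ k => ?_⟩
  rw [cmp_cb, norm_mul, Complex.norm_real]
  by_cases hr : r ∈ Icc s t
  · rw [mul_assoc]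
    exact mul_le_mul (hD ⟨r, hr, rfl⟩) ((norm_le_pi_norm (b r k) i).trans (hC r hr k))
      (norm_nonneg _) hD0
  · rw [h0 r hr, norm_zero, zero_mul]
    positivity

theorem der_cb (h : CSolO ν T b) {φ : ℝ → ℝ} (hφ : Ct T φ) (r : ℝ) (k : K3) :
    HasDerivAt (fun s => cb φ b s k) (((deriv φ r : ℝ) : ℂ) • b r k
      + ((φ r : ℝ) : ℂ) • (-(lam ν k : ℂ) • b r k - nl (b r) (b r) k)) r := by
  obtain ⟨s, t, hs, hst, ht, h0⟩ := hφ.supp
  by_cases hr : r ∈ Icc s t
  · have h1 := h.der r ⟨hs.trans_le hr.1, hr.2.trans_lt ht⟩ k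
    have h2 : HasDerivAt (fun s => ((φ s : ℝ) : ℂ)) ((deriv φ r : ℝ) : ℂ) r :=
      (hφ.der r).ofReal_comp
    have h3 := h2.smul h1
    refine h3.congr_deriv ?_
    exact add_comm _ _
  · have h1 := ev_zero h0 hr
    have h2 : deriv φ r = 0 := by rw [h1.deriv_eq, deriv_const]
    rw [h2, h0 r hr, Complex.ofReal_zero, zero_smul, zero_smul, add_zero]
    refine (hasDerivAt_const r (0 : C3)).congr_of_eventuallyEq ?_
    filter_upwards [h1] with q hq
    show ((φ q : ℝ) : ℂ) • b q k = 0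
    rw [hq, Complex.ofReal_zero, zero_smul]

theorem gd_cb (h : CSolO ν T b) : ∀ (n : ℕ) (φ : ℝ → ℝ), Ct T φ → ∀ i : Fin 3,
    Gd n (cmp (cb φ b) i) := by
  intro n
  induction n with
  | zero =>
    exact fun φ hφ i => ⟨dec_cb h hφ i, fun k t _ =>
      ((hasDerivAt_pi.1 (der_cb h hφ t k)) i).continuousAt.continuousWithinAt⟩
  | succ n ih =>
    intro φ hφ i
    obtain ⟨s, t, hs, hst, ht, h0⟩ := hφ.supp
    obtain ⟨ψ, hψ, hψ1⟩ := exists_ct hs hst ht
    refine ⟨dec_cb h hφ i, fun r k => (((deriv φ r : ℝ) : ℂ) • b r k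
      + ((φ r : ℝ) : ℂ) • (-(lam ν k : ℂ) • b r k - nl (b r) (b r) k)) i,
      fun k r _ => (hasDerivAt_pi.1 (der_cb h hφ r k)) i |>.hasDerivWithinAt, ?_⟩
    have hN : Gd n (fun r k => ∑ j : Fin 3, (k j : ℂ) *
        cv (cmp (cb φ b) j r) (cmp (cb ψ b) i r) k) :=
      Gd.sum3 fun j => ((ih φ hφ j).cv (ih ψ hψ i)).mul (mul_coord j)
    have hP : Gd n (fun r k => ∑ l : Fin 3, ∑ j : Fin 3,
        -((k l : ℂ) * (k j : ℂ) / (h782.GD.sq k : ℂ)) *
          cv (cmp (cb φ b) j r) (cmp (cb ψ b) l r) k) := Gd.sum3 fun l => Gd.sum3 fun j =>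
      ((ih φ hφ j).cv (ih ψ hψ l)).mul ((mul_riesz l j).of_le fun k => (norm_neg _).le)
    have h1 := (ih _ hφ.deriv i).add (((ih φ hφ i).mul (mul_lam ν)).add
      ((hN.mul (mul_const (-(2 * Real.pi * Complex.I)))).add
      (hP.mul ((mul_D i).of_le (m' := fun k => -(2 * Real.pi * Complex.I * (k i : ℂ)))
        fun k => (norm_neg _).le))))
    refine h1.congr fun r hr k => ?_
    -- products
    have hcv : ∀ j l, cv (cmp (cb φ b) j r) (cmp (cb ψ b) l r) k
        = ((φ r : ℝ) : ℂ) * cv (cmp b j r) (cmp b l r) k := by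
      intro j l
      unfold cv
      rw [← tsum_mul_left]
      refine tsum_congr fun p => ?_
      rw [cmp_cb, cmp_cb]
      unfold h32.GD.cmp
      by_cases hr' : r ∈ Icc s t
      · rw [hψ1 r hr', Complex.ofReal_one, one_mul]
        ring
      · rw [h0 r hr', Complex.ofReal_zero]
        ring
    simp only [hcv]
    have hnl : ((φ r : ℝ) : ℂ) * nl (b r) (b r) k i
        = ((φ r : ℝ) : ℂ) * ((2 * Real.pi * Complex.I) * Nn b i r k
          + (2 * Real.pi * Complex.I * (k i : ℂ)) * pk b r k) := by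
      by_cases hr' : r ∈ Icc s t
      · have e1 : b r = cb ψ b r := by
          rw [cb, hψ1 r hr', Complex.ofReal_one, one_smul]
        have e2 : ∀ j, cmp (cb ψ b) j r = cmp b j r := by
          intro j
          funext l
          rw [cmp_cb, hψ1 r hr', Complex.ofReal_one, one_mul]
          rfl
        have h2 := nl_apply' (a := cb ψ b) (fun j => dec_cb h hψ j) hr k i
        rw [← e1] at h2
        rw [h2]
        simp only [Nn, pk, e2]
      · rw [h0 r hr', Complex.ofReal_zero, zero_mul, zero_mul]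
    simp only [Pi.add_apply, Pi.smul_apply, Pi.sub_apply, smul_eq_mul, mul_sub, hnl, cmp_cb]
    have eN : ∑ j : Fin 3, (k j : ℂ) * (((φ r : ℝ) : ℂ) * cv (cmp b j r) (cmp b i r) k)
        = ((φ r : ℝ) : ℂ) * Nn b i r k := by
      rw [Nn, Finset.mul_sum]
      exact Finset.sum_congr rfl fun j _ => by ring
    have eP : ∑ l : Fin 3, ∑ j : Fin 3, -((k l : ℂ) * (k j : ℂ) / (h782.GD.sq k : ℂ)) *
          (((φ r : ℝ) : ℂ) * cv (cmp b j r) (cmp b l r) k) = ((φ r : ℝ) : ℂ) * pk b r k := by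
      rw [pk, Finset.mul_sum]
      refine Finset.sum_congr rfl fun l _ => ?_
      rw [Finset.mul_sum]
      exact Finset.sum_congr rfl fun j _ => by ring
    rw [eN, eP]
    ring

/-- **Piece PhysO.** -/
theorem physO : StmPhysO := by
  intro ν T b h
  refine ⟨fun t x => (S (pk b t) x).re, ?_⟩
  -- near every time the solution is cut off
  have key : ∀ t ∈ Ioo 0 T, ∃ a : ℝ → Cf, (∀ (n : ℕ) (i : Fin 3), Gd n (cmp a i)) ∧
      (∀ᶠ r in 𝓝 t, a r = b r) := by
    intro t ht
    obtain ⟨φ, hφ, hφ1⟩ := exists_ct (T := T) (s := t / 2) (t := (t + T) / 2)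
      (by linarith [ht.1]) (by linarith [ht.1, ht.2]) (by linarith [ht.2])
    refine ⟨cb φ b, fun n i => gd_cb h n φ hφ i, ?_⟩
    filter_upwards [Ioo_mem_nhds (show t / 2 < t by linarith [ht.1])
      (show t < (t + T) / 2 by linarith [ht.2])] with r hr
    rw [cb, hφ1 r ⟨hr.1.le, hr.2.le⟩, Complex.ofReal_one, one_smul]
  have hpk : ∀ {a : ℝ → Cf} {r : ℝ}, a r = b r → pk a r = pk b r := by
    intro a r hr
    have : ∀ j, cmp a j r = cmp b j r := fun j => by
      funext k
      show a r k j = b r k j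
      rw [hr]
    funext k
    simp only [pk, this]
  have hfld : ∀ {a : ℝ → Cf} {r : ℝ}, a r = b r → fld a r = fld b r := by
    intro a r hr
    funext x i
    simp only [fld, hr]
  have hnb : ∀ (t : ℝ) (x : V), 0 < t → (Ici 0 ×ˢ (univ : Set V)) ∈ 𝓝 ((t, x) : ℝ × V) :=
    fun t x ht => prod_mem_nhds (Ici_mem_nhds ht) univ_mem
  refine ⟨?_, ?_, ?_, ?_, ?_, ?_⟩
  · rintro ⟨t, x⟩ ⟨ht, -⟩
    obtain ⟨a, hg, hab⟩ := key t ht
    refine ContDiffAt.contDiffWithinAt ?_
    have h1 : ContDiffAt ℝ ∞ (fun z : ℝ × V => fld a z.1 z.2) (t, x) := by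
      rw [contDiffAt_pi]
      intro i
      have h2 : ContDiffOn ℝ ∞ (fun z : ℝ × V => (S (cmp a i z.1) z.2).re)
          (Ici 0 ×ˢ univ) :=
        Complex.reCLM.contDiff.comp_contDiffOn (contDiffOn_S_infty (c := cmp a i) fun n => hg n i)
      exact h2.contDiffAt (hnb t x ht.1)
    refine h1.congr_of_eventuallyEq ?_
    have h3 : ∀ᶠ z : ℝ × V in 𝓝 (t, x), a z.1 = b z.1 :=
      (continuous_fst.tendsto (t, x)).eventually hab
    filter_upwards [h3] with z hz
    rw [hfld hz]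
  · rintro ⟨t, x⟩ ⟨ht, -⟩
    obtain ⟨a, hg, hab⟩ := key t ht
    refine ContDiffAt.contDiffWithinAt ?_
    have h1 : ContDiffAt ℝ ∞ (fun z : ℝ × V => (S (pk a z.1) z.2).re) (t, x) := by
      have h2 : ContDiffOn ℝ ∞ (fun z : ℝ × V => (S (pk a z.1) z.2).re) (Ici 0 ×ˢ univ) :=
        Complex.reCLM.contDiff.comp_contDiffOn (contDiffOn_S_infty (c := pk a) fun n =>
          gd_pk' hg n)
      exact h2.contDiffAt (hnb t x ht.1)
    refine h1.congr_of_eventuallyEq ?_
    have h3 : ∀ᶠ z : ℝ × V in 𝓝 (t, x), a z.1 = b z.1 :=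
      (continuous_fst.tendsto (t, x)).eventually hab
    filter_upwards [h3] with z hz
    rw [hpk hz]
  · intro t ht j x
    funext i
    show (S (cmp b i t) _).re = (S (cmp b i t) _).re
    rw [per_S]
  · intro t ht j x
    show (S (pk b t) _).re = (S (pk b t) _).re
    rw [per_S]
  · intro t ht x
    obtain ⟨a, hg, hab⟩ := key t ht
    have h1 := hab.self_of_nhds
    have h2 := div_at (fun i => (hg 0 i).dec) ht.1.le (by rw [h1]; exact h.div t ht) x
    rw [hfld h1] at h2
    exact h2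
  · intro t ht x i
    obtain ⟨a, hg, hab⟩ := key t ht
    have h1 := hab.self_of_nhds
    have h2 := mom_at (ν := ν) hg ht.1 (by rw [h1]; exact h.herm t ht)
      (by rw [h1]; exact h.div t ht) (fun k => by
        rw [h1]
        refine (h.der t ht k).congr_of_eventuallyEq ?_
        filter_upwards [hab] with r hr
        rw [hr]) x i
    have h3 : deriv (fun s => fld a s x i) t = deriv (fun s => fld b s x i) t := by
      refine Filter.EventuallyEq.deriv_eq ?_
      filter_upwards [hab] with r hr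
      rw [hfld hr]
    rw [h3, hfld h1, hpk h1] at h2
    exact h2

end Pool.Agent.Run7.h969.HP
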