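import Pool.Agent.Run7.h969.HP.Defs4
import Pool.Agent.Run7.h969.HP.PhysO
import Pool.Agent.Run7.h969.HP.IndP
import Pool.Agent.Run7.h811.HP.LocP

/-!
Piece Reach, part 1: constant paths of trigonometric polynomials.
-/

set_option autoImplicit false

open MeasureTheory Set Filter Topology
open scoped ContDiff ENNReal ComplexConjugate

namespace Pool.Agent.Run7.h969.HP

open H459R3.NS Pool.Agent.Run7.h782 Pool.Agent.Run7.h782.GD Pool.Agent.Run7.h782.GS
open Pool.Agent.Run7.h782.WS Pool.Agent.Run7.h782.WQ Pool.Agent.Run7.h744.WS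
open Pool.Agent.Run7.h969.WS Pool.Agent.Run7.h782.OS Pool.Agent.Run7.h811.WS

/-- The field with the mean `m` and the other coefficients `z`. -/
noncomputable def tgf (m : V) (z : Cf) : V → V := fun x => m + fld (fun _ => z) 0 x

theorem supp_exp {z : Cf} {Z : Finset K3} (hz : ∀ k ∉ Z, z k = 0) :
    ∃ C : ℝ, 0 ≤ C ∧ ∀ k, ‖z k‖ ≤ C * Real.exp (-(1 * len k)) := by
  refine ⟨∑ k ∈ Z, ‖z k‖ * Real.exp (len k), Finset.sum_nonneg fun k _ => by positivity,
    fun k => ?_⟩
  by_cases hk : k ∈ Z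
  · have h1 : ‖z k‖ * Real.exp (len k) ≤ ∑ k ∈ Z, ‖z k‖ * Real.exp (len k) :=
      Finset.single_le_sum (f := fun k => ‖z k‖ * Real.exp (len k)) (fun k _ => by positivity) hk
    have h2 : Real.exp (len k) * Real.exp (-(1 * len k)) = 1 := by
      rw [← Real.exp_add]
      simp
    calc ‖z k‖ = ‖z k‖ * Real.exp (len k) * Real.exp (-(1 * len k)) := by
          rw [mul_assoc, h2, mul_one]
      _ ≤ _ := mul_le_mul_of_nonneg_right h1 (Real.exp_pos _).le
  · rw [hz k hk, norm_zero]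
    exact mul_nonneg (Finset.sum_nonneg fun k _ => by positivity) (Real.exp_pos _).le

theorem dec_supp {z : Cf} {Z : Finset K3} (hz : ∀ k ∉ Z, z k = 0) (i : Fin 3) :
    h32.GD.Dec (h32.GD.cmp (fun _ => z) i) := by
  obtain ⟨C, hC0, hC⟩ := supp_exp hz
  exact ⟨1, one_pos, C, hC0, fun t _ k => (norm_le_pi_norm (z k) i).trans (hC k)⟩

theorem sum_supp {z : Cf} {Z : Finset K3} (hz : ∀ k ∉ Z, z k = 0) (i : Fin 3) :
    Summable fun k => z k i :=
  summable_of_ne_finset_zero (s := Z) fun k hk => by rw [hz k hk]; rfl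

theorem tgf_smooth (m : V) {z : Cf} {Z : Finset K3} (hz : ∀ k ∉ Z, z k = 0) (i : Fin 3) :
    ContDiff ℝ ∞ fun x => tgf m z x i := by
  obtain ⟨C, -, hC⟩ := supp_exp hz
  have h1 : ContDiff ℝ ∞ fun x : V => (S (fun k => z k i) x).re :=
    h811.HP.smooth_S one_pos fun k => (norm_le_pi_norm (z k) i).trans (hC k)
  exact contDiff_const.add h1

theorem tgf_per (m : V) (z : Cf) : Per (tgf m z) := fun j x => by
  show m + fld (fun _ => z) 0 (x + Pi.single j 1) = m + fld (fun _ => z) 0 x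
  congr 1
  funext i
  show (S (fun k => z k i) (x + Pi.single j 1)).re = (S (fun k => z k i) x).re
  rw [h32.GD.per_S (fun k => z k i) j x]

theorem tgf_div (m : V) {z : Cf} {Z : Finset K3} (hz : ∀ k ∉ Z, z k = 0) (hd : Dv z) (x : V) :
    ∑ i, pd i (fun y => tgf m z y i) x = 0 := by
  have h1 := div_at (a := fun _ => z) (dec_supp hz) le_rfl hd x
  rw [← h1]
  refine Finset.sum_congr rfl fun i _ => ?_
  unfold pd tgf
  have e : (fun y => (m + fld (fun _ => z) 0 y) i) = fun y => m i + fld (fun _ => z) 0 y i := rfl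
  rw [e, fderiv_const_add]

theorem vf_tgf (m : V) {z : Cf} {Z : Finset K3} (hz : ∀ k ∉ Z, z k = 0) (hh : Herm z) (k : K3) :
    vf (tgf m z) k = (if k = 0 then fun i => ((m i : ℝ) : ℂ) else 0) + z k := by
  funext i
  have h1 := fr_field (b := fun _ => z) (m := m) (t := 0) (i := i) (sum_supp hz i) hh k
  have e : (fun x => (m + fld (fun _ => z) 0 (x - (0 : ℝ) • m)) i) = fun x => tgf m z x i := by
    funext x
    rw [zero_smul, sub_zero]
    rfl
  rw [e] at h1
  show fr (fun x => tgf m z x i) k = _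
  rw [h1, ser, zero_smul, neg_zero]
  have e2 : ee k (0 : V) = 1 := by simp [ee, ph]
  rw [e2, one_mul]
  by_cases hk : k = 0
  · simp [hk]
  · simp [hk]

theorem tgf_path (m : V) {z : Cf} {Z : Finset K3} (hz : ∀ k ∉ Z, z k = 0) (hh : Herm z)
    (hd : Dv z) (h0 : z 0 = 0) : PathM m fun _ => tgf m z where
  smooth := contDiff_pi.2 fun i => (tgf_smooth m hz i).comp contDiff_snd
  per := fun _ => tgf_per m z
  divfree := fun _ => tgf_div m hz hd
  mean := fun _ i => by
    have h1 : vf (tgf m z) 0 i = ((m i : ℝ) : ℂ) := by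
      rw [vf_tgf m hz hh 0, h0]
      simp
    have h2 : vf (tgf m z) 0 i = ((∫ x in cube, tgf m z x i : ℝ) : ℂ) := by
      show fr (fun x => tgf m z x i) 0 = _
      rw [h32.GD.fr_zero_eq]
    rw [h1] at h2
    exact_mod_cast h2.symm

theorem bdd_per {f : ℝ → V → V} {K : Set ℝ} (hK : IsCompact K)
    (hf : ContinuousOn (fun z : ℝ × V => f z.1 z.2) (K ×ˢ univ)) (hp : ∀ t ∈ K, Per (f t)) :
    ∃ M : ℝ, 0 ≤ M ∧ ∀ t ∈ K, ∀ x i, |f t x i| ≤ M := by
  obtain ⟨M, hM⟩ := (hK.prod (isCompact_Icc : IsCompact cube)).exists_bound_of_continuousOn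
    (hf.mono (prod_mono le_rfl (subset_univ _)))
  refine ⟨max M 0, le_max_right _ _, fun t ht x i => ?_⟩
  rw [h219.HP.per_fract (hp t ht) x]
  exact ((norm_le_pi_norm (f t fun i => Int.fract (x i)) i).trans
    (hM (t, _) ⟨ht, h219.HP.fract_mem x⟩)).trans (le_max_left _ _)

theorem bdd_path {m : V} {w : ℝ → V → V} (hw : PathM m w) (T : ℝ) :
    ∃ M : ℝ, 0 ≤ M ∧ ∀ t ∈ Icc 0 T, ∀ x i, |w t x i| ≤ M :=
  bdd_per isCompact_Icc hw.smooth.continuous.continuousOn fun t _ => hw.per t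

end Pool.Agent.Run7.h969.HP
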