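import Pool.Agent.Run7.h969.HP.Inf1

/-!
Piece Inf: gluing infinitely many pieces.
-/

set_option autoImplicit false

open MeasureTheory Set Filter Topology
open scoped ContDiff ENNReal ComplexConjugate

namespace Pool.Agent.Run7.h969.HP

open H459R3.NS Pool.Agent.Run7.h782 Pool.Agent.Run7.h782.GD Pool.Agent.Run7.h782.GS
open Pool.Agent.Run7.h782.WS Pool.Agent.Run7.h782.WQ Pool.Agent.Run7.h744.WS
open Pool.Agent.Run7.h969.WS Pool.Agent.Run7.h782.OS Pool.Agent.Run7.h219.OS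
open Pool.Agent.Run7.h219.HP

section

variable {ν : ℝ} {Q : ℕ → ℝ} {c : ℕ → Cf} {τ : ℕ → ℝ} {F : ℕ → Finset ℝ} {u : ℕ → ℝ → V → V}
  {p : ℕ → ℝ → V → ℝ} {T : ℝ}

/-- The singular times. -/
def st (τ : ℕ → ℝ) (F : ℕ → Finset ℝ) : Set ℝ := {t | ∃ n, t - ps τ n ∈ F n ∨ t = ps τ (n + 1)}

theorem st_mem (hτ : ∀ n, 0 < τ n) (hs : HasSum τ T) (hF : ∀ n, ∀ s ∈ F n, s ∈ Ico 0 (τ n)) :
    st τ F ⊆ Ico 0 T := by
  rintro t ⟨n, h | rfl⟩
  · have h1 := hF n _ h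
    have h2 := ps_nonneg hτ n
    have h3 := ps_lt hτ hs (n + 1)
    rw [ps_succ] at h3
    exact ⟨by linarith [h1.1], by linarith [h1.2]⟩
  · exact ⟨ps_nonneg hτ _, ps_lt hτ hs _⟩

theorem st_fin (hτ : ∀ n, 0 < τ n) (hs : HasSum τ T) (hF : ∀ n, ∀ s ∈ F n, s ∈ Ico 0 (τ n))
    {T' : ℝ} (hT' : T' < T) : (st τ F ∩ Iic T').Finite := by
  classical
  obtain ⟨N, hN⟩ := ((ps_tendsto hs).eventually (lt_mem_nhds hT')).exists
  have h1 : (⋃ n ∈ Finset.range N, (((F n).image fun s => s + ps τ n : Finset ℝ) : Set ℝ)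
      ∪ {ps τ (n + 1)}).Finite :=
    (Finset.range N).finite_toSet.biUnion fun n _ =>
      (Finset.finite_toSet _).union (finite_singleton _)
  refine h1.subset ?_
  rintro t ⟨⟨n, h⟩, ht⟩
  have ht' : t < ps τ N := lt_of_le_of_lt ht hN
  rcases h with h | h
  · have h2 := hF n _ h
    have h3 : n < N := by
      by_contra h4
      have h5 := (ps_mono hτ).monotone (not_lt.1 h4)
      linarith [h2.1]
    refine mem_iUnion₂.2 ⟨n, Finset.mem_range.2 h3, Or.inl ?_⟩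
    rw [Finset.coe_image]
    exact ⟨t - ps τ n, h, by ring⟩
  · have h3 : n < N := by
      by_contra h4
      have h5 := (ps_mono hτ).monotone (show N ≤ n + 1 by omega)
      rw [h] at ht'
      linarith
    exact mem_iUnion₂.2 ⟨n, Finset.mem_range.2 h3, Or.inr h⟩

theorem st_sol (hτ : ∀ n, 0 < τ n) (hs : HasSum τ T)
    (h : ∀ n, Pc ν Q (c n) (τ n) (F n) (u n) (p n)) :
    SolOn ν (Ioo 0 T \ st τ F) (gi τ u) (gi τ p) := by
  have ho : ∀ n, IsOpen ((fun t => t - ps τ n) ⁻¹' (Ioo 0 (τ n) \ (F n : Set ℝ))) := fun n =>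
    (isOpen_Ioo.sdiff (F n).finite_toSet.isClosed).preimage (continuous_id.sub continuous_const)
  have hm : ∀ n, ∀ t ∈ (fun t => t - ps τ n) ⁻¹' (Ioo 0 (τ n) \ (F n : Set ℝ)),
      t ∈ Ioc (ps τ n) (ps τ (n + 1)) := by
    intro n t ht
    have h1 : t - ps τ n ∈ Ioo 0 (τ n) := ht.1
    rw [ps_succ]
    exact ⟨by linarith [h1.1], by linarith [h1.2]⟩
  have h1 : ∀ n, SolOn ν ((fun t => t - ps τ n) ⁻¹' (Ioo 0 (τ n) \ (F n : Set ℝ))) (gi τ u)
      (gi τ p) := by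
    intro n
    obtain ⟨τ', hτ', hsol⟩ := (h n).sol
    have h2 : SolOn ν (Ioo 0 (τ n) \ (F n : Set ℝ)) (u n) (p n) :=
      mono_o hsol (sdiff_subset_sdiff_left (Ioo_subset_Ioo_right hτ'.le))
    exact congr_o (ho n) (shift_o (ps τ n) h2) (fun t ht => gi_eq hτ u (hm n t ht))
      fun t ht => gi_eq hτ p (hm n t ht)
  refine mono_o (iUnion_o ho h1) ?_
  rintro t ⟨ht, hn⟩
  obtain ⟨n, h3, h4⟩ := ps_cover hs ht
  have h5 : t < ps τ (n + 1) := h4.lt_of_ne fun h5 => hn ⟨n, Or.inr h5⟩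
  rw [ps_succ] at h5
  refine mem_iUnion.2 ⟨n, ⟨?_, ?_⟩, fun h6 => hn ⟨n, Or.inl h6⟩⟩
  · show 0 < t - ps τ n
    linarith
  · show t - ps τ n < τ n
    linarith

theorem gi_bx (hτ : ∀ n, 0 < τ n) (n : ℕ) {z : ℝ × V} (hz : z ∈ bx τ n) :
    gi τ u z.1 = u n (z.1 - ps τ n) := gi_eq hτ u ⟨hz.1.1, hz.1.2.le⟩

theorem st_meas (hτ : ∀ n, 0 < τ n) (hs : HasSum τ T)
    (h : ∀ n, Pc ν Q (c n) (τ n) (F n) (u n) (p n)) (i : Fin 3) :
    AEStronglyMeasurable (fun z : ℝ × V => gi τ u z.1 z.2 i)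
      (volume.restrict (Ioo 0 T ×ˢ cube)) := by
  rw [Measure.restrict_congr_set (bx_ae hτ hs), aestronglyMeasurable_iUnion_iff]
  intro n
  have h1 : AEStronglyMeasurable (fun z : ℝ × V => u n (z.1 - ps τ n) z.2 i)
      (volume.restrict (bx τ n)) := ((h n).meas i).comp_measurePreserving (bx_shift n)
  exact h1.congr ((ae_restrict_mem (bx_meas τ n)).mono fun z hz => by
    show u n (z.1 - ps τ n) z.2 i = gi τ u z.1 z.2 i
    rw [gi_bx hτ n hz])

theorem st_lq (hτ : ∀ n, 0 < τ n) (hs : HasSum τ T)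
    (hQ : ∀ i, ∑' n, ∫⁻ t in Ioo 0 (τ n), (∫⁻ x in cube, ENNReal.ofReal
      (∑ j, |u n t x j| ^ (2 * Q i))) ^ (2 / (2 * Q i)) ≠ ⊤) (i : ℕ) :
    InLq T (gi τ u) (2 * Q i) := by
  refine ne_top_of_le_ne_top (hQ i) ?_
  refine (lint_pieces hs _ (fun n s => (∫⁻ x in cube, ENNReal.ofReal
      (∑ j, |u n s x j| ^ (2 * Q i))) ^ (2 / (2 * Q i))) fun n s hs' => ?_).trans_eq ?_
  · have e : gi τ u ((∑ i ∈ Finset.range n, τ i) + s) = u n s := by
      have h1 := gi_eq hτ u (n := n) (t := ps τ n + s)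
        ⟨by linarith [hs'.1], by rw [ps_succ]; linarith [hs'.2]⟩
      rw [add_sub_cancel_left] at h1
      exact h1
    rw [e]
  · refine tsum_congr fun n => ?_
    rw [restrict_Ioo_eq_restrict_Ioc]

theorem sq_of_lq {q : ℝ} (hq : 2 ≤ q) {v : ℝ → V → V}
    (hm : ∀ i, AEStronglyMeasurable (fun z : ℝ × V => v z.1 z.2 i)
      (volume.restrict (Ioo 0 T ×ˢ cube))) (h : InLq T v q) (i : Fin 3) :
    IntegrableOn (fun z : ℝ × V => v z.1 z.2 i ^ 2) (Ioo 0 T ×ˢ cube) := by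
  have hm2 : AEStronglyMeasurable (fun z : ℝ × V => v z.1 z.2 i ^ 2)
      (volume.restrict (Ioo 0 T ×ˢ cube)) := (hm i).pow 2
  refine ⟨hm2, ?_⟩
  rw [hasFiniteIntegral_iff_ofReal (Eventually.of_forall fun z => sq_nonneg _)]
  have h3 := hm i
  rw [Measure.volume_eq_prod, ← Measure.prod_restrict] at hm2 h3 ⊢
  rw [lintegral_prod _ hm2.aemeasurable.ennreal_ofReal]
  refine lt_of_le_of_lt (lintegral_mono_ae ?_) (lt_top_iff_ne_top.2 h)
  filter_upwards [h3.prodMk_left] with t ht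
  exact two_le hq ht

theorem st_wc (hτ : ∀ n, 0 < τ n) (hs : HasSum τ T)
    (h : ∀ n, Pc ν Q (c n) (τ n) (F n) (u n) (p n)) (hc : ∀ n, c (n + 1) = vf (u n (τ n)))
    (i : Fin 3) (ψ : V → ℝ) (hψ : ContDiff ℝ ∞ ψ) (hp : Per ψ) :
    ContinuousOn (fun t => ∫ x in cube, gi τ u t x i * ψ x) (Ioo 0 T) := by
  intro t₀ ht₀
  refine ContinuousAt.continuousWithinAt ?_
  obtain ⟨n, h1, h2⟩ := ps_cover hs ht₀
  have hval : gi τ u t₀ = u n (t₀ - ps τ n) := gi_eq hτ u ⟨h1, h2⟩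
  have hsub : t₀ - ps τ n ∈ Ioc 0 (τ n) := by
    rw [ps_succ] at h2
    exact ⟨by linarith, by linarith⟩
  have hcw := (h n).wc i ψ hψ hp (t₀ - ps τ n) hsub
  have htr : Continuous fun t : ℝ => t - ps τ n := by fun_prop
  rcases h2.eq_or_lt with h3 | h3
  · rw [continuousAt_iff_continuous_left'_right']
    have hval' : t₀ - ps τ n = τ n := by
      rw [h3, ps_succ]
      ring
    constructor
    · show Tendsto _ _ (𝓝 (∫ x in cube, gi τ u t₀ x i * ψ x))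
      rw [hval]
      have h4 : Tendsto (fun t : ℝ => t - ps τ n) (𝓝[<] t₀) (𝓝[Ioc 0 (τ n)] (t₀ - ps τ n)) := by
        refine tendsto_nhdsWithin_iff.2 ⟨(htr.tendsto t₀).mono_left nhdsWithin_le_nhds, ?_⟩
        filter_upwards [Ioo_mem_nhdsLT h1] with t ht
        exact ⟨by linarith [ht.1], by linarith [ht.2]⟩
      refine (hcw.tendsto.comp h4).congr' ?_
      filter_upwards [Ioo_mem_nhdsLT h1] with t ht
      show (∫ x in cube, u n (t - ps τ n) x i * ψ x) = _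
      rw [gi_eq hτ u (n := n) (t := t) ⟨ht.1, by linarith [ht.2]⟩]
    · show Tendsto _ _ (𝓝 (∫ x in cube, gi τ u t₀ x i * ψ x))
      obtain ⟨τ', hτ', hsol⟩ := (h n).sol
      have hm : τ n ∈ Ioo 0 τ' \ (F n : Set ℝ) := ⟨⟨hτ n, hτ'⟩, fun h5 =>
        absurd ((h n).mem _ h5).2 (lt_irrefl _)⟩
      have h4 : Tendsto (fun t => t - t₀) (𝓝[>] t₀) (𝓝[>] 0) := by
        have h5 := tr_right t₀ 0
        rwa [zero_add] at h5
      rw [hval, hval', ← pr_vf (fun j => sp_o hsol hm j) i hψ.continuous, ← hc n]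
      refine (((h (n + 1)).wa i ψ hψ hp).comp h4).congr' ?_
      have h6 : t₀ < ps τ (n + 1 + 1) := by
        rw [h3]
        exact ps_mono hτ (Nat.lt_succ_self _)
      filter_upwards [Ioo_mem_nhdsGT h6] with t ht
      show (∫ x in cube, u (n + 1) (t - t₀) x i * ψ x) = _
      rw [gi_eq hτ u (n := n + 1) (t := t) ⟨by rw [← h3]; exact ht.1, ht.2.le⟩, ← h3]
  · have h4 : ContinuousAt (fun t => ∫ x in cube, u n t x i * ψ x) (t₀ - ps τ n) :=
      hcw.continuousAt (Ioc_mem_nhds hsub.1 (by rw [ps_succ] at h3; linarith))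
    have h5 : ContinuousAt (fun t => ∫ x in cube, u n (t - ps τ n) x i * ψ x) t₀ :=
      ContinuousAt.comp (g := fun t => ∫ x in cube, u n t x i * ψ x) (f := fun t => t - ps τ n) h4
        htr.continuousAt
    refine h5.congr ?_
    filter_upwards [Ioo_mem_nhds h1 h3] with t ht
    rw [gi_eq hτ u (n := n) (t := t) ⟨ht.1, ht.2.le⟩]

theorem st_loc (hτ : ∀ n, 0 < τ n) (hs : HasSum τ T)
    (h : ∀ n, Pc ν Q (c n) (τ n) (F n) (u n) (p n)) {s : ℝ} (h0 : s ∈ Ico 0 T) {δ : ℝ}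
    (hδ : 0 < δ) : ∀ᶠ t in 𝓝[>] s, ∀ x i, |gi τ u t x i| ≤ δ / Real.sqrt (t - s) := by
  obtain ⟨n, h1, h2⟩ := ps_cover' hτ hs h0
  have h3 : s - ps τ n ∈ Ico 0 (τ n) := by
    rw [ps_succ] at h2
    exact ⟨by linarith, by linarith⟩
  have h4 := tr_right (ps τ n) (s - ps τ n)
  rw [sub_add_cancel] at h4
  filter_upwards [h4.eventually ((h n).loc _ h3 δ hδ), Ioo_mem_nhdsGT h2] with t h5 h6 x i
  rw [gi_eq hτ u (n := n) (t := t) ⟨by linarith [h6.1], h6.2.le⟩]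
  have h7 := h5 x i
  have e : t - ps τ n - (s - ps τ n) = t - s := by ring
  rwa [e] at h7

/-- The integral over the box. -/
theorem int_bx (hτ : ∀ n, 0 < τ n) (hs : HasSum τ T) {f : ℝ × V → ℝ}
    (hf : IntegrableOn f (Ioo 0 T ×ˢ cube)) {g : ℕ → ℝ × V → ℝ}
    (hg : ∀ n, ∀ z ∈ bx τ n, f z = g n (z.1 - ps τ n, z.2)) :
    HasSum (fun n => ∫ z in Ioo 0 (τ n) ×ˢ cube, g n z) (∫ z in Ioo 0 T ×ˢ cube, f z) := by
  have h1 : IntegrableOn f (⋃ n, bx τ n) := hf.congr_set_ae (bx_ae hτ hs).symm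
  have h2 := hasSum_integral_iUnion (bx_meas τ) (bx_disj hτ) h1
  have e : (fun n => ∫ z in Ioo 0 (τ n) ×ˢ cube, g n z) = fun n => ∫ z in bx τ n, f z := by
    funext n
    rw [setIntegral_congr_fun (bx_meas τ n) (hg n)]
    exact ((bx_shift n).integral_comp shift_me (g n)).symm
  rw [setIntegral_congr_set (bx_ae hτ hs), e]
  exact h2

/-- The integrand of the divergence. -/
theorem div_int {a b : ℝ} {v : ℝ → V → V} {η : ℝ → ℝ} {φ : V → ℝ} (hη : Continuous η)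
    (hφ : SP φ) (hm : ∀ i, AEStronglyMeasurable (fun z : ℝ × V => v z.1 z.2 i)
      (volume.restrict (Ioo a b ×ˢ cube)))
    (h2 : ∀ i, IntegrableOn (fun z : ℝ × V => v z.1 z.2 i ^ 2) (Ioo a b ×ˢ cube)) :
    IntegrableOn (fun z : ℝ × V => η z.1 * ∑ i, v z.1 z.2 i * pd i φ z.2) (Ioo a b ×ˢ cube) := by
  have k1 : IntegrableOn (fun z : ℝ × V => ∑ i, v z.1 z.2 i * pd i φ z.2) (Ioo a b ×ˢ cube) :=
    integrable_finsetSum _ fun i _ => mul_int (ψ := fun z : ℝ × V => pd i φ z.2)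
      (lin_int (hm i) (h2 i)) ((hφ.pd i).cont.comp continuous_snd)
  refine (mul_int (ψ := fun z : ℝ × V => η z.1) k1 (hη.comp continuous_fst)).congr ?_
  exact Eventually.of_forall fun z => mul_comm _ _

end

/-- **Piece Inf.** -/
theorem inf : StmInf := by
  intro ν hν Q hQ1 c τ F u p h hc T hs hQ c₁ hc₁
  have hτ : ∀ n, 0 < τ n := fun n => (h n).pos
  have hT : 0 < T := by
    have := ps_lt hτ hs 0
    rwa [ps_zero] at this
  have hm := st_meas hτ hs h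
  have hlq := st_lq (u := u) hτ hs hQ
  have hsq := sq_of_lq (T := T) (v := gi τ u) (by linarith [hQ1 0]) hm (hlq 0)
  have hval : ∀ n, ∀ t ∈ Ioc 0 (τ n), gi τ u (ps τ n + t) = u n t := by
    intro n t ht
    rw [gi_eq hτ u (n := n) ⟨by linarith [ht.1], by rw [ps_succ]; linarith [ht.2]⟩,
      add_sub_cancel_left]
  refine ⟨st τ F, gi τ u, gi τ p, ⟨st_mem hτ hs fun n => (h n).mem, fun T' hT' =>
    st_fin hτ hs (fun n => (h n).mem) hT', st_sol hτ hs h, hm, hsq, hlq, ?_, ?_,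
    st_wc hτ hs h hc, ?_, fun s h0 δ hδ => st_loc hτ hs h h0 hδ⟩, hval⟩
  · intro η φ hη hφ hp
    have h1 := int_bx hτ hs (div_int hη.continuous ⟨hφ, hp⟩ hm hsq)
      (g := fun n z => η (z.1 + ps τ n) * ∑ i, u n z.1 z.2 i * pd i φ z.2)
      (fun n z hz => by simp only [gi_bx hτ n hz, sub_add_cancel])
    have h2 : (fun n => ∫ z in Ioo 0 (τ n) ×ˢ cube,
        η (z.1 + ps τ n) * ∑ i, u n z.1 z.2 i * pd i φ z.2) = fun _ => 0 := by
      funext n
      exact (h n).div (fun t => η (t + ps τ n)) φ (hη.comp (contDiff_id.add contDiff_const)) hφ hp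
    rw [h2] at h1
    exact h1.unique hasSum_zero
  · intro χ φ hχ hφ hp hd
    have hdT : ∀ (a t : ℝ), deriv (fun t => χ (t + a)) t = deriv χ (t + a) := fun a t =>
      deriv_comp_add_const _ _ _
    have h1 := int_bx hτ hs (wk_int (ν := ν) hm hsq hχ hφ hp)
      (g := fun n => wk ν (u n) (fun t => χ (t + ps τ n)) φ)
      (fun n z hz => by simp only [wk, gi_bx hτ n hz, hdT, sub_add_cancel])
    set P : Cf → ℝ := fun d => ∑ i, pr d i (fun x => φ x i) with hP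
    have h2 : ∀ n, ∫ z in Ioo 0 (τ n) ×ˢ cube, wk ν (u n) (fun t => χ (t + ps τ n)) φ z
        = χ (ps τ (n + 1)) * P (c (n + 1)) - χ (ps τ n) * P (c n) := by
      intro n
      have h3 := (h n).weak (fun t => χ (t + ps τ n)) φ (hχ.comp (contDiff_id.add contDiff_const))
        hφ hp hd
      rw [← hc n] at h3
      have e1 : τ n + ps τ n = ps τ (n + 1) := by rw [ps_succ, add_comm]
      simp only [zero_add, e1] at h3
      show _ = χ (ps τ (n + 1)) * (∑ i, pr (c (n + 1)) i (fun x => φ x i))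
        - χ (ps τ n) * (∑ i, pr (c n) i (fun x => φ x i))
      linarith
    have h4 : Tendsto (fun n => ∑ k ∈ Finset.range n,
        ∫ z in Ioo 0 (τ k) ×ˢ cube, wk ν (u k) (fun t => χ (t + ps τ k)) φ z) atTop
        (𝓝 (∫ z in Ioo 0 T ×ˢ cube, wk ν (gi τ u) χ φ z)) := h1.tendsto_sum_nat
    have h5 : (fun n => ∑ k ∈ Finset.range n,
        ∫ z in Ioo 0 (τ k) ×ˢ cube, wk ν (u k) (fun t => χ (t + ps τ k)) φ z)
        = fun n => χ (ps τ n) * P (c n) - χ 0 * P (c 0) := by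
      funext n
      rw [Finset.sum_congr rfl fun k _ => h2 k,
        Finset.sum_range_sub (fun k => χ (ps τ k) * P (c k)), ps_zero]
    rw [h5] at h4
    have h6 : Tendsto (fun n => P (c n)) atTop (𝓝 (P c₁)) :=
      tendsto_finsetSum _ fun i _ => hc₁ i (fun x => φ x i) (contDiff_pi.1 hφ i)
        fun j x => by
          show φ (x + Pi.single j 1) i = φ x i
          rw [hp j x]
    have h7 : Tendsto (fun n => χ (ps τ n) * P (c n) - χ 0 * P (c 0)) atTop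
        (𝓝 (χ T * P c₁ - χ 0 * P (c 0))) :=
      (((hχ.continuous.tendsto T).comp (ps_tendsto hs)).mul h6).sub_const _
    have h8 := tendsto_nhds_unique h4 h7
    show χ 0 * P (c 0) - χ T * P c₁ + ∫ z in Ioo 0 T ×ˢ cube, wk ν (gi τ u) χ φ z = 0
    rw [h8]
    ring
  · intro i ψ hψ hp
    refine ((h 0).wa i ψ hψ hp).congr' ?_
    filter_upwards [Ioo_mem_nhdsGT (hτ 0)] with t ht
    have e := hval 0 t ⟨ht.1, ht.2.le⟩
    rw [ps_zero, zero_add] at e
    rw [e]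

end Pool.Agent.Run7.h969.HP
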