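import Pool.Agent.Run7.h969.HP.Rch5
import Pool.Agent.Run7.h219.HP.Ind

/-!
Piece PcL: one step as a piece.
-/

set_option autoImplicit false

open MeasureTheory Set Filter Topology
open scoped ContDiff ENNReal ComplexConjugate

namespace Pool.Agent.Run7.h969.HP

open H459R3.NS Pool.Agent.Run7.h782 Pool.Agent.Run7.h782.GD Pool.Agent.Run7.h782.GS
open Pool.Agent.Run7.h782.WS Pool.Agent.Run7.h782.WQ Pool.Agent.Run7.h744.WS
open Pool.Agent.Run7.h969.WS Pool.Agent.Run7.h782.OS Pool.Agent.Run7.h219.OS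
open Pool.Agent.Run7.h219.HP

/-- **Piece PcL.** -/
theorem pcL : StmPcL := by
  intro ν hν m w ε s τ c Q Φ δ τ' u p hτ hτ' h
  have hτm : τ ∈ Ioo 0 τ' := ⟨hτ, hτ'⟩
  have hsub : Ioo 0 τ ⊆ Ioo 0 τ' := Ioo_subset_Ioo_right hτ'.le
  have hsp : ∀ i, SP (fun y => u τ y i) := fun i => sp_o h.sol hτm i
  have hL' : ∀ i, IntegrableOn (fun z : ℝ × V => u z.1 z.2 i ^ 2) (Ioo 0 τ ×ˢ cube) := fun i =>
    (h.sq i).mono_set (prod_mono Ioo_subset_Ioc_self le_rfl)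
  refine ⟨hτ, fun s hs => absurd hs (Finset.notMem_empty s), ⟨τ', hτ', ?_⟩, fun i => ?_, hL', h.lq,
    fun η φ hη hφ hp => div_o (mono_o h.sol hsub) hL' η φ hη hφ hp, ?_, ?_, h.wa, ?_⟩
  · rw [Finset.coe_empty, sdiff_empty]
    exact h.sol
  · exact ((smooth_o h.sol i).continuousOn.mono
      (prod_mono hsub (subset_univ _))).aestronglyMeasurable (boxm 0 τ)
  · intro χ φ hχ hφ hp hd
    have h3 := stmVWL ν τ τ' hν hτ hτ' u p h.sol h.sq c h.wa χ φ hχ hφ hp hd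
    have e : ∑ i, pr (vf (u τ)) i (fun x => φ x i) = ∑ i, ∫ x in cube, u τ x i * φ x i :=
      Finset.sum_congr rfl fun i _ => pr_vf hsp i (contDiff_pi.1 hφ i).continuous
    rw [e]
    exact h3
  · exact fun i ψ hψ _ => (pair_cont isOpen_Ioo h.sol hψ.continuous i).mono
      fun t ht => ⟨ht.1, lt_of_le_of_lt ht.2 hτ'⟩
  · intro s hs δ hδ
    rcases hs.1.eq_or_lt with rfl | hs0
    · obtain ⟨b, hb1, hb2⟩ := h.loc
      exact loc_zero hτ hb1 hb2 hδ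
    · exact ev_reg isOpen_Ioo h.sol ⟨hs0, hs.2.trans hτ'⟩ hδ

end Pool.Agent.Run7.h969.HP
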