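import Pool.Agent.Run7.h969.HP.Rch4

/-!
Piece Reach, part 5: assembly.
-/

set_option autoImplicit false

open MeasureTheory Set Filter Topology
open scoped ContDiff ENNReal ComplexConjugate

namespace Pool.Agent.Run7.h969.HP

open H459R3.NS Pool.Agent.Run7.h782 Pool.Agent.Run7.h782.GD Pool.Agent.Run7.h782.GS
open Pool.Agent.Run7.h782.WS Pool.Agent.Run7.h782.WQ Pool.Agent.Run7.h744.WS
open Pool.Agent.Run7.h969.WS Pool.Agent.Run7.h782.OS Pool.Agent.Run7.h811.WS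

/-- The distance to the path on one piece. -/
theorem near_pc {Φ : ℝ → ℝ} (hΦ : Orl Φ) {B τ κ : ℝ} (hB : 0 ≤ B) (hτ : 0 < τ) (hκ : 0 ≤ κ)
    (hBτ : τ * Φ (2 * B) ≤ κ) {h : ℝ → ℝ} (h0 : ∀ t, 0 ≤ h t)
    (hh : ∫⁻ t in Ioc 0 τ, ENNReal.ofReal (Φ (2 * h t)) ≤ ENNReal.ofReal κ) :
    ∫⁻ t in Ioc 0 τ, ENNReal.ofReal (Φ (B + h t)) ≤ ENNReal.ofReal (2 * κ) := by
  have hpt : ∀ t, ENNReal.ofReal (Φ (B + h t))
      ≤ ENNReal.ofReal (Φ (2 * B)) + ENNReal.ofReal (Φ (2 * h t)) := by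
    intro t
    have ht := h0 t
    have h4 := hΦ.conv.2 (mem_Ici.2 (by positivity : 0 ≤ 2 * B))
      (mem_Ici.2 (by positivity : 0 ≤ 2 * h t)) (by norm_num : (0 : ℝ) ≤ 1 / 2)
      (by norm_num : (0 : ℝ) ≤ 1 / 2) (by norm_num)
    simp only [smul_eq_mul] at h4
    have e : 1 / 2 * (2 * B) + 1 / 2 * (2 * h t) = B + h t := by ring
    rw [e] at h4
    have h5 := hΦ.nonneg (2 * B) (by positivity)
    have h6 := hΦ.nonneg (2 * h t) (by positivity)
    rw [← ENNReal.ofReal_add h5 h6]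
    exact ENNReal.ofReal_le_ofReal (by linarith)
  calc ∫⁻ t in Ioc 0 τ, ENNReal.ofReal (Φ (B + h t))
      ≤ ∫⁻ t in Ioc 0 τ, (ENNReal.ofReal (Φ (2 * B)) + ENNReal.ofReal (Φ (2 * h t))) :=
        lintegral_mono fun t => hpt t
    _ = ENNReal.ofReal τ * ENNReal.ofReal (Φ (2 * B))
        + ∫⁻ t in Ioc 0 τ, ENNReal.ofReal (Φ (2 * h t)) := by
        rw [lintegral_add_left measurable_const, lintegral_const, Measure.restrict_apply_univ,
          Real.volume_Ioc, sub_zero, mul_comm]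
    _ ≤ ENNReal.ofReal κ + ENNReal.ofReal κ := by
        refine add_le_add ?_ hh
        rw [← ENNReal.ofReal_mul hτ.le]
        exact ENNReal.ofReal_le_ofReal hBτ
    _ = ENNReal.ofReal (2 * κ) := by
        rw [← ENNReal.ofReal_add hκ hκ]
        congr 1
        ring

/-- A factor which avoids finitely many values. -/
theorem exists_lam {T σ : ℝ} (hσ : 0 < σ) (F : Finset ℝ) :
    ∃ l ∈ Ioo (0 : ℝ) 1, T - l * σ ∉ F := by
  have h1 : ((fun l : ℝ => T - l * σ) ⁻¹' (F : Set ℝ)).Finite := by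
    refine F.finite_toSet.preimage fun a _ b _ hab => ?_
    have h2 : T - a * σ = T - b * σ := hab
    have h3 : a * σ = b * σ := by linarith
    exact mul_right_cancel₀ hσ.ne' h3
  obtain ⟨l, hl, hl'⟩ := (Ioo_infinite (show (0 : ℝ) < 1 by norm_num)).exists_notMem_finite h1
  exact ⟨l, hl, hl'⟩

/-- **Piece Reach.** -/
theorem reach (hHPP : StmHPP) (hE : StmLocE) (hU : StmLocU) (hPL : StmPcL) (hPG : StmPcG)
    (hInf : StmInf) (hD1 : StmD1S) : StmReach := by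
  intro ν hν T hT m w hw c c₁ hc hm hc₁ hm₁ Q hQ hR hR₁ Φ hΦ ε hε
  choose η₀ hη₀ hU' using fun j : ℕ => hU ν hν Q hQ j ((1 / 2) ^ j) (by positivity)
  set η : ℕ → ℝ := fun j => min (η₀ j) ((1 / 2) ^ j) with hηd
  have hη : ∀ j, 0 < η j := fun j => lt_min (hη₀ j) (by positivity)
  have hηh : ∀ j, η j ≤ (1 / 2) ^ j := fun j => min_le_right _ _
  have hU2 : ∀ j : ℕ, ∀ (m : V) (w : ℝ → V → V), PathM m w → ∀ T ε : ℝ, 0 < T → 0 < ε →
      ∃ τ₀ : ℝ, 0 < τ₀ ∧ ∀ τ, 0 < τ → τ < τ₀ → ∀ s ∈ Icc 0 T, ∀ c : Cf, Herm c → Dv c →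
      (∀ i, c 0 i = ((m i : ℝ) : ℂ)) → (Summable fun k => ‖c k‖) →
      ∀ (Z : Finset K3) (r : Mf), (∀ i j, ∀ k ∉ Z, r i j k = 0) → Sy r →
      (∀ i, i ≤ j → rp (Q i) r ≤ η j) →
      (∀ A : Finset K3, ∑ k ∈ A, ‖c k - vf (w s) k - dvr r k‖ ≤ η j) →
      ∀ Φ : ℝ → ℝ, Orl Φ → ∀ δ : ℝ, 0 < δ →
      ∃ (τ' : ℝ) (u : ℝ → V → V) (p : ℝ → V → ℝ), τ < τ' ∧ Lc ν m w ε s τ c Q Φ δ τ' u p ∧
        ∀ i, i ≤ j → ∫⁻ t in Ioo 0 τ, (∫⁻ x in cube, ENNReal.ofReal (∑ j, |u t x j| ^ (2 * Q i)))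
          ^ (2 / (2 * Q i)) ≤ ENNReal.ofReal ((1 / 2) ^ j) := by
    intro j m w hw T ε hT hε
    obtain ⟨τ₀, h0, H⟩ := hU' j m w hw T ε hT hε
    exact ⟨τ₀, h0, fun τ hτ hττ s hs c h1 h2 h3 h4 Z r h5 h6 h7 h8 Φ hΦ δ hδ =>
      H τ hτ hττ s hs c h1 h2 h3 h4 Z r h5 h6 (fun i hi => (h7 i hi).trans (min_le_left _ _))
        (fun A => (h8 A).trans (min_le_left _ _)) Φ hΦ δ hδ⟩
  obtain ⟨g, ρ, hg, hlim, C, hC⟩ := tgs_ex hD1 m hc₁ hm₁ hQ hR₁ hη
  set ε' : ℕ → ℝ := fun j => min (1 / 2) (η (j + 1) / 2) with hε'd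
  have hε' : ∀ j, 0 < ε' j := fun j => lt_min (by norm_num) (half_pos (hη _))
  have hε'η : ∀ j, ε' j ≤ η (j + 1) / 2 := fun j => min_le_right _ _
  choose τ₀ hτ₀ hstp using stp_ex hE hν hQ hU2 hg hε'
  -- bounds
  choose Gb hGb0 hGb using fun j => bdd_path (hg.path j) 1
  obtain ⟨W, hW0, hW⟩ := bdd_path hw T
  set B : ℕ → ℝ := fun j => ε' j + Gb j + W with hBd
  have hB : ∀ j, 0 ≤ B j := fun j => by
    have := (hε' j).le
    have := hGb0 j
    simp only [hBd]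
    positivity
  have hΦB : ∀ j, 0 ≤ Φ (2 * B j) := fun j => hΦ.nonneg _ (by have := hB j; positivity)
  set β : ℕ → ℝ := fun j =>
    min (τ₀ j) (min (T * (1 / 2) ^ (j + 1)) (ε * (1 / 2) ^ (j + 3) / (Φ (2 * B j) + 1))) with hβd
  have hβ : ∀ j, 0 < β j := fun j => by
    have := hΦB j
    exact lt_min (hτ₀ j) (lt_min (by positivity) (by positivity))
  have hβτ : ∀ j, β j ≤ τ₀ j := fun j => min_le_left _ _
  have hβT : ∀ j, β j ≤ T * (1 / 2) ^ (j + 1) := fun j =>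
    (min_le_right _ _).trans (min_le_left _ _)
  have hβB : ∀ j, β j * Φ (2 * B j) ≤ ε * (1 / 2) ^ (j + 3) := fun j => by
    have h1 : β j ≤ ε * (1 / 2) ^ (j + 3) / (Φ (2 * B j) + 1) :=
      (min_le_right _ _).trans (min_le_right _ _)
    have h2 := hΦB j
    rw [le_div_iff₀ (by positivity)] at h1
    nlinarith [hβ j]
  have hgeo : HasSum (fun j : ℕ => T * (1 / 2 : ℝ) ^ (j + 1)) T := by
    have h1 : HasSum (fun j : ℕ => (1 / 2 : ℝ) ^ (j + 1)) 1 := by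
      have h2 := (hasSum_geometric_of_lt_one (show (0 : ℝ) ≤ 1 / 2 by norm_num)
        (by norm_num)).mul_right (1 / 2)
      have e : (1 - 1 / 2 : ℝ)⁻¹ * (1 / 2) = 1 := by norm_num
      rw [e] at h2
      exact h2.congr_fun fun j => (pow_succ _ _)
    have h3 := h1.mul_left T
    rwa [mul_one] at h3
  have hβs : Summable β := Summable.of_nonneg_of_le (fun j => (hβ j).le) hβT hgeo.summable
  set σ : ℝ := ∑' j, β j with hσd
  have hσ : 0 < σ := hβs.tsum_pos (fun j => (hβ j).le) 0 (hβ 0)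
  have hσT : σ ≤ T := by
    rw [← hgeo.tsum_eq]
    exact hβs.tsum_le_tsum hβT hgeo.summable
  -- the first part
  obtain ⟨F₀, u₀, p₀, f1, f2, f3, f4, f5, f6, ⟨h₀, f7, f8, f9⟩, -⟩ :=
    hHPP ν hν T hT m w hw c hc hm Q hQ hR Φ hΦ (ε / 2) (by positivity)
  obtain ⟨lam, hlam, hlF⟩ := exists_lam (T := T) hσ F₀
  set Ta : ℝ := T - lam * σ with hTad
  have hlσ : 0 < lam * σ := mul_pos hlam.1 hσ
  have hlσT : lam * σ < T := by nlinarith [hlam.2]
  have hTa : 0 < Ta := by rw [hTad]; linarith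
  have hTaT : Ta < T := by rw [hTad]; linarith
  have hPc0 := hPG ν hν Q hQ c hc F₀ u₀ p₀ (fun s hs => (f1 s hs).1) f2 f3 f4 f5 f6 Ta hTa hlF
  -- the other parts
  set τ : ℕ → ℝ := fun j => lam * β j with hτd
  have hτ : ∀ j, 0 < τ j := fun j => mul_pos hlam.1 (hβ j)
  have hτβ : ∀ j, τ j < β j := fun j => by
    have := hβ j
    simp only [hτd]
    nlinarith [hlam.2]
  have hττ : ∀ j, τ j < τ₀ j := fun j => (hτβ j).trans_le (hβτ j)
  have hτs : HasSum τ (lam * σ) := hβs.hasSum.mul_left lam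
  set δ : ℕ → ℝ := fun j => min (τ j) (min (η (j + 1) / 2) (ε * (1 / 2) ^ (j + 3))) with hδd
  have hδ : ∀ j, 0 < δ j := fun j => lt_min (hτ j) (lt_min (half_pos (hη _)) (by positivity))
  have hδτ : ∀ j, δ j ≤ τ j := fun j => min_le_left _ _
  have hδη : ∀ j, δ j ≤ η (j + 1) / 2 := fun j => (min_le_right _ _).trans (min_le_left _ _)
  have hδε : ∀ j, δ j ≤ ε * (1 / 2) ^ (j + 3) := fun j =>
    (min_le_right _ _).trans (min_le_right _ _)
  have hΦ₂ := hΦ.dilate two_pos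
  obtain ⟨D, hD0, hDP, hDR⟩ := exists_rec' (X := Cf) (Stg m η g)
    (fun j D D' => ∃ (τ' : ℝ) (u : ℝ → V → V) (p : ℝ → V → ℝ), τ j < τ' ∧
      Lc ν m (fun _ => g j) (ε' j) 0 (τ j) D Q (fun x => Φ (2 * x)) (δ j) τ' u p ∧
      D' = vf (u (τ j)) ∧
      (1 ≤ j → ∀ i, i ≤ j → ∫⁻ t in Ioo 0 (τ j), (∫⁻ x in cube, ENNReal.ofReal
        (∑ j, |u t x j| ^ (2 * Q i))) ^ (2 / (2 * Q i)) ≤ ENNReal.ofReal ((1 / 2) ^ j)))
    (vf (u₀ Ta)) (by
      have hmem : Ta ∈ Ioi 0 \ (F₀ : Set ℝ) := ⟨hTa, hlF⟩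
      obtain ⟨a1, a2, a3, a4⟩ := stg_data f2 hmem (mean_pc hPc0 hm)
      exact ⟨a1, a2, a3, a4, fun i hi => absurd hi (by omega)⟩)
    (fun j D hD => by
      obtain ⟨τ', u, p, h1, h2, h3⟩ := hstp j (τ j) (hτ j) (hττ j) D hD _ hΦ₂ (δ j) (hδ j)
      have hmem : τ j ∈ Ioo 0 τ' := ⟨hτ j, h1⟩
      obtain ⟨a1, a2, a3, a4⟩ := stg_data h2.sol hmem (h2.mean (τ j) ⟨hτ j, le_rfl⟩)
      refine ⟨vf (u (τ j)), ⟨a1, a2, a3, a4, fun i hi A => ?_⟩, τ', u, p, h1, h2, rfl, h3⟩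
      have e : i = j := by omega
      subst e
      have h4 := h2.close (τ i) ⟨hτ i, le_rfl⟩ (hδτ i) A
      have h5 := hε'η i
      have h6 := hδη i
      exact h4.trans (by linarith))
  choose τ' u p h1 h2 h3 h4 using hDR
  choose hj hj0 hj1 hj2 using fun j => (h2 j).near
  -- the pieces
  set cs : ℕ → Cf := fun n => Nat.casesOn n c D with hcs
  set τs : ℕ → ℝ := fun n => Nat.casesOn n Ta τ with hτsd
  set Fs : ℕ → Finset ℝ := fun n => Nat.casesOn n (F₀.filter fun s => s < Ta) fun _ => ∅ with hFs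
  set us : ℕ → ℝ → V → V := fun n => Nat.casesOn n u₀ u with hus
  set ps : ℕ → ℝ → V → ℝ := fun n => Nat.casesOn n p₀ p with hps
  have hPc : ∀ n, Pc ν Q (cs n) (τs n) (Fs n) (us n) (ps n) := by
    rintro (_ | n)
    · exact hPc0
    · exact hPL ν hν m _ _ _ _ _ Q _ _ _ _ _ (hτ n) (h1 n) (h2 n)
  have hch : ∀ n, cs (n + 1) = vf (us n (τs n)) := by
    rintro (_ | n)
    · exact hD0
    · exact h3 n
  have hτsp : ∀ n, 0 < τs n := fun n => (hPc n).pos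
  have hsum : HasSum τs T := by
    rw [← hasSum_nat_add_iff' 1]
    have e : T - ∑ i ∈ Finset.range 1, τs i = lam * σ := by
      rw [Finset.sum_range_one]
      show T - Ta = lam * σ
      rw [hTad]
      ring
    rw [e]
    exact hτs
  have hfin : ∀ i, ∑' n, ∫⁻ t in Ioo 0 (τs n), (∫⁻ x in cube, ENNReal.ofReal
      (∑ j, |us n t x j| ^ (2 * Q i))) ^ (2 / (2 * Q i)) ≠ ⊤ := by
    intro i
    refine tsum_ne_top' (N := i + 2) (g := fun n => ENNReal.ofReal (2 * (1 / 2) ^ n))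
      (fun n => (hPc n).lq i) (fun n hn => ?_) ?_
    · obtain ⟨n', rfl⟩ : ∃ n', n = n' + 1 := ⟨n - 1, by omega⟩
      refine (h4 n' (by omega) i (by omega)).trans (le_of_eq ?_)
      congr 1
      rw [pow_succ]
      ring
    · rw [← ENNReal.ofReal_tsum_of_nonneg (fun j => by positivity)
        ((summable_geometric_of_lt_one (by norm_num) (by norm_num)).mul_left 2)]
      exact ENNReal.ofReal_ne_top
  -- the limit
  have hDg : ∀ n k, ‖D (n + 1) k - vf (g n) k‖ ≤ (1 / 2) ^ (n + 1) := fun n k => by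
    have h5 := (hDP (n + 1)).near n rfl {k}
    rw [Finset.sum_singleton] at h5
    exact h5.trans (hηh _)
  have hDl : ∀ k, Tendsto (fun n => D (n + 1) k) atTop (𝓝 (c₁ k)) := by
    intro k
    have h5 : Tendsto (fun n => D (n + 1) k - vf (g n) k) atTop (𝓝 0) := by
      rw [tendsto_zero_iff_norm_tendsto_zero]
      refine squeeze_zero (fun _ => norm_nonneg _) (fun n => hDg n k) ?_
      exact (tendsto_add_atTop_iff_nat 1).2
        (tendsto_pow_atTop_nhds_zero_of_lt_one (by norm_num) (by norm_num))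
    have h6 := h5.add (hlim k)
    rw [zero_add] at h6
    refine h6.congr fun n => ?_
    abel
  have hDb : ∀ n k, ‖D (n + 1) k‖ ≤ (C + 1) * (1 + len k) ^ 1 := by
    intro n k
    have h5 := norm_add_le (vf (g n) k) (D (n + 1) k - vf (g n) k)
    rw [add_sub_cancel] at h5
    have h6 : ((1 : ℝ) / 2) ^ (n + 1) ≤ 1 := pow_le_one₀ (by norm_num) (by norm_num)
    have h7 := hDg n k
    have h8 := hC n k
    have h9 := GD.len_nonneg k
    rw [pow_one] at h8 ⊢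
    nlinarith
  have hpr : ∀ (i : Fin 3) (ψ : V → ℝ), ContDiff ℝ ∞ ψ → Per ψ →
      Tendsto (fun n => pr (cs n) i ψ) atTop (𝓝 (pr c₁ i ψ)) := by
    intro i ψ hψ hp
    rw [← tendsto_add_atTop_iff_nat 2]
    exact pr_lim hDb hDl ⟨hψ, hp⟩ i
  obtain ⟨F', v, q, hRch, hv⟩ := hInf ν hν Q hQ cs τs Fs us ps hPc hch T hsum hfin c₁ hpr
  refine ⟨F', v, q, hRch, ?_⟩
  -- the distance to the path
  set Hs : ℕ → ℝ → ℝ := fun n => Nat.casesOn n h₀ fun j t => B j + hj j t with hHs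
  have hHs0 : ∀ n t, 0 ≤ Hs n t := by
    rintro (_ | n) t
    · exact f7 t
    · exact add_nonneg (hB n) (hj0 n t)
  have hbd : ∀ n, ∀ s ∈ Ioc 0 (τs n), ∀ x i,
      |us n s x i - w ((∑ i ∈ Finset.range n, τs i) + s) x i| ≤ Hs n s := by
    rintro (_ | n) s hs x i
    · rw [Finset.range_zero, Finset.sum_empty, zero_add]
      have hs' : s ≤ Ta := hs.2
      exact f8 s ⟨hs.1, hs'.trans_lt hTaT⟩ x i
    · have hm1 := part_le hτsp hsum (n := n + 1) hs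
      have a1 : |u n s x i - g n x i| ≤ ε' n + hj n s := by
        have := hj1 n s hs x i
        simpa using this
      have a2 := hGb n 0 ⟨le_rfl, zero_le_one⟩ x i
      have a3 := hW _ hm1 x i
      show |u n s x i - w _ x i| ≤ B n + hj n s
      have e : u n s x i - w ((∑ i ∈ Finset.range (n + 1), τs i) + s) x i
          = (u n s x i - g n x i) + g n x i - w ((∑ i ∈ Finset.range (n + 1), τs i) + s) x i := by
        ring
      rw [e]
      refine (abs_sub _ _).trans ?_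
      have a4 := abs_add_le (u n s x i - g n x i) (g n x i)
      have e2 : B n = ε' n + Gb n + W := rfl
      rw [e2]
      linarith
  have hpt : ∀ t ∈ Ioo 0 T, ∃ n, ∃ s ∈ Ioc 0 (τs n), t = (∑ i ∈ Finset.range n, τs i) + s ∧
      ∀ x i, |v t x i - w t x i| ≤ Hs n s := by
    intro t ht
    obtain ⟨n, s, hs, rfl⟩ := cover hsum ht
    refine ⟨n, s, hs, rfl, fun x i => ?_⟩
    rw [hv n s hs]
    exact hbd n s hs x i
  set h : ℝ → ℝ := fun t => ⨆ z : V × Fin 3, |v t z.1 z.2 - w t z.1 z.2| with hh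
  have hnn : ∀ t, 0 ≤ h t := fun t => Real.iSup_nonneg fun _ => abs_nonneg _
  have hle : ∀ n, ∀ s ∈ Ioc 0 (τs n), h ((∑ i ∈ Finset.range n, τs i) + s) ≤ Hs n s := by
    intro n s hs
    refine Real.iSup_le (fun z => ?_) (hHs0 n s)
    rw [hv n s hs]
    exact hbd n s hs z.1 z.2
  refine ⟨h, hnn, fun t ht x i => ?_, ?_⟩
  · obtain ⟨n, s, -, -, hb⟩ := hpt t ht
    exact le_ciSup (f := fun z : V × Fin 3 => |v t z.1 z.2 - w t z.1 z.2|)
      ⟨Hs n s, by rintro _ ⟨z, rfl⟩; exact hb z.1 z.2⟩ (x, i)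
  · refine (lint_pieces hsum (fun t => ENNReal.ofReal (Φ (h t)))
      (fun n s => ENNReal.ofReal (Φ (Hs n s)))
      fun n s hs => ENNReal.ofReal_le_ofReal (hΦ.mono (hnn _) (hle n s hs))).trans ?_
    rw [tsum_eq_zero_add' ENNReal.summable]
    have hsub : Ioc 0 Ta ⊆ Ioo 0 T := fun t ht => ⟨ht.1, lt_of_le_of_lt ht.2 hTaT⟩
    have b1 : ∫⁻ s in Ioc 0 (τs 0), ENNReal.ofReal (Φ (Hs 0 s)) ≤ ENNReal.ofReal (ε / 2) :=
      (lintegral_mono_set hsub).trans f9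
    have b2 : ∀ j, ∫⁻ s in Ioc 0 (τs (j + 1)), ENNReal.ofReal (Φ (Hs (j + 1) s))
        ≤ ENNReal.ofReal (ε / 2 * (1 / 2) ^ (j + 1)) := by
      intro j
      have b3 := near_pc hΦ (hB j) (hτ j) (κ := ε * (1 / 2) ^ (j + 3)) (by positivity)
        (le_trans (mul_le_mul_of_nonneg_right (hτβ j).le (hΦB j)) (hβB j)) (hj0 j)
        ((hj2 j).trans (ENNReal.ofReal_le_ofReal (hδε j)))
      refine b3.trans (le_of_eq ?_)
      congr 1
      rw [show j + 3 = j + 1 + 2 by omega, pow_add]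
      ring
    have b4 : HasSum (fun j : ℕ => ε / 2 * (1 / 2 : ℝ) ^ (j + 1)) (ε / 2) := by
      have b5 := hgeo.mul_left (ε / 2 / T)
      have e : ε / 2 / T * T = ε / 2 := by field_simp
      rw [e] at b5
      refine b5.congr_fun fun j => ?_
      field_simp
    calc _ ≤ ENNReal.ofReal (ε / 2) + ∑' j : ℕ, ENNReal.ofReal (ε / 2 * (1 / 2) ^ (j + 1)) :=
          add_le_add b1 (ENNReal.tsum_le_tsum b2)
      _ = ENNReal.ofReal (ε / 2) + ENNReal.ofReal (ε / 2) := by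
          rw [← ENNReal.ofReal_tsum_of_nonneg (fun j => by positivity) b4.summable, b4.tsum_eq]
      _ = ENNReal.ofReal ε := by
          rw [← ENNReal.ofReal_add (by positivity) (by positivity), add_halves]

end Pool.Agent.Run7.h969.HP
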