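import Pool.Agent.Run7.h969.HP.Rch5
import Pool.Agent.Run7.h969.HP.BrP

/-!
The steering theorem, from the piece Reach.
-/

set_option autoImplicit false

open MeasureTheory Set Filter Topology
open scoped ContDiff ENNReal ComplexConjugate

namespace Pool.Agent.Run7.h969.HP

open H459R3.NS Pool.Agent.Run7.h782 Pool.Agent.Run7.h782.GD Pool.Agent.Run7.h782.GS
open Pool.Agent.Run7.h782.WS Pool.Agent.Run7.h782.WQ Pool.Agent.Run7.h744.WS
open Pool.Agent.Run7.h969.WS Pool.Agent.Run7.h782.OS Pool.Agent.Run7.h219.OS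
open Pool.Agent.Run7.h219.HP

/-- The conclusion of the steering theorem. -/
structure Stc (ν : ℝ) (Q : ℕ → ℝ) (c : Cf) (S T : ℝ) (U w : ℝ → V → V) (Φ : ℝ → ℝ) (ε : ℝ)
    (F : Set ℝ) (u : ℝ → V → V) (p : ℝ → V → ℝ) : Prop where
  mem : F ⊆ Ico S T
  fin : ∀ T', T' < T → (F ∩ Iic T').Finite
  late : ∀ t, T < t → u t = U (t - T)
  sol : SolOn ν (Ioo S T \ F) u p
  vw : ∀ T', 0 < T' → VW ν T' c u
  lq : ∀ T', 0 < T' → ∀ n, InLq T' u (2 * Q n)
  wc : ∀ (i : Fin 3) (ψ : V → ℝ), ContDiff ℝ ∞ ψ → Per ψ →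
    ContinuousOn (fun t => ∫ x in cube, u t x i * ψ x) (Ioo S T)
  loc : ∀ s ∈ Ico S T, ∀ δ : ℝ, 0 < δ → ∀ᶠ t in 𝓝[>] s, ∀ x i, |u t x i| ≤ δ / Real.sqrt (t - s)
  near : ∃ h : ℝ → ℝ, (∀ t, 0 ≤ h t) ∧ (∀ t ∈ Ioo S T, ∀ x i, |u t x i - w t x i| ≤ h t) ∧
    ∫⁻ t in Ioo S T, ENNReal.ofReal (Φ (h t)) ≤ ENNReal.ofReal ε

theorem lq_glue {τ : ℝ} {u v : ℝ → V → V} {q : ℝ} (h1 : InLq τ u q)
    (h2 : ∀ T', 0 < T' → InLq T' v q) {T' : ℝ} (hT' : 0 < T') (hτ : 0 ≤ τ) :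
    InLq T' (gl τ u v) q := by
  have h9 := lint_glue (τ := τ) (T := T')
    (H := fun t => (∫⁻ x in cube, ENNReal.ofReal (∑ i, |gl τ u v t x i| ^ q)) ^ (2 / q))
    (H₁ := fun t => (∫⁻ x in cube, ENNReal.ofReal (∑ i, |u t x i| ^ q)) ^ (2 / q))
    (H₂ := fun t => (∫⁻ x in cube, ENNReal.ofReal (∑ i, |v t x i| ^ q)) ^ (2 / q))
    (fun t ht => by simp only [gl_le (a := u) (b := v) ht.2.le])
    (fun t ht => by simp only [gl_gt (a := u) (b := v) ht])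
  exact inLq_mono (by linarith : T' ≤ τ + T')
    (ne_top_of_le_ne_top (ENNReal.add_ne_top.2 ⟨h1, h2 T' hT'⟩) h9)

/-- From the time `0`. -/
theorem steer0 (hRe : StmReach) {ν : ℝ} (hν : 0 < ν) {m : V} {c c₁ : Cf} (hc : Dis c)
    (hm : ∀ i, c 0 i = ((m i : ℝ) : ℂ)) (hc₁ : Dis c₁) (hm₁ : ∀ i, c₁ 0 i = ((m i : ℝ) : ℂ))
    {Q : ℕ → ℝ} (hQ : ∀ n, 1 ≤ Q n)
    (hR : ∃ R : Fin 3 → Fin 3 → V → ℝ, Str R ∧ IsDiv R c ∧
      ∀ n i j, IntegrableOn (fun x => |R i j x| ^ Q n) cube)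
    (hR₁ : ∃ R : Fin 3 → Fin 3 → V → ℝ, Str R ∧ IsDiv R c₁ ∧
      ∀ n i j, IntegrableOn (fun x => |R i j x| ^ Q n) cube)
    {U : ℝ → V → V} (hU : ∀ T', 0 < T' → VW ν T' c₁ U)
    (hUq : ∀ T', 0 < T' → ∀ n, InLq T' U (2 * Q n)) {T : ℝ} (hT : 0 < T) {w : ℝ → V → V}
    (hw : PathM m w) {Φ : ℝ → ℝ} (hΦ : Orl Φ) {ε : ℝ} (hε : 0 < ε) :
    ∃ (F : Set ℝ) (u : ℝ → V → V) (p : ℝ → V → ℝ), Stc ν Q c 0 T U w Φ ε F u p := by
  obtain ⟨F, u, p, h, h', h1, h2, h3⟩ :=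
    hRe ν hν T hT m w hw c c₁ hc hm hc₁ hm₁ Q hQ hR hR₁ Φ hΦ ε hε
  have hle : ∀ t ∈ Ioo 0 T, gl T u U t = u t := fun t ht => gl_le ht.2.le
  have hev : ∀ s ∈ Ico 0 T, ∀ᶠ t in 𝓝[>] s, t ∈ Ioo 0 T := fun s hs => by
    filter_upwards [Ioo_mem_nhdsGT hs.2] with t ht
    exact ⟨hs.1.trans_lt ht.1, ht.2⟩
  refine ⟨F, gl T u U, p, ⟨h.mem, h.fin, fun t ht => gl_gt ht, ?_, ?_, ?_, ?_, ?_, ?_⟩⟩
  · have ho : IsOpen (Ioo 0 T \ F) := by
      -- `F` is locally finite in `(-∞, T)`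
      rw [isOpen_iff_mem_nhds]
      intro t ht
      obtain ⟨T', hT1, hT2⟩ := exists_between ht.1.2
      have h4 : IsOpen ((F ∩ Iic T')ᶜ) := (h.fin T' hT2).isClosed.isOpen_compl
      have h5 : t ∈ (F ∩ Iic T')ᶜ := fun h6 => ht.2 h6.1
      filter_upwards [h4.mem_nhds h5, Ioo_mem_nhds ht.1.1 hT1] with s h6 h7
      exact ⟨⟨h7.1, h7.2.trans hT2⟩, fun h8 => h6 ⟨h8, h7.2.le⟩⟩
    exact congr_o ho h.sol (fun t ht => hle t ht.1) fun _ _ => rfl
  · intro T' hT'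
    have h9 : T < max T' (T + 1) := (lt_add_one T).trans_le (le_max_right _ _)
    have h10 : VW ν (max T' (T + 1)) c (gl T u U) :=
      gen_vw hT (c := c₁) h.meas h.sq h.div h.weak (fun t ht => gl_le ht.2.le)
        (fun t ht => gl_gt ht) h9 (hU _ (sub_pos.2 h9))
    exact vw_mono h10 (le_max_left _ _)
  · exact fun T' hT' n => lq_glue (h.lq n) (fun T'' h4 => hUq T'' h4 n) hT' hT.le
  · intro i ψ hψ hp
    refine (h.wc i ψ hψ hp).congr fun t ht => ?_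
    show (∫ x in cube, gl T u U t x i * ψ x) = _
    rw [hle t ht]
  · intro s hs δ hδ
    filter_upwards [h.loc s hs δ hδ, hev s hs] with t h4 h5 x i
    rw [hle t h5]
    exact h4 x i
  · exact ⟨h', h1, fun t ht x i => by rw [hle t ht]; exact h2 t ht x i, h3⟩

/-- **The steering theorem.** -/
theorem steer (hE : StmEnd) (hF : StmFinal) (hRe : StmReach) : StmSteer := by
  intro ν hν m c c₁ hc hm hc₁ hm₁ Q hQ T₀ hT₀ v hv hvq U hU hUq S hS T hT w hw Φ hΦ ε hε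
  have hR₁ := (hF ν hν c₁ hc₁ Q hQ).1.1 ⟨1, one_pos, U, hU 1 one_pos, hUq 1 one_pos⟩
  rcases hS.1.eq_or_lt with rfl | hS0
  · -- `S = 0`
    have hR := (hF ν hν c hc Q hQ).1.1 ⟨T₀, hT₀, v, hv, hvq⟩
    obtain ⟨F, u, p, h⟩ := steer0 hRe hν hc hm hc₁ hm₁ hQ hR hR₁ hU hUq hT hw hΦ hε
    exact ⟨F, u, p, h.mem, h.fin, fun t ht => absurd (ht.1.trans ht.2) (lt_irrefl _), h.late,
      h.sol, h.vw, h.lq, h.wc, h.loc, h.near⟩
  · have hv' : VW ν S c v := vw_mono hv hS.2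
    have hlq' : ∀ n, InLq S v (2 * Q n) := fun n => inLq_mono hS.2 (hvq n)
    obtain ⟨c', hc', hc0, hR, hdv, hwk⟩ := hE ν hν c hc Q hQ S hS0 v hv' hlq'
    obtain ⟨F, u, p, h⟩ := steer0 hRe hν hc' (fun i => by rw [hc0, hm]) hc₁ hm₁ hQ hR hR₁ hU hUq
      (sub_pos.2 hT) (hw.shift S) hΦ hε
    have hgt : ∀ t, S < t → gl S v u t = u (t - S) := fun t ht => gl_gt ht
    refine ⟨(fun t => t - S) ⁻¹' F, gl S v u, gl S (fun _ _ => 0) p, ?_, ?_,
      fun t ht => gl_le ht.2.le, ?_, ?_, ?_, ?_, ?_, ?_, ?_⟩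
    · intro t ht
      have := h.mem ht
      exact ⟨by linarith [this.1], by linarith [this.2]⟩
    · intro T' hT'
      have h1 := (h.fin (T' - S) (by linarith)).preimage
        (f := fun t : ℝ => t - S) (fun a _ b _ hab => by
          have h2 : a - S = b - S := hab
          linarith)
      refine h1.subset ?_
      rintro t ⟨ht1, ht2⟩
      exact ⟨ht1, by show t - S ≤ T' - S; have : t ≤ T' := ht2; linarith⟩
    · intro t ht
      rw [hgt t (by linarith), h.late _ (by linarith)]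
      congr 1
      ring
    · have ho : IsOpen (Ioo 0 (T - S) \ F) := by
        rw [isOpen_iff_mem_nhds]
        intro t ht
        obtain ⟨T', hT1, hT2⟩ := exists_between ht.1.2
        have h4 : IsOpen ((F ∩ Iic T')ᶜ) := (h.fin T' hT2).isClosed.isOpen_compl
        have h5 : t ∈ (F ∩ Iic T')ᶜ := fun h6 => ht.2 h6.1
        filter_upwards [h4.mem_nhds h5, Ioo_mem_nhds ht.1.1 hT1] with s h6 h7
        exact ⟨⟨h7.1, h7.2.trans hT2⟩, fun h8 => h6 ⟨h8, h7.2.le⟩⟩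
      have ho' : IsOpen ((fun t => t - S) ⁻¹' (Ioo 0 (T - S) \ F)) :=
        ho.preimage (continuous_id.sub continuous_const)
      have h9 : SolOn ν ((fun t => t - S) ⁻¹' (Ioo 0 (T - S) \ F)) (gl S v u)
          (gl S (fun _ _ => 0) p) :=
        congr_o ho' (shift_o S h.sol) (fun t ht => gl_gt (sub_pos.1 ht.1.1))
          fun t ht => gl_gt (sub_pos.1 ht.1.1)
      refine mono_o h9 ?_
      rintro t ⟨ht1, ht2⟩
      exact ⟨⟨sub_pos.2 ht1.1, by linarith [ht1.2]⟩, ht2⟩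
    · intro T' hT'
      have h9 : S < max T' (S + 1) := (lt_add_one S).trans_le (le_max_right _ _)
      have h10 : VW ν (max T' (S + 1)) c (gl S v u) :=
        gen_vw hS0 (c := c') hv'.meas hv'.sq hdv hwk (fun t ht => gl_le ht.2.le)
          (fun t ht => gl_gt ht) h9 (h.vw _ (sub_pos.2 h9))
      exact vw_mono h10 (le_max_left _ _)
    · exact fun T' hT' n => lq_glue (hlq' n) (fun T'' h4 => h.lq T'' h4 n) hT' hS0.le
    · intro i ψ hψ hp t₀ ht₀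
      refine ContinuousAt.continuousWithinAt ?_
      have h9 : ContinuousAt (fun t => ∫ x in cube, u (t - S) x i * ψ x) t₀ := by
        have h10 : ContinuousAt (fun t => ∫ x in cube, u t x i * ψ x) (t₀ - S) :=
          (h.wc i ψ hψ hp).continuousAt (Ioo_mem_nhds (sub_pos.2 ht₀.1) (by linarith [ht₀.2]))
        exact ContinuousAt.comp (g := fun t => ∫ x in cube, u t x i * ψ x)
          (f := fun t => t - S) h10 (by fun_prop)
      refine h9.congr ?_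
      filter_upwards [Ioi_mem_nhds ht₀.1] with t h10
      rw [hgt t h10]
    · intro s hs δ hδ
      have h9 := h.loc (s - S) ⟨sub_nonneg.2 hs.1, by linarith [hs.2]⟩ δ hδ
      have h10 := tr_right S (s - S)
      rw [sub_add_cancel] at h10
      filter_upwards [h10.eventually h9, self_mem_nhdsWithin] with t h11 h12 x i
      rw [hgt t (lt_of_le_of_lt hs.1 h12)]
      have h13 := h11 x i
      have e : t - S - (s - S) = t - s := by ring
      rwa [e] at h13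
    · obtain ⟨h', hh1, hh2, hh3⟩ := h.near
      refine ⟨fun t => h' (t - S), fun t => hh1 _, fun t ht x i => ?_, ?_⟩
      · rw [hgt t ht.1]
        have h9 := hh2 (t - S) ⟨sub_pos.2 ht.1, by linarith [ht.2]⟩ x i
        have e : S + (t - S) = t := by ring
        rwa [e] at h9
      · rw [lint_shift (S := S) (T := T) (H₂ := fun t => ENNReal.ofReal (Φ (h' t)))
          (fun t ht => rfl)]
        exact hh3

end Pool.Agent.Run7.h969.HP
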