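import Pool.Agent.Run7.h969.HP.RchF1
import Pool.Agent.Run7.h969.HP.DefsD

/-!
Piece ReachF: ReachE, with the final value attained in the critical Besov spaces.
-/

set_option autoImplicit false

open MeasureTheory Set Filter Topology
open scoped ContDiff ENNReal ComplexConjugate

namespace Pool.Agent.Run7.h969.HP

open H459R3.NS Pool.Agent.Run7.h782 Pool.Agent.Run7.h782.GD Pool.Agent.Run7.h782.GS
open Pool.Agent.Run7.h782.WS Pool.Agent.Run7.h782.WQ Pool.Agent.Run7.h744.WS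
open Pool.Agent.Run7.h969.WS Pool.Agent.Run7.h782.OS Pool.Agent.Run7.h219.OS
open Pool.Agent.Run7.h219.HP Pool.Agent.Run7.h782.HP Pool.Agent.Run7.h811.WS
open Pool.Agent.Run7.h969.GD

/-- **Piece ReachF.** -/
theorem reachF (hE : StmLocEB) (hK : StmLocEK) (hU : StmLocUD) (hBR : StmBReg2) (hPL : StmPcL) (hInf : StmInf)
    (hD1 : StmD1S) : StmReachF := by
  intro ν hν T hT m w hw c c₁ hc hm hc₁ hm₁ Q hQ hR hR₁ φ hφ Φ hΦ ε hε
  have hφ₂ : Gauge fun x => φ (2 * x) := gg_double hφ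
  choose η₀ hη₀ hU' using fun j : ℕ => hU ν hν Q hQ (fun x => φ (2 * x)) hφ₂ j ((1 / 2) ^ j)
    (by positivity)
  set η : ℕ → ℝ := fun j => min (η₀ j) ((1 / 2) ^ j) with hηd
  have hη : ∀ j, 0 < η j := fun j => lt_min (hη₀ j) (by positivity)
  have hηh : ∀ j, η j ≤ (1 / 2) ^ j := fun j => min_le_right _ _
  have hU2 : ∀ j : ℕ, ∀ (m : V) (w : ℝ → V → V), PathM m w → ∀ T ε : ℝ, 0 < T → 0 < ε → ε ≤ η j →
      ∃ τ₀ : ℝ, 0 < τ₀ ∧ ∀ τ, 0 < τ → τ < τ₀ → ∀ s ∈ Icc 0 T, ∀ c : Cf, Herm c → Dv c →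
      (∀ i, c 0 i = ((m i : ℝ) : ℂ)) → (Summable fun k => ‖c k‖) →
      ∀ (Z : Finset K3) (r : Mf), (∀ i j, ∀ k ∉ Z, r i j k = 0) → Sy r →
      (∀ i, i ≤ j → rp (Q i) r ≤ η j) →
      (∀ A : Finset K3, ∑ k ∈ A, ‖c k - vf (w s) k - dvr r k‖ ≤ η j) →
      ∀ Φ : ℝ → ℝ, Orl Φ → ∀ δ : ℝ, 0 < δ →
      ∃ (τ' : ℝ) (u : ℝ → V → V) (p : ℝ → V → ℝ), τ < τ' ∧ Lc ν m w ε s τ c Q Φ δ τ' u p ∧
        Ba (fun x => φ (2 * x)) c u ∧
        (∀ i, i ≤ j → ∫⁻ t in Ioo 0 τ, (∫⁻ x in cube, ENNReal.ofReal (∑ j, |u t x j| ^ (2 * Q i)))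
          ^ (2 / (2 * Q i)) ≤ ENNReal.ofReal ((1 / 2) ^ j)) ∧
        ((∀ A : Finset K3, ∑ k ∈ A, ‖c k - vf (w s) k‖ ≤ η j) → ∀ t ∈ Ioc 0 τ, ∀ i,
          besG (fun x => φ (2 * x)) (fun x => u t x i - w (s + t) x i)
            ≤ ENNReal.ofReal ((1 / 2) ^ j)) := by
    intro j m w hw T ε hT hε hεη
    have hle : η j ≤ η₀ j := min_le_left _ _
    obtain ⟨τ₀, h0, H⟩ := hU' j m w hw T ε hT hε (hεη.trans hle)
    refine ⟨τ₀, h0, fun τ hτ hττ s hs c h1 h2 h3 h4 Z r h5 h6 h7 h8 Φ hΦ δ hδ => ?_⟩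
    obtain ⟨τ', u, p, k1, k2, k3, k4, k5⟩ := H τ hτ hττ s hs c h1 h2 h3 h4 Z r h5 h6
      (fun i hi => (h7 i hi).trans hle) (fun A => (h8 A).trans hle) Φ hΦ δ hδ
    exact ⟨τ', u, p, k1, k2, k3, k4, fun h9 => k5 fun A => (h9 A).trans hle⟩
  obtain ⟨g, ρ, hg, hlim, ⟨C, hC⟩, hcl⟩ := tgs_exF hD1 m hc₁ hm₁ hQ hR₁ hη
  set ε' : ℕ → ℝ := fun j => min (η j) (η (j + 1) / 4) with hε'd
  have hε' : ∀ j, 0 < ε' j := fun j => lt_min (hη _) (by have := hη (j + 1); positivity)
  have hε'η : ∀ j, ε' j ≤ η (j + 1) / 4 := fun j => min_le_right _ _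
  have hε'η0 : ∀ j, ε' j ≤ η j := fun j => min_le_left _ _
  choose τ₀ hτ₀ hstp using stp_exF hE hν hQ hφ₂ hU2 hg hε' hε'η0
  -- bounds
  choose Gb hGb0 hGb using fun j => bdd_path (hg.path j) 1
  obtain ⟨W, hW0, hW⟩ := bdd_path hw T
  set B : ℕ → ℝ := fun j => ε' j + Gb j + W with hBd
  have hB : ∀ j, 0 ≤ B j := fun j => by
    have := (hε' j).le
    have := hGb0 j
    simp only [hBd]
    positivity
  have hΦB : ∀ j, 0 ≤ Φ (2 * B j) := fun j => hΦ.nonneg _ (by have := hB j; positivity)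
  set β : ℕ → ℝ := fun j =>
    min (τ₀ j) (min (min T ε * (1 / 2) ^ (j + 1)) (ε * (1 / 2) ^ (j + 3) / (Φ (2 * B j) + 1))) with hβd
  have hβ : ∀ j, 0 < β j := fun j => by
    have := hΦB j
    have hTε : 0 < min T ε := lt_min hT hε
    exact lt_min (hτ₀ j) (lt_min (by positivity) (by positivity))
  have hβτ : ∀ j, β j ≤ τ₀ j := fun j => min_le_left _ _
  have hTε : 0 < min T ε := lt_min hT hε
  have hβT : ∀ j, β j ≤ min T ε * (1 / 2) ^ (j + 1) := fun j =>
    (min_le_right _ _).trans (min_le_left _ _)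
  have hβB : ∀ j, β j * Φ (2 * B j) ≤ ε * (1 / 2) ^ (j + 3) := fun j => by
    have h1 : β j ≤ ε * (1 / 2) ^ (j + 3) / (Φ (2 * B j) + 1) :=
      (min_le_right _ _).trans (min_le_right _ _)
    have h2 := hΦB j
    rw [le_div_iff₀ (by positivity)] at h1
    nlinarith [hβ j]
  have hgeo : HasSum (fun j : ℕ => min T ε * (1 / 2 : ℝ) ^ (j + 1)) (min T ε) := hasSum_half
  have hβs : Summable β := Summable.of_nonneg_of_le (fun j => (hβ j).le) hβT hgeo.summable
  set σ : ℝ := ∑' j, β j with hσd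
  have hσ : 0 < σ := hβs.tsum_pos (fun j => (hβ j).le) 0 (hβ 0)
  have hσTε : σ ≤ min T ε := by
    rw [← hgeo.tsum_eq]
    exact hβs.tsum_le_tsum hβT hgeo.summable
  have hσT : σ ≤ T := hσTε.trans (min_le_left _ _)
  have hσε : σ ≤ ε := hσTε.trans (min_le_right _ _)
  -- the lengths of the last steps
  set τb : ℕ → ℝ := fun j => 1 / 2 * β j with hτbd
  have hτb : ∀ j, 0 < τb j := fun j => mul_pos (by norm_num) (hβ j)
  have hτβ : ∀ j, τb j < β j := fun j => by
    have := hβ j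
    simp only [hτbd]
    linarith
  have hττ : ∀ j, τb j < τ₀ j := fun j => (hτβ j).trans_le (hβτ j)
  have hτbs : HasSum τb (1 / 2 * σ) := hβs.hasSum.mul_left _
  set δb : ℕ → ℝ := fun j => min (τb j) (min (η (j + 1) / 4) (ε * (1 / 2) ^ (j + 3))) with hδbd
  have hδb : ∀ j, 0 < δb j := fun j =>
    lt_min (hτb j) (lt_min (by have := hη (j + 1); positivity) (by positivity))
  have hδτ : ∀ j, δb j ≤ τb j := fun j => min_le_left _ _
  have hδη : ∀ j, δb j ≤ η (j + 1) / 4 := fun j => (min_le_right _ _).trans (min_le_left _ _)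
  have hδε : ∀ j, δb j ≤ ε * (1 / 2) ^ (j + 3) := fun j =>
    (min_le_right _ _).trans (min_le_right _ _)
  set Ta : ℝ := T - 1 / 2 * σ with hTad
  have hTa : 0 < Ta := by rw [hTad]; linarith
  have hTaT : Ta < T := by rw [hTad]; linarith
  -- the steps along the path
  obtain ⟨ηK, hηK, hK'⟩ := hK φ hφ ε hε
  obtain ⟨ε₁, hε₁, hε₁K, hε₁Φ⟩ : ∃ ε₁ : ℝ, 0 < ε₁ ∧ ε₁ ≤ ηK / 2 ∧ T * Φ (2 * ε₁) ≤ ε / 4 := by
    have hΦ1 : 0 ≤ Φ 1 := hΦ.nonneg 1 zero_le_one
    set s : ℝ := min (min 1 ηK) (ε / (4 * T * (Φ 1 + 1))) with hs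
    have hs0 : 0 < s := lt_min (lt_min one_pos hηK) (by positivity)
    have hs1 : s ≤ 1 := (min_le_left _ _).trans (min_le_left _ _)
    have hs2 : s ≤ ηK := (min_le_left _ _).trans (min_le_right _ _)
    refine ⟨s / 2, by positivity, by linarith, ?_⟩
    have h1 := hΦ.scale hs0.le hs1 (zero_le_one (α := ℝ))
    have h2 : s ≤ ε / (4 * T * (Φ 1 + 1)) := min_le_right _ _
    rw [le_div_iff₀ (by positivity)] at h2
    have e : 2 * (s / 2) = s * 1 := by ring
    rw [e]
    have h3 : T * Φ (s * 1) ≤ T * (s * Φ 1) := mul_le_mul_of_nonneg_left h1 hT.le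
    nlinarith
  obtain ⟨τw', hτw', hstep⟩ := hK' ν hν m w hw T ε₁ hT hε₁ (by linarith)
  set τw : ℝ := min τw' ε with hτwd
  have hτw : 0 < τw := lt_min hτw' hε
  obtain ⟨N, hN⟩ := exists_nat_gt (Ta / τw)
  have hNr : (0 : ℝ) < N := (div_pos hTa hτw).trans hN
  have hN0 : 0 < N := by exact_mod_cast hNr
  set a : ℝ := Ta / N with had
  have ha : 0 < a := div_pos hTa hNr
  have hNa : N * a = Ta := by rw [had]; field_simp
  have haτ : a < τw := by
    rw [had, div_lt_iff₀ hNr]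
    rwa [div_lt_iff₀ hτw, mul_comm] at hN
  have haτ' : a < τw' := haτ.trans_le (min_le_left _ _)
  have haε : a < ε := haτ.trans_le (min_le_right _ _)
  set δw : ℝ := min (ε / (4 * N)) (min a (ηK / 2)) with hδwd
  have hδw : 0 < δw := lt_min (by positivity) (lt_min ha (by positivity))
  have hδw1 : δw ≤ ε / (4 * N) := min_le_left _ _
  have hδw2 : δw ≤ a := (min_le_right _ _).trans (min_le_left _ _)
  have hδw3 : δw ≤ ηK / 2 := (min_le_right _ _).trans (min_le_right _ _)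
  -- the sequences
  set τs : ℕ → ℝ := sw N (fun _ => a) τb with hτsd
  set δs : ℕ → ℝ := sw N (fun _ => δw) δb with hδsd
  set κ : ℕ → ℝ := sw N (fun _ => ε / (4 * N)) (fun j => ε * (1 / 2) ^ (j + 3)) with hκd
  set ws : ℕ → ℝ → V → V := sw N (fun _ => w) (fun j _ => g j) with hwsd
  set ss : ℕ → ℝ := sw N (fun n => n * a) (fun _ => 0) with hssd
  set εs : ℕ → ℝ := sw N (fun _ => ε₁) ε' with hεsd
  set Bs : ℕ → ℝ := sw N (fun _ => ε₁) B with hBsd
  have hτs : ∀ n, 0 < τs n := sw_forall (fun _ => ha) hτb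
  have hsum : HasSum τs T := by
    have h1 := sw_hasSum (N := N) (a := a) hτbs
    have e : N * a + 1 / 2 * σ = T := by rw [hNa, hTad]; ring
    rwa [e] at h1
  have hpsn : ∀ n, n < N → ∑ i ∈ Finset.range n, τs i = n * a := by
    intro n hn
    rw [Finset.sum_congr rfl fun i hi => sw_lt (fun _ => a) τb
      ((Finset.mem_range.1 hi).trans hn), Finset.sum_const, Finset.card_range, nsmul_eq_mul]
  have hΦ₂ := hΦ.dilate two_pos
  obtain ⟨D, hD0, hDP, hDR⟩ := exists_rec' (X := Cf) (Ste m c N (fun j => η j / 2) g w a ηK)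
    (fun n D D' => ∃ (τ' : ℝ) (u : ℝ → V → V) (p : ℝ → V → ℝ), τs n < τ' ∧
      Lc ν m (ws n) (εs n) (ss n) (τs n) D Q (fun x => Φ (2 * x)) (δs n) τ' u p ∧
      D' = vf (u (τs n)) ∧ ((Summable fun k => ‖D k‖) → Ba φ D u) ∧
      (1 ≤ n → n < N → ∀ t ∈ Ioc 0 (τs n), Bd φ ε u w (n * a + t) t) ∧
      (∀ j, n = N + (j + 1) → ∀ i, i ≤ j + 1 → ∫⁻ t in Ioo 0 (τs n), (∫⁻ x in cube,
        ENNReal.ofReal (∑ j, |u t x j| ^ (2 * Q i))) ^ (2 / (2 * Q i))
          ≤ ENNReal.ofReal ((1 / 2) ^ (j + 1))) ∧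
      ((Summable fun k => ‖c₁ k‖) → ∀ j, n = N + (j + 1) → ∀ t ∈ Ioc 0 (τs n), ∀ i,
        besG (fun x => φ (2 * x)) (fun x => u t x i - g (j + 1) x i)
          ≤ ENNReal.ofReal ((1 / 2) ^ (j + 1))))
    c ⟨⟨hc.herm, hc.dv, hm, fun _ => rfl, fun h => absurd h (by norm_num),
      fun j hj => absurd hj (by omega)⟩, fun h => absurd h (by norm_num)⟩
    (fun n D hD => by
      rcases sw_cases N n with hn | ⟨j, rfl⟩
      · -- along the path
        have e1 : τs n = a := sw_lt _ _ hn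
        have e2 : ws n = w := sw_lt _ _ hn
        have e3 : εs n = ε₁ := sw_lt _ _ hn
        have e4 : ss n = n * a := sw_lt _ _ hn
        have e5 : δs n = δw := sw_lt _ _ hn
        have hna : (n : ℝ) * a ∈ Icc 0 T := by
          have h1 : (n : ℝ) ≤ N := by exact_mod_cast hn.le
          exact ⟨by positivity, by nlinarith⟩
        obtain ⟨R, hR1, hR2, hR3⟩ : ∃ R : Fin 3 → Fin 3 → V → ℝ, Str R ∧ IsDiv R D ∧
            ∀ n i j, IntegrableOn (fun x => |R i j x| ^ Q n) cube := by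
          rcases Nat.eq_zero_or_pos n with h0 | h0
          · rw [hD.ini h0]
            exact hR
          · exact exists_R' hD.herm hD.dv (hD.sm h0) hQ
        obtain ⟨τ', u, p, h1, h2, h3, h4⟩ := hstep a ha haτ' (n * a) hna D hD.herm hD.dv hD.mean R
          hR1 hR2 Q hQ hR3 _ hΦ₂ δw hδw
        have hmem : a ∈ Ioo 0 τ' := ⟨ha, h1⟩
        obtain ⟨a1, a2, a3, a4⟩ := stg_data h2.sol hmem (h2.mean a ⟨ha, le_rfl⟩)
        refine ⟨vf (u a), ⟨⟨a1, a2, a3, fun h => absurd h (by omega), fun _ => a4,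
          fun j hj => absurd hj (by omega)⟩, fun _ _ A => ?_⟩, τ', u, p, ?_⟩
        · have h5 := h2.close a ⟨ha, le_rfl⟩ hδw2 A
          have e6 : (n : ℝ) * a + a = ((n + 1 : ℕ) : ℝ) * a := by
            push_cast
            ring
          rw [e6] at h5
          exact h5.trans (by linarith)
        · rw [e1, e2, e3, e4, e5]
          exact ⟨h1, h2, rfl, h3, fun h0 h0' => h4 (hD.sm h0) (hD.nearw h0 h0'),
            fun j hj => absurd hj (by omega), fun _ j hj => absurd hj (by omega)⟩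
      · -- to the targets
        have e1 : τs (N + j) = τb j := sw_add _ _ _ _
        have e2 : ws (N + j) = fun _ => g j := sw_add _ _ _ _
        have e3 : εs (N + j) = ε' j := sw_add _ _ _ _
        have e4 : ss (N + j) = 0 := sw_add _ _ _ _
        have e5 : δs (N + j) = δb j := sw_add _ _ _ _
        have hst : Stg m η g j D := ⟨hD.herm, hD.dv, hD.mean, hD.sm (by omega), fun i hi A => by
          subst hi
          exact (hD.near i rfl A).trans (half_le_self (hη _).le)⟩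
        obtain ⟨τ', u, p, h1, h2, h3, h4, h4'⟩ := hstp j (τb j) (hτb j) (hττ j) D hst _ hΦ₂ (δb j)
          (hδb j)
        have hmem : τb j ∈ Ioo 0 τ' := ⟨hτb j, h1⟩
        obtain ⟨a1, a2, a3, a4⟩ := stg_data h2.sol hmem (h2.mean (τb j) ⟨hτb j, le_rfl⟩)
        refine ⟨vf (u (τb j)), ⟨⟨a1, a2, a3, fun h => absurd h (by omega), fun _ => a4,
          fun i hi A => ?_⟩, fun _ h => absurd h (by omega)⟩, τ', u, p, ?_⟩
        · have e : i = j := by omega
          subst e
          have h4 := h2.close (τb i) ⟨hτb i, le_rfl⟩ (hδτ i) A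
          have h5 := hε'η i
          have h6 := hδη i
          exact h4.trans (by linarith)
        · rw [e1, e2, e3, e4, e5]
          refine ⟨h1, h2, rfl, fun _ => ba_dbl hφ h3, fun _ h => absurd h (by omega),
            fun i hi => ?_, fun hcs i hi => ?_⟩
          · have e : j = i + 1 := by omega
            subst e
            exact h4 (by omega)
          · have e : j = i + 1 := by omega
            subst e
            refine h4' (by omega) fun A => ?_
            have k1 := hD.near i rfl A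
            obtain ⟨k2, -, k3⟩ := hcl hcs i
            obtain ⟨k4, k5, -⟩ := hcl hcs (i + 1)
            have k6 := (k2.sum_le_tsum A fun k _ => norm_nonneg _).trans k3
            have k7 := (k4.sum_le_tsum A fun k _ => norm_nonneg _).trans k5
            have k8 : ∑ k ∈ A, ‖D k - vf (g (i + 1)) k‖ ≤ ∑ k ∈ A, ‖D k - vf (g i) k‖
                + ∑ k ∈ A, ‖vf (g i) k - c₁ k‖ + ∑ k ∈ A, ‖vf (g (i + 1)) k - c₁ k‖ := by
              rw [← Finset.sum_add_distrib, ← Finset.sum_add_distrib]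
              refine Finset.sum_le_sum fun k _ => ?_
              have e : D k - vf (g (i + 1)) k = (D k - vf (g i) k) + (vf (g i) k - c₁ k)
                  - (vf (g (i + 1)) k - c₁ k) := by abel
              rw [e]
              exact (norm_sub_le _ _).trans (add_le_add (norm_add_le _ _) le_rfl)
            linarith)
  choose τ' u p h1 h2 h3 h4 hBd h5 hFin using hDR
  choose hj hj0 hj1 hj2 using fun n => (h2 n).near
  -- the pieces
  have hPc : ∀ n, Pc ν Q (D n) (τs n) ((fun _ => ∅ : ℕ → Finset ℝ) n) (u n) (p n) := fun n =>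
    hPL ν hν m _ _ _ _ _ Q _ _ _ _ _ (hτs n) (h1 n) (h2 n)
  have hfin : ∀ i, ∑' n, ∫⁻ t in Ioo 0 (τs n), (∫⁻ x in cube, ENNReal.ofReal
      (∑ j, |u n t x j| ^ (2 * Q i))) ^ (2 / (2 * Q i)) ≠ ⊤ := by
    intro i
    refine tsum_ne_top' (N := N + i + 1) (g := fun n => ENNReal.ofReal (2 ^ N * (1 / 2) ^ n))
      (fun n => (hPc n).lq i) (fun n hn => ?_) ?_
    · obtain ⟨j, rfl⟩ : ∃ j, n = N + (j + 1) := ⟨n - N - 1, by omega⟩
      refine (h5 _ j rfl i (by omega)).trans (le_of_eq ?_)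
      congr 1
      rw [pow_add (1 / 2 : ℝ) N (j + 1), ← mul_assoc, ← mul_pow]
      norm_num
    · rw [← ENNReal.ofReal_tsum_of_nonneg (fun j => by positivity)
        ((summable_geometric_of_lt_one (by norm_num) (by norm_num)).mul_left _)]
      exact ENNReal.ofReal_ne_top
  -- the limit
  have hDg : ∀ n k, ‖D (N + (n + 1)) k - vf (g n) k‖ ≤ (1 / 2) ^ (n + 1) := fun n k => by
    have h5 := (hDP (N + (n + 1))).near n rfl {k}
    rw [Finset.sum_singleton] at h5
    exact h5.trans ((half_le_self (hη _).le).trans (hηh _))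
  have hDl : ∀ k, Tendsto (fun n => D (N + (n + 1)) k) atTop (𝓝 (c₁ k)) := by
    intro k
    have h5 : Tendsto (fun n => D (N + (n + 1)) k - vf (g n) k) atTop (𝓝 0) := by
      rw [tendsto_zero_iff_norm_tendsto_zero]
      refine squeeze_zero (fun _ => norm_nonneg _) (fun n => hDg n k) ?_
      exact (tendsto_add_atTop_iff_nat 1).2
        (tendsto_pow_atTop_nhds_zero_of_lt_one (by norm_num) (by norm_num))
    have h6 := h5.add (hlim k)
    rw [zero_add] at h6
    refine h6.congr fun n => ?_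
    abel
  have hDb : ∀ n k, ‖D (N + (n + 1)) k‖ ≤ (C + 1) * (1 + len k) ^ 1 := by
    intro n k
    have h5 := norm_add_le (vf (g n) k) (D (N + (n + 1)) k - vf (g n) k)
    rw [add_sub_cancel] at h5
    have h6 : ((1 : ℝ) / 2) ^ (n + 1) ≤ 1 := pow_le_one₀ (by norm_num) (by norm_num)
    have h7 := hDg n k
    have h8 := hC n k
    have h9 := GD.len_nonneg k
    rw [pow_one] at h8 ⊢
    nlinarith
  have hpr : ∀ (i : Fin 3) (ψ : V → ℝ), ContDiff ℝ ∞ ψ → Per ψ →
      Tendsto (fun n => pr (D n) i ψ) atTop (𝓝 (pr c₁ i ψ)) := by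
    intro i ψ hψ hp
    rw [← tendsto_add_atTop_iff_nat (N + 1)]
    refine (pr_lim hDb hDl ⟨hψ, hp⟩ i).congr fun n => ?_
    rw [show N + (n + 1) = n + (N + 1) by omega]
  obtain ⟨F', v, q, hRch, hv⟩ := hInf ν hν Q hQ D τs (fun _ => ∅) u p hPc h3 T hsum hfin c₁ hpr
  rw [hD0] at hRch
  refine ⟨F', v, q, hRch, fun s hs => ?_, fun hcs i => ?_, fun hcs i => ?_, fun t ht i => ?_, ?_⟩
  · refine bc_glue (φ := φ) hτs hsum hv (fun n s hs => ?_) (fun n i => ?_) hs
    · exact hBR φ hφ ν 0 (τ' n) (u n) (p n) (h2 n).sol s ⟨hs.1, lt_of_le_of_lt hs.2 (h1 n)⟩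
    · have h6 := h4 (n + 1) ((hDP (n + 1)).sm (by omega))
      rw [h3 n] at h6
      exact ba_jun (fun j => sp_o (h2 n).sol ⟨hτs n, h1 n⟩ j) h6 i
  · have h6 := h4 0 (by rw [hD0]; exact hcs) i
    rw [hD0] at h6
    refine h6.congr' ?_
    filter_upwards [Ioo_mem_nhdsGT (hτs 0)] with t ht
    have h7 := hv 0 t ⟨ht.1, ht.2.le⟩
    rw [Finset.range_zero, Finset.sum_empty, zero_add] at h7
    rw [h7]
  · -- the final value
    set G : ℕ → ℝ := fun j => ∑' k, ‖vf (g j) k - c₁ k‖ with hG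
    have hG0 : ∀ j, 0 ≤ G j := fun j => tsum_nonneg fun k => norm_nonneg _
    have hpow : Tendsto (fun j : ℕ => ((1 : ℝ) / 2) ^ j) atTop (𝓝 0) :=
      tendsto_pow_atTop_nhds_zero_of_lt_one (by norm_num) (by norm_num)
    have hGl : Tendsto G atTop (𝓝 0) := by
      refine squeeze_zero hG0 (fun j => ?_) hpow
      have h6 := (hcl hcs j).2.1
      have h7 := hη j
      have h8 := hηh j
      show ∑' k, ‖vf (g j) k - c₁ k‖ ≤ _
      linarith
    have hyl : Tendsto (fun j : ℕ => ENNReal.ofReal ((1 / 2) ^ j)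
        + ENNReal.ofReal (φ (2 * G j))) atTop (𝓝 0) := by
      have h6 := (ENNReal.continuous_ofReal.tendsto 0).comp hpow
      rw [ENNReal.ofReal_zero] at h6
      have h7 := h6.add (gauge_lim hφ hG0 hGl)
      rwa [add_zero] at h7
    have hcsi : Summable fun k => c₁ k i :=
      Summable.of_norm (Summable.of_nonneg_of_le (fun _ => norm_nonneg _)
        (fun k => norm_le_pi_norm (c₁ k) i) hcs)
    have hherm : ∀ k, c₁ (-k) i = conj (c₁ k i) := fun k => hc₁.herm k i
    have hfrS : ∀ k, fr (fun x => (S (fun k => c₁ k i) x).re) k = c₁ k i := fun k =>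
      h32.GD.fr_S (c := fun k => c₁ k i) hcsi hherm k
    have hScont : Continuous fun x => (S (fun k => c₁ k i) x).re :=
      Complex.continuous_re.comp (S_continuous hcsi)
    have hgj : ∀ j, SP fun x => g j x i := fun j =>
      ⟨(contDiff_pi.1 (hg.path j).smooth i).comp ((contDiff_const (c := (0 : ℝ))).prodMk contDiff_id),
        fun l x => congrFun ((hg.path j).per 0 l x) i⟩
    have hpc : ∀ j, ∀ s ∈ Ioc 0 (τs (N + (j + 1))),
        besG φ (fun x => u (N + (j + 1)) s x i - (S (fun k => c₁ k i) x).re)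
          ≤ ENNReal.ofReal ((1 / 2) ^ (j + 1)) + ENNReal.ofReal (φ (2 * G (j + 1))) := by
      intro j s hs
      have hus : SP fun x => u (N + (j + 1)) s x i :=
        sp_o (h2 (N + (j + 1))).sol ⟨hs.1, lt_of_le_of_lt hs.2 (h1 _)⟩ i
      have hgs := hgj (j + 1)
      have k0 : ∀ k, fr (fun x => u (N + (j + 1)) s x i - g (j + 1) x i) k
          = fr (fun x => u (N + (j + 1)) s x i) k - fr (fun x => g (j + 1) x i) k := fun k =>
        h32.GD.fr_sub hus.smooth.continuous hgs.smooth.continuous k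
      have k1 : Summable fun k => ‖fr (fun x => u (N + (j + 1)) s x i - g (j + 1) x i) k‖ := by
        refine Summable.of_nonneg_of_le (fun _ => norm_nonneg _) (fun k => ?_)
          ((rap_fr hus).summable.norm.add (rap_fr hgs).summable.norm)
        rw [k0]
        exact norm_sub_le _ _
      obtain ⟨k2, -, -⟩ := hcl hcs (j + 1)
      have k3 := besG_tri hφ (f := fun x => u (N + (j + 1)) s x i - g (j + 1) x i)
        (g := fun x => u (N + (j + 1)) s x i - (S (fun k => c₁ k i) x).re)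
        (c := fun k => ‖vf (g (j + 1)) k - c₁ k‖) k1 (fun _ => norm_nonneg _) k2 (fun k => by
          rw [h32.GD.fr_sub hus.smooth.continuous hScont, k0, hfrS]
          have e : fr (fun x => u (N + (j + 1)) s x i) k - c₁ k i
              - (fr (fun x => u (N + (j + 1)) s x i) k - fr (fun x => g (j + 1) x i) k)
              = (vf (g (j + 1)) k - c₁ k) i := by
            show _ = fr (fun x => g (j + 1) x i) k - c₁ k i
            ring
          rw [e]
          exact norm_le_pi_norm (vf (g (j + 1)) k - c₁ k) i)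
      refine k3.trans (add_le_add (hFin _ hcs j rfl s hs i) ?_)
      have k4 : ‖vf (g (j + 1)) 0 - c₁ 0‖ = 0 := by
        rw [norm_eq_zero, sub_eq_zero]
        funext l
        rw [hm₁, vf_mean (fun l => (hg.path (j + 1)).mean 0 l) l]
      refine (besGC_le hφ₂ (c := fun k => ‖vf (g (j + 1)) k - c₁ k‖) (fun _ => norm_nonneg _)
        k4 k2).trans (ENNReal.ofReal_le_ofReal ?_)
      have h4 : ∀ k, ‖vf (g (j + 1)) k - c₁ k‖ / len k ≤ ‖vf (g (j + 1)) k - c₁ k‖ := by
        intro k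
        by_cases hk : k = 0
        · subst hk
          rw [k4, zero_div]
        · exact div_le_self (norm_nonneg _) (h782.GD.one_le_len hk)
      have h5 : Summable fun k => ‖vf (g (j + 1)) k - c₁ k‖ / len k :=
        Summable.of_nonneg_of_le (fun k => div_nonneg (norm_nonneg _) (h782.GD.len_nonneg k)) h4 k2
      have h6 : 0 ≤ ∑' k, ‖vf (g (j + 1)) k - c₁ k‖ / len k :=
        tsum_nonneg fun k => div_nonneg (norm_nonneg _) (h782.GD.len_nonneg k)
      exact gg_mono hφ (by linarith) (mul_le_mul_of_nonneg_left (h5.tsum_le_tsum h4 k2)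
        zero_le_two)
    rw [ENNReal.tendsto_nhds_zero]
    intro e he
    obtain ⟨J, hJ⟩ := eventually_atTop.1 ((ENNReal.tendsto_nhds_zero.1 hyl) e he)
    have hpJ : ps τs (N + (J + 1)) < T := ps_lt hτs hsum _
    have hp0 : 0 ≤ ps τs (N + (J + 1)) := ps_nonneg hτs _
    filter_upwards [Ioo_mem_nhdsLT hpJ] with t ht
    obtain ⟨n, hn1, hn2⟩ := ps_cover hsum (t := t) ⟨hp0.trans_lt ht.1, ht.2⟩
    have hnJ : N + (J + 1) ≤ n := by
      by_contra hcon
      have h6 : ps τs (n + 1) ≤ ps τs (N + (J + 1)) :=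
        (ps_mono hτs).monotone (by omega)
      linarith [ht.1]
    obtain ⟨j, rfl⟩ : ∃ j, n = N + (j + 1) := ⟨n - N - 1, by omega⟩
    have hs : t - ps τs (N + (j + 1)) ∈ Ioc 0 (τs (N + (j + 1))) := by
      rw [ps_succ] at hn2
      exact ⟨by linarith, by linarith⟩
    have h6 := hv _ _ hs
    have e6 : (∑ i ∈ Finset.range (N + (j + 1)), τs i) + (t - ps τs (N + (j + 1))) = t := by
      show ps τs (N + (j + 1)) + (t - ps τs (N + (j + 1))) = t
      ring
    rw [e6] at h6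
    rw [h6]
    exact (hpc j _ hs).trans (hJ (j + 1) (by omega))
  · -- the distance to the path in the Besov space
    have htT : t ∈ Ioo 0 T := ⟨hε.trans_le ht.1, by linarith [ht.2]⟩
    obtain ⟨n, s, hs, rfl⟩ := cover hsum htT
    have hNs : ∑ i ∈ Finset.range N, τs i = Ta := by
      rw [Finset.sum_congr rfl fun i hi => sw_lt (fun _ => a) τb (Finset.mem_range.1 hi),
        Finset.sum_const, Finset.card_range, nsmul_eq_mul, hNa]
    have hn : n < N := by
      by_contra hcon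
      have h6 : ∑ i ∈ Finset.range N, τs i ≤ ∑ i ∈ Finset.range n, τs i :=
        Finset.sum_le_sum_of_subset_of_nonneg
          (Finset.range_subset_range.2 (not_lt.1 hcon)) fun i _ _ => (hτs i).le
      have h7 := ht.2
      have h8 := hs.1
      rw [hNs, hTad] at h6
      linarith
    have hn1 : 1 ≤ n := by
      by_contra hcon
      have h0 : n = 0 := by omega
      subst h0
      have e1 : τs 0 = a := sw_lt _ _ hn
      have h7 := ht.1
      have h8 := hs.2
      rw [Finset.range_zero, Finset.sum_empty, zero_add] at h7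
      rw [e1] at h8
      linarith
    have h6 := hBd n hn1 hn s hs i
    rw [hv n s hs, hpsn n hn]
    exact h6
  -- the distance to the path
  set Hs : ℕ → ℝ → ℝ := fun n t => Bs n + hj n t with hHs
  have hBs0 : ∀ n, 0 ≤ Bs n := sw_forall (fun _ => hε₁.le) hB
  have hHs0 : ∀ n t, 0 ≤ Hs n t := fun n t => add_nonneg (hBs0 n) (hj0 n t)
  have hbd : ∀ n, ∀ s ∈ Ioc 0 (τs n), ∀ x i,
      |u n s x i - w ((∑ i ∈ Finset.range n, τs i) + s) x i| ≤ Hs n s := by
    intro n s hs x i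
    have a1 := hj1 n s hs x i
    rcases sw_cases N n with hn | ⟨j, rfl⟩
    · have e2 : ws n = w := sw_lt _ _ hn
      have e3 : εs n = ε₁ := sw_lt _ _ hn
      have e4 : ss n = n * a := sw_lt _ _ hn
      have e5 : Bs n = ε₁ := sw_lt _ _ hn
      rw [e2, e3, e4] at a1
      rw [hpsn n hn]
      show _ ≤ Bs n + hj n s
      rw [e5]
      exact a1
    · have e2 : ws (N + j) = fun _ => g j := sw_add _ _ _ _
      have e3 : εs (N + j) = ε' j := sw_add _ _ _ _
      have e5 : Bs (N + j) = B j := sw_add _ _ _ _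
      rw [e2, e3] at a1
      have hm1 := part_le hτs hsum (n := N + j) hs
      have a2 := hGb j 0 ⟨le_rfl, zero_le_one⟩ x i
      have a3 := hW _ hm1 x i
      show _ ≤ Bs (N + j) + hj (N + j) s
      rw [e5]
      have e : u (N + j) s x i - w ((∑ i ∈ Finset.range (N + j), τs i) + s) x i
          = (u (N + j) s x i - g j x i) + g j x i
            - w ((∑ i ∈ Finset.range (N + j), τs i) + s) x i := by
        ring
      rw [e]
      refine (abs_sub _ _).trans ?_
      have a4 := abs_add_le (u (N + j) s x i - g j x i) (g j x i)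
      have e2 : B j = ε' j + Gb j + W := rfl
      rw [e2]
      linarith
  have hpt : ∀ t ∈ Ioo 0 T, ∃ n, ∃ s ∈ Ioc 0 (τs n), t = (∑ i ∈ Finset.range n, τs i) + s ∧
      ∀ x i, |v t x i - w t x i| ≤ Hs n s := by
    intro t ht
    obtain ⟨n, s, hs, rfl⟩ := cover hsum ht
    refine ⟨n, s, hs, rfl, fun x i => ?_⟩
    rw [hv n s hs]
    exact hbd n s hs x i
  set h : ℝ → ℝ := fun t => ⨆ z : V × Fin 3, |v t z.1 z.2 - w t z.1 z.2| with hh
  have hnn : ∀ t, 0 ≤ h t := fun t => Real.iSup_nonneg fun _ => abs_nonneg _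
  have hle : ∀ n, ∀ s ∈ Ioc 0 (τs n), h ((∑ i ∈ Finset.range n, τs i) + s) ≤ Hs n s := by
    intro n s hs
    refine Real.iSup_le (fun z => ?_) (hHs0 n s)
    rw [hv n s hs]
    exact hbd n s hs z.1 z.2
  refine ⟨h, hnn, fun t ht x i => ?_, ?_⟩
  · obtain ⟨n, s, -, -, hb⟩ := hpt t ht
    exact le_ciSup (f := fun z : V × Fin 3 => |v t z.1 z.2 - w t z.1 z.2|)
      ⟨Hs n s, by rintro _ ⟨z, rfl⟩; exact hb z.1 z.2⟩ (x, i)
  · refine (lint_pieces hsum (fun t => ENNReal.ofReal (Φ (h t)))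
      (fun n s => ENNReal.ofReal (Φ (Hs n s)))
      fun n s hs => ENNReal.ofReal_le_ofReal (hΦ.mono (hnn _) (hle n s hs))).trans ?_
    have hκ0 : ∀ n, 0 ≤ κ n := sw_forall (fun _ => by positivity) fun j => by positivity
    have b1 : ∀ n, τs n * Φ (2 * Bs n) ≤ κ n := by
      intro n
      rcases sw_cases N n with hn | ⟨j, rfl⟩
      · have e1 : τs n = a := sw_lt _ _ hn
        have e2 : Bs n = ε₁ := sw_lt _ _ hn
        have e3 : κ n = ε / (4 * N) := sw_lt _ _ hn
        rw [e1, e2, e3, had, div_mul_eq_mul_div, div_le_div_iff₀ hNr (by positivity)]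
        have h6 : 0 ≤ Φ (2 * ε₁) := hΦ.nonneg _ (by positivity)
        have h7 : Ta * Φ (2 * ε₁) ≤ ε / 4 := (mul_le_mul_of_nonneg_right hTaT.le h6).trans hε₁Φ
        nlinarith
      · have e1 : τs (N + j) = τb j := sw_add _ _ _ _
        have e2 : Bs (N + j) = B j := sw_add _ _ _ _
        have e3 : κ (N + j) = ε * (1 / 2) ^ (j + 3) := sw_add _ _ _ _
        rw [e1, e2, e3]
        exact le_trans (mul_le_mul_of_nonneg_right (hτβ j).le (hΦB j)) (hβB j)
    have b2 : ∀ n, δs n ≤ κ n := by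
      intro n
      rcases sw_cases N n with hn | ⟨j, rfl⟩
      · have e1 : δs n = δw := sw_lt _ _ hn
        have e3 : κ n = ε / (4 * N) := sw_lt _ _ hn
        rw [e1, e3]
        exact hδw1
      · have e1 : δs (N + j) = δb j := sw_add _ _ _ _
        have e3 : κ (N + j) = ε * (1 / 2) ^ (j + 3) := sw_add _ _ _ _
        rw [e1, e3]
        exact hδε j
    have b3 : ∀ n, ∫⁻ s in Ioc 0 (τs n), ENNReal.ofReal (Φ (Hs n s))
        ≤ ENNReal.ofReal (2 * κ n) := fun n =>
      near_pc hΦ (hBs0 n) (hτs n) (hκ0 n) (b1 n) (hj0 n)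
        ((hj2 n).trans (ENNReal.ofReal_le_ofReal (b2 n)))
    have b4 : HasSum (fun n => 2 * κ n) ε := by
      have b5 : HasSum (fun j : ℕ => ε * (1 / 2 : ℝ) ^ (j + 3)) (ε / 4) := by
        refine (hasSum_half (a := ε / 4)).congr_fun fun j => ?_
        rw [show j + 3 = j + 1 + 2 by omega, pow_add]
        ring
      have b6 := (sw_hasSum (N := N) (a := ε / (4 * N)) b5).mul_left 2
      have e : 2 * (N * (ε / (4 * N)) + ε / 4) = ε := by
        field_simp
        ring
      rwa [e] at b6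
    calc _ ≤ ∑' n, ENNReal.ofReal (2 * κ n) := ENNReal.tsum_le_tsum b3
      _ = ENNReal.ofReal ε := by
          rw [← ENNReal.ofReal_tsum_of_nonneg (fun n => by have := hκ0 n; positivity) b4.summable,
            b4.tsum_eq]

end Pool.Agent.Run7.h969.HP
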