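import Pool.Agent.Run7.h969.HP.Rch3

/-!
Piece Reach, part 4: coverings and sums.
-/

set_option autoImplicit false

open MeasureTheory Set Filter Topology
open scoped ContDiff ENNReal ComplexConjugate

namespace Pool.Agent.Run7.h969.HP

open H459R3.NS Pool.Agent.Run7.h782 Pool.Agent.Run7.h782.GD Pool.Agent.Run7.h782.GS
open Pool.Agent.Run7.h782.WS Pool.Agent.Run7.h782.WQ Pool.Agent.Run7.h744.WS
open Pool.Agent.Run7.h969.WS Pool.Agent.Run7.h782.OS Pool.Agent.Run7.h811.WS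

theorem cover {τ : ℕ → ℝ} {T : ℝ} (hs : HasSum τ T) {t : ℝ}
    (ht : t ∈ Ioo 0 T) :
    ∃ n, ∃ s ∈ Ioc 0 (τ n), t = (∑ i ∈ Finset.range n, τ i) + s := by
  classical
  have h1 : ∃ N, t ≤ ∑ i ∈ Finset.range N, τ i :=
    ((hs.tendsto_sum_nat.eventually (lt_mem_nhds ht.2)).exists).imp fun _ h => h.le
  have h2 := Nat.find_spec h1
  have h3 : Nat.find h1 ≠ 0 := by
    intro h
    rw [h, Finset.range_zero, Finset.sum_empty] at h2
    exact absurd ht.1 (not_lt.2 h2)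
  obtain ⟨n, hn⟩ := Nat.exists_eq_succ_of_ne_zero h3
  have h4 := Nat.find_min h1 (m := n) (by omega)
  rw [hn, Finset.sum_range_succ] at h2
  exact ⟨n, t - ∑ i ∈ Finset.range n, τ i, ⟨by linarith [not_le.1 h4], by linarith⟩, by ring⟩

theorem part_le {τ : ℕ → ℝ} {T : ℝ} (hτ : ∀ n, 0 < τ n) (hs : HasSum τ T) {n : ℕ} {s : ℝ}
    (h : s ∈ Ioc 0 (τ n)) : (∑ i ∈ Finset.range n, τ i) + s ∈ Icc 0 T := by
  constructor
  · exact add_nonneg (Finset.sum_nonneg fun i _ => (hτ i).le) h.1.le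
  · have h1 := sum_le_hasSum (Finset.range (n + 1)) (fun i _ => (hτ i).le) hs
    rw [Finset.sum_range_succ] at h1
    linarith [h.2]

theorem lint_shift' (a τ : ℝ) (f : ℝ → ℝ≥0∞) :
    ∫⁻ t in Ioc a (a + τ), f t = ∫⁻ s in Ioc 0 τ, f (a + s) := by
  have h := (measurePreserving_add_left (volume : Measure ℝ) a).setLIntegral_comp_preimage_emb
    (MeasurableEquiv.addLeft a).measurableEmbedding f (Ioc a (a + τ))
  have e : (fun x => a + x) ⁻¹' Ioc a (a + τ) = Ioc 0 τ := by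
    ext x
    simp
  rw [← h]
  show ∫⁻ s in (fun x => a + x) ⁻¹' Ioc a (a + τ), f (a + s) = _
  rw [e]

/-- The integral over the pieces. -/
theorem lint_pieces {τ : ℕ → ℝ} {T : ℝ} (hs : HasSum τ T)
    (f : ℝ → ℝ≥0∞) (H : ℕ → ℝ → ℝ≥0∞)
    (h : ∀ n, ∀ s ∈ Ioc 0 (τ n), f ((∑ i ∈ Finset.range n, τ i) + s) ≤ H n s) :
    ∫⁻ t in Ioo 0 T, f t ≤ ∑' n, ∫⁻ s in Ioc 0 (τ n), H n s := by
  have h1 : Ioo 0 T ⊆ ⋃ n, Ioc (∑ i ∈ Finset.range n, τ i) ((∑ i ∈ Finset.range n, τ i) + τ n) := by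
    intro t ht
    obtain ⟨n, s, hs, rfl⟩ := cover hs ht
    exact mem_iUnion.2 ⟨n, by linarith [hs.1], by linarith [hs.2]⟩
  calc ∫⁻ t in Ioo 0 T, f t
      ≤ ∫⁻ t in ⋃ n, Ioc (∑ i ∈ Finset.range n, τ i) ((∑ i ∈ Finset.range n, τ i) + τ n), f t :=
        lintegral_mono_set h1
    _ ≤ ∑' n, ∫⁻ t in Ioc (∑ i ∈ Finset.range n, τ i) ((∑ i ∈ Finset.range n, τ i) + τ n), f t :=
        lintegral_iUnion_le _ _
    _ ≤ ∑' n, ∫⁻ s in Ioc 0 (τ n), H n s := by
        refine ENNReal.tsum_le_tsum fun n => ?_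
        rw [lint_shift']
        exact setLIntegral_mono' measurableSet_Ioc (h n)

theorem tsum_ne_top' {f g : ℕ → ℝ≥0∞} {N : ℕ} (hf : ∀ n, f n ≠ ⊤) (hfg : ∀ n, N ≤ n → f n ≤ g n)
    (hg : ∑' n, g n ≠ ⊤) : ∑' n, f n ≠ ⊤ := by
  classical
  have h1 : ∀ n, f n ≤ (if n ∈ Finset.range N then f n else 0) + g n := by
    intro n
    by_cases h : n ∈ Finset.range N
    · rw [if_pos h]
      exact le_self_add
    · rw [if_neg h, zero_add]
      exact hfg n (not_lt.1 fun h' => h (Finset.mem_range.2 h'))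
  refine ne_top_of_le_ne_top ?_ (ENNReal.tsum_le_tsum h1)
  rw [ENNReal.tsum_add]
  refine ENNReal.add_ne_top.2 ⟨?_, hg⟩
  rw [tsum_eq_sum (s := Finset.range N) fun n hn => if_neg hn]
  refine ENNReal.sum_ne_top.2 fun n hn => ?_
  rw [if_pos hn]
  exact hf n

theorem half_ne_top : ∑' j : ℕ, ENNReal.ofReal ((1 / 2) ^ j) ≠ ⊤ := by
  rw [← ENNReal.ofReal_tsum_of_nonneg (fun j => by positivity)
    (summable_geometric_of_lt_one (by norm_num) (by norm_num))]
  exact ENNReal.ofReal_ne_top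

/-- The mean is conserved. -/
theorem mean_pc {ν : ℝ} {Q : ℕ → ℝ} {c : Cf} {τ : ℝ} {F : Finset ℝ} {u : ℝ → V → V}
    {p : ℝ → V → ℝ} (h : Pc ν Q c τ F u p) {m : V} (hm : ∀ i, c 0 i = ((m i : ℝ) : ℂ)) (i : Fin 3) :
    ∫ x in cube, u τ x i = m i := by
  classical
  obtain ⟨τ', hτ', hsol⟩ := h.sol
  have hτm : τ ∈ Ioo 0 τ' \ (F : Set ℝ) := ⟨⟨h.pos, hτ'⟩, fun h1 => by
    have := (h.mem τ h1).2
    exact absurd this (lt_irrefl _)⟩
  have hfr : ∀ k : K3, fr (fun _ : V => (1 : ℝ)) k = if k = 0 then 1 else 0 := by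
    intro k
    have h1 := fr_field (b := fun _ => (0 : Cf)) (m := fun _ => (1 : ℝ)) (t := 0) (i := 0)
      (by simpa using summable_zero) (fun k => by simp) k
    have e : (fun x : V => ((fun _ : Fin 3 => (1 : ℝ)) + fld (fun _ => (0 : Cf)) 0
        (x - (0 : ℝ) • fun _ => (1 : ℝ))) 0) = fun _ => 1 := by
      funext x
      show (1 : ℝ) + (S (fun k => (0 : Cf) k 0) _).re = 1
      simp [S]
    rw [e] at h1
    rw [h1, ser]
    simp
  have hpr : ∀ d : Cf, pr d i (fun _ => 1) = (d 0 i).re := by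
    intro d
    unfold pr
    rw [tsum_eq_single (0 : K3) fun k hk => by rw [hfr, if_neg hk]; simp, hfr, if_pos rfl]
    simp
  set φ : V → V := fun _ => Pi.single i 1 with hφ
  have hφi : ∀ l, (fun x : V => φ x l) = fun _ => if l = i then (1 : ℝ) else 0 := fun l => by
    funext x
    rw [hφ]
    by_cases hl : l = i
    · subst hl
      simp
    · simp [hl]
  have hpd : ∀ (a : ℝ) (j : Fin 3) (x : V), pd j (fun _ : V => a) x = 0 := fun a j x => by
    unfold pd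
    rw [fderiv_fun_const]
    rfl
  have h1 := h.weak (fun _ => 1) φ contDiff_const contDiff_const (fun _ _ => rfl) (fun x =>
    Finset.sum_eq_zero fun l _ => by rw [hφi l]; exact hpd _ _ _)
  have h2 : ∀ z : ℝ × V, wk ν u (fun _ => (1 : ℝ)) φ z = 0 := by
    intro z
    unfold wk
    have e2 : ∀ j l : Fin 3, pd j (fun y => φ y l) = fun _ => 0 := fun j l => by
      funext y
      rw [hφi l]
      exact hpd _ _ _
    simp only [deriv_const, zero_mul, zero_add, one_mul, e2, mul_zero, Finset.sum_const_zero, hpd,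
      add_zero]
  simp only [h2, integral_zero, add_zero, one_mul] at h1
  have h3 : ∀ d : Cf, ∑ l, pr d l (fun x => φ x l) = (d 0 i).re := by
    intro d
    rw [Finset.sum_eq_single i]
    · rw [hφi i, if_pos rfl, hpr]
    · intro l _ hl
      rw [hφi l, if_neg hl]
      have h4 : fr (fun _ : V => (0 : ℝ)) = fun _ => 0 := by
        funext k
        simp [fr, fc]
      simp [pr, h4]
    · exact fun h => absurd (Finset.mem_univ i) h
  rw [h3, h3, hm i] at h1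
  have h5 : (vf (u τ) 0 i).re = ∫ x in cube, u τ x i := by
    show (fr (fun x => u τ x i) 0).re = _
    rw [h32.GD.fr_zero_eq, Complex.ofReal_re]
  rw [h5, Complex.ofReal_re] at h1
  linarith

end Pool.Agent.Run7.h969.HP
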