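import Pool.Agent.Run7.h782.WQ.PubS
import Pool.Agent.Run7.h782.WQ.Defs4
import Pool.Agent.Run7.h782.HP.T1F

/-!
Weak solutions with finitely many singular times near any smooth path of divergence free fields
(project HP): forced equations, statements of the pieces.

All fields have mean zero. Everything is global in time as in the project WQ, but the equation has a
force `f` with finitely many modes, continuous in `t`, equal to zero for late times (and, at the end,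
for `t ≤ T₀`, so that on `(0, T₀)` its solutions are solutions of the Navier-Stokes equations). For
differences of solutions the force cancels. The waves (`StmAppQ` and below) are not changed.
-/

set_option autoImplicit false

open MeasureTheory Set Filter Topology
open scoped ContDiff ENNReal ComplexConjugate

namespace Pool.Agent.Run7.h969.HP

open H459R3.NS Pool.Agent.Run7.h782 Pool.Agent.Run7.h782.GD Pool.Agent.Run7.h782.GS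
open Pool.Agent.Run7.h782.WS Pool.Agent.Run7.h782.WQ Pool.Agent.Run7.h744.WS
open Pool.Agent.Run7.h969.WS

/-- Forces. -/
structure Frc (f : ℝ → Cf) : Prop where
  fin : ∃ B : Finset K3, (0 : K3) ∉ B ∧ ∀ t, ∀ k ∉ B, f t k = 0
  cont : ∀ k, Continuous fun t => f t k
  herm : ∀ t, Herm (f t)
  div : ∀ t, Dv (f t)
  late : ∃ T : ℝ, 0 ≤ T ∧ ∀ t, T ≤ t → f t = 0

/-- `LSol` with the force `f`. -/
structure LSolF (f : ℝ → Cf) (ν : ℝ) (U : ℝ → Cf) : Prop where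
  zero : ∀ t, 0 ≤ t → U t 0 = 0
  herm : ∀ t, 0 ≤ t → Herm (U t)
  div : ∀ t, 0 ≤ t → Dv (U t)
  der : ∀ t, 0 ≤ t → ∀ k, HasDerivWithinAt (fun s => U s k)
    (-(lam ν k : ℂ) • U t k - nl (U t) (U t) k + f t k) (Ici 0) t
  maj : ∀ (n : ℕ) (T : ℝ), ∃ A : K3 → ℝ, Summable A ∧
    ∀ t ∈ Icc 0 T, ∀ k, (1 + len k) ^ n * ‖U t k‖ ≤ A k

/-- `Tg` with the force `f`. -/
structure TgF (f : ℝ → Cf) (ν : ℝ) (U : ℝ → Cf) : Prop extends LSolF f ν U where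
  bd : ∃ M : ℝ, ∀ t, 0 ≤ t → ∀ A : Finset K3, ∑ k ∈ A, ‖U t k‖ ≤ M
  int : ∃ M : ℝ, ∀ T, 0 ≤ T → ∀ A : Finset K3,
    ∫ t in (0 : ℝ)..T, ∑ k ∈ A, len k * ‖U t k‖ ≤ M
  ev : ∀ ε : ℝ, 0 < ε → ∃ s : ℝ, 0 ≤ s ∧ ∀ t, s ≤ t → ∀ A : Finset K3,
    ∑ k ∈ A, ‖U t k‖ / len k ≤ ε

/-- **Piece IntF** (as `StmInt`; for late times the force vanishes, before them the interval is
bounded). -/
def StmIntF : Prop := ∃ c : ℝ, 0 < c ∧ ∀ f : ℝ → Cf, Frc f → ∀ (ν : ℝ), 0 < ν →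
  ∀ U : ℝ → Cf, LSolF f ν U →
  (∃ s : ℝ, 0 ≤ s ∧ ∀ t, s ≤ t → ∀ A : Finset K3, ∑ k ∈ A, ‖U t k‖ / len k ≤ c * ν) → TgF f ν U

/-- **Piece PropF** (as `StmProp`). -/
def StmPropF : Prop := ∃ C₂ : ℝ, 0 < C₂ ∧ ∀ f : ℝ → Cf, Frc f → ∀ (ν : ℝ), 0 < ν →
  ∀ (a U : ℝ → Cf), LSolF f ν a → LSolF f ν U → ∀ s : ℝ, 0 ≤ s → ∀ M : ℝ,
  (∀ t, s ≤ t → ∀ A : Finset K3, ∫ r in s..t, (((∑ k ∈ A, ‖a r k‖) ^ 2 + (∑ k ∈ A, ‖U r k‖) ^ 2) / ν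
    + ∑ k ∈ A, len k * (‖a r k‖ + ‖U r k‖)) ≤ M) →
  ∀ t, s ≤ t → ∀ A : Finset K3,
    ∑ k ∈ A, ‖a t k - U t k‖ ≤ Real.exp (C₂ * M) * ∑' k, ‖a s k - U s k‖

/-- **Piece StepF** (as `StmStepQ`, from T1F, IntF, PropF, ProfQ, AppQ, Q0). -/
def StmStepF : Prop := ∃ C : ℝ → ℝ, (∀ p, 0 < C p) ∧ ∀ f : ℝ → Cf, Frc f → ∀ (ν : ℝ), 0 < ν →
  ∀ κ : ℝ, 0 < κ → κ ≤ 1 → ∀ E : Finset ℝ, (∀ p ∈ E, 0 < p) → ∀ U : ℝ → Cf, TgF f ν U →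
  ∀ (Z : Finset K3) (z : Cf), (0 : K3) ∉ Z → (∀ k ∉ Z, z k = 0) → Herm z → Dv z →
  ∀ r : Mf, Sy r → R1 r → (∀ k, dvr r k = z k - U 0 k) →
  ∀ θ : ℝ, 0 < θ → ∃ H : ℝ, ∀ ε : ℝ, 0 < ε →
  ∃ (h : ℝ → ℝ) (a : ℝ → Cf), FSo ν f a ∧ TgF f ν a ∧
    (∀ p ∈ E, rp p (anti (a 0 - z))
      ≤ C p * ν ^ (p / 2) * κ ^ (1 - p / 2) * rp (p / 2) r + θ) ∧
    (∀ q ∈ E, 2 ≤ q → ∀ T, 0 ≤ T → ∫ t in (0 : ℝ)..T, fp q (a t - U t) ^ (2 / q)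
      ≤ C q * κ ^ (2 / q - 1) * rp (q / 2) r ^ (2 / q) + θ) ∧
    Continuous h ∧ (∀ s, 0 < s → h s ≤ ε / Real.sqrt s) ∧
    (∀ T, 0 ≤ T → ∫ s in (0 : ℝ)..T, h s ^ 2 ≤ H) ∧
    (∃ e : K3 → ℝ, (∀ k, 0 ≤ e k) ∧ e 0 = 0 ∧ Summable e ∧ ∑' k, e k / len k ≤ θ ∧
      ∀ s, 0 ≤ s → ∀ A : Finset K3,
        ∑ k ∈ A, ht s k * ‖a 0 k - z k‖ ≤ h s + ∑' k, ht s k * e k) ∧
    (∀ t, 0 ≤ t → ∃ e : K3 → ℝ, (∀ k, 0 ≤ e k) ∧ e 0 = 0 ∧ Summable e ∧ ∑' k, e k / len k ≤ θ ∧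
      ∀ s, 0 ≤ s → ∀ A : Finset K3, ∑ k ∈ A, ht s k * ‖a t k - U t k‖
        ≤ (∑' k, ht s k * ‖z k - U 0 k‖) + h s + ∑' k, ht s k * e k) ∧
    (∀ t, 0 < t → ∀ A : Finset K3, ∑ k ∈ A, ‖a t k - U t k‖ ≤ ε / Real.sqrt t) ∧
    (∀ T, 0 ≤ T → ∀ A : Finset K3, ∫ t in (0 : ℝ)..T, (∑ k ∈ A, ‖a t k - U t k‖) ^ 2 ≤ H) ∧
    (∀ T, 0 ≤ T → ∀ A : Finset K3, ∫ t in (0 : ℝ)..T, ∑ k ∈ A, ‖a t k - U t k‖ ^ 2
      ≤ C 2 * (rp 1 r + θ)) ∧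
    ∀ t, ε ≤ t → ∀ A : Finset K3, ∑ k ∈ A, ‖a t k - U t k‖ ≤ ε

/-- **Piece SmoothF** (as `StmSmooth`: uniform smoothing, for a family of solutions with the same
force). -/
def StmSmoothF : Prop := ∀ f : ℝ → Cf, Frc f → ∀ (ν : ℝ), 0 < ν → ∀ (M τ : ℝ), 0 < τ →
  ∃ μ > 0, ∃ C : ℝ, ∀ a : ℝ → Cf, FSo ν f a → ∀ s : ℝ, 0 ≤ s →
  (∀ t, s ≤ t → ∀ A : Finset K3, ∑ k ∈ A, ‖a t k‖ ≤ M) →
  ∀ t, s + τ ≤ t → ∀ k, ‖a t k‖ ≤ C * Real.exp (-(μ * len k))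

/-- **Piece LimF** (as `StmLim`, from SmoothF). -/
def StmLimF : Prop := ∀ f : ℝ → Cf, Frc f → ∀ (ν : ℝ), 0 < ν → ∀ (a : ℕ → ℝ → Cf) (ε : ℕ → ℝ),
  (∀ j, FSo ν f (a j)) → (∀ j, 0 < ε j) → Antitone ε → Summable ε →
  (∀ j t, ε j ≤ t → ∀ A : Finset K3, ∑ k ∈ A, ‖a (j + 1) t k - a j t k‖ ≤ ε j) →
  ∃ b : ℝ → Cf, (∀ τ : ℝ, 0 < τ → FSo ν (fun t => f (t + τ)) (fun t => b (t + τ))) ∧
    ∀ t, 0 < t → ∀ k, Tendsto (fun j => a j t k) atTop (𝓝 (b t k))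

/-- **Piece IterF** (as `StmIterQ`, without the Besov norm, and with the bound for all `t > 0`: it
is the sum of the bounds `ε j / √t` of the steps). -/
def StmIterF : Prop := ∀ f : ℝ → Cf, Frc f → ∀ (ν : ℝ), 0 < ν → ∀ U : ℝ → Cf, TgF f ν U →
  ∀ (Q : ℕ → ℝ) (c : Cf) (r : ℕ → Mf), DatQ Q c r → ∀ φ : ℝ → ℝ, Gauge φ → ∀ δ : ℝ, 0 < δ →
  ∃ b : ℝ → Cf, (∀ τ : ℝ, 0 < τ → FSo ν (fun t => f (t + τ)) (fun t => b (t + τ))) ∧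
    (∀ k, Tendsto (fun t => b t k) (𝓝[>] 0) (𝓝 (c k))) ∧
    (∃ C : ℝ, ∀ t, 0 < t → t ≤ 1 → ∀ k, ‖b t k‖ ≤ C * (1 + len k) ^ 2) ∧
    Tendsto (fun t => Real.sqrt t * ∑' k, ‖b t k‖) (𝓝[>] 0) (𝓝 0) ∧
    IntegrableOn (fun t => φ (Real.sqrt t * ∑' k, ‖b t k‖) / t) (Ioc 0 1) ∧
    (∀ n, IntegrableOn (fun t => fp (2 * Q n) (b t) ^ (1 / Q n)) (Ioc 0 1)) ∧
    IntegrableOn (fun t => ∑' k, ‖b t k‖ ^ 2) (Ioc 0 1) ∧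
    (∀ t, 0 < t → ∀ A : Finset K3, ∑ k ∈ A, ‖b t k - U t k‖ ≤ δ / Real.sqrt t) ∧
    ∀ t, δ ≤ t → ∀ A : Finset K3, ∑ k ∈ A, ‖b t k - U t k‖ ≤ δ

/-- Smooth `1`-periodic solutions (velocity `u`, pressure `p`) of the Navier-Stokes equations with
viscosity `ν` without force for the times in the open set `I`. -/
structure SolOn (ν : ℝ) (I : Set ℝ) (u : ℝ → V → V) (p : ℝ → V → ℝ) : Prop where
  smooth_u : ContDiffOn ℝ ∞ (fun z : ℝ × V => u z.1 z.2) (I ×ˢ univ)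
  smooth_p : ContDiffOn ℝ ∞ (fun z : ℝ × V => p z.1 z.2) (I ×ˢ univ)
  per_u : ∀ t ∈ I, Per (u t)
  per_p : ∀ t ∈ I, Per (p t)
  divfree : ∀ t ∈ I, ∀ x, ∑ i, pd i (fun y => u t y i) x = 0
  momentum : ∀ t ∈ I, ∀ x i,
    deriv (fun s => u s x i) t + ∑ j, u t x j * pd j (fun y => u t y i) x
      = ν * ∑ j, pd j (pd j (fun y => u t y i)) x - pd i (p t) x

/-- Solutions of the equation for the coefficients on `(0, T)`. -/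
structure CSolO (ν T : ℝ) (b : ℝ → Cf) : Prop where
  dec : ∀ s t, 0 < s → t < T → ∃ μ > 0, ∃ C : ℝ, ∀ r ∈ Icc s t, ∀ k,
    ‖b r k‖ ≤ C * Real.exp (-(μ * len k))
  zero : ∀ t ∈ Ioo 0 T, b t 0 = 0
  herm : ∀ t ∈ Ioo 0 T, Herm (b t)
  div : ∀ t ∈ Ioo 0 T, Dv (b t)
  der : ∀ t ∈ Ioo 0 T, ∀ k, HasDerivAt (fun s => b s k)
    (-(lam ν k : ℂ) • b t k - nl (b t) (b t) k) t

/-- **Piece PhysO** (as `StmPhys`, `StmPhys2`, on an open interval). From coefficients to fields. -/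
def StmPhysO : Prop := ∀ (ν T : ℝ) (b : ℝ → Cf), CSolO ν T b →
  ∃ p : ℝ → V → ℝ, SolOn ν (Ioo 0 T) (fld b) p

/-- Smooth paths of divergence free fields with mean zero. -/
structure Path (w : ℝ → V → V) : Prop where
  smooth : ContDiff ℝ ∞ (fun z : ℝ × V => w z.1 z.2)
  per : ∀ t, Per (w t)
  divfree : ∀ t x, ∑ i, pd i (fun y => w t y i) x = 0
  mean : ∀ t i, ∫ x in cube, w t x i = 0

/-- **Piece TgtF** (helper969). For a smooth path `w` and all sufficiently short times `τ`, uniformly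
in the starting time `s ∈ [0, T]`, there are forced targets near `w (s + ·)` on `[0, τ]`, with the
force zero there. -/
def StmTgtF : Prop := ∀ (ν : ℝ), 0 < ν → ∀ w : ℝ → V → V, Path w → ∀ T ε : ℝ, 0 < T → 0 < ε →
  ∃ τ₀ : ℝ, 0 < τ₀ ∧ ∀ τ, 0 < τ → τ ≤ τ₀ → ∀ s ∈ Icc 0 T,
  ∃ f U : ℝ → Cf, Frc f ∧ (∀ t, t ≤ τ → f t = 0) ∧ TgF f ν U ∧
    ∀ t ∈ Icc 0 τ, ∀ A : Finset K3, ∑ k ∈ A, ‖U t k - vf (w (s + t)) k‖ ≤ ε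

/-- **Piece LocF** (local form in physical space; from IterF, TgtF, PhysO, D1S, as `StmInitQ`). One
step of the construction, on an interval slightly larger than `(0, τ]`. -/
def StmLocF : Prop := ∀ (ν : ℝ), 0 < ν → ∀ w : ℝ → V → V, Path w → ∀ T ε : ℝ, 0 < T → 0 < ε →
  ∃ τ₀ : ℝ, 0 < τ₀ ∧ ∀ τ, 0 < τ → τ < τ₀ → ∀ s ∈ Icc 0 T, ∀ c : Cf, Herm c → Dv c → c 0 = 0 →
  ∀ (R : Fin 3 → Fin 3 → V → ℝ), Str R → IsDiv R c → ∀ Q : ℕ → ℝ, (∀ n, 1 ≤ Q n) →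
  (∀ n i j, IntegrableOn (fun x => |R i j x| ^ Q n) cube) → ∀ δ : ℝ, 0 < δ →
  ∃ (τ' : ℝ) (u : ℝ → V → V) (p : ℝ → V → ℝ), τ < τ' ∧ SolOn ν (Ioo 0 τ') u p ∧
    (∀ i, IntegrableOn (fun z : ℝ × V => u z.1 z.2 i ^ 2) (Ioc 0 τ ×ˢ cube)) ∧
    (∀ n, InLq τ u (2 * Q n)) ∧
    (∀ (i : Fin 3) (ψ : V → ℝ), ContDiff ℝ ∞ ψ → Per ψ →
      Tendsto (fun t => ∫ x in cube, u t x i * ψ x) (𝓝[>] 0) (𝓝 (pr c i ψ))) ∧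
    (∀ t ∈ Ioc 0 τ, ∀ i, ∫ x in cube, u t x i = 0) ∧
    (∃ h : ℝ → ℝ, (∀ t ∈ Ioc 0 τ, ∀ x i, |u t x i| ≤ h t) ∧
      Tendsto (fun t => Real.sqrt t * h t) (𝓝[>] 0) (𝓝 0)) ∧
    ∀ t ∈ Ioc 0 τ, ∀ x i, |u t x i - w (s + t) x i| ≤ ε + δ / Real.sqrt t

/-- **Piece VWL** (as `h980/WQ/VW.lean`). The very weak formulation on `(0, τ]` with both end
terms. -/
def StmVWL : Prop := ∀ (ν τ τ' : ℝ), 0 < ν → 0 < τ → τ < τ' → ∀ (u : ℝ → V → V)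
  (p : ℝ → V → ℝ), SolOn ν (Ioo 0 τ') u p →
  (∀ i, IntegrableOn (fun z : ℝ × V => u z.1 z.2 i ^ 2) (Ioc 0 τ ×ˢ cube)) → ∀ c : Cf,
  (∀ (i : Fin 3) (ψ : V → ℝ), ContDiff ℝ ∞ ψ → Per ψ →
    Tendsto (fun t => ∫ x in cube, u t x i * ψ x) (𝓝[>] 0) (𝓝 (pr c i ψ))) →
  ∀ (χ : ℝ → ℝ) (ψ : V → V), ContDiff ℝ ∞ χ → ContDiff ℝ ∞ ψ → Per ψ →
    (∀ x, ∑ i, pd i (fun y => ψ y i) x = 0) →
    χ 0 * (∑ i, pr c i (fun x => ψ x i)) - χ τ * (∑ i, ∫ x in cube, u τ x i * ψ x i)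
      + ∫ z in Ioo 0 τ ×ˢ cube, (deriv χ z.1 * (∑ i, u z.1 z.2 i * ψ z.2 i)
        + χ z.1 * (∑ i, ∑ j, u z.1 z.2 i * u z.1 z.2 j * pd i (fun y => ψ y j) z.2
          + ν * ∑ i, u z.1 z.2 i * ∑ j, pd j (pd j (fun y => ψ y i)) z.2)) = 0

/-- **The theorem** (from LocF, VWL and InitialValues for the times after `T`). For every smooth path
`w` on `[0, T]`, every datum `c` of the class of `InitialValues` with mean zero, `q < 2` and `ε > 0`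
there is a global very weak solution from `c` in `⋂ₙ L² L^(2 Q n)`, smooth except at finitely many
times, weakly continuous, with `√(t - s) |u t| → 0` as `t ↓ s` for all `s ≥ 0`, which is `ε`-close to
`w` in `L^q((0, T); L^∞)` and at most `ε` for `t ≥ T + ε`. -/
def StmHP : Prop := ∀ (ν : ℝ), 0 < ν → ∀ T : ℝ, 0 < T → ∀ w : ℝ → V → V, Path w →
  ∀ c : Cf, Dis c → c 0 = 0 → ∀ Q : ℕ → ℝ, (∀ n, 1 ≤ Q n) →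
  (∃ R : Fin 3 → Fin 3 → V → ℝ, Str R ∧ IsDiv R c ∧
    ∀ n i j, IntegrableOn (fun x => |R i j x| ^ Q n) cube) →
  ∀ q ε : ℝ, 0 < q → q < 2 → 0 < ε →
  ∃ (F : Finset ℝ) (u : ℝ → V → V) (p : ℝ → V → ℝ), (∀ s ∈ F, s ∈ Icc 0 T) ∧
    SolOn ν (Ioi 0 \ F) u p ∧ (∀ T', 0 < T' → VW ν T' c u) ∧
    (∀ T', 0 < T' → ∀ n, InLq T' u (2 * Q n)) ∧
    (∀ (i : Fin 3) (ψ : V → ℝ), ContDiff ℝ ∞ ψ → Per ψ →
      ContinuousOn (fun t => ∫ x in cube, u t x i * ψ x) (Ioi 0) ∧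
      Tendsto (fun t => ∫ x in cube, u t x i * ψ x) (𝓝[>] 0) (𝓝 (pr c i ψ))) ∧
    (∀ s, 0 ≤ s → ∀ δ : ℝ, 0 < δ → ∀ᶠ t in 𝓝[>] s, ∀ x i, |u t x i| ≤ δ / Real.sqrt (t - s)) ∧
    ∫⁻ t in Ioo 0 T, (⨆ x, ⨆ i, ENNReal.ofReal |u t x i - w t x i|) ^ q ≤ ENNReal.ofReal ε ∧
    ∀ t, T + ε ≤ t → ∀ x i, |u t x i| ≤ ε

end Pool.Agent.Run7.h969.HP
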