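import Pool.Agent.Run7.h969.HP.Defs2

/-!
The branching theorem with closeness in Orlicz spaces, for all means: statements.
-/

set_option autoImplicit false

open MeasureTheory Set Filter Topology
open scoped ContDiff ENNReal ComplexConjugate

namespace Pool.Agent.Run7.h969.HP

open H459R3.NS Pool.Agent.Run7.h782 Pool.Agent.Run7.h782.GD Pool.Agent.Run7.h782.GS
open Pool.Agent.Run7.h782.WS Pool.Agent.Run7.h782.WQ Pool.Agent.Run7.h744.WS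
open Pool.Agent.Run7.h969.WS Pool.Agent.Run7.h782.OS

/-- `Φ` is convex and `≥ 0` on `[0, ∞)`, `Φ 0 = 0` and `Φ x = o(x²)` as `x → ∞`. -/
structure Orl (Φ : ℝ → ℝ) : Prop where
  zero : Φ 0 = 0
  nonneg : ∀ x, 0 ≤ x → 0 ≤ Φ x
  conv : ConvexOn ℝ (Ici 0) Φ
  small : Tendsto (fun x => Φ x / x ^ 2) atTop (𝓝 0)

/-- **Piece IterP** (as `StmIterF`, with the last but two clause). -/
def StmIterP : Prop := ∀ f : ℝ → Cf, Frc f → ∀ (ν : ℝ), 0 < ν → ∀ U : ℝ → Cf, TgF f ν U →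
  ∀ (Q : ℕ → ℝ) (c : Cf) (r : ℕ → Mf), DatQ Q c r → ∀ φ : ℝ → ℝ, Gauge φ → ∀ Φ : ℝ → ℝ, Orl Φ →
  ∀ δ : ℝ, 0 < δ →
  ∃ b : ℝ → Cf, (∀ τ : ℝ, 0 < τ → FSo ν (fun t => f (t + τ)) (fun t => b (t + τ))) ∧
    (∀ k, Tendsto (fun t => b t k) (𝓝[>] 0) (𝓝 (c k))) ∧
    (∃ C : ℝ, ∀ t, 0 < t → t ≤ 1 → ∀ k, ‖b t k‖ ≤ C * (1 + len k) ^ 2) ∧
    Tendsto (fun t => Real.sqrt t * ∑' k, ‖b t k‖) (𝓝[>] 0) (𝓝 0) ∧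
    IntegrableOn (fun t => φ (Real.sqrt t * ∑' k, ‖b t k‖) / t) (Ioc 0 1) ∧
    (∀ n, IntegrableOn (fun t => fp (2 * Q n) (b t) ^ (1 / Q n)) (Ioc 0 1)) ∧
    IntegrableOn (fun t => ∑' k, ‖b t k‖ ^ 2) (Ioc 0 1) ∧
    (∀ t, 0 < t → ∀ A : Finset K3, ∑ k ∈ A, ‖b t k - U t k‖ ≤ δ / Real.sqrt t) ∧
    ∫⁻ t in Ioc (0 : ℝ) 1, ENNReal.ofReal (Φ (∑' k, ‖b t k - U t k‖)) ≤ ENNReal.ofReal δ ∧
    ∀ t, δ ≤ t → ∀ A : Finset K3, ∑ k ∈ A, ‖b t k - U t k‖ ≤ δ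

/-- Smooth paths of divergence free fields with mean `m`. -/
structure PathM (m : V) (w : ℝ → V → V) : Prop where
  smooth : ContDiff ℝ ∞ (fun z : ℝ × V => w z.1 z.2)
  per : ∀ t, Per (w t)
  divfree : ∀ t x, ∑ i, pd i (fun y => w t y i) x = 0
  mean : ∀ t i, ∫ x in cube, w t x i = m i

/-- **Piece LocP** (from IterP, TgtF, PhysO, D1S; as `StmLocF`, with the mean `m` and the last
clause). With the mean `m`: `u t x = m + u' t (x - (s + t) m)`, `w r x = m + w' r (x - r m)`. -/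
def StmLocP : Prop := ∀ (ν : ℝ), 0 < ν → ∀ (m : V) (w : ℝ → V → V), PathM m w →
  ∀ T ε : ℝ, 0 < T → 0 < ε →
  ∃ τ₀ : ℝ, 0 < τ₀ ∧ ∀ τ, 0 < τ → τ < τ₀ → ∀ s ∈ Icc 0 T, ∀ c : Cf, Herm c → Dv c →
  (∀ i, c 0 i = ((m i : ℝ) : ℂ)) →
  ∀ (R : Fin 3 → Fin 3 → V → ℝ), Str R → IsDiv R c → ∀ Q : ℕ → ℝ, (∀ n, 1 ≤ Q n) →
  (∀ n i j, IntegrableOn (fun x => |R i j x| ^ Q n) cube) → ∀ Φ : ℝ → ℝ, Orl Φ →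
  ∀ δ : ℝ, 0 < δ →
  ∃ (τ' : ℝ) (u : ℝ → V → V) (p : ℝ → V → ℝ), τ < τ' ∧ SolOn ν (Ioo 0 τ') u p ∧
    (∀ i, IntegrableOn (fun z : ℝ × V => u z.1 z.2 i ^ 2) (Ioc 0 τ ×ˢ cube)) ∧
    (∀ n, InLq τ u (2 * Q n)) ∧
    (∀ (i : Fin 3) (ψ : V → ℝ), ContDiff ℝ ∞ ψ → Per ψ →
      Tendsto (fun t => ∫ x in cube, u t x i * ψ x) (𝓝[>] 0) (𝓝 (pr c i ψ))) ∧
    (∀ t ∈ Ioc 0 τ, ∀ i, ∫ x in cube, u t x i = m i) ∧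
    (∃ h : ℝ → ℝ, (∀ t ∈ Ioc 0 τ, ∀ x i, |u t x i| ≤ h t) ∧
      Tendsto (fun t => Real.sqrt t * h t) (𝓝[>] 0) (𝓝 0)) ∧
    ∃ h : ℝ → ℝ, (∀ t, 0 ≤ h t) ∧ (∀ t ∈ Ioc 0 τ, ∀ x i, |u t x i - w (s + t) x i| ≤ ε + h t) ∧
      ∫⁻ t in Ioc 0 τ, ENNReal.ofReal (Φ (h t)) ≤ ENNReal.ofReal δ

/-- **The h-principle** (from LocP, VWL, `StmFinal`, as `StmHP`). -/
def StmHPP : Prop := ∀ (ν : ℝ), 0 < ν → ∀ T : ℝ, 0 < T → ∀ (m : V) (w : ℝ → V → V), PathM m w →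
  ∀ c : Cf, Dis c → (∀ i, c 0 i = ((m i : ℝ) : ℂ)) → ∀ Q : ℕ → ℝ, (∀ n, 1 ≤ Q n) →
  (∃ R : Fin 3 → Fin 3 → V → ℝ, Str R ∧ IsDiv R c ∧
    ∀ n i j, IntegrableOn (fun x => |R i j x| ^ Q n) cube) →
  ∀ Φ : ℝ → ℝ, Orl Φ → ∀ ε : ℝ, 0 < ε →
  ∃ (F : Finset ℝ) (u : ℝ → V → V) (p : ℝ → V → ℝ), (∀ s ∈ F, s ∈ Icc 0 T) ∧
    SolOn ν (Ioi 0 \ F) u p ∧ (∀ T', 0 < T' → VW ν T' c u) ∧
    (∀ T', 0 < T' → ∀ n, InLq T' u (2 * Q n)) ∧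
    (∀ (i : Fin 3) (ψ : V → ℝ), ContDiff ℝ ∞ ψ → Per ψ →
      ContinuousOn (fun t => ∫ x in cube, u t x i * ψ x) (Ioi 0) ∧
      Tendsto (fun t => ∫ x in cube, u t x i * ψ x) (𝓝[>] 0) (𝓝 (pr c i ψ))) ∧
    (∀ s, 0 ≤ s → ∀ δ : ℝ, 0 < δ → ∀ᶠ t in 𝓝[>] s, ∀ x i, |u t x i| ≤ δ / Real.sqrt (t - s)) ∧
    (∃ h : ℝ → ℝ, (∀ t, 0 ≤ h t) ∧ (∀ t ∈ Ioo 0 T, ∀ x i, |u t x i - w t x i| ≤ h t) ∧
      ∫⁻ t in Ioo 0 T, ENNReal.ofReal (Φ (h t)) ≤ ENNReal.ofReal ε) ∧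
    ∀ t, T + ε ≤ t → ∀ x i, |u t x i - m i| ≤ ε

/-- **The branching theorem** (from End and the h-principle). Every very weak solution `v` on
`(0, T₀)` in `⋂ₙ L² L^(2 Q n)` branches at every time `S ∈ [0, T₀]`: for every smooth path `w` with
the same mean `m`, `T > S`, `Φ` and `ε > 0` there is a global very weak solution `u` with the same
initial values, in `⋂ₙ L² L^(2 Q n)`, equal to `v` on `(0, S)`, smooth after the time `S` except at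
finitely many times, weakly continuous there, with `√(t - s) |u t| → 0` as `t ↓ s` for all `s ≥ S`,
with `|u - w| ≤ h` and `∫ Φ (h t) dt ≤ ε` on `(S, T)`, and with `|u - m| ≤ ε` for `t ≥ T + ε`. -/
def StmBrP : Prop := ∀ (ν : ℝ), 0 < ν → ∀ (m : V) (c : Cf), Dis c →
  (∀ i, c 0 i = ((m i : ℝ) : ℂ)) → ∀ Q : ℕ → ℝ,
  (∀ n, 1 ≤ Q n) → ∀ T₀ : ℝ, 0 < T₀ → ∀ v : ℝ → V → V, VW ν T₀ c v →
  (∀ n, InLq T₀ v (2 * Q n)) → ∀ S ∈ Icc 0 T₀, ∀ T : ℝ, S < T → ∀ w : ℝ → V → V, PathM m w →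
  ∀ Φ : ℝ → ℝ, Orl Φ → ∀ ε : ℝ, 0 < ε →
  ∃ (F : Finset ℝ) (u : ℝ → V → V) (p : ℝ → V → ℝ), (∀ s ∈ F, s ∈ Icc S T) ∧
    (∀ t ∈ Ioo 0 S, u t = v t) ∧ SolOn ν (Ioi S \ F) u p ∧ (∀ T', 0 < T' → VW ν T' c u) ∧
    (∀ T', 0 < T' → ∀ n, InLq T' u (2 * Q n)) ∧
    (∀ (i : Fin 3) (ψ : V → ℝ), ContDiff ℝ ∞ ψ → Per ψ →
      ContinuousOn (fun t => ∫ x in cube, u t x i * ψ x) (Ioi S)) ∧
    (∀ s, S ≤ s → ∀ δ : ℝ, 0 < δ → ∀ᶠ t in 𝓝[>] s, ∀ x i, |u t x i| ≤ δ / Real.sqrt (t - s)) ∧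
    (∃ h : ℝ → ℝ, (∀ t, 0 ≤ h t) ∧ (∀ t ∈ Ioo S T, ∀ x i, |u t x i - w t x i| ≤ h t) ∧
      ∫⁻ t in Ioo S T, ENNReal.ofReal (Φ (h t)) ≤ ENNReal.ofReal ε) ∧
    ∀ t, T + ε ≤ t → ∀ x i, |u t x i - m i| ≤ ε

end Pool.Agent.Run7.h969.HP
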