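import Pool.Agent.Run7.h969.HP.Defs4

/-!
The steering theorem: the piece DatU of LocU.
-/

set_option autoImplicit false

open MeasureTheory Set Filter Topology
open scoped ContDiff ENNReal ComplexConjugate

namespace Pool.Agent.Run7.h969.HP

open H459R3.NS Pool.Agent.Run7.h782 Pool.Agent.Run7.h782.GD Pool.Agent.Run7.h782.GS
open Pool.Agent.Run7.h782.WS Pool.Agent.Run7.h782.WQ Pool.Agent.Run7.h744.WS
open Pool.Agent.Run7.h969.WS Pool.Agent.Run7.h782.OS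

/-- **Piece DatU.** The datum `c` is `d + P div r` up to `η` in the absolute sum, `r` is a
trigonometric polynomial, small in `L^(Q i)` for `i ≤ I`. With `r' m = r + ` the part of
`anti (c - dvr r)` with the frequencies in `B m`, `B 0` large, increasing to all frequencies
(from `StmQ0`; `dvr (anti c) = c`). -/
def StmDatU : Prop := ∀ Q : ℕ → ℝ, (∀ n, 1 ≤ Q n) → ∀ (I : ℕ) (η₁ : ℝ), 0 < η₁ →
  ∃ η : ℝ, 0 < η ∧ ∀ c d : Cf, Herm c → Dv c → c 0 = 0 → Herm d → Dv d → d 0 = 0 →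
  (Summable fun k => ‖c k‖) → (Summable fun k => ‖d k‖) →
  ∀ (Z : Finset K3) (r : Mf), (∀ i j, ∀ k ∉ Z, r i j k = 0) → Sy r →
  (∀ i, i ≤ I → rp (Q i) r ≤ η) → (∀ A : Finset K3, ∑ k ∈ A, ‖c k - d k - dvr r k‖ ≤ η) →
  ∃ r' : ℕ → Mf, DatQ Q c r' ∧ ∀ i, i ≤ I → ∀ m, rp (Q i) (r' m - anti d) ≤ η₁

end Pool.Agent.Run7.h969.HP
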