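import Pool.Agent.Run7.h969.HP.Rch5
import Pool.Agent.Run7.h219.HP.Ind

/-!
Piece Inf, part 1: infinitely many pieces.
-/

set_option autoImplicit false

open MeasureTheory Set Filter Topology
open scoped ContDiff ENNReal ComplexConjugate

namespace Pool.Agent.Run7.h969.HP

open H459R3.NS Pool.Agent.Run7.h782 Pool.Agent.Run7.h782.GD Pool.Agent.Run7.h782.GS
open Pool.Agent.Run7.h782.WS Pool.Agent.Run7.h782.WQ Pool.Agent.Run7.h744.WS
open Pool.Agent.Run7.h969.WS Pool.Agent.Run7.h782.OS Pool.Agent.Run7.h219.OS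
open Pool.Agent.Run7.h219.HP

/-! ### The pieces of the interval -/

/-- The start of the piece `n`. -/
noncomputable def ps (τ : ℕ → ℝ) (n : ℕ) : ℝ := ∑ i ∈ Finset.range n, τ i

theorem ps_zero (τ : ℕ → ℝ) : ps τ 0 = 0 := Finset.sum_range_zero _

theorem ps_succ (τ : ℕ → ℝ) (n : ℕ) : ps τ (n + 1) = ps τ n + τ n := Finset.sum_range_succ _ _

theorem ps_mono {τ : ℕ → ℝ} (hτ : ∀ n, 0 < τ n) : StrictMono (ps τ) :=
  strictMono_nat_of_lt_succ fun n => by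
    rw [ps_succ]
    linarith [hτ n]

theorem ps_nonneg {τ : ℕ → ℝ} (hτ : ∀ n, 0 < τ n) (n : ℕ) : 0 ≤ ps τ n := by
  rw [← ps_zero τ]
  exact (ps_mono hτ).monotone (Nat.zero_le n)

theorem ps_lt {τ : ℕ → ℝ} (hτ : ∀ n, 0 < τ n) {T : ℝ} (hs : HasSum τ T) (n : ℕ) : ps τ n < T :=
  ((ps_mono hτ) (Nat.lt_succ_self n)).trans_le
    (sum_le_hasSum (Finset.range (n + 1)) (fun i _ => (hτ i).le) hs)

theorem ps_tendsto {τ : ℕ → ℝ} {T : ℝ} (hs : HasSum τ T) : Tendsto (ps τ) atTop (𝓝 T) :=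
  hs.tendsto_sum_nat

theorem ps_cover {τ : ℕ → ℝ} {T : ℝ} (hs : HasSum τ T) {t : ℝ} (ht : t ∈ Ioo 0 T) :
    ∃ n, t ∈ Ioc (ps τ n) (ps τ (n + 1)) := by
  obtain ⟨n, s, hs, rfl⟩ := cover hs ht
  refine ⟨n, ?_, ?_⟩
  · show ps τ n < ps τ n + s
    linarith [hs.1]
  · rw [ps_succ]
    show ps τ n + s ≤ ps τ n + τ n
    linarith [hs.2]

theorem ps_cover' {τ : ℕ → ℝ} (hτ : ∀ n, 0 < τ n) {T : ℝ} (hs : HasSum τ T) {t : ℝ}
    (ht : t ∈ Ico 0 T) : ∃ n, t ∈ Ico (ps τ n) (ps τ (n + 1)) := by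
  rcases ht.1.eq_or_lt with rfl | h0
  · refine ⟨0, by rw [ps_zero], ?_⟩
    rw [← ps_zero τ]
    exact ps_mono hτ (Nat.lt_succ_self 0)
  · obtain ⟨n, h1, h2⟩ := ps_cover hs ⟨h0, ht.2⟩
    rcases h2.eq_or_lt with rfl | h3
    · exact ⟨n + 1, le_rfl, ps_mono hτ (Nat.lt_succ_self _)⟩
    · exact ⟨n, h1.le, h3⟩

theorem ps_unique {τ : ℕ → ℝ} (hτ : ∀ n, 0 < τ n) {m n : ℕ} {t : ℝ}
    (hm : t ∈ Ioc (ps τ m) (ps τ (m + 1))) (hn : t ∈ Ioc (ps τ n) (ps τ (n + 1))) : m = n := by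
  have key : ∀ a b : ℕ, t ≤ ps τ (a + 1) → ps τ b < t → b ≤ a := by
    intro a b ha hb
    by_contra h
    have h1 : ps τ (a + 1) ≤ ps τ b := (ps_mono hτ).monotone (by omega)
    linarith
  exact le_antisymm (key n m hn.2 hm.1) (key m n hm.2 hn.1)

open Classical in
/-- The functions `a n`, started at the times `ps τ n`. -/
noncomputable def gi {E : Type*} [Zero E] (τ : ℕ → ℝ) (a : ℕ → ℝ → E) (t : ℝ) : E :=
  if h : ∃ n, t ∈ Ioc (ps τ n) (ps τ (n + 1)) then a h.choose (t - ps τ h.choose) else 0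

theorem gi_eq {E : Type*} [Zero E] {τ : ℕ → ℝ} (hτ : ∀ n, 0 < τ n) (a : ℕ → ℝ → E) {n : ℕ} {t : ℝ}
    (ht : t ∈ Ioc (ps τ n) (ps τ (n + 1))) : gi τ a t = a n (t - ps τ n) := by
  have h : ∃ n, t ∈ Ioc (ps τ n) (ps τ (n + 1)) := ⟨n, ht⟩
  unfold gi
  rw [dif_pos h, ps_unique hτ h.choose_spec ht]

/-! ### The equation -/

theorem iUnion_o {ν : ℝ} {u : ℝ → V → V} {p : ℝ → V → ℝ} {E : ℕ → Set ℝ} (hE : ∀ n, IsOpen (E n))
    (h : ∀ n, SolOn ν (E n) u p) : SolOn ν (⋃ n, E n) u p := by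
  have key : ∀ t ∈ ⋃ n, E n, ∃ n, t ∈ E n := fun t ht => mem_iUnion.1 ht
  refine ⟨?_, ?_, fun t ht => ?_, fun t ht => ?_, fun t ht => ?_, fun t ht => ?_⟩
  · rintro z ⟨hz, -⟩
    obtain ⟨n, hn⟩ := key _ hz
    exact ((h n).smooth_u.contDiffAt (((hE n).prod isOpen_univ).mem_nhds
      ⟨hn, mem_univ _⟩)).contDiffWithinAt
  · rintro z ⟨hz, -⟩
    obtain ⟨n, hn⟩ := key _ hz
    exact ((h n).smooth_p.contDiffAt (((hE n).prod isOpen_univ).mem_nhds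
      ⟨hn, mem_univ _⟩)).contDiffWithinAt
  · obtain ⟨n, hn⟩ := key _ ht
    exact (h n).per_u t hn
  · obtain ⟨n, hn⟩ := key _ ht
    exact (h n).per_p t hn
  · obtain ⟨n, hn⟩ := key _ ht
    exact (h n).divfree t hn
  · obtain ⟨n, hn⟩ := key _ ht
    exact (h n).momentum t hn

/-! ### The boxes -/

/-- The box of the piece `n`. -/
def bx (τ : ℕ → ℝ) (n : ℕ) : Set (ℝ × V) := Ioo (ps τ n) (ps τ (n + 1)) ×ˢ cube

theorem bx_meas (τ : ℕ → ℝ) (n : ℕ) : MeasurableSet (bx τ n) := boxm _ _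

theorem bx_disj {τ : ℕ → ℝ} (hτ : ∀ n, 0 < τ n) : Pairwise (Function.onFun Disjoint (bx τ)) := by
  intro m n hmn
  rw [Function.onFun, Set.disjoint_left]
  rintro z ⟨h1, -⟩ ⟨h2, -⟩
  exact hmn (ps_unique hτ ⟨h1.1, h1.2.le⟩ ⟨h2.1, h2.2.le⟩)

theorem bx_ae {τ : ℕ → ℝ} (hτ : ∀ n, 0 < τ n) {T : ℝ} (hs : HasSum τ T) :
    (Ioo 0 T ×ˢ cube : Set (ℝ × V)) =ᵐ[volume] ⋃ n, bx τ n := by
  have e : (Ioo 0 T ×ˢ cube : Set (ℝ × V))
      = (⋃ n, bx τ n) ∪ ((range fun n => ps τ (n + 1)) ×ˢ cube) := by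
    ext z
    constructor
    · rintro ⟨h1, h2⟩
      obtain ⟨n, h3, h4⟩ := ps_cover hs h1
      rcases h4.eq_or_lt with h5 | h5
      · exact Or.inr ⟨⟨n, h5.symm⟩, h2⟩
      · exact Or.inl (mem_iUnion.2 ⟨n, ⟨h3, h5⟩, h2⟩)
    · rintro (h | ⟨⟨n, h1⟩, h2⟩)
      · obtain ⟨n, h1, h2⟩ := mem_iUnion.1 h
        exact ⟨⟨(ps_nonneg hτ n).trans_lt h1.1, h1.2.trans (ps_lt hτ hs _)⟩, h2⟩
      · refine ⟨?_, h2⟩
        rw [← h1]
        exact ⟨(ps_nonneg hτ n).trans_lt (ps_mono hτ (Nat.lt_succ_self n)), ps_lt hτ hs _⟩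
  have h0 : volume (((range fun n => ps τ (n + 1)) ×ˢ cube : Set (ℝ × V))) = 0 := by
    rw [Measure.volume_eq_prod, Measure.prod_prod, (countable_range _).measure_zero, zero_mul]
  rw [e]
  exact union_ae_eq_left_of_ae_eq_empty (ae_eq_empty.2 h0)

theorem bx_shift {τ : ℕ → ℝ} (n : ℕ) :
    MeasurePreserving (fun z : ℝ × V => ((z.1 - ps τ n, z.2) : ℝ × V))
      (volume.restrict (bx τ n)) (volume.restrict (Ioo 0 (τ n) ×ˢ cube)) := by
  have h := shift_mp (T := ps τ n) (ps τ (n + 1))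
  have e : ps τ (n + 1) - ps τ n = τ n := by
    rw [ps_succ]
    ring
  rw [e] at h
  exact h

/-- Exponents: the square is controlled by the power `q ≥ 2`. -/
theorem two_le {q : ℝ} (hq : 2 ≤ q) {v : V → V} {i : Fin 3}
    (hm : AEStronglyMeasurable (fun x => v x i) (volume.restrict cube)) :
    ∫⁻ x in cube, ENNReal.ofReal (v x i ^ 2)
      ≤ (∫⁻ x in cube, ENNReal.ofReal (∑ j, |v x j| ^ q)) ^ (2 / q) := by
  have hq0 : 0 < q := by linarith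
  have : IsProbabilityMeasure ((volume : Measure V).restrict cube) := by
    constructor
    rw [Measure.restrict_apply_univ]
    exact volume_cube
  have h1 := eLpNorm'_le_eLpNorm'_of_exponent_le (μ := (volume : Measure V).restrict cube)
    (f := fun x => v x i) (p := 2) (q := q) (by norm_num) hq hm
  have h2 : ∫⁻ x in cube, ENNReal.ofReal (v x i ^ 2)
      = (eLpNorm' (fun x => v x i) 2 (volume.restrict cube)) ^ (2 : ℝ) := by
    rw [eLpNorm', ← ENNReal.rpow_mul, one_div, inv_mul_cancel₀ (by norm_num), ENNReal.rpow_one]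
    refine lintegral_congr fun x => ?_
    rw [Real.enorm_eq_ofReal_abs, ENNReal.ofReal_rpow_of_nonneg (abs_nonneg _) (by norm_num)]
    norm_num
  have h3 : (eLpNorm' (fun x => v x i) q (volume.restrict cube)) ^ (2 : ℝ)
      ≤ (∫⁻ x in cube, ENNReal.ofReal (∑ j, |v x j| ^ q)) ^ (2 / q) := by
    rw [eLpNorm', ← ENNReal.rpow_mul]
    have e : 1 / q * 2 = 2 / q := by ring
    rw [e]
    refine ENNReal.rpow_le_rpow (lintegral_mono fun x => ?_) (by positivity)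
    rw [Real.enorm_eq_ofReal_abs, ENNReal.ofReal_rpow_of_nonneg (abs_nonneg _) hq0.le]
    refine ENNReal.ofReal_le_ofReal ?_
    exact Finset.single_le_sum (f := fun j => |v x j| ^ q)
      (fun j _ => Real.rpow_nonneg (abs_nonneg _) _) (Finset.mem_univ i)
  rw [h2]
  exact (ENNReal.rpow_le_rpow h1 (by norm_num)).trans h3

end Pool.Agent.Run7.h969.HP
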