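import Pool.Agent.Run7.h969.HP.Orl
import Pool.Agent.Run7.h782.HP.IterF

/-!
Project HP, piece IterP: the infinite iteration with closeness in Orlicz spaces (after
`h782/HP/{SeqF, IterF}`).
-/

set_option autoImplicit false

open MeasureTheory Set Filter Topology
open scoped ENNReal ComplexConjugate

namespace Pool.Agent.Run7.h969.HP

open H459R3.NS hiding W
open Pool.Agent.Run7.h782 Pool.Agent.Run7.h782.GD Pool.Agent.Run7.h782.GS
open Pool.Agent.Run7.h782.WS Pool.Agent.Run7.h969.GS Pool.Agent.Run7 Pool.Agent.Run7.h308.WS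
open Pool.Agent.Run7.h744.WS Pool.Agent.Run7.h969.WS Pool.Agent.Run7.h782.WQ
open Pool.Agent.Run7.h744.WQ Pool.Agent.Run7.h782.HP

/-- The sequence with the smallness of the steps in the Orlicz space. -/
theorem exists_sqP (hStep : StmStepF) : ∃ C : ℝ → ℝ, (∀ p, 0 < C p) ∧ ∀ ff : ℝ → Cf, Frc ff →
    ∀ (ν : ℝ), 0 < ν →
    ∀ U : ℝ → Cf, TgF ff ν U → ∀ (Q : ℕ → ℝ) (c : Cf) (r : ℕ → Mf), DatQ Q c r →
    ∀ φ : ℝ → ℝ, Gauge φ → ∀ Φ : ℝ → ℝ, Orl Φ → ∀ δ : ℝ, 0 < δ →
    ∃ (m : ℕ → ℕ) (A : ℕ → ℝ → Cf) (ε H : ℕ → ℝ), SQF ff C ν δ U Q c r φ m A ε H ∧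
      ∀ n, ∫⁻ t in Ioc (0 : ℝ) 1, ENNReal.ofReal (Φ (2 ^ (n + 1) * (Sd (A (n + 1) t)
        (A n t)).toReal)) ≤ ENNReal.ofReal δ := by
  obtain ⟨C, hC, Hs⟩ := stpq_of_stepF hStep
  refine ⟨C, hC, fun ff hff ν hν U hU Q c r hdat φ hφ Φ hΦ δ hδ => ?_⟩
  obtain ⟨m, hm1, hm2, hm3⟩ := exists_m hdat
  obtain ⟨f, hf0, hP, hR⟩ := exists_rec (X := (ℝ → Cf) × ℝ)
    (fun x => TgF ff ν x.1 ∧ 0 < x.2)
    (fun n x y => ∃ H' : ℝ, 0 ≤ H' ∧ StpQF ff C ν ((1 / 4) ^ n) (th Q n) H' (Ex Q n) x.1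
      (dvr (r (m n))) (sts r m n (x.1 0)) y.2 y.1 ∧
      StpG φ ((1 / 2) ^ n) ((1 / 2) ^ n) (12 * 2 ^ n) x.1 (dvr (r (m n))) y.2 y.1 ∧
      y.2 ≤ x.2 ∧ y.2 ≤ (1 / 2) ^ n ∧ y.2 ≤ δ * (1 / 2) ^ (n + 1) ∧
      ∫⁻ t in Ioc (0 : ℝ) 1, ENNReal.ofReal (Φ (2 ^ (n + 1) * (Sd (y.1 t) (x.1 t)).toReal))
        ≤ ENNReal.ofReal δ)
    (U, 1) ⟨hU, one_pos⟩ (by
      rintro n ⟨a, e⟩ ⟨ha, he⟩
      obtain ⟨Z, hZ⟩ := hdat.supp (m n)
      have hl : L1 (a 0) := Maj.l1 ha.maj le_rfl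
      obtain ⟨H', hH0, hH'⟩ := Hs ff hff ν hν ((1 / 4) ^ n) (by positivity)
        (pow_le_one₀ (by norm_num) (by norm_num)) (Ex Q n) (ex_pos hdat.one n) a ha (Z.erase 0)
        (dvr (r (m n))) (Finset.notMem_erase _ _) (dvr_supp hZ) (herm_dvr (hdat.sy _))
        (dv_dvr _) (sts r m n (a 0)) (sts_sy hdat m n (ha.herm 0 le_rfl)) (sts_r1 hdat m n hl)
        (sts_dvr r m n (ha.div 0 le_rfl) (ha.zero 0 le_rfl)) (th Q n) (th_pos Q n)
      have e1 : ∀ᶠ ε in 𝓝[>] (0 : ℝ), 0 < ε := self_mem_nhdsWithin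
      have e2 : ∀ κ : ℝ, 0 < κ → ∀ᶠ ε in 𝓝[>] (0 : ℝ), ε ≤ κ := fun κ hκ =>
        nhdsWithin_le_nhds (ge_mem_nhds hκ)
      have e3 : th Q n ≤ (1 / 2) ^ n :=
        (th_le Q n).trans (pow_le_pow_left₀ (by norm_num) (by norm_num) n)
      obtain ⟨ε, h1, h2, h3, h4, h5, b, hb, hb'⟩ := (e1.and ((e2 e he).and ((e2 ((1 / 2) ^ n)
        (by positivity)).and ((e2 (δ * (1 / 2) ^ (n + 1)) (by positivity)).and
          ((hΦ.small_int (M := 2 ^ (n + 1)) (by positivity) hH0 hδ).and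
          (hH' φ hφ (12 * 2 ^ n) ((1 / 2) ^ n) ((1 / 2) ^ n) (by positivity) (by positivity)
            e3)))))).exists
      refine ⟨(b, ε), ⟨hb.tg, h1⟩, H', hH0, hb, hb', h2, h3, h4, ?_⟩
      exact h5 (fun t => Sd (b t) (a t)) (Sd_meas (hb.tg.toLSolF.cnt_h) (ha.toLSolF.cnt_h))
        (fun t ht => Sd_le (hb.close t ht)) hb.int)
  choose H' hH0 hst hsg h1 h2 h3 h4 using hR
  exact ⟨m, fun n => (f n).1, fun n => (f (n + 1)).2, H',
    { dat := hdat
      init := by simp [hf0]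
      tgt := fun n => (hP n).1
      top := hm1
      dif := hm2
      wie := hm3
      st := hst
      sg := hsg
      e0 := fun n => (hP (n + 1)).2
      e1 := h2
      e2 := h3
      ea := antitone_nat_of_succ_le fun n => h1 (n + 1)
      H0 := hH0 }, h4⟩

/-- The limit of the sequence (after `iterF`). -/
theorem iterCore (hLim : StmLimF) {C₀ : ℝ → ℝ} (hC₀ : ∀ p, 0 < C₀ p) {ff : ℝ → Cf} (hff : Frc ff)
    {ν : ℝ} (hν : 0 < ν) {U : ℝ → Cf} (hU : TgF ff ν U) {Q : ℕ → ℝ} {c : Cf} {r : ℕ → Mf}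
    (hdat : DatQ Q c r) {φ : ℝ → ℝ} (hφ : Gauge φ) {δ : ℝ} (hδ : 0 < δ) {m : ℕ → ℕ}
    {A : ℕ → ℝ → Cf} {ε Hn : ℕ → ℝ} (hq : SQF ff C₀ ν δ U Q c r φ m A ε Hn) :
    ∃ b : ℝ → Cf, (∀ t, 0 < t → ∀ k, Tendsto (fun j => A (j + 1) t k) atTop (𝓝 (b t k))) ∧
    (∀ τ : ℝ, 0 < τ → FSo ν (fun t => ff (t + τ)) (fun t => b (t + τ))) ∧
    (∀ k, Tendsto (fun t => b t k) (𝓝[>] 0) (𝓝 (c k))) ∧
    (∃ C : ℝ, ∀ t, 0 < t → t ≤ 1 → ∀ k, ‖b t k‖ ≤ C * (1 + len k) ^ 2) ∧
    Tendsto (fun t => Real.sqrt t * ∑' k, ‖b t k‖) (𝓝[>] 0) (𝓝 0) ∧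
    IntegrableOn (fun t => φ (Real.sqrt t * ∑' k, ‖b t k‖) / t) (Ioc 0 1) ∧
    (∀ n, IntegrableOn (fun t => fp (2 * Q n) (b t) ^ (1 / Q n)) (Ioc 0 1)) ∧
    IntegrableOn (fun t => ∑' k, ‖b t k‖ ^ 2) (Ioc 0 1) ∧
    (∀ t, 0 < t → ∀ A : Finset K3, ∑ k ∈ A, ‖b t k - U t k‖ ≤ δ / Real.sqrt t) ∧
    ∀ t, δ ≤ t → ∀ A : Finset K3, ∑ k ∈ A, ‖b t k - U t k‖ ≤ δ := by
  obtain ⟨Mf, hMf0, hMf⟩ := frc_bd hff
  have hst := hq.st
  have hsg := hq.sg
  have hε0 := hq.e0
  have hε1 := hq.e1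
  have hε2 := hq.e2
  have hεa := hq.ea
  have htg := hq.tgt
  have hA0 := hq.init
  set z : ℕ → Cf := fun n => dvr (r (m n)) with hz
  have hzl : ∀ n, L1 (z n) := fun n => l1_dvr hdat _
  have hzd : ∀ n, Dv (z n) := fun n => dv_dvr _
  have hz0 : ∀ n, z n 0 = 0 := fun n => dvr_zero_mode _
  have hzc : ∀ k, Tendsto (fun n => z n k) atTop (𝓝 (c k)) := fun k => (hdat.lim k).comp hq.top
  have hc0 : c 0 = 0 := by
    refine tendsto_nhds_unique (hzc 0) ?_
    simp_rw [hz0]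
    exact tendsto_const_nhds
  obtain ⟨Kr, hKr0, hKr⟩ := hq.bd_r
  have hzb : ∀ n k, ‖z n k‖ ≤ 24 * Real.pi * len k * Kr := by
    intro n k
    refine (norm_dvr_le (dat_r1 hdat _) k).trans ?_
    have hpi := Real.pi_pos
    have hl := len_nonneg k
    exact mul_le_mul_of_nonneg_left (hKr n) (by positivity)
  obtain ⟨Kl, hKl0, hl2⟩ := hq.l2_le hC₀ hν
  obtain ⟨Ka, hKa0, hal⟩ := hq.al_le hC₀ hν
  -- the limit
  obtain ⟨b, hb, hlim⟩ := hLim ff hff ν hν (fun j => A (j + 1)) (fun j => ε (j + 1))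
    (fun j => (hst j).csol) (fun j => hε0 _) (fun i j hij => hεa (by omega))
    (by
      refine Summable.of_nonneg_of_le (fun j => (hε0 _).le) (fun j => hε1 (j + 1)) ?_
      exact (summable_nat_add_iff 1).2 (summable_geometric_of_lt_one (by norm_num) (by norm_num)))
    (fun j t ht => (hst (j + 1)).close t ht)
  have hcn : ∀ n, Cnt (A n) := fun n => (htg n).toLSolF.cnt_h
  have hbc : ∀ k, ContinuousOn (fun t => b t k) (Ioi 0) := by
    intro k t ht
    have ht' : 0 < t := ht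
    have h1 := ((hb (t / 2) (by positivity)).der (t / 2) (by positivity) k).continuousWithinAt
    have h2 : ContinuousWithinAt (fun s => b s k) (Ici (t / 2)) t := by
      have h3 : ContinuousWithinAt (fun s => (fun s => b (s + t / 2) k) (s - t / 2))
          (Ici (t / 2)) t := by
        refine ContinuousWithinAt.comp (t := Ici 0) (g := fun s => b (s + t / 2) k) ?_
          ((continuous_id.sub continuous_const).continuousWithinAt) fun s hs => ?_
        · rw [show t - t / 2 = t / 2 by ring]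
          exact h1
        · have : t / 2 ≤ s := hs
          simp only [mem_Ici]
          linarith
      refine h3.congr (fun s _ => ?_) ?_ <;> simp
    exact (h2.continuousAt (Ici_mem_nhds (by linarith))).continuousWithinAt
  have hbm : ∀ k, AEMeasurable (fun t => ENNReal.ofReal ‖b t k‖)
      (volume.restrict (Ioc (0 : ℝ) 1)) := fun k =>
    ENNReal.measurable_ofReal.comp_aemeasurable
      (ContinuousOn.aemeasurable ((hbc k).norm.mono fun t ht => ht.1) measurableSet_Ioc)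
  have hSm : ∀ n, AEMeasurable (fun t => Sd (A (n + 1) t) (A n t))
      (volume.restrict (Ioc (0 : ℝ) 1)) := fun n => Sd_meas (hcn _) (hcn _)
  have hsm : Measurable fun t : ℝ => ENNReal.ofReal (Real.sqrt t) :=
    ENNReal.measurable_ofReal.comp Real.continuous_sqrt.measurable
  -- bounds of the members
  have hbd : ∀ n, ∃ M : ℝ, 0 ≤ M ∧ ∀ t, 0 ≤ t → ∀ B : Finset K3, ∑ k ∈ B, ‖A n t k‖ ≤ M := by
    intro n
    obtain ⟨M, hM'⟩ := (htg n).bd
    exact ⟨M, by simpa using hM' 0 le_rfl ∅, hM'⟩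
  choose M hM0 hMn using hbd
  have hsumb : ∀ J t, 0 < t → ∑' k, ENNReal.ofReal ‖b t k‖
      ≤ ENNReal.ofReal (M J) + ∑' i, Sd (A (J + i + 1) t) (A (J + i) t) := fun J t ht =>
    sum_le (hlim t ht) (hMn J t ht.le)
  -- a common bound of the square means
  set ρ₂ : ℝ≥0∞ := ENNReal.ofReal (1 / 2) ^ (1 / (2 : ℝ)) with hρ₂
  have hρ₂1 : ρ₂ < 1 := rho_lt (by norm_num)
  have hAl0 : ∀ n, L1 (A n 0) := fun n => Maj.l1 (htg n).maj le_rfl
  have hstep : ∀ n, ∫⁻ t in Ioc (0 : ℝ) 1, Sq2 (A (n + 2) t) (A (n + 1) t)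
      ≤ ENNReal.ofReal Kl * ENNReal.ofReal ((1 / 2) ^ n) := by
    intro n
    refine (hl2 (n + 1)).trans ?_
    rw [← ENNReal.ofReal_mul hKl0]
    refine ENNReal.ofReal_le_ofReal (mul_le_mul_of_nonneg_left ?_ hKl0)
    calc ((1 : ℝ) / 4) ^ (n + 1) ≤ (1 / 4) ^ n :=
          pow_le_pow_of_le_one (by norm_num) (by norm_num) (Nat.le_succ n)
      _ ≤ (1 / 2) ^ n := pow_le_pow_left₀ (by norm_num) (by norm_num) n
  set g : ℕ → ℝ → ℝ≥0∞ := fun i t =>
    l2n (fun k => ENNReal.ofReal ‖A (i + 2) t k - A (i + 1) t k‖) with hg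
  have hgm : ∀ i, AEMeasurable (g i) (volume.restrict (Ioc (0 : ℝ) 1)) := fun i =>
    (AEMeasurable.tsum fun k => (Sq2_meas (hcn _) (hcn _) k).pow_const 2).pow_const _
  have hgq : ∀ i, Nq (volume.restrict (Ioc (0 : ℝ) 1)) 2 (g i)
      ≤ ENNReal.ofReal Kl ^ (1 / (2 : ℝ)) * ρ₂ ^ i := by
    intro i
    rw [Nq]
    have e1 : ∀ t, g i t ^ (2 : ℝ) = Sq2 (A (i + 2) t) (A (i + 1) t) := fun t => l2n_sq _
    simp_rw [e1]
    refine (ENNReal.rpow_le_rpow (hstep i) (by norm_num)).trans (le_of_eq ?_)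
    rw [ENNReal.mul_rpow_of_nonneg _ _ (by norm_num), ofReal_half_pow_rpow]
  set G₂ : ℝ → ℝ≥0∞ := fun t => ENNReal.ofReal (M 1) + ∑' i, g i t with hG₂
  have hG₂m : AEMeasurable G₂ (volume.restrict (Ioc (0 : ℝ) 1)) :=
    aemeasurable_const.add (AEMeasurable.tsum hgm)
  have hG₂fin : Nq (volume.restrict (Ioc (0 : ℝ) 1)) 2 G₂ < ⊤ := by
    calc Nq (volume.restrict (Ioc (0 : ℝ) 1)) 2 G₂
        ≤ Nq (volume.restrict (Ioc (0 : ℝ) 1)) 2 (fun _ => ENNReal.ofReal (M 1))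
          + ∑' i, Nq (volume.restrict (Ioc (0 : ℝ) 1)) 2 (g i) :=
          (Nq_add (by norm_num) aemeasurable_const (AEMeasurable.tsum hgm)).trans
            (add_le_add le_rfl (Nq_tsum (by norm_num) hgm))
      _ ≤ Nq (volume.restrict (Ioc (0 : ℝ) 1)) 2 (fun _ => ENNReal.ofReal (M 1))
          + ∑' i : ℕ, ENNReal.ofReal Kl ^ (1 / (2 : ℝ)) * ρ₂ ^ i :=
          add_le_add le_rfl (ENNReal.tsum_le_tsum hgq)
      _ < ⊤ := by
          refine ENNReal.add_lt_top.2 ⟨?_, (rho_sum hρ₂1 ?_).lt_top⟩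
          · rw [Nq, lintegral_const, Measure.restrict_apply_univ, Real.volume_Ioc]
            refine ENNReal.rpow_lt_top_of_nonneg (by norm_num) (ENNReal.mul_ne_top ?_
              ENNReal.ofReal_ne_top)
            exact ENNReal.rpow_ne_top_of_nonneg (by norm_num) ENNReal.ofReal_ne_top
          · exact ENNReal.rpow_ne_top_of_nonneg (by norm_num) ENNReal.ofReal_ne_top
  have hG₂sq : ∫⁻ s in Ioc (0 : ℝ) 1, G₂ s ^ (2 : ℝ) ≠ ⊤ := by
    rw [Nq] at hG₂fin
    exact ((ENNReal.rpow_lt_top_iff_of_pos (by norm_num)).1 hG₂fin).ne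
  have hM1 : ∀ t, 0 < t → ∑' k, ENNReal.ofReal ‖A 1 t k‖ ≤ ENNReal.ofReal (M 1) := by
    intro t ht
    refine ENNReal.summable.tsum_le_of_sum_le fun B => ?_
    rw [← ENNReal.ofReal_sum_of_nonneg fun k _ => norm_nonneg _]
    exact ENNReal.ofReal_le_ofReal (hMn 1 t ht.le B)
  have hEn : ∀ j t, 0 < t → En (A (j + 1) t) ≤ G₂ t ^ (2 : ℝ) := by
    intro j t ht
    have h1 : l2n (fun k => ENNReal.ofReal ‖A (j + 1) t k‖)
        ≤ ENNReal.ofReal (M 1) + ∑ i ∈ Finset.range j, g i t := by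
      induction j with
      | zero =>
        rw [Finset.range_zero, Finset.sum_empty, add_zero]
        exact (l2n_le_sum _).trans (hM1 t ht)
      | succ j ih =>
        rw [Finset.sum_range_succ, ← add_assoc]
        calc l2n (fun k => ENNReal.ofReal ‖A (j + 1 + 1) t k‖)
            ≤ l2n (fun k => ENNReal.ofReal ‖A (j + 1) t k‖
              + ENNReal.ofReal ‖A (j + 2) t k - A (j + 1) t k‖) := by
              refine l2n_mono fun k => ?_
              rw [← ENNReal.ofReal_add (norm_nonneg _) (norm_nonneg _)]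
              refine ENNReal.ofReal_le_ofReal ?_
              have e := norm_add_le (A (j + 1) t k) (A (j + 2) t k - A (j + 1) t k)
              rwa [add_sub_cancel] at e
          _ ≤ l2n (fun k => ENNReal.ofReal ‖A (j + 1) t k‖) + g j t := l2n_add _ _
          _ ≤ _ := add_le_add ih le_rfl
    have h2 : l2n (fun k => ENNReal.ofReal ‖A (j + 1) t k‖) ≤ G₂ t :=
      h1.trans (add_le_add le_rfl (ENNReal.sum_le_tsum _))
    calc En (A (j + 1) t) = l2n (fun k => ENNReal.ofReal ‖A (j + 1) t k‖) ^ (2 : ℝ) :=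
          (l2n_sq _).symm
      _ ≤ G₂ t ^ (2 : ℝ) := ENNReal.rpow_le_rpow h2 (by norm_num)
  -- the variation of the coefficients
  set Φ : ℝ → ℝ≥0∞ := fun t => ∫⁻ s in Ioc 0 t, (1 + G₂ s ^ (2 : ℝ)) ∂(volume.restrict (Ioc 0 1))
    with hΦ
  have htot : ∫⁻ s in Ioc (0 : ℝ) 1, (1 + G₂ s ^ (2 : ℝ)) ≠ ⊤ := by
    rw [lintegral_add_left measurable_const]
    refine ENNReal.add_ne_top.2 ⟨?_, hG₂sq⟩
    rw [lintegral_const, Measure.restrict_apply_univ, Real.volume_Ioc]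
    exact ENNReal.mul_ne_top ENNReal.one_ne_top ENNReal.ofReal_ne_top
  have hΦ0 : Tendsto Φ (𝓝[>] 0) (𝓝 0) := by
    refine tendsto_setLIntegral_zero htot ?_
    have h1 : Tendsto (fun t : ℝ => ENNReal.ofReal (t - 0)) (𝓝[>] 0) (𝓝 0) := by
      have h2 : Tendsto (fun t : ℝ => ENNReal.ofReal (t - 0)) (𝓝 0) (𝓝 (ENNReal.ofReal (0 - 0))) :=
        (ENNReal.continuous_ofReal.comp (continuous_id.sub continuous_const)).tendsto 0
      rw [sub_zero, ENNReal.ofReal_zero] at h2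
      exact h2.mono_left nhdsWithin_le_nhds
    refine tendsto_of_tendsto_of_tendsto_of_le_of_le tendsto_const_nhds h1 (fun _ => zero_le) ?_
    intro t
    show volume.restrict (Ioc (0 : ℝ) 1) (Ioc 0 t) ≤ _
    refine (Measure.restrict_apply_le _ _).trans ?_
    rw [Real.volume_Ioc]
  have hΦ1 : ∀ t, t ≤ 1 → Φ t = ∫⁻ s in Ioc 0 t, (1 + G₂ s ^ (2 : ℝ)) := by
    intro t ht
    rw [hΦ]
    simp only
    rw [Measure.restrict_restrict measurableSet_Ioc,
      inter_eq_left.2 (Ioc_subset_Ioc_right ht)]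
  have hΦle : ∀ t, Φ t ≤ ∫⁻ s in Ioc (0 : ℝ) 1, (1 + G₂ s ^ (2 : ℝ)) := fun t =>
    setLIntegral_le_lintegral _ _
  have hAz : ∀ k, Tendsto (fun j => A (j + 1) 0 k) atTop (𝓝 (c k)) := by
    intro k
    have hp : Tendsto (fun j : ℕ => ((1 : ℝ) / 2) ^ j) atTop (𝓝 0) :=
      tendsto_pow_atTop_nhds_zero_of_lt_one (by norm_num) (by norm_num)
    have h1 : Tendsto (fun j => z j k) atTop (𝓝 (c k)) := hzc k
    have h2 : Tendsto (fun j => A (j + 1) 0 k - z j k) atTop (𝓝 0) := by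
      rw [tendsto_zero_iff_norm_tendsto_zero]
      have h3 : ∀ j, ‖A (j + 1) 0 k - z j k‖ ≤ 6 * Real.pi * len k * Ka * (1 / 2) ^ j := by
        intro j
        have h4 : L1 (A (j + 1) 0 - z j) := (hAl0 _).sub (hzl _)
        have h5 : Dv (A (j + 1) 0 - z j) := by
          intro l
          have h6 := (hst j).csol.div 0 le_rfl l
          have h7 := hzd j l
          rw [Pi.sub_apply, sub_eq_add_neg, kd_add, h6, zero_add]
          rw [show -z j l = (-1 : ℂ) • z j l by rw [neg_one_smul], kd_smul, h7, mul_zero]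
        have h6 : (A (j + 1) 0 - z j) 0 = 0 := by
          rw [Pi.sub_apply, (hst j).csol.zero 0 le_rfl, hz0, sub_zero]
        refine (coef_al (l1_div h4) h5 h6 k).trans ?_
        have h7 := len_nonneg k
        have h8 := Real.pi_pos
        rw [mul_assoc (6 * Real.pi * len k)]
        exact mul_le_mul_of_nonneg_left (hal j) (by positivity)
      refine squeeze_zero (fun _ => norm_nonneg _) h3 ?_
      have := hp.const_mul (6 * Real.pi * len k * Ka)
      rwa [mul_zero] at this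
    have h3 := h2.add h1
    rw [zero_add] at h3
    refine h3.congr fun j => ?_
    rw [sub_add_cancel]
  have key : ∀ t, 0 < t → t ≤ 1 → ∀ k,
      ENNReal.ofReal ‖b t k - c k‖ ≤ ENNReal.ofReal (kcF ν Mf k) * Φ t := by
    intro t ht ht1 k
    have h1 : Tendsto (fun j => ENNReal.ofReal ‖A (j + 1) t k - A (j + 1) 0 k‖) atTop
        (𝓝 (ENNReal.ofReal ‖b t k - c k‖)) :=
      (ENNReal.continuous_ofReal.tendsto _).comp (((hlim t ht k).sub (hAz k)).norm)
    refine le_of_tendsto' h1 fun j => ?_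
    refine (coef_leF hν hff hMf (htg (j + 1)).toLSolF ht.le k).trans ?_
    refine mul_le_mul' le_rfl ?_
    rw [hΦ1 t ht1]
    refine setLIntegral_mono' measurableSet_Ioc fun s hs => ?_
    exact add_le_add le_rfl (hEn j s hs.1)
  refine ⟨b, hlim, hb, ?_, ?_, ?_, ?_, ?_, ?_, ?_, ?_⟩
  · -- the limits of the coefficients
    intro k
    rw [tendsto_iff_norm_sub_tendsto_zero]
    have h1 : Tendsto (fun t => ENNReal.ofReal (kcF ν Mf k) * Φ t) (𝓝[>] 0) (𝓝 0) := by
      have := ENNReal.Tendsto.const_mul (a := ENNReal.ofReal (kcF ν Mf k)) hΦ0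
        (Or.inr ENNReal.ofReal_ne_top)
      rwa [mul_zero] at this
    have h2 : Tendsto (fun t => ENNReal.ofReal ‖b t k - c k‖) (𝓝[>] 0) (𝓝 0) := by
      refine tendsto_of_tendsto_of_tendsto_of_le_of_le' tendsto_const_nhds h1
        (Eventually.of_forall fun _ => zero_le) ?_
      filter_upwards [self_mem_nhdsWithin, nhdsWithin_le_nhds (ge_mem_nhds one_pos)] with t ht ht1
      exact key t ht ht1 k
    have h3 := (ENNReal.tendsto_toReal ENNReal.zero_ne_top).comp h2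
    rw [ENNReal.toReal_zero] at h3
    refine h3.congr fun t => ?_
    exact ENNReal.toReal_ofReal (norm_nonneg _)
  · -- the bound of the coefficients
    set Ψ : ℝ := (∫⁻ s in Ioc (0 : ℝ) 1, (1 + G₂ s ^ (2 : ℝ))).toReal with hΨ
    have hΨ0 : 0 ≤ Ψ := ENNReal.toReal_nonneg
    set E : ℝ := 24 * Real.pi * Kr with hE
    have hE0 : 0 ≤ E := by positivity
    have hck : ∀ k, ‖c k‖ ≤ len k * E := by
      intro k
      refine le_of_tendsto' (hzc k).norm fun n => (hzb n k).trans (le_of_eq ?_)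
      rw [hE]
      ring
    have hpi := Real.pi_pos
    refine ⟨E + (4 * Real.pi ^ 2 * ν + 24 * Real.pi + Mf) * Ψ, fun t ht ht1 k => ?_⟩
    have h1 := (key t ht ht1 k).trans (mul_le_mul' le_rfl (hΦle t))
    have h2 : ‖b t k - c k‖ ≤ kcF ν Mf k * Ψ := by
      rw [← ENNReal.ofReal_toReal htot, ← hΨ, ← ENNReal.ofReal_mul (kcF_nonneg hν hMf0 k)] at h1
      exact (ENNReal.ofReal_le_ofReal_iff (mul_nonneg (kcF_nonneg hν hMf0 k) hΨ0)).1 h1
    have hl := len_nonneg k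
    have h3 : kcF ν Mf k ≤ (4 * Real.pi ^ 2 * ν + 24 * Real.pi + Mf) * (1 + len k) ^ 2 := by
      have e : kcF ν Mf k = 4 * Real.pi ^ 2 * ν * len k ^ 2 + 24 * Real.pi * len k + Mf * 1 := by
        rw [kcF, kc, lam, len_sq, mul_one]
      rw [e, add_mul, add_mul]
      have e1 : len k ^ 2 ≤ (1 + len k) ^ 2 := by gcongr; linarith
      have e2 : len k ≤ (1 + len k) ^ 2 := by nlinarith
      have e3 : 1 ≤ (1 + len k) ^ 2 := by nlinarith
      gcongr
    have h4 : ‖b t k‖ ≤ ‖c k‖ + ‖b t k - c k‖ := by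
      have := norm_add_le (c k) (b t k - c k)
      rwa [add_sub_cancel] at this
    have h5 : len k * E ≤ E * (1 + len k) ^ 2 := by
      have e2 : len k ≤ (1 + len k) ^ 2 := by nlinarith
      rw [mul_comm]
      gcongr
    calc ‖b t k‖ ≤ ‖c k‖ + ‖b t k - c k‖ := h4
      _ ≤ E * (1 + len k) ^ 2 + (4 * Real.pi ^ 2 * ν + 24 * Real.pi + Mf) * (1 + len k) ^ 2 * Ψ := by
          refine add_le_add ((hck k).trans h5) (h2.trans ?_)
          gcongr
      _ = _ := by ring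
  · -- the pointwise decay
    have e0 : ∀ t, Real.sqrt t * ∑' k, ‖b t k‖
        = (ENNReal.ofReal (Real.sqrt t) * ∑' k, ENNReal.ofReal ‖b t k‖).toReal := by
      intro t
      rw [ENNReal.toReal_mul, ENNReal.toReal_ofReal (Real.sqrt_nonneg _),
        ENNReal.tsum_toReal_eq fun k => ENNReal.ofReal_ne_top]
      congr 1
      exact tsum_congr fun k => (ENNReal.toReal_ofReal (norm_nonneg _)).symm
    simp_rw [e0]
    rw [← ENNReal.toReal_zero]
    refine (ENNReal.tendsto_toReal ENNReal.zero_ne_top).comp ?_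
    rw [ENNReal.tendsto_nhds_zero]
    intro η hη
    have hη2 : 0 < η / 2 := ENNReal.div_pos hη.ne' (by simp)
    have hεs : ∑' n : ℕ, ENNReal.ofReal (ε n) ≠ ⊤ := by
      rw [← ENNReal.ofReal_tsum_of_nonneg (fun n => (hε0 n).le)
        (Summable.of_nonneg_of_le (fun n => (hε0 n).le) hε1
          (summable_geometric_of_lt_one (by norm_num) (by norm_num)))]
      exact ENNReal.ofReal_ne_top
    obtain ⟨J, hJ⟩ := ((ENNReal.tendsto_nhds_zero.1 (ENNReal.tendsto_sum_nat_add _ hεs))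
      (η / 2) hη2).exists
    have h1 : Tendsto (fun t : ℝ => ENNReal.ofReal (Real.sqrt t) * ENNReal.ofReal (M J))
        (𝓝[>] 0) (𝓝 0) := by
      have h2 : Tendsto (fun t : ℝ => ENNReal.ofReal (Real.sqrt t)) (𝓝 0)
          (𝓝 (ENNReal.ofReal (Real.sqrt 0))) :=
        (ENNReal.continuous_ofReal.comp Real.continuous_sqrt).tendsto 0
      rw [Real.sqrt_zero, ENNReal.ofReal_zero] at h2
      have h3 := ENNReal.Tendsto.mul_const (b := ENNReal.ofReal (M J)) h2
        (Or.inr ENNReal.ofReal_ne_top)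
      rw [zero_mul] at h3
      exact h3.mono_left nhdsWithin_le_nhds
    filter_upwards [(ENNReal.tendsto_nhds_zero.1 h1) (η / 2) hη2, self_mem_nhdsWithin]
      with t ht ht0
    have ht0' : 0 < t := ht0
    have hst' : 0 < Real.sqrt t := Real.sqrt_pos.2 ht0'
    calc ENNReal.ofReal (Real.sqrt t) * ∑' k, ENNReal.ofReal ‖b t k‖
        ≤ ENNReal.ofReal (Real.sqrt t)
          * (ENNReal.ofReal (M J) + ∑' i, Sd (A (J + i + 1) t) (A (J + i) t)) :=
          mul_le_mul' le_rfl (hsumb J t ht0')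
      _ = ENNReal.ofReal (Real.sqrt t) * ENNReal.ofReal (M J)
          + ∑' i, ENNReal.ofReal (Real.sqrt t) * Sd (A (J + i + 1) t) (A (J + i) t) := by
          rw [mul_add, ENNReal.tsum_mul_left]
      _ ≤ η / 2 + ∑' i, ENNReal.ofReal (ε (i + J)) := by
          refine add_le_add ht (ENNReal.tsum_le_tsum fun i => ?_)
          calc ENNReal.ofReal (Real.sqrt t) * Sd (A (J + i + 1) t) (A (J + i) t)
              ≤ ENNReal.ofReal (Real.sqrt t) * ENNReal.ofReal (ε (J + i) / Real.sqrt t) :=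
                mul_le_mul' le_rfl ((hst (J + i)).pt t ht0')
            _ = ENNReal.ofReal (ε (i + J)) := by
                rw [← ENNReal.ofReal_mul hst'.le, mul_div_cancel₀ _ hst'.ne', add_comm]
      _ ≤ η / 2 + η / 2 := add_le_add le_rfl hJ
      _ = η := ENNReal.add_halves η
  · -- the gauge integral in time
    set G : ℝ → ℝ≥0∞ := fun t => ENNReal.ofReal (Real.sqrt t) * ∑' k, ENNReal.ofReal ‖b t k‖
      with hG
    have hGm : AEMeasurable G (volume.restrict (Ioc (0 : ℝ) 1)) :=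
      hsm.aemeasurable.mul (AEMeasurable.tsum hbm)
    set Y : ℕ → ℝ → ℝ≥0∞ := fun n t => ENNReal.ofReal (Real.sqrt t) * Sd (A (n + 1) t) (A n t)
      with hY
    have hYm : ∀ n, AEMeasurable (Y n) mu1 := fun n => aem_mu1 (hsm.aemeasurable.mul (hSm n))
    have hYε : ∀ n, ∀ᵐ t ∂mu1, Y n t ≤ ENNReal.ofReal (ε n) := by
      intro n
      refine mu1_ae fun t ht => ?_
      have hss := Real.sqrt_pos.2 ht.1
      calc Y n t ≤ ENNReal.ofReal (Real.sqrt t) * ENNReal.ofReal (ε n / Real.sqrt t) :=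
            mul_le_mul' le_rfl ((hst n).pt t ht.1)
        _ = ENNReal.ofReal (ε n) := by
            rw [← ENNReal.ofReal_mul hss.le, mul_div_cancel₀ _ hss.ne']
    obtain ⟨hf, htail⟩ := tail_le hφ hYm hYε hε1 (fun n => (hsg n).time) 0
    have hfin : ∫⁻ t, Ph φ (G t) ∂mu1 < ⊤ := by
      have h1 : ∀ᵐ t ∂mu1, Ph φ (G t)
          ≤ Ph φ (2 * (ENNReal.ofReal (Real.sqrt t) * ENNReal.ofReal (M 0)))
            + Ph φ (∑' i, 6 * Y (0 + i) t) := by
        filter_upwards [hf, mu1_ae (p := fun t => 0 < t) fun t ht => ht.1] with t ht ht0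
        have h2 : G t ≤ ENNReal.ofReal (Real.sqrt t) * ENNReal.ofReal (M 0)
            + ∑' i, Y (0 + i) t := by
          rw [hG, hY]
          simp only
          rw [ENNReal.tsum_mul_left, ← mul_add]
          refine mul_le_mul' le_rfl ((hsumb 0 t ht0).trans (le_of_eq ?_))
          rfl
        have e6Y : ∑' i, 6 * Y (0 + i) t = 6 * ∑' i, Y (0 + i) t := ENNReal.tsum_mul_left
        have h3 : 2 * ∑' i, Y (0 + i) t ≤ ∑' i, 6 * Y (0 + i) t := by
          rw [e6Y]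
          have e26 : (2 : ℝ≥0∞) ≤ 6 := by
            have e2 : (2 : ℝ≥0∞) = ENNReal.ofReal 2 := by norm_num
            have e6 : (6 : ℝ≥0∞) = ENNReal.ofReal 6 := by norm_num
            rw [e2, e6]
            exact ENNReal.ofReal_le_ofReal (by norm_num)
          exact mul_le_mul' e26 le_rfl
        have h4 : ∑' i, Y (0 + i) t ≠ ⊤ := by
          intro h
          rw [e6Y, h] at ht
          exact ht (by simp)
        have h5 : ENNReal.ofReal (Real.sqrt t) * ENNReal.ofReal (M 0) ≠ ⊤ :=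
          ENNReal.mul_ne_top ENNReal.ofReal_ne_top ENNReal.ofReal_ne_top
        exact ((Ph_mono hφ h2 (ENNReal.add_ne_top.2 ⟨h5, h4⟩)).trans (Ph_add hφ h5 h4)).trans
          (add_le_add le_rfl (Ph_mono hφ h3 ht))
      have h6 : AEMeasurable (fun t => Ph φ (∑' i, 6 * Y (0 + i) t)) mu1 :=
        (Ph_meas hφ).comp_aemeasurable (AEMeasurable.tsum fun i => (hYm _).const_mul _)
      refine lt_of_le_of_lt (lintegral_mono_ae h1) ?_
      rw [lintegral_add_right' _ h6]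
      exact ENNReal.add_lt_top.2 ⟨(const_mu1 hφ (hM0 0)).lt_top,
        lt_of_le_of_lt htail ENNReal.ofReal_lt_top⟩
    have hPG : AEMeasurable (fun t => Ph φ (G t)) (volume.restrict (Ioc (0 : ℝ) 1)) :=
      (Ph_meas hφ).comp_aemeasurable hGm
    rw [lintegral_mu1 hPG] at hfin
    have e0 : ∀ t, Real.sqrt t * ∑' k, ‖b t k‖ = (G t).toReal := by
      intro t
      rw [hG]
      simp only
      rw [ENNReal.toReal_mul, ENNReal.toReal_ofReal (Real.sqrt_nonneg _),
        ENNReal.tsum_toReal_eq fun k => ENNReal.ofReal_ne_top]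
      congr 1
      exact tsum_congr fun k => (ENNReal.toReal_ofReal (norm_nonneg _)).symm
    simp_rw [e0]
    have hmeas : AEMeasurable (fun t => φ (G t).toReal / t) (volume.restrict (Ioc (0 : ℝ) 1)) := by
      have h1 : AEMeasurable (fun t => φ (max (G t).toReal 0)) (volume.restrict (Ioc (0 : ℝ) 1)) :=
        hφ.cont.measurable.comp_aemeasurable hGm.ennreal_toReal
      have h2 : (fun t => φ (max (G t).toReal 0)) = fun t => φ (G t).toReal := by
        funext t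
        rw [max_eq_left ENNReal.toReal_nonneg]
      rw [h2] at h1
      exact h1.div measurable_id.aemeasurable
    refine ⟨hmeas.aestronglyMeasurable, ?_⟩
    rw [HasFiniteIntegral]
    refine lt_of_le_of_lt ?_ hfin
    refine setLIntegral_mono' measurableSet_Ioc fun t ht => ?_
    have ht0 : 0 < t := ht.1
    rw [Real.enorm_eq_ofReal (div_nonneg (hφ.nonneg _ ENNReal.toReal_nonneg) ht0.le),
      ENNReal.ofReal_div_of_pos ht0]
    exact le_rfl
  · -- the moments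
    intro i
    exact moments hq hC₀ hν hlim i
  · -- the norm in `L²`
    set N : ℝ → ℝ≥0∞ := fun t => l2n (fun k => ENNReal.ofReal ‖b t k‖) with hN
    have hNle : ∀ t, 0 < t → N t ≤ G₂ t := by
      intro t ht
      calc N t ≤ l2n (fun k => ENNReal.ofReal ‖A 1 t k‖
            + ∑' i, ENNReal.ofReal ‖A (i + 2) t k - A (i + 1) t k‖) := by
            refine l2n_mono fun k => ?_
            have h2 := tri (b t k) (A 1 t k) 0
            rw [sub_zero, sub_zero, add_comm] at h2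
            refine h2.trans (add_le_add le_rfl ?_)
            refine (tel (hlim t ht) 1 k).trans (le_of_eq ?_)
            refine tsum_congr fun i => ?_
            rw [show 1 + i + 1 = i + 2 by omega, show 1 + i = i + 1 by omega]
        _ ≤ l2n (fun k => ENNReal.ofReal ‖A 1 t k‖)
            + l2n (fun k => ∑' i, ENNReal.ofReal ‖A (i + 2) t k - A (i + 1) t k‖) :=
            l2n_add _ _
        _ ≤ ENNReal.ofReal (M 1) + ∑' i, g i t :=
            add_le_add ((l2n_le_sum _).trans (hM1 t ht)) (l2n_tsum _)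
    have hNm : AEMeasurable (fun t => ∑' k, ENNReal.ofReal ‖b t k‖ ^ (2 : ℝ))
        (volume.restrict (Ioc (0 : ℝ) 1)) := AEMeasurable.tsum fun k => (hbm k).pow_const 2
    have hfin : Nq (volume.restrict (Ioc (0 : ℝ) 1)) 2 N < ⊤ := by
      refine lt_of_le_of_lt (Nq_mono (by norm_num) ?_) hG₂fin
      filter_upwards [self_mem_ae_restrict measurableSet_Ioc] with t ht
      exact hNle t ht.1
    rw [Nq] at hfin
    have hfin2 := (ENNReal.rpow_lt_top_iff_of_pos (by norm_num)).1 hfin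
    have e1 : ∀ t, N t ^ (2 : ℝ) = ∑' k, ENNReal.ofReal ‖b t k‖ ^ (2 : ℝ) := fun t => l2n_sq _
    simp_rw [e1] at hfin2
    have e2 : ∀ x : ℝ, 0 ≤ x → ENNReal.ofReal x ^ (2 : ℝ) = ENNReal.ofReal (x ^ 2) := by
      intro x hx
      rw [ENNReal.ofReal_rpow_of_nonneg hx (by norm_num), Real.rpow_two]
    have e0 : ∀ t, ∑' k, ‖b t k‖ ^ 2 = (∑' k, ENNReal.ofReal ‖b t k‖ ^ (2 : ℝ)).toReal := by
      intro t
      rw [ENNReal.tsum_toReal_eq fun k => ENNReal.rpow_ne_top_of_nonneg (by norm_num)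
        ENNReal.ofReal_ne_top]
      refine tsum_congr fun k => ?_
      rw [e2 _ (norm_nonneg _), ENNReal.toReal_ofReal (sq_nonneg _)]
    simp_rw [e0]
    exact integrable_toReal_of_lintegral_ne_top hNm hfin2.ne
  · -- closeness for all times
    intro t ht B
    obtain ⟨h1, h2⟩ := hq.tail_summable hlim ht 0
    rw [hA0] at h1 h2
    have h3 : Et ε 0 ≤ δ := by
      have h4 : Summable fun i : ℕ => δ * (1 / 2 : ℝ) ^ (i + 1) :=
        ((summable_nat_add_iff 1).2
          (summable_geometric_of_lt_one (by norm_num) (by norm_num))).mul_left δ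
      have h5 : ∑' i : ℕ, δ * (1 / 2 : ℝ) ^ (i + 1) = δ := by
        rw [tsum_mul_left]
        have h6 : ∑' i : ℕ, (1 / 2 : ℝ) ^ (i + 1) = 1 := by
          simp_rw [pow_succ]
          rw [tsum_mul_right, tsum_geometric_of_lt_one (by norm_num) (by norm_num)]
          norm_num
        rw [h6, mul_one]
      calc Et ε 0 = ∑' i, ε i := by rw [Et]; rfl
        _ ≤ ∑' i : ℕ, δ * (1 / 2 : ℝ) ^ (i + 1) := hq.sum.tsum_le_tsum hε2 h4
        _ = δ := h5
    exact (h1.sum_le_tsum B fun _ _ => norm_nonneg _).trans (h2.trans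
      (div_le_div_of_nonneg_right h3 (Real.sqrt_nonneg t)))
  · -- closeness
    intro t ht B
    have hnn : ∀ n, ∑ k ∈ B, ‖A n t k - U t k‖ ≤ ∑ i ∈ Finset.range n, ε i := by
      intro n
      induction n with
      | zero => simp [hA0]
      | succ n ih =>
        rw [Finset.sum_range_succ]
        have h1 : ε n ≤ t := by
          refine (hε2 n).trans (le_trans ?_ ht)
          exact mul_le_of_le_one_right hδ.le (pow_le_one₀ (by norm_num) (by norm_num))
        calc ∑ k ∈ B, ‖A (n + 1) t k - U t k‖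
            ≤ ∑ k ∈ B, (‖A (n + 1) t k - A n t k‖ + ‖A n t k - U t k‖) :=
              Finset.sum_le_sum fun k _ => norm_sub_le_norm_sub_add_norm_sub _ _ _
          _ = ∑ k ∈ B, ‖A (n + 1) t k - A n t k‖ + ∑ k ∈ B, ‖A n t k - U t k‖ :=
              Finset.sum_add_distrib
          _ ≤ _ := by linarith [(hst n).close t h1 B]
    have hεs : ∀ n, ∑ i ∈ Finset.range n, ε i ≤ δ := by
      intro n
      calc ∑ i ∈ Finset.range n, ε i ≤ ∑ i ∈ Finset.range n, δ * (1 / 2) ^ (i + 1) :=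
            Finset.sum_le_sum fun i _ => hε2 i
        _ = δ * (1 - (1 / 2) ^ n) := by
            rw [← Finset.mul_sum]
            congr 1
            induction n with
            | zero => simp
            | succ n ih =>
              rw [Finset.sum_range_succ, ih]
              ring
        _ ≤ δ := by
            have : (0 : ℝ) ≤ (1 / 2) ^ n := by positivity
            nlinarith
    have hlim' : Tendsto (fun n => ∑ k ∈ B, ‖A (n + 1) t k - U t k‖) atTop
        (𝓝 (∑ k ∈ B, ‖b t k - U t k‖)) :=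
      tendsto_finsetSum _ fun k _ =>
        ((hlim t (hδ.trans_le ht) k).sub tendsto_const_nhds).norm
    exact le_of_tendsto' hlim' fun n => (hnn (n + 1)).trans (hεs (n + 1))

/-- **Piece IterP.** -/
theorem iterP (hStep : StmStepF) (hLim : StmLimF) : StmIterP := by
  obtain ⟨C₀, hC₀, HS⟩ := exists_sqP hStep
  intro ff hff ν hν U hU Q c r hdat φ hφ Φ hΦ δ hδ
  obtain ⟨m, A, ε, Hn, hq, hP⟩ := HS ff hff ν hν U hU Q c r hdat φ hφ Φ hΦ δ hδ
  obtain ⟨b, hlim, h1, h2, h3, h4, h5, h6, h7, h8, h9⟩ :=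
    iterCore hLim hC₀ hff hν hU hdat hφ hδ hq
  refine ⟨b, h1, h2, h3, h4, h5, h6, h7, h8, ?_, h9⟩
  have hpt : ∀ t ∈ Ioc (0 : ℝ) 1, ENNReal.ofReal (Φ (∑' k, ‖b t k - U t k‖))
      ≤ ∑' n, ENNReal.ofReal ((1 / 2) ^ (n + 1)) * ENNReal.ofReal (Φ (2 ^ (n + 1)
        * (Sd (A (n + 1) t) (A n t)).toReal)) := by
    intro t ht
    have ht0 : 0 < t := ht.1
    have hx : ∀ n, Sd (A (n + 1) t) (A n t) ≠ ⊤ := fun n =>
      ne_top_of_le_ne_top ENNReal.ofReal_ne_top ((hq.st n).pt t ht0)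
    have hxs : ∑' n, Sd (A (n + 1) t) (A n t) ≠ ⊤ := by
      refine ne_top_of_le_ne_top ?_ (ENNReal.tsum_le_tsum fun n => (hq.st n).pt t ht0)
      rw [← ENNReal.ofReal_tsum_of_nonneg (fun n => div_nonneg (hq.e0 n).le (Real.sqrt_nonneg _))
        (hq.sum.div_const _)]
      exact ENNReal.ofReal_ne_top
    obtain ⟨hs1, -⟩ := hq.tail_summable hlim ht0 0
    rw [hq.init] at hs1
    have h10 : ∑' k, ENNReal.ofReal ‖b t k - U t k‖ ≤ ∑' n, Sd (A (n + 1) t) (A n t) := by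
      calc ∑' k, ENNReal.ofReal ‖b t k - U t k‖
          ≤ ∑' k, ∑' i, ENNReal.ofReal ‖A (i + 1) t k - A i t k‖ := by
            refine ENNReal.tsum_le_tsum fun k => ?_
            have := tel (hlim t ht0) 0 k
            rw [hq.init] at this
            simpa using this
        _ = ∑' i, Sd (A (i + 1) t) (A i t) := ENNReal.tsum_comm
    have h11 : ∑' k, ‖b t k - U t k‖ ≤ ∑' n, (Sd (A (n + 1) t) (A n t)).toReal := by
      rw [← ENNReal.tsum_toReal_eq hx]
      rw [← ENNReal.ofReal_tsum_of_nonneg (fun _ => norm_nonneg _) hs1] at h10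
      have := ENNReal.toReal_mono hxs h10
      rwa [ENNReal.toReal_ofReal (tsum_nonneg fun _ => norm_nonneg _)] at this
    exact hΦ.tsum (fun n => ENNReal.toReal_nonneg) (ENNReal.summable_toReal hxs)
      (tsum_nonneg fun _ => norm_nonneg _) h11
  have hm : ∀ n, AEMeasurable (fun t => ENNReal.ofReal (Φ (2 ^ (n + 1)
      * (Sd (A (n + 1) t) (A n t)).toReal))) (volume.restrict (Ioc (0 : ℝ) 1)) := by
    intro n
    have h12 : AEMeasurable (fun t => 2 ^ (n + 1) * (Sd (A (n + 1) t) (A n t)).toReal)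
        (volume.restrict (Ioc (0 : ℝ) 1)) :=
      (Sd_meas (hq.cnt (n + 1)) (hq.cnt n)).ennreal_toReal.const_mul _
    have h13 := ENNReal.measurable_ofReal.comp_aemeasurable (hΦ.meas.comp_aemeasurable h12)
    refine h13.congr (Eventually.of_forall fun t => ?_)
    show ENNReal.ofReal (Φ (max (2 ^ (n + 1) * (Sd (A (n + 1) t) (A n t)).toReal) 0)) = _
    rw [max_eq_left (by positivity)]
  calc ∫⁻ t in Ioc (0 : ℝ) 1, ENNReal.ofReal (Φ (∑' k, ‖b t k - U t k‖))
      ≤ ∫⁻ t in Ioc (0 : ℝ) 1, ∑' n, ENNReal.ofReal ((1 / 2) ^ (n + 1)) * ENNReal.ofReal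
        (Φ (2 ^ (n + 1) * (Sd (A (n + 1) t) (A n t)).toReal)) :=
        setLIntegral_mono' measurableSet_Ioc hpt
    _ = ∑' n, ENNReal.ofReal ((1 / 2) ^ (n + 1)) * ∫⁻ t in Ioc (0 : ℝ) 1, ENNReal.ofReal
        (Φ (2 ^ (n + 1) * (Sd (A (n + 1) t) (A n t)).toReal)) := by
        rw [lintegral_tsum fun n => (hm n).const_mul _]
        exact tsum_congr fun n => lintegral_const_mul'' _ (hm n)
    _ ≤ ∑' n : ℕ, ENNReal.ofReal ((1 / 2) ^ (n + 1)) * ENNReal.ofReal δ :=
        ENNReal.tsum_le_tsum fun n => mul_le_mul' le_rfl (hP n)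
    _ = ENNReal.ofReal δ := by
        rw [ENNReal.tsum_mul_right, ← ENNReal.ofReal_tsum_of_nonneg (fun n => by positivity)
          ((summable_nat_add_iff 1).2
            (summable_geometric_of_lt_one (by norm_num) (by norm_num)))]
        have h6 : ∑' i : ℕ, (1 / 2 : ℝ) ^ (i + 1) = 1 := by
          simp_rw [pow_succ]
          rw [tsum_mul_right, tsum_geometric_of_lt_one (by norm_num) (by norm_num)]
          norm_num
        rw [h6, ENNReal.ofReal_one, one_mul]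

end Pool.Agent.Run7.h969.HP
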