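import Pool.Agent.Run7.h969.HP.Defs3
import Pool.Agent.Run7.h782.HP.SeqF

/-!
Functions `Φ` with `Φ x = o(x²)`: the elementary facts for the piece IterP.
-/

set_option autoImplicit false

open MeasureTheory Set Filter Topology
open scoped ENNReal ComplexConjugate

namespace Pool.Agent.Run7.h969.HP

open H459R3.NS Pool.Agent.Run7.h782 Pool.Agent.Run7.h782.GD Pool.Agent.Run7.h782.GS
open Pool.Agent.Run7.h782.WS Pool.Agent.Run7.h969.GS

variable {Φ : ℝ → ℝ}

theorem Orl.scale (h : Orl Φ) {s y : ℝ} (hs : 0 ≤ s) (hs1 : s ≤ 1) (hy : 0 ≤ y) :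
    Φ (s * y) ≤ s * Φ y := by
  have h1 := h.conv.2 (mem_Ici.2 hy) (mem_Ici.2 le_rfl) hs (sub_nonneg.2 hs1) (by ring)
  simpa [smul_eq_mul, h.zero] using h1

theorem Orl.mono (h : Orl Φ) {x y : ℝ} (hx : 0 ≤ x) (hxy : x ≤ y) : Φ x ≤ Φ y := by
  rcases hx.eq_or_lt with h0 | h0
  · rw [← h0, h.zero]
    exact h.nonneg y (hx.trans hxy)
  · have hy : 0 < y := h0.trans_le hxy
    have h1 := h.scale (s := x / y) (y := y) (by positivity) ((div_le_one hy).2 hxy) hy.le
    rw [div_mul_cancel₀ _ hy.ne'] at h1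
    refine h1.trans (mul_le_of_le_one_left (h.nonneg y hy.le) ((div_le_one hy).2 hxy))

theorem Orl.contAt (h : Orl Φ) {x : ℝ} (hx : 0 < x) : ContinuousAt Φ x := by
  have h1 : ContinuousOn Φ (interior (Ici (0 : ℝ))) := h.conv.continuousOn_interior
  rw [interior_Ici] at h1
  exact h1.continuousAt (Ioi_mem_nhds hx)

theorem Orl.meas (h : Orl Φ) : Measurable fun x => Φ (max x 0) := by
  refine Monotone.measurable fun x y hxy => ?_
  exact h.mono (le_max_right _ _) (max_le_max_right 0 hxy)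

/-- `Φ` is bounded by a small multiple of the square and a constant. -/
theorem Orl.sq_le (h : Orl Φ) {κ : ℝ} (hκ : 0 < κ) :
    ∃ K : ℝ, 0 ≤ K ∧ ∀ x, 0 ≤ x → Φ x ≤ κ * x ^ 2 + K := by
  have h1 := (h.small.eventually (gt_mem_nhds hκ)).and (eventually_gt_atTop 0)
  obtain ⟨X, hX⟩ := eventually_atTop.1 h1
  have hX0 := (hX X le_rfl).2
  refine ⟨Φ X, h.nonneg X hX0.le, fun x hx => ?_⟩
  rcases le_total x X with h2 | h2
  · have := h.mono hx h2
    nlinarith [sq_nonneg x]
  · obtain ⟨h3, h4⟩ := hX x h2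
    rw [div_lt_iff₀ (by positivity)] at h3
    have := h.nonneg X hX0.le
    linarith

/-- The smallness in the steps. -/
theorem Orl.small_int (h : Orl Φ) {M H η : ℝ} (hM : 0 < M) (hH : 0 ≤ H) (hη : 0 < η) :
    ∀ᶠ ε in 𝓝[>] (0 : ℝ), ∀ X : ℝ → ℝ≥0∞, AEMeasurable X (volume.restrict (Ioc (0 : ℝ) 1)) →
      (∀ t, ε ≤ t → X t ≤ ENNReal.ofReal ε) →
      ∫⁻ t in Ioc (0 : ℝ) 1, X t ^ (2 : ℝ) ≤ ENNReal.ofReal H →
      ∫⁻ t in Ioc (0 : ℝ) 1, ENNReal.ofReal (Φ (M * (X t).toReal)) ≤ ENNReal.ofReal η := by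
  set κ : ℝ := η / (2 * (M ^ 2 * H + 1)) with hκd
  have hMH : 0 ≤ M ^ 2 * H := by positivity
  have hκ : 0 < κ := by positivity
  obtain ⟨K, hK0, hK⟩ := h.sq_le hκ
  have hF1 : 0 ≤ Φ 1 := h.nonneg 1 zero_le_one
  have e1 : ∀ᶠ ε in 𝓝[>] (0 : ℝ), 0 < ε := self_mem_nhdsWithin
  have e2 : ∀ δ : ℝ, 0 < δ → ∀ᶠ ε in 𝓝[>] (0 : ℝ), ε ≤ δ := fun δ hδ =>
    nhdsWithin_le_nhds (ge_mem_nhds hδ)
  filter_upwards [e1, e2 (1 / M) (by positivity), e2 (η / (2 * (K + M * Φ 1 + 1))) (by positivity)]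
    with ε hε hε1 hε2 X hXm hX hXi
  have hMε : M * ε ≤ 1 := by
    rw [le_div_iff₀ hM] at hε1
    linarith
  have hpt : ∀ t ∈ Ioc (0 : ℝ) 1, ENNReal.ofReal (Φ (M * (X t).toReal))
      ≤ ENNReal.ofReal (κ * M ^ 2) * X t ^ (2 : ℝ)
        + ((Ioc 0 ε).indicator (fun _ => ENNReal.ofReal K) t + ENNReal.ofReal (M * ε * Φ 1)) := by
    intro t ht
    rcases le_total ε t with h1 | h1
    · refine le_trans ?_ ((le_add_left le_rfl).trans (le_add_left le_rfl))
      refine ENNReal.ofReal_le_ofReal ?_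
      have h2 : (X t).toReal ≤ ε := by
        have := ENNReal.toReal_mono ENNReal.ofReal_ne_top (hX t h1)
        rwa [ENNReal.toReal_ofReal hε.le] at this
      have h3 : Φ (M * (X t).toReal) ≤ Φ (M * ε) :=
        h.mono (mul_nonneg hM.le ENNReal.toReal_nonneg) (by gcongr)
      have h4 := h.scale (s := M * ε) (y := 1) (by positivity) hMε zero_le_one
      rw [mul_one] at h4
      exact h3.trans h4
    · have hmem : t ∈ Ioc 0 ε := ⟨ht.1, h1⟩
      rw [indicator_of_mem hmem]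
      by_cases hT : X t = ⊤
      · rw [hT]
        simp [h.zero]
      · have h2 := hK (M * (X t).toReal) (mul_nonneg hM.le ENNReal.toReal_nonneg)
        have h3 : X t ^ (2 : ℝ) = ENNReal.ofReal ((X t).toReal ^ 2) := by
          rw [← ENNReal.ofReal_toReal hT, ENNReal.ofReal_rpow_of_nonneg ENNReal.toReal_nonneg
            (by norm_num), ENNReal.toReal_ofReal ENNReal.toReal_nonneg, Real.rpow_two]
        rw [h3, ← ENNReal.ofReal_mul (by positivity), ← add_assoc]
        refine le_add_right ?_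
        rw [← ENNReal.ofReal_add (by positivity) hK0]
        refine ENNReal.ofReal_le_ofReal (h2.trans (le_of_eq ?_))
        ring
  calc ∫⁻ t in Ioc (0 : ℝ) 1, ENNReal.ofReal (Φ (M * (X t).toReal))
      ≤ ∫⁻ t in Ioc (0 : ℝ) 1, (ENNReal.ofReal (κ * M ^ 2) * X t ^ (2 : ℝ)
        + ((Ioc 0 ε).indicator (fun _ => ENNReal.ofReal K) t + ENNReal.ofReal (M * ε * Φ 1))) :=
        setLIntegral_mono' measurableSet_Ioc hpt
    _ ≤ ENNReal.ofReal (κ * M ^ 2) * ENNReal.ofReal H
        + (ENNReal.ofReal K * ENNReal.ofReal ε + ENNReal.ofReal (M * ε * Φ 1)) := by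
        rw [lintegral_add_left' ((hXm.pow_const 2).const_mul _), lintegral_const_mul'' _
          (hXm.pow_const 2), lintegral_add_left (measurable_const.indicator measurableSet_Ioc)]
        refine add_le_add (mul_le_mul' le_rfl hXi) (add_le_add ?_ ?_)
        · refine (setLIntegral_le_lintegral _ _).trans ?_
          rw [lintegral_indicator measurableSet_Ioc, lintegral_const,
            Measure.restrict_apply_univ, Real.volume_Ioc, sub_zero]
        · rw [lintegral_const, Measure.restrict_apply_univ, Real.volume_Ioc]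
          simp
    _ ≤ ENNReal.ofReal η := by
        rw [← ENNReal.ofReal_mul (by positivity), ← ENNReal.ofReal_mul hK0,
          ← ENNReal.ofReal_add (by positivity) (by positivity),
          ← ENNReal.ofReal_add (by positivity) (by positivity)]
        refine ENNReal.ofReal_le_ofReal ?_
        have h1 : κ * M ^ 2 * H ≤ η / 2 := by
          rw [hκd, div_mul_eq_mul_div, div_mul_eq_mul_div, div_le_div_iff₀ (by positivity)
            (by norm_num)]
          nlinarith
        have h2 : K * ε + M * ε * Φ 1 ≤ η / 2 := by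
          rw [le_div_iff₀ (by positivity)] at hε2
          nlinarith
        linarith

/-- Jensen's inequality with the weights `2^{-(n+1)}`. -/
theorem Orl.jensen (h : Orl Φ) {x : ℕ → ℝ} (hx : ∀ n, 0 ≤ x n) (J : ℕ) :
    Φ (∑ n ∈ Finset.range J, x n)
      ≤ ∑ n ∈ Finset.range J, (1 / 2) ^ (n + 1) * Φ (2 ^ (n + 1) * x n) := by
  have hw : ∀ J : ℕ, ∑ n ∈ Finset.range J, (1 / 2 : ℝ) ^ (n + 1) = 1 - (1 / 2) ^ J := by
    intro J
    induction J with
    | zero => simp
    | succ J ih =>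
      rw [Finset.sum_range_succ, ih]
      ring
  have h1 := h.conv.map_sum_le (t := Finset.range (J + 1))
    (w := fun n => if n < J then (1 / 2 : ℝ) ^ (n + 1) else (1 / 2) ^ J)
    (p := fun n => if n < J then 2 ^ (n + 1) * x n else 0)
    (fun n _ => by
      show (0 : ℝ) ≤ if n < J then (1 / 2 : ℝ) ^ (n + 1) else (1 / 2) ^ J
      split_ifs <;> positivity)
    (by
      rw [Finset.sum_range_succ]
      simp only [lt_irrefl, if_false]
      rw [Finset.sum_congr rfl (g := fun n => (1 / 2 : ℝ) ^ (n + 1))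
        (fun n hn => if_pos (Finset.mem_range.1 hn)), hw]
      ring)
    (fun n _ => by
      show (0 : ℝ) ≤ if n < J then 2 ^ (n + 1) * x n else 0
      have := hx n
      split_ifs <;> positivity)
  simp only [smul_eq_mul] at h1
  rw [Finset.sum_range_succ, Finset.sum_range_succ] at h1
  simp only [lt_irrefl, if_false, mul_zero, add_zero, h.zero] at h1
  have e1 : ∑ n ∈ Finset.range J, (if n < J then (1 / 2 : ℝ) ^ (n + 1) else (1 / 2) ^ J)
      * (if n < J then 2 ^ (n + 1) * x n else 0) = ∑ n ∈ Finset.range J, x n := by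
    refine Finset.sum_congr rfl fun n hn => ?_
    rw [if_pos (Finset.mem_range.1 hn), if_pos (Finset.mem_range.1 hn), ← mul_assoc, ← mul_pow]
    norm_num
  have e2 : ∑ n ∈ Finset.range J, (if n < J then (1 / 2 : ℝ) ^ (n + 1) else (1 / 2) ^ J)
      * Φ (if n < J then 2 ^ (n + 1) * x n else 0)
      = ∑ n ∈ Finset.range J, (1 / 2) ^ (n + 1) * Φ (2 ^ (n + 1) * x n) := by
    refine Finset.sum_congr rfl fun n hn => ?_
    rw [if_pos (Finset.mem_range.1 hn), if_pos (Finset.mem_range.1 hn)]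
  rw [e1, e2] at h1
  exact h1

/-- The infinite sum. -/
theorem Orl.tsum (h : Orl Φ) {x : ℕ → ℝ} (hx : ∀ n, 0 ≤ x n) (hs : Summable x) {y : ℝ}
    (hy : 0 ≤ y) (hyx : y ≤ ∑' n, x n) :
    ENNReal.ofReal (Φ y)
      ≤ ∑' n, ENNReal.ofReal ((1 / 2) ^ (n + 1)) * ENNReal.ofReal (Φ (2 ^ (n + 1) * x n)) := by
  have h0 : 0 ≤ ∑' n, x n := tsum_nonneg hx
  have hS : ∀ J : ℕ, ENNReal.ofReal (Φ (∑ n ∈ Finset.range J, x n))
      ≤ ∑' n, ENNReal.ofReal ((1 / 2) ^ (n + 1)) * ENNReal.ofReal (Φ (2 ^ (n + 1) * x n)) := by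
    intro J
    refine (ENNReal.ofReal_le_ofReal (h.jensen hx J)).trans ?_
    rw [ENNReal.ofReal_sum_of_nonneg fun n _ => mul_nonneg (by positivity)
      (h.nonneg _ (mul_nonneg (by positivity) (hx n)))]
    refine le_trans (le_of_eq (Finset.sum_congr rfl fun n _ => ?_))
      (ENNReal.sum_le_tsum (Finset.range J))
    rw [ENNReal.ofReal_mul (by positivity)]
  rcases h0.eq_or_lt with h1 | h1
  · have : y = 0 := le_antisymm (hyx.trans h1.symm.le) hy
    rw [this, h.zero, ENNReal.ofReal_zero]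
    exact zero_le
  · have h2 : Tendsto (fun J => ENNReal.ofReal (Φ (∑ n ∈ Finset.range J, x n))) atTop
        (𝓝 (ENNReal.ofReal (Φ (∑' n, x n)))) :=
      (ENNReal.continuous_ofReal.tendsto _).comp
        ((h.contAt h1).tendsto.comp hs.hasSum.tendsto_sum_nat)
    exact (ENNReal.ofReal_le_ofReal (h.mono hy hyx)).trans (le_of_tendsto' h2 hS)

end Pool.Agent.Run7.h969.HP
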