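import Pool.Agent.Run7.h969.HP.Rch1

/-!
Piece Reach, part 2: the step.
-/

set_option autoImplicit false

open MeasureTheory Set Filter Topology
open scoped ContDiff ENNReal ComplexConjugate

namespace Pool.Agent.Run7.h969.HP

open H459R3.NS Pool.Agent.Run7.h782 Pool.Agent.Run7.h782.GD Pool.Agent.Run7.h782.GS
open Pool.Agent.Run7.h782.WS Pool.Agent.Run7.h782.WQ Pool.Agent.Run7.h744.WS
open Pool.Agent.Run7.h969.WS Pool.Agent.Run7.h782.OS Pool.Agent.Run7.h811.WS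

theorem exists_rec' {X : Type*} (P : ℕ → X → Prop) (R : ℕ → X → X → Prop) (x₀ : X) (h0 : P 0 x₀)
    (h : ∀ n x, P n x → ∃ y, P (n + 1) y ∧ R n x y) :
    ∃ f : ℕ → X, f 0 = x₀ ∧ (∀ n, P n (f n)) ∧ ∀ n, R n (f n) (f (n + 1)) := by
  classical
  choose! g hg using h
  let f : ℕ → X := fun n => Nat.rec x₀ (fun n x => g n x) n
  have hf : ∀ n, P n (f n) := by
    intro n
    induction n with
    | zero => exact h0
    | succ n ih => exact (hg n (f n) ih).1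
  exact ⟨f, rfl, hf, fun n => (hg n (f n) (hf n)).2⟩

/-- The data of the stage `j`: near the previous target `g (j - 1)`. -/
structure Stg (m : V) (η : ℕ → ℝ) (g : ℕ → V → V) (j : ℕ) (D : Cf) : Prop where
  herm : Herm D
  dv : Dv D
  mean : ∀ i, D 0 i = ((m i : ℝ) : ℂ)
  sm : Summable fun k => ‖D k‖
  near : ∀ i, j = i + 1 → ∀ A : Finset K3, ∑ k ∈ A, ‖D k - vf (g i) k‖ ≤ η j

/-- The data of a regular time. -/
theorem stg_data {ν : ℝ} {I : Set ℝ} {u : ℝ → V → V} {p : ℝ → V → ℝ} (h : SolOn ν I u p) {t : ℝ}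
    (ht : t ∈ I) {m : V} (hm : ∀ i, ∫ x in cube, u t x i = m i) :
    Herm (vf (u t)) ∧ Dv (vf (u t)) ∧ (∀ i, vf (u t) 0 i = ((m i : ℝ) : ℂ)) ∧
      Summable fun k => ‖vf (u t) k‖ :=
  ⟨h219.HP.herm_vf' (u t), h219.HP.dv_o h ht, vf_mean hm,
    h308.GS.vf_summable (u := u t) fun i => h219.HP.sp_o h ht i⟩

theorem exists_R' {c : Cf} (hh : Herm c) (hd : Dv c) (hs : Summable fun k => ‖c k‖) {Q : ℕ → ℝ}
    (hQ : ∀ n, 1 ≤ Q n) : ∃ R : Fin 3 → Fin 3 → V → ℝ, Str R ∧ IsDiv R c ∧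
      ∀ n i j, IntegrableOn (fun x => |R i j x| ^ Q n) cube := by
  set c' : Cf := fun k => if k = 0 then 0 else c k with hc
  have hck : ∀ k, k ≠ 0 → c' k = c k := fun k hk => by simp [hc, hk]
  have hc0 : c' 0 = 0 := by simp [hc]
  have hcs : Summable fun k => ‖c' k‖ := by
    refine Summable.of_nonneg_of_le (fun _ => norm_nonneg _) (fun k => ?_) hs
    by_cases hk : k = 0
    · rw [hk, hc0, norm_zero]
      exact norm_nonneg _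
    · rw [hck k hk]
  have hch : Herm c' := by
    intro k
    by_cases hk : k = 0
    · subst hk
      have : c' (-0) = c' 0 := by rw [neg_zero]
      rw [this, hc0]
      simp
    · rw [hck k hk, hck (-k) (neg_ne_zero.2 hk)]
      exact hh k
  have hcd : Dv c' := by
    intro k
    by_cases hk : k = 0
    · subst hk
      rw [hc0]
      simp [kd]
    · rw [hck k hk]
      exact hd k
  obtain ⟨R, h1, h2, h3⟩ := h219.HP.exists_R hch hcd hc0 hcs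
  exact ⟨R, h1, fun k hk => by rw [← hck k hk]; exact h2 k hk,
    fun n => h3 (Q n) (by linarith [hQ n])⟩

/-- The targets: fields with finitely many modes, whose differences have small stresses. -/
structure Tgs (m : V) (Q : ℕ → ℝ) (η : ℕ → ℝ) (g : ℕ → V → V) (ρ : ℕ → Mf) : Prop where
  path : ∀ j, PathM m fun _ => g j
  supp : ∀ j, ∃ Z : Finset K3, ∀ i i', ∀ k ∉ Z, ρ j i i' k = 0
  sy : ∀ j, Sy (ρ j)
  dif : ∀ j k, vf (g j) k - vf (g (j + 1)) k = dvr (ρ j) k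
  small : ∀ j i, i ≤ j + 1 → rp (Q i) (ρ j) ≤ η (j + 1)

/-- **The step.** -/
theorem stp_ex (hE : StmLocE) {ν : ℝ} (hν : 0 < ν) {Q : ℕ → ℝ} (hQ : ∀ n, 1 ≤ Q n) {η : ℕ → ℝ}
    (hU : ∀ j : ℕ, ∀ (m : V) (w : ℝ → V → V), PathM m w → ∀ T ε : ℝ, 0 < T → 0 < ε →
      ∃ τ₀ : ℝ, 0 < τ₀ ∧ ∀ τ, 0 < τ → τ < τ₀ → ∀ s ∈ Icc 0 T, ∀ c : Cf, Herm c → Dv c →
      (∀ i, c 0 i = ((m i : ℝ) : ℂ)) → (Summable fun k => ‖c k‖) →
      ∀ (Z : Finset K3) (r : Mf), (∀ i j, ∀ k ∉ Z, r i j k = 0) → Sy r →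
      (∀ i, i ≤ j → rp (Q i) r ≤ η j) →
      (∀ A : Finset K3, ∑ k ∈ A, ‖c k - vf (w s) k - dvr r k‖ ≤ η j) →
      ∀ Φ : ℝ → ℝ, Orl Φ → ∀ δ : ℝ, 0 < δ →
      ∃ (τ' : ℝ) (u : ℝ → V → V) (p : ℝ → V → ℝ), τ < τ' ∧ Lc ν m w ε s τ c Q Φ δ τ' u p ∧
        ∀ i, i ≤ j → ∫⁻ t in Ioo 0 τ, (∫⁻ x in cube, ENNReal.ofReal (∑ j, |u t x j| ^ (2 * Q i)))
          ^ (2 / (2 * Q i)) ≤ ENNReal.ofReal ((1 / 2) ^ j))
    {m : V} {g : ℕ → V → V} {ρ : ℕ → Mf} (hg : Tgs m Q η g ρ) {ε : ℕ → ℝ} (hε : ∀ j, 0 < ε j)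
    (j : ℕ) : ∃ τ₀ : ℝ, 0 < τ₀ ∧ ∀ τ, 0 < τ → τ < τ₀ → ∀ D : Cf, Stg m η g j D →
      ∀ Φ : ℝ → ℝ, Orl Φ → ∀ δ : ℝ, 0 < δ →
      ∃ (τ' : ℝ) (u : ℝ → V → V) (p : ℝ → V → ℝ), τ < τ' ∧
        Lc ν m (fun _ => g j) (ε j) 0 τ D Q Φ δ τ' u p ∧
        (1 ≤ j → ∀ i, i ≤ j → ∫⁻ t in Ioo 0 τ, (∫⁻ x in cube, ENNReal.ofReal
          (∑ j, |u t x j| ^ (2 * Q i))) ^ (2 / (2 * Q i)) ≤ ENNReal.ofReal ((1 / 2) ^ j)) := by
  have h01 : (0 : ℝ) ∈ Icc (0 : ℝ) 1 := ⟨le_rfl, zero_le_one⟩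
  rcases Nat.eq_zero_or_pos j with hj | hj
  · subst hj
    obtain ⟨τ₀, hτ₀, H⟩ := hE ν hν m (fun _ => g 0) (hg.path 0) 1 (ε 0) one_pos (hε 0)
    refine ⟨τ₀, hτ₀, fun τ hτ hττ D hD Φ hΦ δ hδ => ?_⟩
    obtain ⟨R, hR1, hR2, hR3⟩ := exists_R' hD.herm hD.dv hD.sm hQ
    obtain ⟨τ', u, p, h1, h2⟩ := H τ hτ hττ 0 h01 D hD.herm hD.dv hD.mean R hR1 hR2 Q hQ hR3 Φ hΦ
      δ hδ
    exact ⟨τ', u, p, h1, h2, fun h => absurd h (by norm_num)⟩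
  · obtain ⟨i₀, rfl⟩ : ∃ i₀, j = i₀ + 1 := ⟨j - 1, by omega⟩
    obtain ⟨τ₀, hτ₀, H⟩ := hU (i₀ + 1) m (fun _ => g (i₀ + 1)) (hg.path _) 1 (ε (i₀ + 1)) one_pos
      (hε _)
    refine ⟨τ₀, hτ₀, fun τ hτ hττ D hD Φ hΦ δ hδ => ?_⟩
    obtain ⟨Z, hZ⟩ := hg.supp i₀
    obtain ⟨τ', u, p, h1, h2, h3⟩ := H τ hτ hττ 0 h01 D hD.herm hD.dv hD.mean hD.sm Z (ρ i₀) hZ
      (hg.sy i₀) (fun i hi => hg.small i₀ i hi) (fun A => by
        refine le_trans (le_of_eq (Finset.sum_congr rfl fun k _ => ?_)) (hD.near i₀ rfl A)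
        rw [← hg.dif i₀ k]
        congr 1
        abel) Φ hΦ δ hδ
    exact ⟨τ', u, p, h1, h2, fun _ => h3⟩

end Pool.Agent.Run7.h969.HP
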