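import Pool.Agent.Run7.h969.HP.Rch2
import Pool.Agent.Run7.h219.HP.End5

/-!
Piece Reach, part 3: the targets and limits of pairings.
-/

set_option autoImplicit false

open MeasureTheory Set Filter Topology
open scoped ContDiff ENNReal ComplexConjugate

namespace Pool.Agent.Run7.h969.HP

open H459R3.NS Pool.Agent.Run7.h782 Pool.Agent.Run7.h782.GD Pool.Agent.Run7.h782.GS
open Pool.Agent.Run7.h782.WS Pool.Agent.Run7.h782.WQ Pool.Agent.Run7.h744.WS
open Pool.Agent.Run7.h969.WS Pool.Agent.Run7.h782.OS Pool.Agent.Run7.h811.WS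

/-- Limits of pairings. -/
theorem pr_lim {c : ℕ → Cf} {c₁ : Cf} {C : ℝ} {N : ℕ}
    (hb : ∀ n k, ‖c n k‖ ≤ C * (1 + len k) ^ N)
    (hlim : ∀ k, Tendsto (fun n => c n k) atTop (𝓝 (c₁ k))) {ψ : V → ℝ} (hψ : SP ψ) (i : Fin 3) :
    Tendsto (fun n => pr (c n) i ψ) atTop (𝓝 (pr c₁ i ψ)) := by
  have hC : 0 ≤ C := by
    have := (norm_nonneg _).trans (hb 0 0)
    rw [GD.len_zero, add_zero, one_pow, mul_one] at this
    exact this
  have hs := (h219.HP.pr_sum (c := fun k _ => ((C * (1 + len k) ^ N : ℝ) : ℂ)) (C := C) (m := N)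
    (fun k => by
      have h1 : 0 ≤ C * (1 + len k) ^ N := by
        have := GD.len_nonneg k
        positivity
      refine (pi_norm_le_iff_of_nonneg h1).2 fun _ => ?_
      rw [Complex.norm_real, Real.norm_of_nonneg h1]) hψ i).norm
  refine (Complex.continuous_re.tendsto _).comp (tendsto_tsum_of_dominated_convergence hs
    (fun k => ?_) (Eventually.of_forall fun n k => ?_))
  · have h1 : Tendsto (fun n => c n k i) atTop (𝓝 (c₁ k i)) :=
      ((continuous_apply i).tendsto _).comp (hlim k)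
    exact h1.mul_const _
  · have h1 : 0 ≤ C * (1 + len k) ^ N := by
      have := GD.len_nonneg k
      positivity
    rw [norm_mul, norm_mul]
    refine mul_le_mul_of_nonneg_right ?_ (norm_nonneg _)
    rw [Complex.norm_real, Real.norm_of_nonneg h1]
    exact (norm_le_pi_norm (c n k) i).trans (hb n k)

/-- The coefficients without the mean. -/
noncomputable def nm (c : Cf) : Cf := fun k => if k = 0 then 0 else c k

theorem nm_ne (c : Cf) {k : K3} (hk : k ≠ 0) : nm c k = c k := if_neg hk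

theorem nm_zero (c : Cf) : nm c 0 = 0 := if_pos rfl

theorem nm_herm {c : Cf} (h : Herm c) : Herm (nm c) := by
  intro k
  by_cases hk : k = 0
  · subst hk
    have : nm c (-0) = nm c 0 := by rw [neg_zero]
    rw [this, nm_zero]
    simp
  · rw [nm_ne c hk, nm_ne c (neg_ne_zero.2 hk)]
    exact h k

theorem nm_dv {c : Cf} (h : Dv c) : Dv (nm c) := by
  intro k
  by_cases hk : k = 0
  · subst hk
    rw [nm_zero]
    simp [kd]
  · rw [nm_ne c hk]
    exact h k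

/-- The targets. -/
theorem tgs_ex (hD1 : StmD1S) (m : V) {c₁ : Cf} (hc : Dis c₁) (hm : ∀ i, c₁ 0 i = ((m i : ℝ) : ℂ))
    {Q : ℕ → ℝ} (hQ : ∀ n, 1 ≤ Q n) (hR : ∃ R : Fin 3 → Fin 3 → V → ℝ, Str R ∧ IsDiv R c₁ ∧
      ∀ n i j, IntegrableOn (fun x => |R i j x| ^ Q n) cube) {η : ℕ → ℝ} (hη : ∀ j, 0 < η j) :
    ∃ (g : ℕ → V → V) (ρ : ℕ → Mf), Tgs m Q η g ρ ∧
      (∀ k, Tendsto (fun j => vf (g j) k) atTop (𝓝 (c₁ k))) ∧
      ∃ C : ℝ, ∀ j k, ‖vf (g j) k‖ ≤ C * (1 + len k) ^ 1 := by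
  obtain ⟨R, hR1, hR2, hR3⟩ := hR
  obtain ⟨r, -, hdat, -⟩ := hD1 (nm c₁) R Q (nm_herm hc.herm) (nm_dv hc.dv) (nm_zero _) hR1
    (fun k hk => by rw [nm_ne c₁ hk]; exact hR2 k hk) hQ hR3
  -- the extraction
  have hev : ∀ j : ℕ, ∀ᶠ a in atTop, ∀ b, a ≤ b → ∀ i, i ≤ j + 1 →
      rp (Q i) (r a - r b) ≤ η (j + 1) := by
    intro j
    have h1 : ∀ i ∈ Finset.range (j + 2), ∀ᶠ a in atTop, ∀ b, a ≤ b →
        rp (Q i) (r a - r b) ≤ η (j + 1) := by
      intro i _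
      obtain ⟨m₀, h⟩ := hdat.cau i (η (j + 1)) (hη _)
      exact eventually_atTop.2 ⟨m₀, fun a ha b hb => h a b ha (ha.trans hb)⟩
    filter_upwards [(Filter.eventually_all_finset _).2 h1] with a ha b hb i hi
    exact ha i (Finset.mem_range.2 (by omega)) b hb
  obtain ⟨κ, hκ, hκ'⟩ := Filter.extraction_forall_of_eventually' fun j => eventually_atTop.1 (hev j)
  have hsup : ∀ n, ∃ Z : Finset K3, ∀ k ∉ Z, dvr (r n) k = 0 := fun n => by
    obtain ⟨Z, hZ⟩ := hdat.supp n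
    exact ⟨Z.erase 0, h744.WQ.dvr_supp hZ⟩
  have hvf : ∀ n k, vf (tgf m (dvr (r n))) k
      = (if k = 0 then fun i => ((m i : ℝ) : ℂ) else 0) + dvr (r n) k := fun n k => by
    obtain ⟨Z, hZ⟩ := hsup n
    exact vf_tgf m hZ (h744.WQ.herm_dvr (hdat.sy n)) k
  have hlim1 : ∀ k, Tendsto (fun j => vf (tgf m (dvr (r (κ j)))) k) atTop (𝓝 (c₁ k)) := by
    intro k
    simp_rw [hvf]
    by_cases hk : k = 0
    · subst hk
      have : c₁ 0 = fun i => ((m i : ℝ) : ℂ) := funext hm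
      rw [this]
      refine tendsto_const_nhds.congr fun j => ?_
      rw [h744.WQ.dvr_zero_mode, add_zero, if_pos rfl]
    · have h1 := (hdat.lim k).comp hκ.tendsto_atTop
      rw [nm_ne c₁ hk] at h1
      refine h1.congr fun j => ?_
      rw [if_neg hk, zero_add]
      rfl
  -- the bound
  obtain ⟨M, hM0, hM⟩ : ∃ M : ℝ, 0 ≤ M ∧ ∀ j, rp 1 (r (κ j)) ≤ M := by
    obtain ⟨m₀, hm₀⟩ := hdat.cau 0 1 one_pos
    obtain ⟨N, hN⟩ := eventually_atTop.1 (hκ.tendsto_atTop.eventually (eventually_ge_atTop m₀))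
    refine h744.WQ.exists_all (N := N) (C := 2 ^ (1 : ℝ) * (2 + rp 1 (r m₀))) fun j hj => ?_
    have h1 := hm₀ (κ j) m₀ (hN j hj) le_rfl
    have hr := h744.WQ.r1sub (h744.WQ.dat_r1 hdat (κ j)) (h744.WQ.dat_r1 hdat m₀)
    have h2 := h744.WQ.stmQ0.2.2.2.1 1 (Q 0) _ one_pos (hQ 0) hr
    have h3 := h744.WQ.stmQ0.1 1 _ _ one_pos hr (h744.WQ.dat_r1 hdat m₀)
    rw [sub_add_cancel] at h3
    refine h3.trans (mul_le_mul_of_nonneg_left ?_ (by positivity))
    linarith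
  refine ⟨fun j => tgf m (dvr (r (κ j))), fun j => r (κ j) - r (κ (j + 1)), ⟨fun j => ?_,
    fun j => ?_, fun j => ?_, fun j k => ?_, fun j i hi => ?_⟩, hlim1,
    ‖m‖ + 24 * Real.pi * M, fun j k => ?_⟩
  · obtain ⟨Z, hZ⟩ := hsup (κ j)
    exact tgf_path m hZ (h744.WQ.herm_dvr (hdat.sy _)) (h744.WQ.dv_dvr _)
      (h744.WQ.dvr_zero_mode _)
  · classical
    obtain ⟨Z, hZ⟩ := hdat.supp (κ j)
    obtain ⟨Z', hZ'⟩ := hdat.supp (κ (j + 1))
    refine ⟨Z ∪ Z', fun i i' k hk => ?_⟩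
    rw [Finset.mem_union, not_or] at hk
    show r (κ j) i i' k - r (κ (j + 1)) i i' k = 0
    rw [hZ i i' k hk.1, hZ' i i' k hk.2, sub_zero]
  · refine ⟨fun i i' k => ?_, fun i i' k => ?_⟩
    · show r (κ j) i i' k - r (κ (j + 1)) i i' k = r (κ j) i' i k - r (κ (j + 1)) i' i k
      rw [(hdat.sy _).sym i i' k, (hdat.sy (κ (j + 1))).sym i i' k]
    · show r (κ j) i i' (-k) - r (κ (j + 1)) i i' (-k)
        = conj (r (κ j) i i' k - r (κ (j + 1)) i i' k)
      rw [(hdat.sy _).herm i i' k, (hdat.sy (κ (j + 1))).herm i i' k, map_sub]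
  · rw [hvf, hvf, h744.WQ.dvr_sub, Pi.sub_apply]
    abel
  · exact hκ' j (κ (j + 1)) (hκ.monotone (Nat.le_succ j)) i hi
  · have hl := GD.len_nonneg k
    have hpi := Real.pi_pos
    rw [hvf, pow_one]
    have h1 := h744.WQ.norm_dvr_le (h744.WQ.dat_r1 hdat (κ j)) k
    have h2 : 24 * Real.pi * len k * rp 1 (r (κ j)) ≤ 24 * Real.pi * M * (1 + len k) := by
      have h3 : 24 * Real.pi * len k * rp 1 (r (κ j)) ≤ 24 * Real.pi * len k * M :=
        mul_le_mul_of_nonneg_left (hM j) (by positivity)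
      have h4 : 0 ≤ 24 * Real.pi * M := by positivity
      nlinarith
    have h5 : ‖(if k = 0 then fun i => ((m i : ℝ) : ℂ) else 0 : C3)‖ ≤ ‖m‖ * (1 + len k) := by
      have h6 : ‖(if k = 0 then fun i => ((m i : ℝ) : ℂ) else 0 : C3)‖ ≤ ‖m‖ := by
        split_ifs
        · refine (pi_norm_le_iff_of_nonneg (norm_nonneg m)).2 fun i => ?_
          rw [Complex.norm_real]
          exact norm_le_pi_norm m i
        · rw [norm_zero]
          exact norm_nonneg m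
      have h7 := norm_nonneg m
      nlinarith
    calc _ ≤ _ := norm_add_le _ _
      _ ≤ ‖m‖ * (1 + len k) + 24 * Real.pi * M * (1 + len k) := add_le_add h5 (h1.trans h2)
      _ = _ := by ring

end Pool.Agent.Run7.h969.HP
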