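import Pool.Agent.Run7.h969.HP.Inf
import Pool.Agent.Run7.h782.HP.DefsB

/-!
Piece ReachB, part 1: the step, two-part sequences and continuity at the junctions.
-/

set_option autoImplicit false

open MeasureTheory Set Filter Topology
open scoped ContDiff ENNReal ComplexConjugate

namespace Pool.Agent.Run7.h969.HP

open H459R3.NS Pool.Agent.Run7.h782 Pool.Agent.Run7.h782.GD Pool.Agent.Run7.h782.GS
open Pool.Agent.Run7.h782.WS Pool.Agent.Run7.h782.WQ Pool.Agent.Run7.h744.WS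
open Pool.Agent.Run7.h969.WS Pool.Agent.Run7.h782.OS Pool.Agent.Run7.h219.OS
open Pool.Agent.Run7.h219.HP Pool.Agent.Run7.h782.HP

/-- Continuity at the times of an open interval (no hypothesis about the means). -/
def StmBReg2 : Prop := ∀ (φ : ℝ → ℝ), Gauge φ → ∀ (ν a b : ℝ) (u : ℝ → V → V)
  (p : ℝ → V → ℝ), SolOn ν (Ioo a b) u p → ∀ s ∈ Ioo a b, Bc φ u s

/-! ### Sequences in two parts -/

/-- The sequence `x` before `N`, and `y` from then on. -/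
def sw {X : Type*} (N : ℕ) (x y : ℕ → X) (n : ℕ) : X := if n < N then x n else y (n - N)

theorem sw_lt {X : Type*} {N : ℕ} (x y : ℕ → X) {n : ℕ} (h : n < N) : sw N x y n = x n := if_pos h

theorem sw_add {X : Type*} (N : ℕ) (x y : ℕ → X) (j : ℕ) : sw N x y (N + j) = y j := by
  unfold sw
  rw [if_neg (by omega), Nat.add_sub_cancel_left]

theorem sw_add' {X : Type*} (N : ℕ) (x y : ℕ → X) (j : ℕ) : sw N x y (j + N) = y j := by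
  rw [add_comm, sw_add]

/-- Splitting of cases. -/
theorem sw_cases (N n : ℕ) : n < N ∨ ∃ j, n = N + j := by
  rcases lt_or_ge n N with h | h
  · exact Or.inl h
  · exact Or.inr ⟨n - N, by omega⟩

theorem sw_forall {X : Type*} {N : ℕ} {x y : ℕ → X} {P : X → Prop} (h1 : ∀ n, P (x n))
    (h2 : ∀ n, P (y n)) (n : ℕ) : P (sw N x y n) := by
  unfold sw
  split_ifs
  · exact h1 _
  · exact h2 _

/-! ### Continuity -/

theorem bc_glue {φ : ℝ → ℝ} {τ : ℕ → ℝ} (hτ : ∀ n, 0 < τ n) {T : ℝ} (hs : HasSum τ T)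
    {u : ℕ → ℝ → V → V} {v : ℝ → V → V} (hv : ∀ n, ∀ t ∈ Ioc 0 (τ n), v (ps τ n + t) = u n t)
    (hreg : ∀ n, ∀ s ∈ Ioc 0 (τ n), Bc φ (u n) s)
    (hjun : ∀ n i, Tendsto (fun t => besG φ (fun x => u (n + 1) t x i - u n (τ n) x i))
      (𝓝[>] 0) (𝓝 0)) {s : ℝ} (hs' : s ∈ Ioo 0 T) : Bc φ v s := by
  intro i
  obtain ⟨n, h1, h2⟩ := ps_cover hs hs'
  have hval : ∀ n t, t ∈ Ioc (ps τ n) (ps τ (n + 1)) → v t = u n (t - ps τ n) := by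
    intro n t ht
    have h3 := hv n (t - ps τ n) ⟨by linarith [ht.1], by have := ht.2; rw [ps_succ] at this; linarith⟩
    rwa [add_sub_cancel] at h3
  have hsub : s - ps τ n ∈ Ioc 0 (τ n) := by
    rw [ps_succ] at h2
    exact ⟨by linarith, by linarith⟩
  have htr : Tendsto (fun t : ℝ => t - ps τ n) (𝓝 s) (𝓝 (s - ps τ n)) :=
    (continuous_id.sub continuous_const).tendsto s
  have h3 : Tendsto (fun t => besG φ (fun x => u n (t - ps τ n) x i - u n (s - ps τ n) x i))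
      (𝓝 s) (𝓝 0) := (hreg n _ hsub i).comp htr
  have h4 := hval n s ⟨h1, h2⟩
  rcases h2.eq_or_lt with h5 | h5
  · rw [← nhdsLE_sup_nhdsGT, tendsto_sup]
    constructor
    · refine (h3.mono_left nhdsWithin_le_nhds).congr' ?_
      filter_upwards [Ioc_mem_nhdsLE h1] with t ht
      rw [hval n t ⟨ht.1, ht.2.trans h2⟩, h4]
    · have h6 : Tendsto (fun t => t - s) (𝓝[>] s) (𝓝[>] 0) := by
        have h7 := tr_right s 0
        rwa [zero_add] at h7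
      have hst : s - ps τ n = τ n := by
        rw [h5, ps_succ]
        ring
      refine ((hjun n i).comp h6).congr' ?_
      have h8 : s < ps τ (n + 1 + 1) := by
        rw [h5]
        exact ps_mono hτ (Nat.lt_succ_self _)
      filter_upwards [Ioo_mem_nhdsGT h8] with t ht
      show besG φ (fun x => u (n + 1) (t - s) x i - u n (τ n) x i) = _
      rw [hval (n + 1) t ⟨by rw [← h5]; exact ht.1, ht.2.le⟩, h4, hst, ← h5]
  · refine h3.congr' ?_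
    filter_upwards [Ioo_mem_nhds h1 h5] with t ht
    rw [hval n t ⟨ht.1, ht.2.le⟩, h4]

/-- The datum of the next piece is the value at the end of the last one. -/
theorem ba_jun {φ : ℝ → ℝ} {v : V → V} (hv : ∀ i, SP fun x => v x i) {u : ℝ → V → V}
    (h : Ba φ (vf v) u) (i : Fin 3) :
    Tendsto (fun t => besG φ (fun x => u t x i - v x i)) (𝓝[>] 0) (𝓝 0) := by
  refine (h i).congr fun t => ?_
  congr 1
  funext x
  have h1 : S (fun k => vf v k i) x = ((v x i : ℝ) : ℂ) := S_fr (hv i) x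
  rw [h1, Complex.ofReal_re]

/-- **The step**, with the Besov clause. -/
theorem stp_exB (hE : StmLocEB) {ν : ℝ} (hν : 0 < ν) {Q : ℕ → ℝ} (hQ : ∀ n, 1 ≤ Q n) {η : ℕ → ℝ}
    (hU : ∀ j : ℕ, ∀ (m : V) (w : ℝ → V → V), PathM m w → ∀ T ε : ℝ, 0 < T → 0 < ε →
      ∃ τ₀ : ℝ, 0 < τ₀ ∧ ∀ τ, 0 < τ → τ < τ₀ → ∀ s ∈ Icc 0 T, ∀ c : Cf, Herm c → Dv c →
      (∀ i, c 0 i = ((m i : ℝ) : ℂ)) → (Summable fun k => ‖c k‖) →
      ∀ (Z : Finset K3) (r : Mf), (∀ i j, ∀ k ∉ Z, r i j k = 0) → Sy r →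
      (∀ i, i ≤ j → rp (Q i) r ≤ η j) →
      (∀ A : Finset K3, ∑ k ∈ A, ‖c k - vf (w s) k - dvr r k‖ ≤ η j) →
      ∀ φ : ℝ → ℝ, Gauge φ → ∀ Φ : ℝ → ℝ, Orl Φ → ∀ δ : ℝ, 0 < δ →
      ∃ (τ' : ℝ) (u : ℝ → V → V) (p : ℝ → V → ℝ), τ < τ' ∧ Lc ν m w ε s τ c Q Φ δ τ' u p ∧
        Ba φ c u ∧
        ∀ i, i ≤ j → ∫⁻ t in Ioo 0 τ, (∫⁻ x in cube, ENNReal.ofReal (∑ j, |u t x j| ^ (2 * Q i)))
          ^ (2 / (2 * Q i)) ≤ ENNReal.ofReal ((1 / 2) ^ j))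
    {m : V} {g : ℕ → V → V} {ρ : ℕ → Mf} (hg : Tgs m Q η g ρ) {ε : ℕ → ℝ} (hε : ∀ j, 0 < ε j)
    (j : ℕ) : ∃ τ₀ : ℝ, 0 < τ₀ ∧ ∀ τ, 0 < τ → τ < τ₀ → ∀ D : Cf, Stg m η g j D →
      ∀ φ : ℝ → ℝ, Gauge φ → ∀ Φ : ℝ → ℝ, Orl Φ → ∀ δ : ℝ, 0 < δ →
      ∃ (τ' : ℝ) (u : ℝ → V → V) (p : ℝ → V → ℝ), τ < τ' ∧
        Lc ν m (fun _ => g j) (ε j) 0 τ D Q Φ δ τ' u p ∧ Ba φ D u ∧
        (1 ≤ j → ∀ i, i ≤ j → ∫⁻ t in Ioo 0 τ, (∫⁻ x in cube, ENNReal.ofReal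
          (∑ j, |u t x j| ^ (2 * Q i))) ^ (2 / (2 * Q i)) ≤ ENNReal.ofReal ((1 / 2) ^ j)) := by
  have h01 : (0 : ℝ) ∈ Icc (0 : ℝ) 1 := ⟨le_rfl, zero_le_one⟩
  rcases Nat.eq_zero_or_pos j with hj | hj
  · subst hj
    obtain ⟨τ₀, hτ₀, H⟩ := hE ν hν m (fun _ => g 0) (hg.path 0) 1 (ε 0) one_pos (hε 0)
    refine ⟨τ₀, hτ₀, fun τ hτ hττ D hD φ hφ Φ hΦ δ hδ => ?_⟩
    obtain ⟨R, hR1, hR2, hR3⟩ := exists_R' hD.herm hD.dv hD.sm hQ
    obtain ⟨τ', u, p, h1, h2, h3⟩ := H τ hτ hττ 0 h01 D hD.herm hD.dv hD.mean R hR1 hR2 Q hQ hR3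
      φ hφ Φ hΦ δ hδ
    exact ⟨τ', u, p, h1, h2, h3 hD.sm, fun h => absurd h (by norm_num)⟩
  · obtain ⟨i₀, rfl⟩ : ∃ i₀, j = i₀ + 1 := ⟨j - 1, by omega⟩
    obtain ⟨τ₀, hτ₀, H⟩ := hU (i₀ + 1) m (fun _ => g (i₀ + 1)) (hg.path _) 1 (ε (i₀ + 1)) one_pos
      (hε _)
    refine ⟨τ₀, hτ₀, fun τ hτ hττ D hD φ hφ Φ hΦ δ hδ => ?_⟩
    obtain ⟨Z, hZ⟩ := hg.supp i₀
    obtain ⟨τ', u, p, h1, h2, h3, h4⟩ := H τ hτ hττ 0 h01 D hD.herm hD.dv hD.mean hD.sm Z (ρ i₀) hZ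
      (hg.sy i₀) (fun i hi => hg.small i₀ i hi) (fun A => by
        refine le_trans (le_of_eq (Finset.sum_congr rfl fun k _ => ?_)) (hD.near i₀ rfl A)
        rw [← hg.dif i₀ k]
        congr 1
        abel) φ hφ Φ hΦ δ hδ
    exact ⟨τ', u, p, h1, h2, h3, fun _ => h4⟩

end Pool.Agent.Run7.h969.HP
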