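import Pool.Agent.Run7.h969.HP.RchB1

/-!
Piece ReachB: following a path by finitely many steps, then reaching the target; with continuity in
the critical Besov spaces.
-/

set_option autoImplicit false

open MeasureTheory Set Filter Topology
open scoped ContDiff ENNReal ComplexConjugate

namespace Pool.Agent.Run7.h969.HP

open H459R3.NS Pool.Agent.Run7.h782 Pool.Agent.Run7.h782.GD Pool.Agent.Run7.h782.GS
open Pool.Agent.Run7.h782.WS Pool.Agent.Run7.h782.WQ Pool.Agent.Run7.h744.WS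
open Pool.Agent.Run7.h969.WS Pool.Agent.Run7.h782.OS Pool.Agent.Run7.h219.OS
open Pool.Agent.Run7.h219.HP Pool.Agent.Run7.h782.HP

/-- The data of the step `n`: the steps `n < N` follow the path, the steps `N + j` go to `g j`. -/
structure Sta (m : V) (c : Cf) (N : ℕ) (η : ℕ → ℝ) (g : ℕ → V → V) (n : ℕ) (D : Cf) : Prop where
  herm : Herm D
  dv : Dv D
  mean : ∀ i, D 0 i = ((m i : ℝ) : ℂ)
  ini : n = 0 → D = c
  sm : 1 ≤ n → Summable fun k => ‖D k‖
  near : ∀ j, n = N + (j + 1) → ∀ A : Finset K3, ∑ k ∈ A, ‖D k - vf (g j) k‖ ≤ η (j + 1)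

theorem hasSum_half {a : ℝ} : HasSum (fun j : ℕ => a * (1 / 2 : ℝ) ^ (j + 1)) a := by
  have h1 : HasSum (fun j : ℕ => (1 / 2 : ℝ) ^ (j + 1)) 1 := by
    have h2 := (hasSum_geometric_of_lt_one (show (0 : ℝ) ≤ 1 / 2 by norm_num)
      (by norm_num)).mul_right (1 / 2)
    have e : (1 - 1 / 2 : ℝ)⁻¹ * (1 / 2) = 1 := by norm_num
    rw [e] at h2
    exact h2.congr_fun fun j => (pow_succ _ _)
  have h3 := h1.mul_left a
  rwa [mul_one] at h3

theorem sw_hasSum {N : ℕ} {a s : ℝ} {y : ℕ → ℝ} (h : HasSum y s) :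
    HasSum (sw N (fun _ => a) y) (N * a + s) := by
  rw [← hasSum_nat_add_iff' N]
  have e : N * a + s - ∑ i ∈ Finset.range N, sw N (fun _ => a) y i = s := by
    rw [Finset.sum_congr rfl fun i hi => sw_lt (fun _ => a) y (Finset.mem_range.1 hi),
      Finset.sum_const, Finset.card_range, nsmul_eq_mul]
    ring
  rw [e]
  exact h.congr_fun fun j => sw_add' N _ _ j

/-- **Piece ReachB.** -/
theorem reachB (hE : StmLocEB) (hU : StmLocUB) (hBR : StmBReg2) (hPL : StmPcL) (hInf : StmInf)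
    (hD1 : StmD1S) : StmReachB := by
  intro ν hν T hT m w hw c c₁ hc hm hc₁ hm₁ Q hQ hR hR₁ φ hφ Φ hΦ ε hε
  choose η₀ hη₀ hU' using fun j : ℕ => hU ν hν Q hQ j ((1 / 2) ^ j) (by positivity)
  set η : ℕ → ℝ := fun j => min (η₀ j) ((1 / 2) ^ j) with hηd
  have hη : ∀ j, 0 < η j := fun j => lt_min (hη₀ j) (by positivity)
  have hηh : ∀ j, η j ≤ (1 / 2) ^ j := fun j => min_le_right _ _
  have hU2 : ∀ j : ℕ, ∀ (m : V) (w : ℝ → V → V), PathM m w → ∀ T ε : ℝ, 0 < T → 0 < ε →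
      ∃ τ₀ : ℝ, 0 < τ₀ ∧ ∀ τ, 0 < τ → τ < τ₀ → ∀ s ∈ Icc 0 T, ∀ c : Cf, Herm c → Dv c →
      (∀ i, c 0 i = ((m i : ℝ) : ℂ)) → (Summable fun k => ‖c k‖) →
      ∀ (Z : Finset K3) (r : Mf), (∀ i j, ∀ k ∉ Z, r i j k = 0) → Sy r →
      (∀ i, i ≤ j → rp (Q i) r ≤ η j) →
      (∀ A : Finset K3, ∑ k ∈ A, ‖c k - vf (w s) k - dvr r k‖ ≤ η j) →
      ∀ φ : ℝ → ℝ, Gauge φ → ∀ Φ : ℝ → ℝ, Orl Φ → ∀ δ : ℝ, 0 < δ →
      ∃ (τ' : ℝ) (u : ℝ → V → V) (p : ℝ → V → ℝ), τ < τ' ∧ Lc ν m w ε s τ c Q Φ δ τ' u p ∧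
        Ba φ c u ∧
        ∀ i, i ≤ j → ∫⁻ t in Ioo 0 τ, (∫⁻ x in cube, ENNReal.ofReal (∑ j, |u t x j| ^ (2 * Q i)))
          ^ (2 / (2 * Q i)) ≤ ENNReal.ofReal ((1 / 2) ^ j) := by
    intro j m w hw T ε hT hε
    obtain ⟨τ₀, h0, H⟩ := hU' j m w hw T ε hT hε
    exact ⟨τ₀, h0, fun τ hτ hττ s hs c h1 h2 h3 h4 Z r h5 h6 h7 h8 φ hφ Φ hΦ δ hδ =>
      H τ hτ hττ s hs c h1 h2 h3 h4 Z r h5 h6 (fun i hi => (h7 i hi).trans (min_le_left _ _))
        (fun A => (h8 A).trans (min_le_left _ _)) φ hφ Φ hΦ δ hδ⟩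
  obtain ⟨g, ρ, hg, hlim, C, hC⟩ := tgs_ex hD1 m hc₁ hm₁ hQ hR₁ hη
  set ε' : ℕ → ℝ := fun j => min (1 / 2) (η (j + 1) / 2) with hε'd
  have hε' : ∀ j, 0 < ε' j := fun j => lt_min (by norm_num) (half_pos (hη _))
  have hε'η : ∀ j, ε' j ≤ η (j + 1) / 2 := fun j => min_le_right _ _
  choose τ₀ hτ₀ hstp using stp_exB hE hν hQ hU2 hg hε'
  -- bounds
  choose Gb hGb0 hGb using fun j => bdd_path (hg.path j) 1
  obtain ⟨W, hW0, hW⟩ := bdd_path hw T
  set B : ℕ → ℝ := fun j => ε' j + Gb j + W with hBd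
  have hB : ∀ j, 0 ≤ B j := fun j => by
    have := (hε' j).le
    have := hGb0 j
    simp only [hBd]
    positivity
  have hΦB : ∀ j, 0 ≤ Φ (2 * B j) := fun j => hΦ.nonneg _ (by have := hB j; positivity)
  set β : ℕ → ℝ := fun j =>
    min (τ₀ j) (min (T * (1 / 2) ^ (j + 1)) (ε * (1 / 2) ^ (j + 3) / (Φ (2 * B j) + 1))) with hβd
  have hβ : ∀ j, 0 < β j := fun j => by
    have := hΦB j
    exact lt_min (hτ₀ j) (lt_min (by positivity) (by positivity))
  have hβτ : ∀ j, β j ≤ τ₀ j := fun j => min_le_left _ _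
  have hβT : ∀ j, β j ≤ T * (1 / 2) ^ (j + 1) := fun j =>
    (min_le_right _ _).trans (min_le_left _ _)
  have hβB : ∀ j, β j * Φ (2 * B j) ≤ ε * (1 / 2) ^ (j + 3) := fun j => by
    have h1 : β j ≤ ε * (1 / 2) ^ (j + 3) / (Φ (2 * B j) + 1) :=
      (min_le_right _ _).trans (min_le_right _ _)
    have h2 := hΦB j
    rw [le_div_iff₀ (by positivity)] at h1
    nlinarith [hβ j]
  have hgeo : HasSum (fun j : ℕ => T * (1 / 2 : ℝ) ^ (j + 1)) T := hasSum_half
  have hβs : Summable β := Summable.of_nonneg_of_le (fun j => (hβ j).le) hβT hgeo.summable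
  set σ : ℝ := ∑' j, β j with hσd
  have hσ : 0 < σ := hβs.tsum_pos (fun j => (hβ j).le) 0 (hβ 0)
  have hσT : σ ≤ T := by
    rw [← hgeo.tsum_eq]
    exact hβs.tsum_le_tsum hβT hgeo.summable
  -- the lengths of the last steps
  set τb : ℕ → ℝ := fun j => 1 / 2 * β j with hτbd
  have hτb : ∀ j, 0 < τb j := fun j => mul_pos (by norm_num) (hβ j)
  have hτβ : ∀ j, τb j < β j := fun j => by
    have := hβ j
    simp only [hτbd]
    linarith
  have hττ : ∀ j, τb j < τ₀ j := fun j => (hτβ j).trans_le (hβτ j)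
  have hτbs : HasSum τb (1 / 2 * σ) := hβs.hasSum.mul_left _
  set δb : ℕ → ℝ := fun j => min (τb j) (min (η (j + 1) / 2) (ε * (1 / 2) ^ (j + 3))) with hδbd
  have hδb : ∀ j, 0 < δb j := fun j => lt_min (hτb j) (lt_min (half_pos (hη _)) (by positivity))
  have hδτ : ∀ j, δb j ≤ τb j := fun j => min_le_left _ _
  have hδη : ∀ j, δb j ≤ η (j + 1) / 2 := fun j => (min_le_right _ _).trans (min_le_left _ _)
  have hδε : ∀ j, δb j ≤ ε * (1 / 2) ^ (j + 3) := fun j =>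
    (min_le_right _ _).trans (min_le_right _ _)
  set Ta : ℝ := T - 1 / 2 * σ with hTad
  have hTa : 0 < Ta := by rw [hTad]; linarith
  have hTaT : Ta < T := by rw [hTad]; linarith
  -- the steps along the path
  obtain ⟨ε₁, hε₁, hε₁Φ⟩ : ∃ ε₁ : ℝ, 0 < ε₁ ∧ T * Φ (2 * ε₁) ≤ ε / 4 := by
    have hΦ1 : 0 ≤ Φ 1 := hΦ.nonneg 1 zero_le_one
    set s : ℝ := min 1 (ε / (4 * T * (Φ 1 + 1))) with hs
    have hs0 : 0 < s := lt_min one_pos (by positivity)
    have hs1 : s ≤ 1 := min_le_left _ _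
    refine ⟨s / 2, by positivity, ?_⟩
    have h1 := hΦ.scale hs0.le hs1 (zero_le_one (α := ℝ))
    have h2 : s ≤ ε / (4 * T * (Φ 1 + 1)) := min_le_right _ _
    rw [le_div_iff₀ (by positivity)] at h2
    have e : 2 * (s / 2) = s * 1 := by ring
    rw [e]
    have h3 : T * Φ (s * 1) ≤ T * (s * Φ 1) := mul_le_mul_of_nonneg_left h1 hT.le
    nlinarith
  obtain ⟨τw, hτw, hstep⟩ := hE ν hν m w hw T ε₁ hT hε₁
  obtain ⟨N, hN⟩ := exists_nat_gt (Ta / τw)
  have hNr : (0 : ℝ) < N := (div_pos hTa hτw).trans hN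
  have hN0 : 0 < N := by exact_mod_cast hNr
  set a : ℝ := Ta / N with had
  have ha : 0 < a := div_pos hTa hNr
  have hNa : N * a = Ta := by rw [had]; field_simp
  have haτ : a < τw := by
    rw [had, div_lt_iff₀ hNr]
    rwa [div_lt_iff₀ hτw, mul_comm] at hN
  -- the sequences
  set τs : ℕ → ℝ := sw N (fun _ => a) τb with hτsd
  set δs : ℕ → ℝ := sw N (fun _ => ε / (4 * N)) δb with hδsd
  set κ : ℕ → ℝ := sw N (fun _ => ε / (4 * N)) (fun j => ε * (1 / 2) ^ (j + 3)) with hκd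
  set ws : ℕ → ℝ → V → V := sw N (fun _ => w) (fun j _ => g j) with hwsd
  set ss : ℕ → ℝ := sw N (fun n => n * a) (fun _ => 0) with hssd
  set εs : ℕ → ℝ := sw N (fun _ => ε₁) ε' with hεsd
  set Bs : ℕ → ℝ := sw N (fun _ => ε₁) B with hBsd
  have hτs : ∀ n, 0 < τs n := sw_forall (fun _ => ha) hτb
  have hsum : HasSum τs T := by
    have h1 := sw_hasSum (N := N) (a := a) hτbs
    have e : N * a + 1 / 2 * σ = T := by rw [hNa, hTad]; ring
    rwa [e] at h1
  have hpsn : ∀ n, n < N → ∑ i ∈ Finset.range n, τs i = n * a := by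
    intro n hn
    rw [Finset.sum_congr rfl fun i hi => sw_lt (fun _ => a) τb
      ((Finset.mem_range.1 hi).trans hn), Finset.sum_const, Finset.card_range, nsmul_eq_mul]
  have hΦ₂ := hΦ.dilate two_pos
  obtain ⟨D, hD0, hDP, hDR⟩ := exists_rec' (X := Cf) (Sta m c N η g)
    (fun n D D' => ∃ (τ' : ℝ) (u : ℝ → V → V) (p : ℝ → V → ℝ), τs n < τ' ∧
      Lc ν m (ws n) (εs n) (ss n) (τs n) D Q (fun x => Φ (2 * x)) (δs n) τ' u p ∧
      D' = vf (u (τs n)) ∧ (1 ≤ n → Ba φ D u) ∧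
      (∀ j, n = N + (j + 1) → ∀ i, i ≤ j + 1 → ∫⁻ t in Ioo 0 (τs n), (∫⁻ x in cube,
        ENNReal.ofReal (∑ j, |u t x j| ^ (2 * Q i))) ^ (2 / (2 * Q i))
          ≤ ENNReal.ofReal ((1 / 2) ^ (j + 1))))
    c ⟨hc.herm, hc.dv, hm, fun _ => rfl, fun h => absurd h (by norm_num),
      fun j hj => absurd hj (by omega)⟩
    (fun n D hD => by
      rcases sw_cases N n with hn | ⟨j, rfl⟩
      · -- along the path
        have e1 : τs n = a := sw_lt _ _ hn
        have e2 : ws n = w := sw_lt _ _ hn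
        have e3 : εs n = ε₁ := sw_lt _ _ hn
        have e4 : ss n = n * a := sw_lt _ _ hn
        have e5 : δs n = ε / (4 * N) := sw_lt _ _ hn
        have hna : (n : ℝ) * a ∈ Icc 0 T := by
          have h1 : (n : ℝ) ≤ N := by exact_mod_cast hn.le
          exact ⟨by positivity, by nlinarith⟩
        obtain ⟨R, hR1, hR2, hR3⟩ : ∃ R : Fin 3 → Fin 3 → V → ℝ, Str R ∧ IsDiv R D ∧
            ∀ n i j, IntegrableOn (fun x => |R i j x| ^ Q n) cube := by
          rcases Nat.eq_zero_or_pos n with h0 | h0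
          · rw [hD.ini h0]
            exact hR
          · exact exists_R' hD.herm hD.dv (hD.sm h0) hQ
        obtain ⟨τ', u, p, h1, h2, h3⟩ := hstep a ha haτ (n * a) hna D hD.herm hD.dv hD.mean R hR1
          hR2 Q hQ hR3 φ hφ _ hΦ₂ (ε / (4 * N)) (by positivity)
        have hmem : a ∈ Ioo 0 τ' := ⟨ha, h1⟩
        obtain ⟨a1, a2, a3, a4⟩ := stg_data h2.sol hmem (h2.mean a ⟨ha, le_rfl⟩)
        refine ⟨vf (u a), ⟨a1, a2, a3, fun h => absurd h (by omega), fun _ => a4,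
          fun j hj => absurd hj (by omega)⟩, τ', u, p, ?_⟩
        rw [e1, e2, e3, e4, e5]
        exact ⟨h1, h2, rfl, fun h0 => h3 (hD.sm h0), fun j hj => absurd hj (by omega)⟩
      · -- to the targets
        have e1 : τs (N + j) = τb j := sw_add _ _ _ _
        have e2 : ws (N + j) = fun _ => g j := sw_add _ _ _ _
        have e3 : εs (N + j) = ε' j := sw_add _ _ _ _
        have e4 : ss (N + j) = 0 := sw_add _ _ _ _
        have e5 : δs (N + j) = δb j := sw_add _ _ _ _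
        have hst : Stg m η g j D := ⟨hD.herm, hD.dv, hD.mean, hD.sm (by omega), fun i hi A => by
          subst hi
          exact hD.near i rfl A⟩
        obtain ⟨τ', u, p, h1, h2, h3, h4⟩ := hstp j (τb j) (hτb j) (hττ j) D hst φ hφ _ hΦ₂ (δb j)
          (hδb j)
        have hmem : τb j ∈ Ioo 0 τ' := ⟨hτb j, h1⟩
        obtain ⟨a1, a2, a3, a4⟩ := stg_data h2.sol hmem (h2.mean (τb j) ⟨hτb j, le_rfl⟩)
        refine ⟨vf (u (τb j)), ⟨a1, a2, a3, fun h => absurd h (by omega), fun _ => a4,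
          fun i hi A => ?_⟩, τ', u, p, ?_⟩
        · have e : i = j := by omega
          subst e
          have h4 := h2.close (τb i) ⟨hτb i, le_rfl⟩ (hδτ i) A
          have h5 := hε'η i
          have h6 := hδη i
          exact h4.trans (by linarith)
        · rw [e1, e2, e3, e4, e5]
          refine ⟨h1, h2, rfl, fun _ => h3, fun i hi => ?_⟩
          have e : j = i + 1 := by omega
          subst e
          exact h4 (by omega))
  choose τ' u p h1 h2 h3 h4 h5 using hDR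
  choose hj hj0 hj1 hj2 using fun n => (h2 n).near
  -- the pieces
  have hPc : ∀ n, Pc ν Q (D n) (τs n) ((fun _ => ∅ : ℕ → Finset ℝ) n) (u n) (p n) := fun n =>
    hPL ν hν m _ _ _ _ _ Q _ _ _ _ _ (hτs n) (h1 n) (h2 n)
  have hfin : ∀ i, ∑' n, ∫⁻ t in Ioo 0 (τs n), (∫⁻ x in cube, ENNReal.ofReal
      (∑ j, |u n t x j| ^ (2 * Q i))) ^ (2 / (2 * Q i)) ≠ ⊤ := by
    intro i
    refine tsum_ne_top' (N := N + i + 1) (g := fun n => ENNReal.ofReal (2 ^ N * (1 / 2) ^ n))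
      (fun n => (hPc n).lq i) (fun n hn => ?_) ?_
    · obtain ⟨j, rfl⟩ : ∃ j, n = N + (j + 1) := ⟨n - N - 1, by omega⟩
      refine (h5 _ j rfl i (by omega)).trans (le_of_eq ?_)
      congr 1
      rw [pow_add (1 / 2 : ℝ) N (j + 1), ← mul_assoc, ← mul_pow]
      norm_num
    · rw [← ENNReal.ofReal_tsum_of_nonneg (fun j => by positivity)
        ((summable_geometric_of_lt_one (by norm_num) (by norm_num)).mul_left _)]
      exact ENNReal.ofReal_ne_top
  -- the limit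
  have hDg : ∀ n k, ‖D (N + (n + 1)) k - vf (g n) k‖ ≤ (1 / 2) ^ (n + 1) := fun n k => by
    have h5 := (hDP (N + (n + 1))).near n rfl {k}
    rw [Finset.sum_singleton] at h5
    exact h5.trans (hηh _)
  have hDl : ∀ k, Tendsto (fun n => D (N + (n + 1)) k) atTop (𝓝 (c₁ k)) := by
    intro k
    have h5 : Tendsto (fun n => D (N + (n + 1)) k - vf (g n) k) atTop (𝓝 0) := by
      rw [tendsto_zero_iff_norm_tendsto_zero]
      refine squeeze_zero (fun _ => norm_nonneg _) (fun n => hDg n k) ?_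
      exact (tendsto_add_atTop_iff_nat 1).2
        (tendsto_pow_atTop_nhds_zero_of_lt_one (by norm_num) (by norm_num))
    have h6 := h5.add (hlim k)
    rw [zero_add] at h6
    refine h6.congr fun n => ?_
    abel
  have hDb : ∀ n k, ‖D (N + (n + 1)) k‖ ≤ (C + 1) * (1 + len k) ^ 1 := by
    intro n k
    have h5 := norm_add_le (vf (g n) k) (D (N + (n + 1)) k - vf (g n) k)
    rw [add_sub_cancel] at h5
    have h6 : ((1 : ℝ) / 2) ^ (n + 1) ≤ 1 := pow_le_one₀ (by norm_num) (by norm_num)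
    have h7 := hDg n k
    have h8 := hC n k
    have h9 := GD.len_nonneg k
    rw [pow_one] at h8 ⊢
    nlinarith
  have hpr : ∀ (i : Fin 3) (ψ : V → ℝ), ContDiff ℝ ∞ ψ → Per ψ →
      Tendsto (fun n => pr (D n) i ψ) atTop (𝓝 (pr c₁ i ψ)) := by
    intro i ψ hψ hp
    rw [← tendsto_add_atTop_iff_nat (N + 1)]
    refine (pr_lim hDb hDl ⟨hψ, hp⟩ i).congr fun n => ?_
    rw [show N + (n + 1) = n + (N + 1) by omega]
  obtain ⟨F', v, q, hRch, hv⟩ := hInf ν hν Q hQ D τs (fun _ => ∅) u p hPc h3 T hsum hfin c₁ hpr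
  rw [hD0] at hRch
  refine ⟨F', v, q, hRch, fun s hs => ?_, ?_⟩
  · refine bc_glue (φ := φ) hτs hsum hv (fun n s hs => ?_) (fun n i => ?_) hs
    · exact hBR φ hφ ν 0 (τ' n) (u n) (p n) (h2 n).sol s ⟨hs.1, lt_of_le_of_lt hs.2 (h1 n)⟩
    · have h6 := h4 (n + 1) (by omega)
      rw [h3 n] at h6
      exact ba_jun (fun j => sp_o (h2 n).sol ⟨hτs n, h1 n⟩ j) h6 i
  -- the distance to the path
  set Hs : ℕ → ℝ → ℝ := fun n t => Bs n + hj n t with hHs
  have hBs0 : ∀ n, 0 ≤ Bs n := sw_forall (fun _ => hε₁.le) hB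
  have hHs0 : ∀ n t, 0 ≤ Hs n t := fun n t => add_nonneg (hBs0 n) (hj0 n t)
  have hbd : ∀ n, ∀ s ∈ Ioc 0 (τs n), ∀ x i,
      |u n s x i - w ((∑ i ∈ Finset.range n, τs i) + s) x i| ≤ Hs n s := by
    intro n s hs x i
    have a1 := hj1 n s hs x i
    rcases sw_cases N n with hn | ⟨j, rfl⟩
    · have e2 : ws n = w := sw_lt _ _ hn
      have e3 : εs n = ε₁ := sw_lt _ _ hn
      have e4 : ss n = n * a := sw_lt _ _ hn
      have e5 : Bs n = ε₁ := sw_lt _ _ hn
      rw [e2, e3, e4] at a1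
      rw [hpsn n hn]
      show _ ≤ Bs n + hj n s
      rw [e5]
      exact a1
    · have e2 : ws (N + j) = fun _ => g j := sw_add _ _ _ _
      have e3 : εs (N + j) = ε' j := sw_add _ _ _ _
      have e5 : Bs (N + j) = B j := sw_add _ _ _ _
      rw [e2, e3] at a1
      have hm1 := part_le hτs hsum (n := N + j) hs
      have a2 := hGb j 0 ⟨le_rfl, zero_le_one⟩ x i
      have a3 := hW _ hm1 x i
      show _ ≤ Bs (N + j) + hj (N + j) s
      rw [e5]
      have e : u (N + j) s x i - w ((∑ i ∈ Finset.range (N + j), τs i) + s) x i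
          = (u (N + j) s x i - g j x i) + g j x i
            - w ((∑ i ∈ Finset.range (N + j), τs i) + s) x i := by
        ring
      rw [e]
      refine (abs_sub _ _).trans ?_
      have a4 := abs_add_le (u (N + j) s x i - g j x i) (g j x i)
      have e2 : B j = ε' j + Gb j + W := rfl
      rw [e2]
      linarith
  have hpt : ∀ t ∈ Ioo 0 T, ∃ n, ∃ s ∈ Ioc 0 (τs n), t = (∑ i ∈ Finset.range n, τs i) + s ∧
      ∀ x i, |v t x i - w t x i| ≤ Hs n s := by
    intro t ht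
    obtain ⟨n, s, hs, rfl⟩ := cover hsum ht
    refine ⟨n, s, hs, rfl, fun x i => ?_⟩
    rw [hv n s hs]
    exact hbd n s hs x i
  set h : ℝ → ℝ := fun t => ⨆ z : V × Fin 3, |v t z.1 z.2 - w t z.1 z.2| with hh
  have hnn : ∀ t, 0 ≤ h t := fun t => Real.iSup_nonneg fun _ => abs_nonneg _
  have hle : ∀ n, ∀ s ∈ Ioc 0 (τs n), h ((∑ i ∈ Finset.range n, τs i) + s) ≤ Hs n s := by
    intro n s hs
    refine Real.iSup_le (fun z => ?_) (hHs0 n s)
    rw [hv n s hs]
    exact hbd n s hs z.1 z.2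
  refine ⟨h, hnn, fun t ht x i => ?_, ?_⟩
  · obtain ⟨n, s, -, -, hb⟩ := hpt t ht
    exact le_ciSup (f := fun z : V × Fin 3 => |v t z.1 z.2 - w t z.1 z.2|)
      ⟨Hs n s, by rintro _ ⟨z, rfl⟩; exact hb z.1 z.2⟩ (x, i)
  · refine (lint_pieces hsum (fun t => ENNReal.ofReal (Φ (h t)))
      (fun n s => ENNReal.ofReal (Φ (Hs n s)))
      fun n s hs => ENNReal.ofReal_le_ofReal (hΦ.mono (hnn _) (hle n s hs))).trans ?_
    have hκ0 : ∀ n, 0 ≤ κ n := sw_forall (fun _ => by positivity) fun j => by positivity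
    have b1 : ∀ n, τs n * Φ (2 * Bs n) ≤ κ n := by
      intro n
      rcases sw_cases N n with hn | ⟨j, rfl⟩
      · have e1 : τs n = a := sw_lt _ _ hn
        have e2 : Bs n = ε₁ := sw_lt _ _ hn
        have e3 : κ n = ε / (4 * N) := sw_lt _ _ hn
        rw [e1, e2, e3, had, div_mul_eq_mul_div, div_le_div_iff₀ hNr (by positivity)]
        have h6 : 0 ≤ Φ (2 * ε₁) := hΦ.nonneg _ (by positivity)
        have h7 : Ta * Φ (2 * ε₁) ≤ ε / 4 := (mul_le_mul_of_nonneg_right hTaT.le h6).trans hε₁Φ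
        nlinarith
      · have e1 : τs (N + j) = τb j := sw_add _ _ _ _
        have e2 : Bs (N + j) = B j := sw_add _ _ _ _
        have e3 : κ (N + j) = ε * (1 / 2) ^ (j + 3) := sw_add _ _ _ _
        rw [e1, e2, e3]
        exact le_trans (mul_le_mul_of_nonneg_right (hτβ j).le (hΦB j)) (hβB j)
    have b2 : ∀ n, δs n ≤ κ n := by
      intro n
      rcases sw_cases N n with hn | ⟨j, rfl⟩
      · have e1 : δs n = ε / (4 * N) := sw_lt _ _ hn
        have e3 : κ n = ε / (4 * N) := sw_lt _ _ hn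
        rw [e1, e3]
      · have e1 : δs (N + j) = δb j := sw_add _ _ _ _
        have e3 : κ (N + j) = ε * (1 / 2) ^ (j + 3) := sw_add _ _ _ _
        rw [e1, e3]
        exact hδε j
    have b3 : ∀ n, ∫⁻ s in Ioc 0 (τs n), ENNReal.ofReal (Φ (Hs n s))
        ≤ ENNReal.ofReal (2 * κ n) := fun n =>
      near_pc hΦ (hBs0 n) (hτs n) (hκ0 n) (b1 n) (hj0 n)
        ((hj2 n).trans (ENNReal.ofReal_le_ofReal (b2 n)))
    have b4 : HasSum (fun n => 2 * κ n) ε := by
      have b5 : HasSum (fun j : ℕ => ε * (1 / 2 : ℝ) ^ (j + 3)) (ε / 4) := by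
        refine (hasSum_half (a := ε / 4)).congr_fun fun j => ?_
        rw [show j + 3 = j + 1 + 2 by omega, pow_add]
        ring
      have b6 := (sw_hasSum (N := N) (a := ε / (4 * N)) b5).mul_left 2
      have e : 2 * (N * (ε / (4 * N)) + ε / 4) = ε := by
        field_simp
        ring
      rwa [e] at b6
    calc _ ≤ ∑' n, ENNReal.ofReal (2 * κ n) := ENNReal.tsum_le_tsum b3
      _ = ENNReal.ofReal ε := by
          rw [← ENNReal.ofReal_tsum_of_nonneg (fun n => by have := hκ0 n; positivity) b4.summable,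
            b4.tsum_eq]

end Pool.Agent.Run7.h969.HP
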