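import Pool.Agent.Run7.h969.HP.RchE
import Pool.Agent.Run7.h782.HP.DefsF
import Pool.Agent.Run7.h782.HP.BReg

/-!
Piece ReachF, part 1: the triangle inequality for `besG φ`, the targets and the step.
-/

set_option autoImplicit false

open MeasureTheory Set Filter Topology
open scoped ContDiff ENNReal ComplexConjugate

namespace Pool.Agent.Run7.h969.HP

open H459R3.NS Pool.Agent.Run7.h782 Pool.Agent.Run7.h782.GD Pool.Agent.Run7.h782.GS
open Pool.Agent.Run7.h782.WS Pool.Agent.Run7.h782.WQ Pool.Agent.Run7.h744.WS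
open Pool.Agent.Run7.h969.WS Pool.Agent.Run7.h782.OS Pool.Agent.Run7.h219.OS
open Pool.Agent.Run7.h219.HP Pool.Agent.Run7.h782.HP Pool.Agent.Run7.h811.WS

/-- The triangle inequality. -/
theorem besG_tri {φ : ℝ → ℝ} (h : Gauge φ) {f g : V → ℝ} (hf : Summable fun k => ‖fr f k‖)
    {c : K3 → ℝ} (hc0 : ∀ k, 0 ≤ c k) (hc : Summable c) (hd : ∀ k, ‖fr g k - fr f k‖ ≤ c k) :
    besG φ g ≤ besG (fun x => φ (2 * x)) f + besGC (fun x => φ (2 * x)) c := by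
  have hds : Summable fun k => ‖fr g k - fr f k‖ :=
    Summable.of_nonneg_of_le (fun _ => norm_nonneg _) hd hc
  unfold besG besGC
  rw [← lintegral_add_right' _ (besGC_aemeas (gg_double h) hc0 hc)]
  refine setLIntegral_mono_ae' measurableSet_Ioi (Eventually.of_forall fun s hs' => ?_)
  have hs0 : (0 : ℝ) < s := hs'
  rw [← ENNReal.add_div]
  refine ENNReal.div_le_div_right (iSup_le fun x => ?_) _
  have hsm : ∀ (d : K3 → ℂ), (Summable fun k => ‖d k‖) → Summable fun k =>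
      ((Real.exp (-(4 * Real.pi ^ 2 * h782.GD.sq k * s)) : ℂ) * d k * ee k x) := fun d hd => by
    refine Summable.of_norm (Summable.of_nonneg_of_le (fun _ => norm_nonneg _) (fun k => ?_) hd)
    rw [norm_mul, norm_ee, mul_one, norm_mul, Complex.norm_real,
      Real.norm_of_nonneg (Real.exp_pos _).le]
    exact mul_le_of_le_one_left (norm_nonneg _) (h32.GD.hm_le_one hs0.le k)
  have e1 : heat s g x = heat s f x
      + (∑' k : K3, (Real.exp (-(4 * Real.pi ^ 2 * h782.GD.sq k * s)) : ℂ) * (fr g k - fr f k)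
        * ee k x).re := by
    unfold heat
    rw [← Complex.add_re, ← (hsm _ hf).tsum_add (hsm _ hds)]
    congr 1
    exact tsum_congr fun k => by ring
  have h3 : |(∑' k : K3, (Real.exp (-(4 * Real.pi ^ 2 * h782.GD.sq k * s)) : ℂ)
      * (fr g k - fr f k) * ee k x).re| ≤ ∑' k, ht s k * c k := by
    refine (Complex.abs_re_le_norm _).trans ?_
    have e : ∀ k, ‖(Real.exp (-(4 * Real.pi ^ 2 * h782.GD.sq k * s)) : ℂ) * (fr g k - fr f k)
        * ee k x‖ = ht s k * ‖fr g k - fr f k‖ := fun k => by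
      rw [norm_mul, norm_ee, mul_one, norm_mul, Complex.norm_real,
        Real.norm_of_nonneg (Real.exp_pos _).le]
      rfl
    have hs1 : Summable fun k => ht s k * ‖fr g k - fr f k‖ :=
      Summable.of_nonneg_of_le (fun k => mul_nonneg (ht_pos s k).le (norm_nonneg _))
        (fun k => mul_le_of_le_one_left (norm_nonneg _) (h32.GD.hm_le_one hs0.le k)) hds
    have hs2 : Summable fun k => ht s k * c k :=
      Summable.of_nonneg_of_le (fun k => mul_nonneg (ht_pos s k).le (hc0 k))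
        (fun k => mul_le_of_le_one_left (hc0 k) (h32.GD.hm_le_one hs0.le k)) hc
    refine (norm_tsum_le_tsum_norm (by simp_rw [e]; exact hs1)).trans ?_
    simp_rw [e]
    exact hs1.tsum_le_tsum (fun k => mul_le_mul_of_nonneg_left (hd k) (ht_pos s k).le) hs2
  have h4 : |heat s g x| ≤ |heat s f x| + ∑' k, ht s k * c k := by
    rw [e1]
    exact (abs_add_le _ _).trans (add_le_add le_rfl h3)
  have h5 : ENNReal.ofReal (φ (2 * (Real.sqrt s * |heat s f x|)))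
      ≤ ⨆ x, ENNReal.ofReal (φ (2 * (Real.sqrt s * |heat s f x|))) :=
    le_iSup (fun x => ENNReal.ofReal (φ (2 * (Real.sqrt s * |heat s f x|)))) x
  refine le_trans ?_ (add_le_add h5 le_rfl)
  rw [← ENNReal.ofReal_add (h.nonneg _ (by positivity))
    (h.nonneg _ (mul_nonneg zero_le_two (heat_sum_nonneg hc0 s)))]
  refine ENNReal.ofReal_le_ofReal ?_
  refine (gg_mono h (mul_nonneg (Real.sqrt_nonneg s) (abs_nonneg (heat s g x)))
    (mul_le_mul_of_nonneg_left h4 (Real.sqrt_nonneg s))).trans ?_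
  rw [mul_add]
  exact gg_add h (mul_nonneg (Real.sqrt_nonneg s) (abs_nonneg _)) (heat_sum_nonneg hc0 s)

theorem besG_dbl {φ : ℝ → ℝ} (h : Gauge φ) (f : V → ℝ) :
    besG φ f ≤ besG (fun x => φ (2 * x)) f := by
  unfold besG
  refine lintegral_mono fun s => ENNReal.div_le_div_right (iSup_mono fun x => ?_) _
  have h0 : 0 ≤ Real.sqrt s * |heat s f x| := mul_nonneg (Real.sqrt_nonneg s) (abs_nonneg _)
  exact ENNReal.ofReal_le_ofReal (gg_mono h h0 (by linarith))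

theorem ba_dbl {φ : ℝ → ℝ} (h : Gauge φ) {c : Cf} {u : ℝ → V → V}
    (hb : Ba (fun x => φ (2 * x)) c u) : Ba φ c u := fun i =>
  tendsto_of_tendsto_of_tendsto_of_le_of_le tendsto_const_nhds (hb i) (fun _ => bot_le)
    fun _ => besG_dbl h _

/-- The targets, which converge in the absolute sum if the final value is absolutely summable. -/
theorem tgs_exF (hD1 : StmD1S) (m : V) {c₁ : Cf} (hc : Dis c₁)
    (hm : ∀ i, c₁ 0 i = ((m i : ℝ) : ℂ)) {Q : ℕ → ℝ} (hQ : ∀ n, 1 ≤ Q n)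
    (hR : ∃ R : Fin 3 → Fin 3 → V → ℝ, Str R ∧ IsDiv R c₁ ∧
      ∀ n i j, IntegrableOn (fun x => |R i j x| ^ Q n) cube) {η : ℕ → ℝ} (hη : ∀ j, 0 < η j) :
    ∃ (g : ℕ → V → V) (ρ : ℕ → Mf), Tgs m Q η g ρ ∧
      (∀ k, Tendsto (fun j => vf (g j) k) atTop (𝓝 (c₁ k))) ∧
      (∃ C : ℝ, ∀ j k, ‖vf (g j) k‖ ≤ C * (1 + len k) ^ 1) ∧
      ((Summable fun k => ‖c₁ k‖) → ∀ j, (Summable fun k => ‖vf (g j) k - c₁ k‖) ∧
        ∑' k, ‖vf (g j) k - c₁ k‖ ≤ η j / 4 ∧ ∑' k, ‖vf (g j) k - c₁ k‖ ≤ η (j + 1) / 4) := by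
  obtain ⟨R, hR1, hR2, hR3⟩ := hR
  obtain ⟨r, -, hdat, -⟩ := hD1 (nm c₁) R Q (nm_herm hc.herm) (nm_dv hc.dv) (nm_zero _) hR1
    (fun k hk => by rw [nm_ne c₁ hk]; exact hR2 k hk) hQ hR3
  -- the extraction
  have hev : ∀ j : ℕ, ∀ᶠ a in atTop, (∀ b, a ≤ b → ∀ i, i ≤ j + 1 →
      rp (Q i) (r a - r b) ≤ η (j + 1)) ∧ ((Summable fun k => ‖c₁ k‖) →
      ∑' k, ‖dvr (r a) k - nm c₁ k‖ ≤ η j / 4 ∧ ∑' k, ‖dvr (r a) k - nm c₁ k‖ ≤ η (j + 1) / 4) := by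
    intro j
    have h1 : ∀ i ∈ Finset.range (j + 2), ∀ᶠ a in atTop, ∀ b, a ≤ b →
        rp (Q i) (r a - r b) ≤ η (j + 1) := by
      intro i _
      obtain ⟨m₀, h⟩ := hdat.cau i (η (j + 1)) (hη _)
      exact eventually_atTop.2 ⟨m₀, fun a ha b hb => h a b ha (ha.trans hb)⟩
    have h2 : ∀ᶠ a in atTop, (Summable fun k => ‖c₁ k‖) →
        ∑' k, ‖dvr (r a) k - nm c₁ k‖ ≤ η j / 4
          ∧ ∑' k, ‖dvr (r a) k - nm c₁ k‖ ≤ η (j + 1) / 4 := by
      by_cases hs : Summable fun k => ‖c₁ k‖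
      · have hs' : Summable fun k => ‖nm c₁ k‖ := by
          refine Summable.of_nonneg_of_le (fun _ => norm_nonneg _) (fun k => ?_) hs
          by_cases hk : k = 0
          · rw [hk, nm_zero, norm_zero]
            exact norm_nonneg _
          · rw [nm_ne c₁ hk]
        have h3 := hdat.wie hs'
        filter_upwards [h3.eventually_le_const (show 0 < η j / 4 by have := hη j; positivity),
          h3.eventually_le_const (show 0 < η (j + 1) / 4 by have := hη (j + 1); positivity)]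
          with a ha hb _
        exact ⟨ha, hb⟩
      · exact Eventually.of_forall fun a h => absurd h hs
    filter_upwards [(Filter.eventually_all_finset _).2 h1, h2] with a ha hb
    exact ⟨fun b hb i hi => ha i (Finset.mem_range.2 (by omega)) b hb, hb⟩
  obtain ⟨κ, hκ, hκ'⟩ := Filter.extraction_forall_of_eventually' fun j => eventually_atTop.1 (hev j)
  have hsup : ∀ n, ∃ Z : Finset K3, ∀ k ∉ Z, dvr (r n) k = 0 := fun n => by
    obtain ⟨Z, hZ⟩ := hdat.supp n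
    exact ⟨Z.erase 0, h744.WQ.dvr_supp hZ⟩
  have hvf : ∀ n k, vf (tgf m (dvr (r n))) k
      = (if k = 0 then fun i => ((m i : ℝ) : ℂ) else 0) + dvr (r n) k := fun n k => by
    obtain ⟨Z, hZ⟩ := hsup n
    exact vf_tgf m hZ (h744.WQ.herm_dvr (hdat.sy n)) k
  have hlim1 : ∀ k, Tendsto (fun j => vf (tgf m (dvr (r (κ j)))) k) atTop (𝓝 (c₁ k)) := by
    intro k
    simp_rw [hvf]
    by_cases hk : k = 0
    · subst hk
      have : c₁ 0 = fun i => ((m i : ℝ) : ℂ) := funext hm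
      rw [this]
      refine tendsto_const_nhds.congr fun j => ?_
      rw [h744.WQ.dvr_zero_mode, add_zero, if_pos rfl]
    · have h1 := (hdat.lim k).comp hκ.tendsto_atTop
      rw [nm_ne c₁ hk] at h1
      refine h1.congr fun j => ?_
      rw [if_neg hk, zero_add]
      rfl
  -- the bound
  obtain ⟨M, hM0, hM⟩ : ∃ M : ℝ, 0 ≤ M ∧ ∀ j, rp 1 (r (κ j)) ≤ M := by
    obtain ⟨m₀, hm₀⟩ := hdat.cau 0 1 one_pos
    obtain ⟨N, hN⟩ := eventually_atTop.1 (hκ.tendsto_atTop.eventually (eventually_ge_atTop m₀))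
    refine h744.WQ.exists_all (N := N) (C := 2 ^ (1 : ℝ) * (2 + rp 1 (r m₀))) fun j hj => ?_
    have h1 := hm₀ (κ j) m₀ (hN j hj) le_rfl
    have hr := h744.WQ.r1sub (h744.WQ.dat_r1 hdat (κ j)) (h744.WQ.dat_r1 hdat m₀)
    have h2 := h744.WQ.stmQ0.2.2.2.1 1 (Q 0) _ one_pos (hQ 0) hr
    have h3 := h744.WQ.stmQ0.1 1 _ _ one_pos hr (h744.WQ.dat_r1 hdat m₀)
    rw [sub_add_cancel] at h3
    refine h3.trans (mul_le_mul_of_nonneg_left ?_ (by positivity))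
    linarith
  refine ⟨fun j => tgf m (dvr (r (κ j))), fun j => r (κ j) - r (κ (j + 1)), ⟨fun j => ?_,
    fun j => ?_, fun j => ?_, fun j k => ?_, fun j i hi => ?_⟩, hlim1,
    ⟨‖m‖ + 24 * Real.pi * M, fun j k => ?_⟩, fun hs j => ?_⟩
  · obtain ⟨Z, hZ⟩ := hsup (κ j)
    exact tgf_path m hZ (h744.WQ.herm_dvr (hdat.sy _)) (h744.WQ.dv_dvr _)
      (h744.WQ.dvr_zero_mode _)
  · classical
    obtain ⟨Z, hZ⟩ := hdat.supp (κ j)
    obtain ⟨Z', hZ'⟩ := hdat.supp (κ (j + 1))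
    refine ⟨Z ∪ Z', fun i i' k hk => ?_⟩
    rw [Finset.mem_union, not_or] at hk
    show r (κ j) i i' k - r (κ (j + 1)) i i' k = 0
    rw [hZ i i' k hk.1, hZ' i i' k hk.2, sub_zero]
  · refine ⟨fun i i' k => ?_, fun i i' k => ?_⟩
    · show r (κ j) i i' k - r (κ (j + 1)) i i' k = r (κ j) i' i k - r (κ (j + 1)) i' i k
      rw [(hdat.sy _).sym i i' k, (hdat.sy (κ (j + 1))).sym i i' k]
    · show r (κ j) i i' (-k) - r (κ (j + 1)) i i' (-k)
        = conj (r (κ j) i i' k - r (κ (j + 1)) i i' k)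
      rw [(hdat.sy _).herm i i' k, (hdat.sy (κ (j + 1))).herm i i' k, map_sub]
  · rw [hvf, hvf, h744.WQ.dvr_sub, Pi.sub_apply]
    abel
  · exact (hκ' j).1 (κ (j + 1)) (hκ.monotone (Nat.le_succ j)) i hi
  · have hl := GD.len_nonneg k
    have hpi := Real.pi_pos
    rw [hvf, pow_one]
    have h1 := h744.WQ.norm_dvr_le (h744.WQ.dat_r1 hdat (κ j)) k
    have h2 : 24 * Real.pi * len k * rp 1 (r (κ j)) ≤ 24 * Real.pi * M * (1 + len k) := by
      have h3 : 24 * Real.pi * len k * rp 1 (r (κ j)) ≤ 24 * Real.pi * len k * M :=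
        mul_le_mul_of_nonneg_left (hM j) (by positivity)
      have h4 : 0 ≤ 24 * Real.pi * M := by positivity
      nlinarith
    have h5 : ‖(if k = 0 then fun i => ((m i : ℝ) : ℂ) else 0 : C3)‖ ≤ ‖m‖ * (1 + len k) := by
      have h6 : ‖(if k = 0 then fun i => ((m i : ℝ) : ℂ) else 0 : C3)‖ ≤ ‖m‖ := by
        split_ifs
        · refine (pi_norm_le_iff_of_nonneg (norm_nonneg m)).2 fun i => ?_
          rw [Complex.norm_real]
          exact norm_le_pi_norm m i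
        · rw [norm_zero]
          exact norm_nonneg m
      have h7 := norm_nonneg m
      nlinarith
    calc _ ≤ _ := norm_add_le _ _
      _ ≤ ‖m‖ * (1 + len k) + 24 * Real.pi * M * (1 + len k) := add_le_add h5 (h1.trans h2)
      _ = _ := by ring
  · have hs' : Summable fun k => ‖nm c₁ k‖ := by
      refine Summable.of_nonneg_of_le (fun _ => norm_nonneg _) (fun k => ?_) hs
      by_cases hk : k = 0
      · rw [hk, nm_zero, norm_zero]
        exact norm_nonneg _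
      · rw [nm_ne c₁ hk]
    have e : ∀ k, vf (tgf m (dvr (r (κ j)))) k - c₁ k = dvr (r (κ j)) k - nm c₁ k := by
      intro k
      rw [hvf]
      by_cases hk : k = 0
      · subst hk
        rw [if_pos rfl, nm_zero, funext hm, sub_zero, add_sub_cancel_left]
      · rw [if_neg hk, zero_add, nm_ne c₁ hk]
    simp only [e]
    obtain ⟨Z, hZ⟩ := hsup (κ j)
    have h1 : Summable fun k => ‖dvr (r (κ j)) k‖ :=
      summable_of_ne_finset_zero (s := Z) fun k hk => by rw [hZ k hk, norm_zero]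
    refine ⟨Summable.of_nonneg_of_le (fun _ => norm_nonneg _) (fun k => norm_sub_le _ _)
      (h1.add hs'), ?_⟩
    exact (hκ' j).2 hs

/-- **The step**, with closeness to the target. -/
theorem stp_exF (hE : StmLocEB) {ν : ℝ} (hν : 0 < ν) {Q : ℕ → ℝ} (hQ : ∀ n, 1 ≤ Q n) {η : ℕ → ℝ}
    {φ : ℝ → ℝ} (hφ : Gauge φ)
    (hU : ∀ j : ℕ, ∀ (m : V) (w : ℝ → V → V), PathM m w → ∀ T ε : ℝ, 0 < T → 0 < ε → ε ≤ η j →
      ∃ τ₀ : ℝ, 0 < τ₀ ∧ ∀ τ, 0 < τ → τ < τ₀ → ∀ s ∈ Icc 0 T, ∀ c : Cf, Herm c → Dv c →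
      (∀ i, c 0 i = ((m i : ℝ) : ℂ)) → (Summable fun k => ‖c k‖) →
      ∀ (Z : Finset K3) (r : Mf), (∀ i j, ∀ k ∉ Z, r i j k = 0) → Sy r →
      (∀ i, i ≤ j → rp (Q i) r ≤ η j) →
      (∀ A : Finset K3, ∑ k ∈ A, ‖c k - vf (w s) k - dvr r k‖ ≤ η j) →
      ∀ Φ : ℝ → ℝ, Orl Φ → ∀ δ : ℝ, 0 < δ →
      ∃ (τ' : ℝ) (u : ℝ → V → V) (p : ℝ → V → ℝ), τ < τ' ∧ Lc ν m w ε s τ c Q Φ δ τ' u p ∧
        Ba φ c u ∧
        (∀ i, i ≤ j → ∫⁻ t in Ioo 0 τ, (∫⁻ x in cube, ENNReal.ofReal (∑ j, |u t x j| ^ (2 * Q i)))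
          ^ (2 / (2 * Q i)) ≤ ENNReal.ofReal ((1 / 2) ^ j)) ∧
        ((∀ A : Finset K3, ∑ k ∈ A, ‖c k - vf (w s) k‖ ≤ η j) → ∀ t ∈ Ioc 0 τ, ∀ i,
          besG φ (fun x => u t x i - w (s + t) x i) ≤ ENNReal.ofReal ((1 / 2) ^ j)))
    {m : V} {g : ℕ → V → V} {ρ : ℕ → Mf} (hg : Tgs m Q η g ρ) {ε : ℕ → ℝ} (hε : ∀ j, 0 < ε j)
    (hεη : ∀ j, ε j ≤ η j) (j : ℕ) :
    ∃ τ₀ : ℝ, 0 < τ₀ ∧ ∀ τ, 0 < τ → τ < τ₀ → ∀ D : Cf, Stg m η g j D →
      ∀ Φ : ℝ → ℝ, Orl Φ → ∀ δ : ℝ, 0 < δ →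
      ∃ (τ' : ℝ) (u : ℝ → V → V) (p : ℝ → V → ℝ), τ < τ' ∧
        Lc ν m (fun _ => g j) (ε j) 0 τ D Q Φ δ τ' u p ∧ Ba φ D u ∧
        (1 ≤ j → ∀ i, i ≤ j → ∫⁻ t in Ioo 0 τ, (∫⁻ x in cube, ENNReal.ofReal
          (∑ j, |u t x j| ^ (2 * Q i))) ^ (2 / (2 * Q i)) ≤ ENNReal.ofReal ((1 / 2) ^ j)) ∧
        (1 ≤ j → (∀ A : Finset K3, ∑ k ∈ A, ‖D k - vf (g j) k‖ ≤ η j) → ∀ t ∈ Ioc 0 τ, ∀ i,
          besG φ (fun x => u t x i - g j x i) ≤ ENNReal.ofReal ((1 / 2) ^ j)) := by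
  have h01 : (0 : ℝ) ∈ Icc (0 : ℝ) 1 := ⟨le_rfl, zero_le_one⟩
  rcases Nat.eq_zero_or_pos j with hj | hj
  · subst hj
    obtain ⟨τ₀, hτ₀, H⟩ := hE ν hν m (fun _ => g 0) (hg.path 0) 1 (ε 0) one_pos (hε 0)
    refine ⟨τ₀, hτ₀, fun τ hτ hττ D hD Φ hΦ δ hδ => ?_⟩
    obtain ⟨R, hR1, hR2, hR3⟩ := exists_R' hD.herm hD.dv hD.sm hQ
    obtain ⟨τ', u, p, h1, h2, h3⟩ := H τ hτ hττ 0 h01 D hD.herm hD.dv hD.mean R hR1 hR2 Q hQ hR3
      φ hφ Φ hΦ δ hδ
    exact ⟨τ', u, p, h1, h2, h3 hD.sm, fun h => absurd h (by norm_num),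
      fun h => absurd h (by norm_num)⟩
  · obtain ⟨i₀, rfl⟩ : ∃ i₀, j = i₀ + 1 := ⟨j - 1, by omega⟩
    obtain ⟨τ₀, hτ₀, H⟩ := hU (i₀ + 1) m (fun _ => g (i₀ + 1)) (hg.path _) 1 (ε (i₀ + 1)) one_pos
      (hε _) (hεη _)
    refine ⟨τ₀, hτ₀, fun τ hτ hττ D hD Φ hΦ δ hδ => ?_⟩
    obtain ⟨Z, hZ⟩ := hg.supp i₀
    obtain ⟨τ', u, p, h1, h2, h3, h4, h5⟩ := H τ hτ hττ 0 h01 D hD.herm hD.dv hD.mean hD.sm Z (ρ i₀)
      hZ (hg.sy i₀) (fun i hi => hg.small i₀ i hi) (fun A => by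
        refine le_trans (le_of_eq (Finset.sum_congr rfl fun k _ => ?_)) (hD.near i₀ rfl A)
        rw [← hg.dif i₀ k]
        congr 1
        abel) Φ hΦ δ hδ
    exact ⟨τ', u, p, h1, h2, h3, fun _ => h4, fun _ => h5⟩

end Pool.Agent.Run7.h969.HP
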