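import Pool.Agent.Run7.h969.HP.Stab
import Pool.Agent.Run7.h744.GS.P4

/-!
Piece SmoothF: uniform smoothing for the forced equation.
-/

set_option autoImplicit false

open MeasureTheory Set Filter Topology

namespace Pool.Agent.Run7.h969.HP

open H459R3.NS Pool.Agent.Run7.h782.GD Pool.Agent.Run7.h782.GS Pool.Agent.Run7.h744.GS

theorem E_le_exp {ε : ℝ} (hε : 0 < ε) (x : ℝ) : E ε x ≤ Real.exp x := by
  rw [E, inv_le_comm₀ (E_den_pos hε x) (Real.exp_pos x), ← Real.exp_neg]
  linarith

/-- The smoothing estimate on a short interval. -/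
theorem smooth_auxF {ν : ℝ} (hν : 0 < ν) {f a : ℝ → Cf} (H : FSo ν f a)
    (hfc : ∀ k, Continuous fun t => f t k) {Φ : ℝ} (hΦ0 : 0 ≤ Φ)
    (hΦ : ∀ t, 0 ≤ t → ∀ A : Finset K3, ∑ k ∈ A, Real.exp (len k) * ‖f t k‖ ≤ Φ)
    {M t₀ : ℝ} (hM : 0 ≤ M)
    (ht₀ : 0 ≤ t₀) (hb : ∀ A : Finset K3, ∑ k ∈ A, ‖a t₀ k‖ ≤ M) {Λ c T : ℝ}
    (hΛ : Λ = 1 + 144 * Real.pi * (2 * M + 1)) (hc : c = Λ ^ 2 / (16 * Real.pi ^ 2 * ν))
    (hT0 : 0 ≤ T) (hTone : T ≤ 1) (hT : T * (c * (2 * M + 1) + Φ) ≤ 1 / 2) {ε : ℝ} (hε : 0 < ε) (hε1 : ε ≤ 1) :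
    ∀ t ∈ Icc t₀ (t₀ + T), ∑' k, E ε ((t - t₀) * len k) * ‖a t k‖ ≤ 2 * M + 1 := by
  have hpi := Real.pi_pos
  obtain ⟨μ, hμ, C, hC⟩ := H.dec
  have hC0 : 0 ≤ C := by
    have h5 := (norm_nonneg _).trans (hC 0 le_rfl 0)
    exact nonneg_of_mul_nonneg_left h5 (Real.exp_pos _)
  have hac : ∀ k, ContinuousOn (fun t => a t k) (Ici 0) := fun k t ht =>
    (H.der t ht k).continuousWithinAt
  have hnlc : ∀ k, ContinuousOn (fun t => nl (a t) (a t) k) (Ici 0) := fun k =>
    Cnt.nl hac hac H.maj H.maj k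
  set M' : ℝ := 2 * M + 1 with hM'
  have hM'0 : 0 < M' := by linarith
  have hΛ0 : 0 < Λ := by rw [hΛ]; positivity
  have hc0 : 0 < c := by rw [hc]; positivity
  set w : ℝ → K3 → ℝ := fun t k => E ε ((t - t₀) * len k) with hw
  have hw0 : ∀ t k, 0 ≤ w t k := fun t k => (E_pos hε _).le
  have hwle : ∀ t k, w t k ≤ ε⁻¹ := fun t k => E_le hε _
  have hwm : ∀ t, t₀ ≤ t → ∀ k p, w t k ≤ 3 * (w t p * w t (k - p)) := by
    intro t ht k p
    have h1 : 0 ≤ t - t₀ := by linarith
    refine le_trans (E_mono hε (mul_le_mul_of_nonneg_left (len_le_add k p) h1)) ?_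
    rw [mul_add]
    exact E_add_le hε hε1 (mul_nonneg h1 (len_nonneg _)) (mul_nonneg h1 (len_nonneg _))
  set N : ℝ → K3 → ℝ := fun t k => w t k * ‖a t k‖ with hN
  have hN0 : ∀ t k, 0 ≤ N t k := fun t k => mul_nonneg (hw0 t k) (norm_nonneg _)
  have hNle : ∀ t, 0 ≤ t → ∀ k, N t k ≤ ε⁻¹ * C * Real.exp (-(μ * len k)) := by
    intro t ht k
    calc N t k ≤ ε⁻¹ * (C * Real.exp (-(μ * len k))) :=
          mul_le_mul (hwle t k) (hC t ht k) (norm_nonneg _) (by positivity)
      _ = _ := by ring
  set b0 : K3 → ℝ := fun k => ε⁻¹ * C * Real.exp (-(μ * len k)) with hb0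
  set b2 : K3 → ℝ := fun k => ε⁻¹ * C * (len k ^ 2 * Real.exp (-(μ * len k))) with hb2
  have hb0s : Summable b0 := (summable_exp_len hμ).mul_left _
  have hb2s : Summable b2 := (summable_len2_exp hμ).mul_left _
  have hb20 : ∀ k, 0 ≤ b2 k := fun k => by positivity
  have hN2 : ∀ t, 0 ≤ t → ∀ k, len k ^ 2 * N t k ≤ b2 k := by
    intro t ht k
    calc len k ^ 2 * N t k ≤ len k ^ 2 * (ε⁻¹ * C * Real.exp (-(μ * len k))) :=
          mul_le_mul_of_nonneg_left (hNle t ht k) (by positivity)
      _ = b2 k := by simp only [hb2]; ring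
  have hsa : ∀ t, 0 ≤ t → Summable fun k => ‖a t k‖ := fun t ht =>
    Summable.of_nonneg_of_le (fun _ => norm_nonneg _) (hC t ht) ((summable_exp_len hμ).mul_left C)
  have hs0 : ∀ t, 0 ≤ t → Summable fun k => N t k := fun t ht =>
    Summable.of_nonneg_of_le (hN0 t) (hNle t ht) hb0s
  have hs2 : ∀ t, 0 ≤ t → Summable fun k => len k ^ 2 * N t k := fun t ht =>
    Summable.of_nonneg_of_le (fun k => mul_nonneg (by positivity) (hN0 t k)) (hN2 t ht) hb2s
  have hs1 : ∀ t, 0 ≤ t → Summable fun k => len k * N t k := by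
    intro t ht
    refine Summable.of_nonneg_of_le (fun k => mul_nonneg (len_nonneg k) (hN0 t k))
      (fun k => ?_) ((hs0 t ht).add (hs2 t ht))
    have h1 : len k ≤ 1 + len k ^ 2 := by nlinarith [len_nonneg k]
    have := mul_le_mul_of_nonneg_right h1 (hN0 t k)
    linarith
  -- continuity
  have hwc : ∀ k, Continuous fun t => w t k := fun k =>
    (E_cont hε).comp ((continuous_id.sub continuous_const).mul continuous_const)
  have hNc : ∀ k, ContinuousOn (fun t => N t k) (Ici 0) := fun k =>
    (hwc k).continuousOn.mul (hac k).norm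
  have hYc : ContinuousOn (fun t => ∑' k, N t k) (Ici 0) := by
    refine continuousOn_tsum hNc hb0s fun k t ht => ?_
    rw [Real.norm_eq_abs, abs_of_nonneg (hN0 t k)]
    exact hNle t ht k
  -- the key estimate
  have key : ∀ t, t₀ ≤ t → (∀ r ∈ Icc t₀ t, ∑' k, N r k ≤ M') →
      t ≤ t₀ + T → ∑' k, N t k ≤ M + (t - t₀) * (c * M' + Φ) := by
    intro t htt hbd htT
    have main : ∀ A : Finset K3, ∑ k ∈ A, N t k ≤ M + (t - t₀) * (c * M' + Φ)
        + (t - t₀) * (4 * Real.pi ^ 2 * ν) * ∑' k : {k // k ∉ A}, b2 k := by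
      intro A
      set τ : ℝ := ∑' k : {k // k ∉ A}, b2 k with hτ
      have hsub : ∀ r ∈ Icc t₀ t, (0 : ℝ) ≤ r := fun r hr => ht₀.trans hr.1
      have h1 : ∀ k ∈ A, N t k + lam ν k * ∫ r in t₀..t, N r k
          ≤ N t₀ k + ∫ r in t₀..t, (len k * N r k + w r k * ‖nl (a r) (a r) k‖ + w r k * ‖f r k‖) := by
        intro k _
        set y : ℝ → C3 := fun r => w r k • a r k with hy
        set G : ℝ → C3 := fun r => (len k * ld ε ((r - t₀) * len k)) • y r
          - w r k • nl (a r) (a r) k + w r k • f r k with hG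
        have hyc : ContinuousOn y (Icc t₀ t) :=
          (hwc k).continuousOn.smul ((hac k).mono hsub)
        have hldc : Continuous fun r : ℝ => len k * ld ε ((r - t₀) * len k) :=
          continuous_const.mul ((ld_cont hε).comp
            ((continuous_id.sub continuous_const).mul continuous_const))
        have hGc : ContinuousOn G (Icc t₀ t) :=
          ((hldc.continuousOn.smul hyc).sub
            ((hwc k).continuousOn.smul ((hnlc k).mono hsub))).add
            ((hwc k).continuousOn.smul (hfc k).continuousOn)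
        have h2 := damped (y := y) (G := G) (l := lam ν k) (s := t₀) (t := t) (by
          rw [lam]
          have := sq_nonneg' k
          positivity) htt hyc hGc (fun r hr => by
            have h3 := (H.der r (ht₀.trans hr.1.le) k).hasDerivAt
              (Ici_mem_nhds (ht₀.trans_lt hr.1))
            have h4 : HasDerivAt (fun r => w r k)
                (ld ε ((r - t₀) * len k) * E ε ((r - t₀) * len k) * len k) r := by
              have h5 : HasDerivAt (fun r : ℝ => (r - t₀) * len k) (len k) r := by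
                simpa using ((hasDerivAt_id r).sub_const t₀).mul_const (len k)
              exact (E_hasDerivAt hε _).comp r h5
            have h6 := h4.fun_smul h3
            refine h6.congr_deriv ?_
            have e1 : (lam ν k : ℂ) • a r k = lam ν k • a r k := by
              funext i
              simp
            rw [neg_smul, e1]
            simp only [hG, hy, hw]
            module)
        have n1 : ∀ r, ‖y r‖ = N r k := fun r => by
          simp only [hy, hN]
          rw [norm_smul, Real.norm_eq_abs, abs_of_nonneg (hw0 r k)]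
        simp only [n1] at h2
        refine h2.trans (add_le_add le_rfl ?_)
        refine intervalIntegral.integral_mono_on htt ?_ ?_ fun r hr => ?_
        · rw [← uIcc_of_le htt] at hGc
          exact hGc.norm.intervalIntegrable
        · refine ContinuousOn.intervalIntegrable ?_
          rw [uIcc_of_le htt]
          exact ((continuousOn_const.mul ((hNc k).mono hsub)).add
            ((hwc k).continuousOn.mul ((hnlc k).mono hsub).norm)).add
            ((hwc k).continuousOn.mul (hfc k).continuousOn.norm)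
        · refine (norm_add_le _ _).trans (add_le_add ((norm_sub_le _ _).trans
            (add_le_add ?_ ?_)) ?_)
          · rw [norm_smul, Real.norm_eq_abs, abs_of_nonneg
              (mul_nonneg (len_nonneg k) (ld_nonneg hε _)), n1]
            refine mul_le_mul_of_nonneg_right ?_ (hN0 r k)
            exact mul_le_of_le_one_right (len_nonneg k) (ld_le_one hε _)
          · rw [norm_smul, Real.norm_eq_abs, abs_of_nonneg (hw0 r k)]
          · rw [norm_smul, Real.norm_eq_abs, abs_of_nonneg (hw0 r k)]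
      have hic : ∀ k, IntervalIntegrable (fun r => N r k) volume t₀ t := fun k => by
        refine ContinuousOn.intervalIntegrable ?_
        rw [uIcc_of_le htt]
        exact (hNc k).mono hsub
      have hin : ∀ k, IntervalIntegrable
          (fun r => len k * N r k + w r k * ‖nl (a r) (a r) k‖ + w r k * ‖f r k‖) volume t₀ t := fun k => by
        refine ContinuousOn.intervalIntegrable ?_
        rw [uIcc_of_le htt]
        exact ((continuousOn_const.mul ((hNc k).mono hsub)).add
            ((hwc k).continuousOn.mul ((hnlc k).mono hsub).norm)).add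
            ((hwc k).continuousOn.mul (hfc k).continuousOn.norm)
      have h2 : ∑ k ∈ A, N t k + 4 * Real.pi ^ 2 * ν * ∫ r in t₀..t, ∑ k ∈ A, len k ^ 2 * N r k
          ≤ ∑ k ∈ A, N t₀ k
            + ∫ r in t₀..t, ∑ k ∈ A, (len k * N r k + w r k * ‖nl (a r) (a r) k‖ + w r k * ‖f r k‖) := by
        rw [intervalIntegral.integral_finsetSum fun k _ => (hic k).const_mul _,
          intervalIntegral.integral_finsetSum fun k _ => hin k, Finset.mul_sum,
          ← Finset.sum_add_distrib, ← Finset.sum_add_distrib]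
        refine Finset.sum_le_sum fun k hk => ?_
        refine le_trans (le_of_eq ?_) (h1 k hk)
        rw [intervalIntegral.integral_const_mul, lam, len_sq]
        ring
      have h3 : ∫ r in t₀..t, ∑ k ∈ A, (len k * N r k + w r k * ‖nl (a r) (a r) k‖ + w r k * ‖f r k‖)
          ≤ ∫ r in t₀..t, (4 * Real.pi ^ 2 * ν * (∑ k ∈ A, len k ^ 2 * N r k)
            + (4 * Real.pi ^ 2 * ν * τ + (c * M' + Φ))) := by
        refine intervalIntegral.integral_mono_on htt ?_ ?_ fun r hr => ?_
        · exact ii_sum fun k _ => hin k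
        · refine IntervalIntegrable.add (IntervalIntegrable.const_mul ?_ _)
            intervalIntegrable_const
          exact ii_sum fun k _ => (hic k).const_mul _
        · have hr0 : 0 ≤ r := hsub r hr
          have h4 := sum_wnl_le (a := a r) (w := w r) (hw0 r) (hwm r hr.1) (hsa r hr0)
            (hs0 r hr0) (hs1 r hr0) A
          have h5 : ∑' k, len k ^ 2 * N r k ≤ ∑ k ∈ A, len k ^ 2 * N r k + τ := by
            rw [← (hs2 r hr0).sum_add_tsum_compl (s := A)]
            refine add_le_add le_rfl ?_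
            exact ((hs2 r hr0).subtype _).tsum_le_tsum (fun k => hN2 r hr0 k) (hb2s.subtype _)
          have h6 : ∑ k ∈ A, len k * N r k ≤ ∑' k, len k * N r k :=
            (hs1 r hr0).sum_le_tsum _ fun k _ => mul_nonneg (len_nonneg k) (hN0 r k)
          have hY1 : 0 ≤ ∑' k, len k * N r k :=
            tsum_nonneg fun k => mul_nonneg (len_nonneg k) (hN0 r k)
          have hY0 : ∑' k, N r k ≤ M' := hbd r hr
          have h7 : Λ * ∑' k, len k * N r k
              ≤ 4 * Real.pi ^ 2 * ν * (∑' k, len k ^ 2 * N r k) + c * ∑' k, N r k := by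
            rw [← tsum_mul_left, ← tsum_mul_left, ← tsum_mul_left,
              ← ((hs2 r hr0).mul_left _).tsum_add ((hs0 r hr0).mul_left _)]
            refine Summable.tsum_le_tsum (fun k => ?_) ((hs1 r hr0).mul_left _)
              (((hs2 r hr0).mul_left _).add ((hs0 r hr0).mul_left _))
            have h8 : Λ * len k ≤ 4 * Real.pi ^ 2 * ν * len k ^ 2 + c := by
              have h9 : 4 * Real.pi ^ 2 * ν * len k ^ 2 + c - Λ * len k
                  = (8 * Real.pi ^ 2 * ν * len k - Λ) ^ 2 / (16 * Real.pi ^ 2 * ν) := by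
                rw [hc]
                field_simp
                ring
              have h10 : 0 ≤ (8 * Real.pi ^ 2 * ν * len k - Λ) ^ 2 / (16 * Real.pi ^ 2 * ν) := by
                positivity
              linarith
            have := mul_le_mul_of_nonneg_right h8 (hN0 r k)
            linarith
          have h66 : ∑ k ∈ A, w r k * ‖f r k‖ ≤ Φ := by
            refine le_trans (Finset.sum_le_sum fun k _ => ?_) (hΦ r hr0 A)
            refine mul_le_mul_of_nonneg_right ?_ (norm_nonneg _)
            refine (E_le_exp hε _).trans (Real.exp_le_exp.2 ?_)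
            exact mul_le_of_le_one_left (len_nonneg k) (by linarith [hr.2])
          rw [Finset.sum_add_distrib, Finset.sum_add_distrib]
          refine le_trans (add_le_add le_rfl h66) ?_
          have e0 : 4 * Real.pi ^ 2 * ν * (∑ k ∈ A, len k ^ 2 * N r k)
              + (4 * Real.pi ^ 2 * ν * τ + (c * M' + Φ)) = (4 * Real.pi ^ 2 * ν *
              (∑ k ∈ A, len k ^ 2 * N r k) + (4 * Real.pi ^ 2 * ν * τ + c * M')) + Φ := by ring
          rw [e0]
          refine add_le_add ?_ le_rfl
          calc ∑ k ∈ A, len k * N r k + ∑ k ∈ A, w r k * ‖nl (a r) (a r) k‖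
              ≤ (∑' k, len k * N r k) + 144 * Real.pi *
                ((∑' k, len k * N r k) * ∑' k, N r k) := add_le_add h6 h4
            _ ≤ (∑' k, len k * N r k) + 144 * Real.pi * ((∑' k, len k * N r k) * M') := by
                refine add_le_add le_rfl (mul_le_mul_of_nonneg_left ?_ (by positivity))
                exact mul_le_mul_of_nonneg_left hY0 hY1
            _ = Λ * ∑' k, len k * N r k := by rw [hΛ]; ring
            _ ≤ 4 * Real.pi ^ 2 * ν * (∑' k, len k ^ 2 * N r k) + c * ∑' k, N r k := h7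
            _ ≤ 4 * Real.pi ^ 2 * ν * (∑ k ∈ A, len k ^ 2 * N r k + τ) + c * M' := by
                refine add_le_add (mul_le_mul_of_nonneg_left h5 (by positivity))
                  (mul_le_mul_of_nonneg_left hY0 hc0.le)
            _ = _ := by ring
      have hI : IntervalIntegrable (fun r => ∑ k ∈ A, len k ^ 2 * N r k) volume t₀ t :=
        ii_sum fun k _ => (hic k).const_mul _
      rw [intervalIntegral.integral_add (hI.const_mul _) intervalIntegrable_const,
        intervalIntegral.integral_const_mul, intervalIntegral.integral_const, smul_eq_mul] at h3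
      have h8 : ∑ k ∈ A, N t₀ k ≤ M := by
        refine le_trans (Finset.sum_le_sum fun k _ => ?_) (hb A)
        simp only [hN, hw, sub_self, zero_mul]
        exact mul_le_of_le_one_left (norm_nonneg _) (E_zero_le hε)
      have e : (t - t₀) * (4 * Real.pi ^ 2 * ν * τ + (c * M' + Φ))
          = (t - t₀) * (c * M' + Φ) + (t - t₀) * (4 * Real.pi ^ 2 * ν) * τ := by ring
      rw [e] at h3
      linarith
    have hlim : Tendsto (fun A : Finset K3 => M + (t - t₀) * (c * M' + Φ)
        + (t - t₀) * (4 * Real.pi ^ 2 * ν) * ∑' k : {k // k ∉ A}, b2 k) atTop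
        (𝓝 (M + (t - t₀) * (c * M' + Φ) + (t - t₀) * (4 * Real.pi ^ 2 * ν) * 0)) :=
      tendsto_const_nhds.add ((tendsto_tsum_compl_atTop_zero b2).const_mul _)
    rw [mul_zero, add_zero] at hlim
    exact le_of_tendsto_of_tendsto (hs0 t (ht₀.trans htt)).hasSum hlim
      (Eventually.of_forall main)
  -- continuity argument
  intro t ht
  by_contra hcon
  push Not at hcon
  set Y : ℝ → ℝ := fun t => ∑' k, N t k with hY
  have hYt : M' < Y t := hcon
  have hYt0 : Y t₀ ≤ M + 0 := by
    have h1 := (hs0 t₀ ht₀)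
    have : Y t₀ ≤ M := by
      refine Real.tsum_le_of_sum_le (hN0 t₀) fun A => ?_
      refine le_trans (Finset.sum_le_sum fun k _ => ?_) (hb A)
      simp only [hN, hw, sub_self, zero_mul]
      exact mul_le_of_le_one_left (norm_nonneg _) (E_zero_le hε)
    linarith
  have hYc' : ContinuousOn Y (Icc t₀ t) := hYc.mono fun r hr => ht₀.trans hr.1
  -- the first time where `Y` reaches `M'`
  set S : Set ℝ := {r | r ∈ Icc t₀ t ∧ M' ≤ Y r} with hS
  have hSc : IsClosed S := by
    have : S = Icc t₀ t ∩ Y ⁻¹' (Ici M') := rfl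
    rw [this]
    exact hYc'.preimage_isClosed_of_isClosed isClosed_Icc isClosed_Ici
  have hSn : S.Nonempty := ⟨t, ⟨ht.1, le_rfl⟩, hYt.le⟩
  have hSb : BddBelow S := ⟨t₀, fun r hr => hr.1.1⟩
  have hr1 : sInf S ∈ S := hSc.csInf_mem hSn hSb
  set r₁ := sInf S with hr₁
  have h1 : ∀ r ∈ Icc t₀ r₁, Y r ≤ M' := by
    intro r hr
    rcases eq_or_lt_of_le hr.2 with h | h
    · -- at `r₁` itself: limit from the left
      have hne : t₀ < r₁ := by
        rcases eq_or_lt_of_le hr1.1.1 with h' | h'
        · exfalso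
          have := hr1.2
          rw [← h'] at this
          linarith
        · exact h'
      rw [h]
      have hcw : ContinuousWithinAt Y (Iio r₁) r₁ := by
        have h2 : ContinuousWithinAt Y (Icc t₀ r₁) r₁ :=
          (hYc' r₁ hr1.1).mono (Icc_subset_Icc_right hr1.1.2)
        have h3 : ContinuousWithinAt Y (Ico t₀ r₁) r₁ := h2.mono Ico_subset_Icc_self
        exact h3.mono_of_mem_nhdsWithin (Ico_mem_nhdsLT hne)
      refine le_of_tendsto hcw ?_
      filter_upwards [Ico_mem_nhdsLT hne] with q hq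
      by_contra hq'
      push Not at hq'
      have : q ∈ S := ⟨⟨hq.1, hq.2.le.trans hr1.1.2⟩, hq'.le⟩
      exact absurd (csInf_le hSb this) (not_le.mpr hq.2)
    · by_contra hq'
      push Not at hq'
      have : r ∈ S := ⟨⟨hr.1, h.le.trans hr1.1.2⟩, hq'.le⟩
      exact absurd (csInf_le hSb this) (not_le.mpr h)
  have h2 := key r₁ hr1.1.1 h1 (hr1.1.2.trans ht.2)
  have h3 : (r₁ - t₀) * (c * M' + Φ) ≤ T * (c * M' + Φ) := by
    refine mul_le_mul_of_nonneg_right ?_ (by positivity)
    have := hr1.1.2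
    have := ht.2
    linarith
  have h4 := hr1.2
  have h5 : Y r₁ ≤ M + 1 / 2 := by
    have : Y r₁ = ∑' k, N r₁ k := rfl
    linarith
  linarith

/-- **Piece SmoothF.** -/
theorem smoothF : StmSmoothF := by
  intro f hf ν hν M τ hτ
  have hpi := Real.pi_pos
  obtain ⟨B, hB0, hB⟩ := hf.fin
  obtain ⟨T₁, hT₁, hlate⟩ := hf.late
  obtain ⟨Φ, hΦ0, hΦ⟩ : ∃ Φ : ℝ, 0 ≤ Φ ∧ ∀ t, 0 ≤ t → ∀ A : Finset K3,
      ∑ k ∈ A, Real.exp (len k) * ‖f t k‖ ≤ Φ := by
    have hc : ContinuousOn (fun t => ∑ k ∈ B, Real.exp (len k) * ‖f t k‖) (Icc 0 T₁) :=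
      continuousOn_finsetSum _ fun k _ => continuousOn_const.mul (hf.cont k).continuousOn.norm
    obtain ⟨D, hD⟩ := isCompact_Icc.bddAbove_image hc
    refine ⟨max D 0, le_max_right _ _, fun t ht A => ?_⟩
    rcases le_total t T₁ with h | h
    · refine le_trans ?_ ((hD ⟨t, ⟨ht, h⟩, rfl⟩).trans (le_max_left _ _))
      classical
      calc ∑ k ∈ A, Real.exp (len k) * ‖f t k‖
          ≤ ∑ k ∈ A ∪ B, Real.exp (len k) * ‖f t k‖ :=
            Finset.sum_le_sum_of_subset_of_nonneg Finset.subset_union_left fun k _ _ => by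
              positivity
        _ = ∑ k ∈ B, Real.exp (len k) * ‖f t k‖ :=
            (Finset.sum_subset Finset.subset_union_right fun k _ hk => by
              rw [hB t k hk, norm_zero, mul_zero]).symm
    · rw [hlate t h]
      simp
  set M₀ : ℝ := max M 0 with hM₀
  have hM₀0 : 0 ≤ M₀ := le_max_right _ _
  set Λ : ℝ := 1 + 144 * Real.pi * (2 * M₀ + 1) with hΛ
  set c : ℝ := Λ ^ 2 / (16 * Real.pi ^ 2 * ν) with hc
  have hΛ0 : 0 < Λ := by rw [hΛ]; positivity
  have hc0 : 0 < c := by rw [hc]; positivity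
  have hcM : 0 < c * (2 * M₀ + 1) + Φ := by positivity
  set T : ℝ := min 1 (min τ (1 / (2 * (c * (2 * M₀ + 1) + Φ)))) with hT
  have hT0 : 0 < T := lt_min one_pos (lt_min hτ (by positivity))
  have hTone : T ≤ 1 := min_le_left _ _
  have hT1 : T * (c * (2 * M₀ + 1) + Φ) ≤ 1 / 2 := by
    have h1 : T ≤ 1 / (2 * (c * (2 * M₀ + 1) + Φ)) := (min_le_right _ _).trans (min_le_right _ _)
    calc T * (c * (2 * M₀ + 1) + Φ)
        ≤ 1 / (2 * (c * (2 * M₀ + 1) + Φ)) * (c * (2 * M₀ + 1) + Φ) :=
          mul_le_mul_of_nonneg_right h1 hcM.le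
      _ = 1 / 2 := by field_simp
  refine ⟨T, hT0, 2 * (2 * M₀ + 1), ?_⟩
  intro a H s hs hb t hst k
  have hTτ : T ≤ τ := (min_le_right _ _).trans (min_le_left _ _)
  have ht₀ : 0 ≤ t - T := by linarith
  have hb' : ∀ A : Finset K3, ∑ k ∈ A, ‖a (t - T) k‖ ≤ M₀ := fun A =>
    (hb (t - T) (by linarith) A).trans (le_max_left _ _)
  set ε : ℝ := Real.exp (-(T * len k)) with hε
  have hε0 : 0 < ε := Real.exp_pos _
  have hε1 : ε ≤ 1 := Real.exp_le_one_iff.mpr (by
    have := mul_nonneg hT0.le (len_nonneg k)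
    linarith)
  have h1 := smooth_auxF hν H hf.cont hΦ0 hΦ hM₀0 ht₀ hb' hΛ hc hT0.le hTone hT1 hε0 hε1 t
    ⟨by linarith, by linarith⟩
  have e : t - (t - T) = T := by ring
  rw [e] at h1
  obtain ⟨μ, hμ, C, hC⟩ := H.dec
  have hC' := hC t (by linarith)
  have hsum : Summable fun l => E ε (T * len l) * ‖a t l‖ := by
    refine Summable.of_nonneg_of_le (fun l => mul_nonneg (E_pos hε0 _).le (norm_nonneg _))
      (fun l => ?_) (((summable_exp_len hμ).mul_left C).mul_left ε⁻¹)
    exact mul_le_mul (E_le hε0 _) (hC' l) (norm_nonneg _) (by positivity)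
  have h2 : E ε (T * len k) * ‖a t k‖ ≤ 2 * M₀ + 1 :=
    (hsum.le_tsum k fun l _ => mul_nonneg (E_pos hε0 _).le (norm_nonneg _)).trans h1
  have h3 : E ε (T * len k) = (2 * ε)⁻¹ := by
    rw [E, ← hε]
    congr 1
    ring
  rw [h3, inv_mul_le_iff₀ (by positivity)] at h2
  calc ‖a t k‖ ≤ 2 * ε * (2 * M₀ + 1) := h2
    _ = 2 * (2 * M₀ + 1) * Real.exp (-(T * len k)) := by rw [← hε]; ring

end Pool.Agent.Run7.h969.HP
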