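import Pool.Agent.Run7.h969.HP.Stab
import Pool.Agent.Run7.h969.GD.Tgt2
import Pool.Agent.Run7.h782.GS.Step1
import Pool.Agent.Run7.h969.GG.Ef

/-!
Coefficients of a smooth path of fields.
-/

set_option autoImplicit false

open MeasureTheory Set Filter Topology
open scoped ContDiff ComplexConjugate NNReal

namespace Pool.Agent.Run7.h969.HP

open H459R3.NS Pool.Agent.Run7.h782.GD Pool.Agent.Run7.h782.GS

/-! ### Real valued functions -/

theorem fr_cont {f : ℝ → V → ℝ} (hf : Continuous fun z : ℝ × V => f z.1 z.2) (k : K3) :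
    Continuous fun s => fr (f s) k := by
  rw [continuous_iff_continuousAt]
  intro t
  have h0 : Continuous fun z : ℝ × V => f (z.1 + (t - 1)) z.2 :=
    hf.comp (by fun_prop : Continuous fun z : ℝ × V => (z.1 + (t - 1), z.2))
  have h := GD.fr_continuousOn (T := 2) (f := fun s => f (s + (t - 1))) h0.continuousOn k
  have h1 : ContinuousAt (fun s => fr (f (s + (t - 1))) k) (t - (t - 1)) := by
    have e : t - (t - 1) = 1 := by ring
    rw [e]
    exact h.continuousAt (Ico_mem_nhds (by norm_num) (by norm_num))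
  have h2 : ContinuousAt (fun s : ℝ => s - (t - 1)) t := by fun_prop
  have h3 := ContinuousAt.comp (f := fun s : ℝ => s - (t - 1))
    (g := fun s => fr (f (s + (t - 1))) k) h1 h2
  have e2 : ((fun s => fr (f (s + (t - 1))) k) ∘ fun s : ℝ => s - (t - 1))
      = fun s => fr (f s) k := by
    funext s
    simp only [Function.comp_apply, sub_add_cancel]
  rwa [e2] at h3

theorem fr_deriv {f : ℝ → V → ℝ} (hf : ContDiff ℝ ∞ fun z : ℝ × V => f z.1 z.2) (k : K3) (t : ℝ) :
    HasDerivAt (fun s => fr (f s) k) (fr (dt f t) k) t := by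
  have h0 : ContDiff ℝ ∞ fun z : ℝ × V => f (z.1 + (t - 1)) z.2 :=
    hf.comp (by fun_prop : ContDiff ℝ ∞ fun z : ℝ × V => (z.1 + (t - 1), z.2))
  have h := GD.fr_hasDerivAt (T := 2) (f := fun s => f (s + (t - 1))) h0.contDiffOn k
    (t := t - (t - 1)) (by
      have e : t - (t - 1) = 1 := by ring
      rw [e]
      constructor <;> norm_num)
  have h1 := h.comp_sub_const t (t - 1)
  have e1 : dt (fun s => f (s + (t - 1))) (t - (t - 1)) = dt f t := by
    funext x
    rw [dt, dt, deriv_comp_add_const (fun s => f s x) (t - 1), sub_add_cancel]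
  rw [e1] at h1
  simpa only [sub_add_cancel] using h1

theorem aux {f : ℝ → V → ℝ} (hf : ContDiff ℝ ∞ fun z : ℝ × V => f z.1 z.2) (z : ℝ × V) :
    dt f z.1 z.2 = fderiv ℝ (fun z : ℝ × V => f z.1 z.2) z ((1 : ℝ), (0 : V)) := by
  obtain ⟨t, x⟩ := z
  have h2 : HasFDerivAt (fun z : ℝ × V => f z.1 z.2)
      (fderiv ℝ (fun z : ℝ × V => f z.1 z.2) (t, x)) (t, x) :=
    (hf.differentiable (by norm_cast)).differentiableAt.hasFDerivAt
  have h3 : HasDerivAt (fun s : ℝ => (s, x)) ((1 : ℝ), (0 : V)) t :=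
    (hasDerivAt_id t).prodMk (hasDerivAt_const t x)
  have h4 := h2.comp_hasDerivAt t h3
  exact h4.deriv

/-- The time derivative is smooth. -/
theorem dt_contDiff {f : ℝ → V → ℝ} (hf : ContDiff ℝ ∞ fun z : ℝ × V => f z.1 z.2) :
    ContDiff ℝ ∞ fun z : ℝ × V => dt f z.1 z.2 := by
  have h1 : ContDiff ℝ ∞ fun z : ℝ × V =>
      fderiv ℝ (fun z : ℝ × V => f z.1 z.2) z ((1 : ℝ), (0 : V)) :=
    (hf.fderiv_right (m := ∞) (by norm_cast)).clm_apply contDiff_const
  have e : (fun z : ℝ × V => dt f z.1 z.2) = fun z : ℝ × V =>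
      fderiv ℝ (fun z : ℝ × V => f z.1 z.2) z ((1 : ℝ), (0 : V)) := by
    funext z
    exact aux hf z
  rw [e]
  exact h1

/-! ### Paths -/

variable {w : ℝ → V → V}

/-- The coefficients of the path. -/
noncomputable def wc (w : ℝ → V → V) (t : ℝ) : Cf := vf (w t)

/-- The coefficients of its time derivative. -/
noncomputable def wd (w : ℝ → V → V) (t : ℝ) : Cf :=
  vf (fun x i => dt (fun s y => w s y i) t x)

theorem Path.comp (hw : Path w) (i : Fin 3) : ContDiff ℝ ∞ fun z : ℝ × V => w z.1 z.2 i :=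
  contDiff_pi.1 hw.smooth i

theorem Path.sp (hw : Path w) (t : ℝ) (i : Fin 3) : SP fun x => w t x i where
  smooth := (hw.comp i).comp (by fun_prop : ContDiff ℝ ∞ fun x : V => (t, x))
  per := fun j x => by
    show w t (x + Pi.single j 1) i = w t x i
    rw [hw.per t j x]

theorem wc_der (hw : Path w) (k : K3) (t : ℝ) : HasDerivAt (fun s => wc w s k) (wd w t k) t := by
  rw [hasDerivAt_pi]
  intro i
  exact fr_deriv (f := fun s y => w s y i) (hw.comp i) k t

theorem wc_cont (hw : Path w) (k : K3) : Continuous fun t => wc w t k :=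
  continuous_iff_continuousAt.2 fun t => (wc_der hw k t).continuousAt

theorem wd_cont (hw : Path w) (k : K3) : Continuous fun t => wd w t k := by
  rw [continuous_pi_iff]
  intro i
  exact fr_cont (f := fun t x => dt (fun s y => w s y i) t x) (dt_contDiff (hw.comp i)).continuous k

theorem wc_herm (w : ℝ → V → V) (t : ℝ) : Herm (wc w t) := GD.herm_vf _

theorem wd_herm (w : ℝ → V → V) (t : ℝ) : Herm (wd w t) := GD.herm_vf _

theorem wc_dv (hw : Path w) (t : ℝ) : Dv (wc w t) := fun k =>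
  fr_div (v := fun i y => w t y i) (fun i => hw.sp t i) (hw.divfree t) k

theorem wd_dv (hw : Path w) (t : ℝ) : Dv (wd w t) := by
  intro k
  have h1 : HasDerivAt (fun s => kd k (wc w s k)) (kd k (wd w t k)) t := by
    have h2 := hasDerivAt_pi.1 (wc_der hw k t)
    exact HasDerivAt.fun_sum fun j _ => (h2 j).const_mul _
  have h3 : (fun s => kd k (wc w s k)) = fun _ => 0 := funext fun s => wc_dv hw s k
  rw [h3] at h1
  exact h1.unique (hasDerivAt_const t 0)

theorem wc_zero (hw : Path w) (t : ℝ) : wc w t 0 = 0 := by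
  funext i
  show fr (fun x => w t x i) 0 = 0
  unfold fr fc
  have e : ∀ x, ee (-(0 : K3)) x * ((w t x i : ℝ) : ℂ) = ((w t x i : ℝ) : ℂ) := fun x => by
    rw [neg_zero, ee_zero, one_mul]
  simp_rw [e]
  rw [integral_complex_ofReal, hw.mean t i, Complex.ofReal_zero]

theorem wc_maj (hw : Path w) : Maj (wc w) := by
  intro n T
  choose C hC0 hC using fun i : Fin 3 => GD.maj_fr (f := fun t y => w t y i) (lt_add_one T)
    (hw.comp i).contDiffOn (fun t _ => hw.sp t i) n
  refine ⟨fun k => (∑ i, C i) * GD.sw k, summable_K3.mul_left _, fun t ht k => ?_⟩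
  have hsum : ∀ i, C i ≤ ∑ i, C i := fun i =>
    Finset.single_le_sum (f := C) (fun j _ => hC0 j) (Finset.mem_univ i)
  have hw0 : 0 < (1 + len k) ^ n := lt_of_lt_of_le one_pos (one_le_p k n)
  rw [← le_div_iff₀' hw0]
  have h0 : 0 ≤ (∑ i, C i) * GD.sw k / (1 + len k) ^ n :=
    div_nonneg (mul_nonneg (Finset.sum_nonneg fun i _ => hC0 i) (GD.sw_nonneg k)) hw0.le
  rw [pi_norm_le_iff_of_nonneg h0]
  intro i
  rw [le_div_iff₀' hw0]
  exact (hC i t ht k).trans (mul_le_mul_of_nonneg_right (hsum i) (GD.sw_nonneg k))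

end Pool.Agent.Run7.h969.HP
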