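import Pool.Agent.Run7.h969.HP.Tgt1

/-!
Piece TgtF: forced targets near a smooth path, with the force zero for short times.
-/

set_option autoImplicit false

open MeasureTheory Set Filter Topology
open scoped ContDiff ComplexConjugate NNReal

namespace Pool.Agent.Run7.h969.HP

open H459R3.NS Pool.Agent.Run7.h782.GD Pool.Agent.Run7.h782.GS

/-! ### Cutoffs -/

/-- Cutoff: one for `t ≤ 1`, zero for `t ≥ 2`. -/
noncomputable def chi (t : ℝ) : ℝ := Real.smoothTransition (2 - t)

theorem chi_contDiff : ContDiff ℝ ∞ chi :=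
  Real.smoothTransition.contDiff.comp (by fun_prop : ContDiff ℝ ∞ fun t : ℝ => 2 - t)

theorem chi_one {t : ℝ} (h : t ≤ 1) : chi t = 1 :=
  Real.smoothTransition.one_of_one_le (by linarith)

theorem chi_zero {t : ℝ} (h : 2 ≤ t) : chi t = 0 :=
  Real.smoothTransition.zero_of_nonpos (by linarith)

theorem chi_nonneg (t : ℝ) : 0 ≤ chi t := Real.smoothTransition.nonneg _

theorem chi_le_one (t : ℝ) : chi t ≤ 1 := Real.smoothTransition.le_one _

theorem chi_der (t : ℝ) : HasDerivAt chi (deriv chi t) t :=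
  (chi_contDiff.differentiable (by norm_cast)).differentiableAt.hasDerivAt

theorem chi_deriv_cont : Continuous (deriv chi) :=
  chi_contDiff.continuous_deriv (by norm_cast)

theorem chi_deriv_early {t : ℝ} (h : t < 1) : deriv chi t = 0 := by
  have h1 : chi =ᶠ[𝓝 t] fun _ => 1 := by
    filter_upwards [Iio_mem_nhds h] with s hs
    exact chi_one (le_of_lt hs)
  rw [h1.deriv_eq, deriv_const]

theorem chi_deriv_late {t : ℝ} (h : 2 < t) : deriv chi t = 0 := by
  have h1 : chi =ᶠ[𝓝 t] fun _ => 0 := by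
    filter_upwards [Ioi_mem_nhds h] with s hs
    exact chi_zero (le_of_lt hs)
  rw [h1.deriv_eq, deriv_const]

/-- Cutoff: zero for `t ≤ τ`, one for `t ≥ 2 τ`. -/
noncomputable def th (τ t : ℝ) : ℝ := Real.smoothTransition (t / τ - 1)

theorem th_cont (τ : ℝ) : Continuous (th τ) :=
  Real.smoothTransition.continuous.comp (by fun_prop)

theorem th_zero {τ t : ℝ} (hτ : 0 < τ) (h : t ≤ τ) : th τ t = 0 := by
  refine Real.smoothTransition.zero_of_nonpos ?_
  rw [sub_nonpos, div_le_one hτ]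
  exact h

theorem th_one {τ t : ℝ} (hτ : 0 < τ) (h : 2 * τ ≤ t) : th τ t = 1 := by
  refine Real.smoothTransition.one_of_one_le ?_
  have : 2 ≤ t / τ := by rwa [le_div_iff₀ hτ]
  linarith

theorem th_nonneg (τ t : ℝ) : 0 ≤ th τ t := Real.smoothTransition.nonneg _

theorem th_le_one (τ t : ℝ) : th τ t ≤ 1 := Real.smoothTransition.le_one _

/-! ### The approximate solution -/

variable {w : ℝ → V → V}

/-- The frequencies. -/
noncomputable def Bl (L : ℝ) : Finset K3 :=
  (bl L ∪ Finset.image₂ (fun x y => x + y) (bl L) (bl L)).erase 0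

theorem zero_Bl (L : ℝ) : (0 : K3) ∉ Bl L := by
  rw [Bl]
  simp

theorem bl_sub {L : ℝ} {k : K3} (h : k ∉ Bl L) : k ∉ bl L := fun h1 => h (by
  rw [Bl, Finset.mem_erase]
  exact ⟨(mem_bl.1 h1).1, Finset.mem_union_left _ h1⟩)

/-- The path, cut off. -/
noncomputable def va (w : ℝ → V → V) (L s t : ℝ) : Cf := ((chi t : ℝ) : ℂ) • tr L (wc w (s + t))

/-- Its time derivative. -/
noncomputable def vd (w : ℝ → V → V) (L s t : ℝ) : Cf :=
  ((deriv chi t : ℝ) : ℂ) • tr L (wc w (s + t)) + ((chi t : ℝ) : ℂ) • tr L (wd w (s + t))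

/-- The residual. -/
noncomputable def Ga (ν : ℝ) (w : ℝ → V → V) (L s t : ℝ) : Cf :=
  vd w L s t + dis ν (va w L s t) + nl (va w L s t) (va w L s t)

/-- The residual before the time one. -/
noncomputable def G₀ (ν : ℝ) (w : ℝ → V → V) (L r : ℝ) : Cf :=
  tr L (wd w r) + dis ν (tr L (wc w r)) + nl (tr L (wc w r)) (tr L (wc w r))

theorem tr_cont {U : ℝ → Cf} (h : ∀ k, Continuous fun t => U t k) (L : ℝ) (k : K3) :
    Continuous fun t => tr L (U t) k := by
  by_cases hk : k ∈ bl L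
  · simp_rw [tr_mem hk]
    exact h k
  · simp_rw [tr_not hk]
    exact continuous_const

theorem dis_cont {U : ℝ → Cf} (h : ∀ k, Continuous fun t => U t k) (ν : ℝ) (k : K3) :
    Continuous fun t => dis ν (U t) k := (h k).const_smul (lam ν k : ℂ)

theorem va_supp (w : ℝ → V → V) (L s t : ℝ) {k : K3} (hk : k ∉ bl L) : va w L s t k = 0 := by
  rw [va, Pi.smul_apply, tr_not hk, smul_zero]

theorem vd_supp (w : ℝ → V → V) (L s t : ℝ) {k : K3} (hk : k ∉ bl L) : vd w L s t k = 0 := by
  rw [vd, Pi.add_apply, Pi.smul_apply, Pi.smul_apply, tr_not hk, tr_not hk, smul_zero, smul_zero,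
    add_zero]

theorem nl_supp' {L : ℝ} {a : Cf} (ha : ∀ k ∉ bl L, a k = 0) {k : K3} (hk : k ∉ Bl L) :
    nl a a k = 0 := by
  by_cases h0 : k = 0
  · rw [h0, nl_zero_mode]
  · refine nl_supp ha fun h => hk ?_
    rw [Bl, Finset.mem_erase]
    exact ⟨h0, Finset.mem_union_right _ h⟩

theorem Ga_supp (ν : ℝ) (w : ℝ → V → V) (L s t : ℝ) {k : K3} (hk : k ∉ Bl L) :
    Ga ν w L s t k = 0 := by
  rw [Ga, Pi.add_apply, Pi.add_apply, vd_supp w L s t (bl_sub hk), dis,
    va_supp w L s t (bl_sub hk), nl_supp' (fun k hk => va_supp w L s t hk) hk, smul_zero, add_zero,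
    add_zero]

theorem shift_cont {U : ℝ → Cf} (h : ∀ k, Continuous fun t => U t k) (s : ℝ) (k : K3) :
    Continuous fun t => U (s + t) k := (h k).comp (by fun_prop : Continuous fun t : ℝ => s + t)

theorem va_cont (hw : Path w) (L s : ℝ) (k : K3) : Continuous fun t => va w L s t k :=
  Continuous.smul (Complex.continuous_ofReal.comp chi_contDiff.continuous)
    (tr_cont (shift_cont (wc_cont hw) s) L k)

theorem vd_cont (hw : Path w) (L s : ℝ) (k : K3) : Continuous fun t => vd w L s t k :=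
  (Continuous.smul (Complex.continuous_ofReal.comp chi_deriv_cont)
    (tr_cont (shift_cont (wc_cont hw) s) L k)).add
    (Continuous.smul (Complex.continuous_ofReal.comp chi_contDiff.continuous)
    (tr_cont (shift_cont (wd_cont hw) s) L k))

theorem Ga_cont (ν : ℝ) (hw : Path w) (L s : ℝ) (k : K3) : Continuous fun t => Ga ν w L s t k :=
  ((vd_cont hw L s k).add (dis_cont (va_cont hw L s) ν k)).add
    (nl_cont (B := bl L) (fun t _ hk => va_supp w L s t hk) (va_cont hw L s) (va_cont hw L s) k)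

theorem G₀_cont (ν : ℝ) (hw : Path w) (L : ℝ) (k : K3) : Continuous fun t => G₀ ν w L t k :=
  ((tr_cont (wd_cont hw) L k).add (dis_cont (tr_cont (wc_cont hw) L) ν k)).add
    (nl_cont (B := bl L) (fun t _ hk => tr_not hk) (tr_cont (wc_cont hw) L)
      (tr_cont (wc_cont hw) L) k)

theorem Ga_eq (ν : ℝ) (w : ℝ → V → V) (L s : ℝ) {t : ℝ} (ht : t < 1) :
    Ga ν w L s t = G₀ ν w L (s + t) := by
  have e1 : va w L s t = tr L (wc w (s + t)) := by
    rw [va, chi_one ht.le, Complex.ofReal_one, one_smul]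
  have e2 : vd w L s t = tr L (wd w (s + t)) := by
    rw [vd, chi_one ht.le, chi_deriv_early ht, Complex.ofReal_one, Complex.ofReal_zero, one_smul,
      zero_smul, zero_add]
  rw [Ga, G₀, e1, e2]

theorem va_late (w : ℝ → V → V) (L s : ℝ) {t : ℝ} (ht : 2 ≤ t) : va w L s t = 0 := by
  rw [va, chi_zero ht, Complex.ofReal_zero, zero_smul]

theorem Ga_late (ν : ℝ) (w : ℝ → V → V) (L s : ℝ) {t : ℝ} (ht : 3 ≤ t) : Ga ν w L s t = 0 := by
  have e2 : vd w L s t = 0 := by
    rw [vd, chi_zero (by linarith), chi_deriv_late (by linarith), Complex.ofReal_zero, zero_smul,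
      zero_smul, zero_add]
  rw [Ga, va_late w L s (by linarith), e2, nl_zero_left, add_zero, zero_add]
  funext k
  simp [dis]

theorem va_herm (w : ℝ → V → V) (L s t : ℝ) : Herm (va w L s t) :=
  (herm_tr (wc_herm w _) L).smul _

theorem va_dv (hw : Path w) (L s t : ℝ) : Dv (va w L s t) := (dv_tr (wc_dv hw _) L).smul _

theorem Ga_herm (ν : ℝ) (w : ℝ → V → V) (L s t : ℝ) : Herm (Ga ν w L s t) :=
  ((((herm_tr (wc_herm w _) L).smul _).add ((herm_tr (wd_herm w _) L).smul _)).add
    ((va_herm w L s t).dis ν)).add (herm_nl (va_herm w L s t) (va_herm w L s t))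

theorem Ga_dv (ν : ℝ) (hw : Path w) (L s t : ℝ) : Dv (Ga ν w L s t) :=
  ((((dv_tr (wc_dv hw _) L).smul _).add ((dv_tr (wd_dv hw _) L).smul _)).add
    ((va_dv hw L s t).dis ν)).add (dv_nl _ _)

theorem tr_der {U U' : ℝ → Cf} {t : ℝ} (h : ∀ k, HasDerivAt (fun s => U s k) (U' t k) t) (L : ℝ)
    (k : K3) : HasDerivAt (fun s => tr L (U s) k) (tr L (U' t) k) t := by
  by_cases hk : k ∈ bl L
  · simp_rw [tr_mem hk]
    exact h k
  · simp_rw [tr_not hk]
    exact hasDerivAt_const t 0

theorem va_der (hw : Path w) (L s t : ℝ) (k : K3) :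
    HasDerivAt (fun r => va w L s r k) (vd w L s t k) t := by
  have h1 : HasDerivAt (fun r => tr L (wc w (s + r)) k) (tr L (wd w (s + t)) k) t :=
    tr_der (U := fun r => wc w (s + r)) (U' := fun r => wd w (s + r))
      (fun k => by
        have := (wc_der hw k (s + t)).comp_const_add s t
        exact this) L k
  have h2 : HasDerivAt (fun r => ((chi r : ℝ) : ℂ)) ((deriv chi t : ℝ) : ℂ) t :=
    (chi_der t).ofReal_comp
  have h3 := h2.smul h1
  refine h3.congr_deriv ?_
  rw [vd, Pi.add_apply, Pi.smul_apply, Pi.smul_apply]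
  exact add_comm _ _

/-- Integrals of continuous functions which vanish for late times. -/
theorem int_late {g : ℝ → ℝ} (hg : ContinuousOn g (Ici 0)) {b M : ℝ} (hb : 0 ≤ b) (hM : 0 ≤ M)
    (h1 : ∀ t ∈ Icc 0 b, g t ≤ M) (h2 : ∀ t, b ≤ t → g t = 0) {T : ℝ} (hT : 0 ≤ T) :
    ∫ t in (0 : ℝ)..T, g t ≤ b * M := by
  have key : ∀ x, 0 ≤ x → x ≤ b → ∫ t in (0 : ℝ)..x, g t ≤ b * M := fun x hx hxb => by
    have h3 : ∫ t in (0 : ℝ)..x, g t ≤ ∫ _ in (0 : ℝ)..x, M :=
      intervalIntegral.integral_mono_on hx (ii hg le_rfl hx) intervalIntegrable_const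
        fun t ht => h1 t ⟨ht.1, ht.2.trans hxb⟩
    rw [intervalIntegral.integral_const, smul_eq_mul, sub_zero] at h3
    exact h3.trans (mul_le_mul_of_nonneg_right hxb hM)
  rcases le_total T b with h | h
  · exact key T hT h
  · have h3 := intervalIntegral.integral_add_adjacent_intervals (ii hg le_rfl hb) (ii hg hb h)
    have h4 : ∫ t in b..T, g t = 0 := by
      rw [intervalIntegral.integral_congr (g := fun _ => (0 : ℝ)) fun t ht => ?_]
      · simp
      · rw [uIcc_of_le h] at ht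
        exact h2 t ht.1
    have h5 := key b hb le_rfl
    linarith

end Pool.Agent.Run7.h969.HP
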