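import Pool.Agent.Run7.h969.HP.Defs4
import Pool.Agent.Run7.h811.HP.LocF
import Pool.Agent.Run7.h811.HP.Boost
import Pool.Agent.Run7.h219.HP.Ind

/-!
The norms in `L² L^(2 q)` of one step are small (a part of LocU).
-/

set_option autoImplicit false

open MeasureTheory Set Filter Topology
open scoped ContDiff ENNReal ComplexConjugate

namespace Pool.Agent.Run7.h969.HP

open H459R3.NS Pool.Agent.Run7 Pool.Agent.Run7.h782.GD Pool.Agent.Run7.h782.GS
open Pool.Agent.Run7.h782.WS Pool.Agent.Run7.h744.GS Pool.Agent.Run7.h744.WS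
open Pool.Agent.Run7.h969.WS Pool.Agent.Run7.h811.WS Pool.Agent.Run7.h782.WQ Pool.Agent.Run7.h811.WQ
open Pool.Agent.Run7.h811.HP

/-- Paths are bounded. -/
theorem path_bd {m : V} {w : ℝ → V → V} (hw : PathM m w) (T : ℝ) :
    ∃ W : ℝ, 0 ≤ W ∧ ∀ r ∈ Icc 0 T, ∀ x i, |w r x i| ≤ W := by
  obtain ⟨M, hM⟩ := ((isCompact_Icc (a := (0 : ℝ)) (b := T)).prod
    (show IsCompact cube from isCompact_Icc)).exists_bound_of_continuousOn hw.smooth.continuous.continuousOn
  refine ⟨|M|, abs_nonneg _, fun r hr x i => ?_⟩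
  rw [h219.HP.per_fract (hw.per r) x]
  exact ((norm_le_pi_norm (w r fun i => Int.fract (x i)) i).trans
    (hM (r, _) ⟨hr, h219.HP.fract_mem x⟩)).trans (le_abs_self M)

/-- The norm in `L^(2 q)` of a field near a bounded one. -/
theorem lqU {q : ℝ} (hq : 1 ≤ q) {v : V → V} {e : Cf} (he : L1 e) {a : V} {M : ℝ} (hM : 0 ≤ M)
    (h : ∀ x i, |v x i| ≤ M + fn e (x - a)) :
    (∫⁻ x in cube, ENNReal.ofReal (∑ i, |v x i| ^ (2 * q))) ^ (2 / (2 * q))
      ≤ ENNReal.ofReal (12 * M ^ 2 + 12 * fp (2 * q) e ^ (1 / q)) := by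
  have hq0 : 0 < q := by linarith
  have hei : ∀ i, Summable fun k => e k i := fun i =>
    Summable.of_norm (Summable.of_nonneg_of_le (fun _ => norm_nonneg _)
      (fun k => norm_le_pi_norm (e k) i) he)
  have hfc : Continuous fun x => fn e x := by
    unfold fn
    exact continuous_finsetSum _ fun i _ => (S_continuous (hei i)).norm
  have hf0 : ∀ x, 0 ≤ fn e x := fun x => Finset.sum_nonneg fun _ _ => norm_nonneg _
  have hfp : ∀ x, 0 ≤ fn e x ^ (2 * q) := fun x => Real.rpow_nonneg (hf0 x) _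
  have hfpc : Continuous fun x => fn e x ^ (2 * q) :=
    hfc.rpow_const fun x => Or.inr (by positivity)
  have hper : Per fun x => fn e x ^ (2 * q) := by
    intro j x
    have : fn e (x + Pi.single j 1) = fn e x := by
      unfold fn
      refine Finset.sum_congr rfl fun i _ => ?_
      rw [h32.GD.per_S (fun k => e k i) j x]
    simp only [this]
  have hsh := int_shiftE hper (-a)
  have hfp0 : 0 ≤ fp (2 * q) e := integral_nonneg fun x => hfp x
  -- the bound at a point
  have hpt : ∀ x, ∑ i, |v x i| ^ (2 * q)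
      ≤ 3 * 2 ^ (2 * q) * (M ^ (2 * q) + fn e (x + -a) ^ (2 * q)) := by
    intro x
    rw [← sub_eq_add_neg]
    have h1 : ∀ i, |v x i| ^ (2 * q)
        ≤ 2 ^ (2 * q) * (M ^ (2 * q) + fn e (x - a) ^ (2 * q)) := by
      intro i
      have h2 : |v x i| ^ (2 * q) ≤ (M + fn e (x - a)) ^ (2 * q) :=
        Real.rpow_le_rpow (abs_nonneg _) (h x i) (by positivity)
      refine h2.trans ?_
      have h3 := hf0 (x - a)
      rcases le_total M (fn e (x - a)) with h4 | h4
      · calc (M + fn e (x - a)) ^ (2 * q) ≤ (2 * fn e (x - a)) ^ (2 * q) :=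
              Real.rpow_le_rpow (by positivity) (by linarith) (by positivity)
          _ = 2 ^ (2 * q) * fn e (x - a) ^ (2 * q) := Real.mul_rpow (by norm_num) h3
          _ ≤ _ := by
            refine mul_le_mul_of_nonneg_left ?_ (by positivity)
            have := Real.rpow_nonneg hM (2 * q)
            linarith
      · calc (M + fn e (x - a)) ^ (2 * q) ≤ (2 * M) ^ (2 * q) :=
              Real.rpow_le_rpow (by positivity) (by linarith) (by positivity)
          _ = 2 ^ (2 * q) * M ^ (2 * q) := Real.mul_rpow (by norm_num) hM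
          _ ≤ _ := by
            refine mul_le_mul_of_nonneg_left ?_ (by positivity)
            have := Real.rpow_nonneg h3 (2 * q)
            linarith
    calc ∑ i, |v x i| ^ (2 * q)
        ≤ ∑ _i : Fin 3, 2 ^ (2 * q) * (M ^ (2 * q) + fn e (x - a) ^ (2 * q)) :=
          Finset.sum_le_sum fun i _ => h1 i
      _ = _ := by
        rw [Finset.sum_const, Finset.card_univ, Fintype.card_fin, nsmul_eq_mul]
        push_cast
        ring
  have hint : IntegrableOn (fun x => 3 * 2 ^ (2 * q) * (M ^ (2 * q) + fn e (x + -a) ^ (2 * q)))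
      cube := integrableOn_cube
    (continuous_const.mul (continuous_const.add (hfpc.comp (continuous_id.add continuous_const))))
  have hint2 : IntegrableOn (fun x => fn e (x + -a) ^ (2 * q)) cube :=
    integrableOn_cube (hfpc.comp (continuous_id.add continuous_const))
  have hfin := cube_finite
  have hI : ∫ x in cube, 3 * 2 ^ (2 * q) * (M ^ (2 * q) + fn e (x + -a) ^ (2 * q))
      = 3 * 2 ^ (2 * q) * (M ^ (2 * q) + fp (2 * q) e) := by
    rw [integral_const_mul, integral_add (integrable_const _) hint2, hsh]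
    simp only [integral_const, measureReal_restrict_apply_univ, smul_eq_mul]
    rw [Measure.real, volume_cube]
    simp [fp]
  have h1 : ∫⁻ x in cube, ENNReal.ofReal (∑ i, |v x i| ^ (2 * q))
      ≤ ENNReal.ofReal (3 * 2 ^ (2 * q) * (M ^ (2 * q) + fp (2 * q) e)) := by
    rw [← hI, ofReal_integral_eq_lintegral_ofReal hint (Eventually.of_forall fun x => by
      have := hfp (x + -a)
      have := Real.rpow_nonneg hM (2 * q)
      positivity)]
    exact lintegral_mono fun x => ENNReal.ofReal_le_ofReal (hpt x)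
  refine (ENNReal.rpow_le_rpow h1 (by positivity)).trans ?_
  have hM2 : 0 ≤ M ^ (2 * q) := Real.rpow_nonneg hM _
  rw [ENNReal.ofReal_rpow_of_nonneg (by positivity) (by positivity)]
  refine ENNReal.ofReal_le_ofReal ?_
  have e1 : 2 / (2 * q) = 1 / q := by field_simp
  rw [e1, Real.mul_rpow (by positivity) (by positivity)]
  have h2 : (3 * 2 ^ (2 * q) : ℝ) ^ (1 / q) ≤ 12 := by
    rw [Real.mul_rpow (by norm_num) (by positivity), ← Real.rpow_mul (by norm_num)]
    have e2 : 2 * q * (1 / q) = 2 := by field_simp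
    rw [e2]
    have h3 : (3 : ℝ) ^ (1 / q) ≤ 3 := by
      calc (3 : ℝ) ^ (1 / q) ≤ 3 ^ (1 : ℝ) :=
            Real.rpow_le_rpow_of_exponent_le (by norm_num) (by
              rw [div_le_one hq0]
              exact hq)
        _ = 3 := Real.rpow_one 3
    have h4 : (2 : ℝ) ^ (2 : ℝ) = 4 := by norm_num
    rw [h4]
    linarith
  have h3 : (M ^ (2 * q) + fp (2 * q) e) ^ (1 / q) ≤ M ^ 2 + fp (2 * q) e ^ (1 / q) := by
    have h4 := Real.rpow_add_le_add_rpow hM2 hfp0 (p := 1 / q) (by positivity) (by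
      rw [div_le_one hq0]
      exact hq)
    have e3 : (M ^ (2 * q)) ^ (1 / q) = M ^ 2 := by
      rw [← Real.rpow_mul hM]
      have e2 : 2 * q * (1 / q) = 2 := by field_simp
      rw [e2]
      norm_num
    rwa [e3] at h4
  have h5 : 0 ≤ fp (2 * q) e ^ (1 / q) := Real.rpow_nonneg hfp0 _
  calc (3 * 2 ^ (2 * q) : ℝ) ^ (1 / q) * (M ^ (2 * q) + fp (2 * q) e) ^ (1 / q)
      ≤ 12 * (M ^ 2 + fp (2 * q) e ^ (1 / q)) :=
        mul_le_mul h2 h3 (Real.rpow_nonneg (by positivity) _) (by norm_num)
    _ = _ := by ring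

theorem thU {m : V} {w : ℝ → V → V} (hw : PathM m w) (T : ℝ) {ε θ : ℝ} (hε : 0 < ε) (hθ : 0 < θ) :
    ∃ τ₁ : ℝ, 0 < τ₁ ∧ τ₁ ≤ 1 ∧ ∀ τ, 0 < τ → τ < τ₁ → ∀ s ∈ Icc 0 T, ∀ b U : ℝ → Cf,
      (∀ t, 0 < t → L1 (b t)) → (∀ t, 0 < t → L1 (U t)) →
      (∀ t ∈ Ioc 0 τ, ∀ A : Finset K3,
        ∑ k ∈ A, ‖U t k - vf ((fun r y => w r (y + r • m) - m) (s + t)) k‖ ≤ ε) →
      ∀ q : ℝ, 1 ≤ q → ∫⁻ t in Ioc (0 : ℝ) 1, ENNReal.ofReal (fp (2 * q) (b t - U t) ^ (1 / q))
        ≤ ENNReal.ofReal (θ / 24) →
      ∫⁻ t in Ioo 0 τ, (∫⁻ x in cube, ENNReal.ofReal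
        (∑ j, |(m + fld b t (x - (s + t) • m)) j| ^ (2 * q))) ^ (2 / (2 * q))
        ≤ ENNReal.ofReal θ := by
  obtain ⟨W, hW0, hW⟩ := path_bd hw (T + 1)
  set M : ℝ := W + ε with hM
  have hM0 : 0 ≤ M := by positivity
  refine ⟨min 1 (θ / (24 * (M ^ 2 + 1))), lt_min one_pos (by positivity), min_le_left _ _, ?_⟩
  intro τ hτ hτ1 s hs b U hb hU hcl q hq hth
  have hτ1' : τ < 1 := hτ1.trans_le (min_le_left _ _)
  have hτ2 : τ < θ / (24 * (M ^ 2 + 1)) := hτ1.trans_le (min_le_right _ _)
  have hw' := path_of hw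
  have hpt : ∀ t ∈ Ioc 0 τ, ∀ x i, |(m + fld b t (x - (s + t) • m)) i|
      ≤ M + fn (b t - U t) (x - (s + t) • m) := by
    intro t ht x i
    have ht0 : 0 < t := ht.1
    have hbi : ∀ c : Cf, L1 c → ∀ i, Summable fun k => c k i := fun c hc i =>
      Summable.of_norm (Summable.of_nonneg_of_le (fun _ => norm_nonneg _)
        (fun k => norm_le_pi_norm (c k) i) hc)
    set y : V := x - (s + t) • m with hy
    set w' : ℝ → V → V := fun r y => w r (y + r • m) - m with hw'd
    have hwy : w (s + t) x i = m i + w' (s + t) y i := by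
      have e : y + (s + t) • m = x := by
        rw [hy]
        abel
      show w (s + t) x i = m i + (w (s + t) (y + (s + t) • m) i - m i)
      rw [e]
      ring
    have hsp : SP (fun z => w' (s + t) z i) := by
      refine ⟨?_, fun j z => by rw [hw'.per (s + t) j z]⟩
      have h3 := hw'.smooth.comp (contDiff_const.prodMk contDiff_id : ContDiff ℝ ∞
        fun z : V => ((s + t, z) : ℝ × V))
      exact contDiff_pi.1 h3 i
    have hfrw : Summable (fr (fun z => w' (s + t) z i)) := (rap_fr hsp).summable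
    have hre : w' (s + t) y i = (S (fr (fun z => w' (s + t) z i)) y).re := by
      rw [S_fr hsp, Complex.ofReal_re]
    have hbs := hbi _ (hb t ht0) i
    have hUs := hbi _ (hU t ht0) i
    have e1 : (m + fld b t y) i = w (s + t) x i
        + (S (fun k => U t k i - fr (fun z => w' (s + t) z i) k) y).re
        + (S (fun k => (b t - U t) k i) y).re := by
      rw [hwy, hre, Pi.add_apply]
      have e2 : S (fun k => U t k i - fr (fun z => w' (s + t) z i) k) y
          = S (fun k => U t k i) y - S (fr (fun z => w' (s + t) z i)) y := by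
        unfold S
        rw [← (summable_term hUs y).tsum_sub (summable_term hfrw y)]
        exact tsum_congr fun k => by ring
      have e3 : S (fun k => (b t - U t) k i) y = S (fun k => b t k i) y - S (fun k => U t k i) y := by
        unfold S
        rw [← (summable_term hbs y).tsum_sub (summable_term hUs y)]
        exact tsum_congr fun k => by
          show (b t k i - U t k i) * _ = _
          ring
      rw [e2, e3, Complex.sub_re, Complex.sub_re]
      show m i + (S (fun k => b t k i) y).re = _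
      ring
    rw [e1]
    have hsd : Summable fun k => U t k i - fr (fun z => w' (s + t) z i) k := hUs.sub hfrw
    have h1 : |(S (fun k => U t k i - fr (fun z => w' (s + t) z i) k) y).re| ≤ ε := by
      refine (Complex.abs_re_le_norm _).trans ((norm_S_le hsd _).trans ?_)
      refine Real.tsum_le_of_sum_le (fun _ => norm_nonneg _) fun A => ?_
      refine (Finset.sum_le_sum fun k _ => ?_).trans (hcl t ht A)
      exact norm_le_pi_norm (U t k - vf (w' (s + t)) k) i
    have h2 : |(S (fun k => (b t - U t) k i) y).re| ≤ fn (b t - U t) y := by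
      refine (Complex.abs_re_le_norm _).trans ?_
      unfold fn
      exact Finset.single_le_sum (f := fun i => ‖S (fun k => (b t - U t) k i) y‖)
        (fun _ _ => norm_nonneg _) (Finset.mem_univ i)
    have h3 : |w (s + t) x i| ≤ W :=
      hW (s + t) ⟨by linarith [hs.1], by linarith [hs.2, ht.2]⟩ x i
    calc |w (s + t) x i + (S (fun k => U t k i - fr (fun z => w' (s + t) z i) k) y).re
          + (S (fun k => (b t - U t) k i) y).re|
        ≤ |w (s + t) x i| + |(S (fun k => U t k i - fr (fun z => w' (s + t) z i) k) y).re|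
          + |(S (fun k => (b t - U t) k i) y).re| :=
          (abs_add_le _ _).trans (add_le_add_left (abs_add_le _ _) _)
      _ ≤ _ := by
        rw [hM]
        linarith
  have hL : ∀ t, 0 < t → L1 (b t - U t) := fun t ht =>
    Summable.of_nonneg_of_le (fun _ => norm_nonneg _) (fun k => norm_sub_le _ _)
      (Summable.add (hb t ht) (hU t ht))
  have h1 : ∫⁻ t in Ioo 0 τ, (∫⁻ x in cube, ENNReal.ofReal
      (∑ j, |(m + fld b t (x - (s + t) • m)) j| ^ (2 * q))) ^ (2 / (2 * q))
      ≤ ∫⁻ t in Ioo 0 τ, (ENNReal.ofReal (12 * M ^ 2)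
        + 12 * ENNReal.ofReal (fp (2 * q) (b t - U t) ^ (1 / q))) := by
    refine setLIntegral_mono' measurableSet_Ioo fun t ht => ?_
    have h2 := lqU hq (hL t ht.1) (a := (s + t) • m) hM0
      (v := fun x => m + fld b t (x - (s + t) • m)) (hpt t ⟨ht.1, ht.2.le⟩)
    refine h2.trans ?_
    have h3 : 0 ≤ fp (2 * q) (b t - U t) ^ (1 / q) :=
      Real.rpow_nonneg (integral_nonneg fun x => Real.rpow_nonneg
        (Finset.sum_nonneg fun _ _ => norm_nonneg _) _) _
    rw [ENNReal.ofReal_add (by positivity) (by positivity),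
      ENNReal.ofReal_mul (p := 12) (q := fp (2 * q) (b t - U t) ^ (1 / q)) (by norm_num)]
    simp
  refine h1.trans ?_
  rw [lintegral_add_left measurable_const, setLIntegral_const, Real.volume_Ioo, sub_zero]
  have h4 : ∫⁻ t in Ioo 0 τ, 12 * ENNReal.ofReal (fp (2 * q) (b t - U t) ^ (1 / q))
      ≤ ENNReal.ofReal (θ / 2) := by
    rw [lintegral_const_mul' _ _ (by norm_num)]
    calc 12 * ∫⁻ t in Ioo 0 τ, ENNReal.ofReal (fp (2 * q) (b t - U t) ^ (1 / q))
        ≤ 12 * ENNReal.ofReal (θ / 24) := by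
          refine mul_le_mul_right ((lintegral_mono_set fun t ht => ?_).trans hth) _
          exact ⟨ht.1, ht.2.le.trans hτ1'.le⟩
      _ = ENNReal.ofReal (θ / 2) := by
        have : (12 : ℝ≥0∞) = ENNReal.ofReal 12 := by simp
        rw [this, ← ENNReal.ofReal_mul (by norm_num)]
        congr 1
        ring
  have h5 : ENNReal.ofReal (12 * M ^ 2) * ENNReal.ofReal τ ≤ ENNReal.ofReal (θ / 2) := by
    rw [← ENNReal.ofReal_mul (by positivity)]
    refine ENNReal.ofReal_le_ofReal ?_
    rw [lt_div_iff₀ (by positivity)] at hτ2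
    nlinarith [sq_nonneg M]
  calc _ ≤ ENNReal.ofReal (θ / 2) + ENNReal.ofReal (θ / 2) := add_le_add h5 h4
    _ = ENNReal.ofReal θ := by
      rw [← ENNReal.ofReal_add (by positivity) (by positivity)]
      congr 1
      ring

end Pool.Agent.Run7.h969.HP
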